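import Pool.Agent.Lib.MP_33650d_pr.Defs

namespace Pool.Agent.Lib.MP_33650d_pr
open MeasureTheory ProbabilityTheory

lemma br_point {c s c0 a m z np nm : ℝ}
    (h1 : ∀ w : ℝ, 0 ≤ w → c * Real.cos (w ^ 2) + s * Real.sin (w ^ 2)
      ≤ c0 + a * w ^ 2 + m * w ^ 4 + z * w ^ 5 + np * w ^ 6)
    (h2 : ∀ w : ℝ, 0 ≤ w → c * Real.cos (w ^ 2) - s * Real.sin (w ^ 2)
      ≤ c0 - a * w ^ 2 + m * w ^ 4 + z * w ^ 5 + nm * w ^ 6) (x : ℝ) :
    c * Real.cos x + s * Real.sin x ≤ c0 + a * x + m * x ^ 2 + z * (x ^ 2 * √|x|) +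
      np * max x 0 ^ 3 + nm * max (-x) 0 ^ 3 := by
  have e2 : √|x| ^ 2 = |x| := Real.sq_sqrt (abs_nonneg x)
  have e4 : √|x| ^ 4 = x ^ 2 := by rw [show 4 = 2 * 2 by rfl, pow_mul, e2, sq_abs]
  have e5 : √|x| ^ 5 = x ^ 2 * √|x| := by rw [pow_succ, e4]
  have e6 : √|x| ^ 6 = |x| ^ 3 := by rw [show 6 = 2 * 3 by rfl, pow_mul, e2]
  have a1 := h1 _ (Real.sqrt_nonneg |x|)
  have a2 := h2 _ (Real.sqrt_nonneg |x|)
  rw [e2, e4, e5, e6] at a1 a2
  generalize √|x| = r at *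
  rcases le_total 0 x with h | h
  · rw [abs_of_nonneg h] at a1
    rw [max_eq_left h, max_eq_right (neg_nonpos.2 h)]
    linarith
  · rw [abs_of_nonpos h, Real.cos_neg, Real.sin_neg] at a2
    rw [max_eq_right h, max_eq_left (neg_nonneg.2 h)]
    linarith

section aux

variable {Ω : Type} [MeasurableSpace Ω] {P : Measure Ω} [IsProbabilityMeasure P]

lemma br_int {Z : Ω → ℝ} (hm : Measurable Z) (h3 : MemLp Z 3 P) {f : ℝ → ℝ} (hf : Continuous f)
    (hb : ∀ x, |f x| ≤ 1 + |x| ^ 3) : Integrable (fun ω => f (Z ω)) P := by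
  have h : Integrable (fun ω => ‖Z ω‖ ^ 3) P :=
    MemLp.integrable_norm_pow' (p := 3) (by exact_mod_cast h3)
  exact ((integrable_const 1).add h).mono' (hf.measurable.comp hm).aestronglyMeasurable
    (Filter.Eventually.of_forall fun ω => hb _)

lemma br_pow_le (r : ℝ) (hr : 0 ≤ r) {j : ℕ} (hj : j ≤ 6) : r ^ j ≤ 1 + r ^ 6 := by
  rcases le_total r 1 with h | h
  · have := pow_le_one₀ (n := j) hr h
    have : 0 ≤ r ^ 6 := by positivity
    linarith
  · have := pow_le_pow_right₀ h hj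
    linarith

lemma br_sq {Z : Ω → ℝ} (hm : Measurable Z) (h3 : MemLp Z 3 P) :
    Integrable (fun ω => Z ω ^ 2 * √|Z ω|) P ∧ Integrable (fun ω => max (Z ω) 0 ^ 3) P ∧
      Integrable (fun ω => max (-Z ω) 0 ^ 3) P ∧ Integrable (fun ω => Real.cos (Z ω)) P ∧
      Integrable (fun ω => Real.sin (Z ω)) P := by
  have p : ∀ x : ℝ, 0 ≤ |x| ^ 3 := fun x => by positivity
  have q : ∀ x : ℝ, |max x 0 ^ 3| ≤ 1 + |x| ^ 3 := fun x => by
    rw [abs_of_nonneg (by positivity)]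
    have : max x 0 ^ 3 ≤ |x| ^ 3 := by
      gcongr
      exact max_le (le_abs_self x) (abs_nonneg x)
    linarith
  refine ⟨br_int hm h3 (f := fun x => x ^ 2 * √|x|) (by fun_prop) fun x => ?_,
    br_int hm h3 (f := fun x => max x 0 ^ 3) (by fun_prop) q,
    br_int hm h3 (f := fun x => max (-x) 0 ^ 3) (by fun_prop) fun x => abs_neg x ▸ q (-x),
    br_int hm h3 Real.continuous_cos fun x => by linarith [Real.abs_cos_le_one x, p x],
    br_int hm h3 Real.continuous_sin fun x => by linarith [Real.abs_sin_le_one x, p x]⟩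
  have e2 : √|x| ^ 2 = |x| := Real.sq_sqrt (abs_nonneg x)
  have := br_pow_le _ (Real.sqrt_nonneg |x|) (j := 5) (by norm_num)
  rw [show 6 = 2 * 3 by rfl, pow_mul, e2, pow_succ, show 4 = 2 * 2 by rfl, pow_mul, e2,
    sq_abs] at this
  rwa [abs_of_nonneg (by positivity)]

/-- the moment data of a random variable -/
noncomputable def brData (P : Measure Ω) (Z : Ω → ℝ) : LD :=
  ⟨∫ ω, Z ω ^ 2 ∂P, ∫ ω, max (Z ω) 0 ^ 3 ∂P, ∫ ω, max (-Z ω) 0 ^ 3 ∂P,
    ∫ ω, Z ω ^ 2 * √|Z ω| ∂P, ∫ ω, Real.cos (Z ω) ∂P, ∫ ω, Real.sin (Z ω) ∂P⟩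

lemma br_lin {Z : Ω → ℝ} (hm : Measurable Z) (h3 : MemLp Z 3 P) (h0 : ∫ ω, Z ω ∂P = 0) :
    (brData P Z).Lin := by
  intro c s c0 a m z np nm h1 h2
  obtain ⟨i1, i2, i3, i4, i5⟩ := br_sq hm h3
  have i6 : Integrable Z P := h3.integrable (by norm_num)
  have i7 : Integrable (fun ω => Z ω ^ 2) P := (h3.mono_exponent (by norm_num)).integrable_sq
  have j1 := (integrable_const c0).fun_add (i6.const_mul a)
  have j2 := j1.fun_add (i7.const_mul m)
  have j3 := j2.fun_add (i1.const_mul z)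
  have j4 := j3.fun_add (i2.const_mul np)
  have key := integral_mono ((i4.const_mul c).fun_add (i5.const_mul s))
    (j4.fun_add (i3.const_mul nm)) fun ω => br_point h1 h2 (Z ω)
  rw [integral_add (i4.const_mul c) (i5.const_mul s), integral_add j4 (i3.const_mul nm),
    integral_add j3 (i2.const_mul np), integral_add j2 (i1.const_mul z),
    integral_add j1 (i7.const_mul m), integral_add (integrable_const c0) (i6.const_mul a)] at key
  simp only [integral_const_mul, h0, integral_const, probReal_univ, smul_eq_mul, one_mul, mul_zero,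
    add_zero] at key
  exact key

lemma br_sumLaw {n : ℕ} {Y : Fin n → Ω → ℝ} (hm : ∀ k, Measurable (Y k)) (hi : iIndepFun Y P)
    (h3 : ∀ k, MemLp (Y k) 3 P) (h0 : ∀ k, ∫ ω, Y k ω ∂P = 0)
    (h1 : ∑ k, ∫ ω, Y k ω ^ 2 ∂P = 1) :
    SumLaw (P.map fun ω => ∑ k, Y k ω) (∑ k, ∫ ω, max (Y k ω) 0 ^ 3 ∂P)
      (∑ k, ∫ ω, max (-Y k ω) 0 ^ 3 ∂P) (∑ k, ∫ ω, Y k ω ^ 2 * √|Y k ω| ∂P) := by
  have m1 : Measurable fun ω => ∑ k, Y k ω := Finset.measurable_fun_sum _ fun k _ => hm k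
  have h2 : ∀ k, MemLp (Y k) 2 P := fun k => (h3 k).mono_exponent (by norm_num)
  have e0 : ∫ ω, ∑ k, Y k ω ∂P = 0 := by
    rw [integral_finsetSum _ fun k _ => (h2 k).integrable (by norm_num)]
    simp [h0]
  refine ⟨Measure.isProbabilityMeasure_map m1.aemeasurable, ?_, ?_, ?_, fun t ht => ?_⟩
  · rw [memLp_map_measure_iff aestronglyMeasurable_id m1.aemeasurable]
    exact memLp_finsetSum Finset.univ fun k _ => h2 k
  · rw [integral_map m1.aemeasurable (by fun_prop), e0]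
  · rw [integral_map m1.aemeasurable (by fun_prop),
      ← variance_of_integral_eq_zero m1.aemeasurable e0, ← h1]
    have := IndepFun.variance_sum (s := Finset.univ) (fun k _ => h2 k)
      fun i _ j _ hij => hi.indepFun hij
    rw [show (fun ω => ∑ k, Y k ω) = ∑ k, Y k from by ext; simp, this]
    exact Finset.sum_congr rfl fun k _ => variance_of_integral_eq_zero (hm k).aemeasurable (h0 k)
  have mx : ∀ x : ℝ, max (t * x) 0 ^ 3 = max x 0 ^ 3 * t ^ 3 := fun x => by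
    rw [← mul_pow, max_mul_of_nonneg _ _ ht.le, zero_mul, mul_comm]
  refine ⟨n, fun k => brData P fun ω => t * Y k ω, fun k => br_lin ((hm k).const_mul t)
    ((h3 k).const_mul t) (by rw [integral_const_mul, h0, mul_zero]), ?_, ?_, ?_, ?_, ?_⟩
  · simp only [brData, mul_pow, integral_const_mul, ← Finset.mul_sum, h1, mul_one]
  · simp only [brData, mx, integral_mul_const, Finset.sum_mul]
  · simp only [brData, ← mul_neg, mx, integral_mul_const, Finset.sum_mul]
  · have : ∀ x : ℝ, (t * x) ^ 2 * √|t * x| = x ^ 2 * √|x| * (t ^ 2 * √t) := fun x => by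
      rw [abs_mul, abs_of_pos ht, Real.sqrt_mul ht.le]
      ring
    simp only [brData, this, integral_mul_const, Finset.sum_mul]
  · rw [hi.charFun_map_fun_sum_eq_prod fun k => (hm k).aemeasurable, Finset.prod_apply]
    refine Finset.prod_congr rfl fun k _ => ?_
    obtain ⟨-, -, -, i4, i5⟩ := br_sq ((hm k).const_mul t) ((h3 k).const_mul t)
    rw [charFun_apply_real, integral_map (hm k).aemeasurable (by fun_prop)]
    simp only [brData]
    rw [← integral_complex_ofReal, ← integral_complex_ofReal, ← integral_mul_const,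
      ← integral_add i4.ofReal (i5.ofReal.mul_const _)]
    refine integral_congr_ae (Filter.Eventually.of_forall fun ω => ?_)
    simp only
    rw [Complex.exp_mul_I]
    push_cast
    rfl

lemma br_upper {C : ℝ} (h : Upper C) {n : ℕ} {X : Fin n → Ω → ℝ} (hn : 0 < n)
    (hm : ∀ k, Measurable (X k)) (hi : iIndepFun X P) (h3 : ∀ k, MemLp (X k) 3 P)
    (h0 : ∀ k, ∫ ω, X k ω ∂P = 0) (h2 : ∀ k, 0 < ∫ ω, X k ω ^ 2 ∂P) (x : ℝ) :
    P.real {ω | (∑ k, X k ω) / √(∑ k, ∫ ω, X k ω ^ 2 ∂P) ≤ x} - Phi x ≤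
      C * ((∑ k, ∫ ω, |X k ω| ^ 3 ∂P) / √(∑ k, ∫ ω, X k ω ^ 2 ∂P) ^ 3) := by
  have : Nonempty (Fin n) := ⟨⟨0, hn⟩⟩
  have v0 : 0 < ∑ k, ∫ ω, X k ω ^ 2 ∂P := Finset.sum_pos (fun k _ => h2 k) Finset.univ_nonempty
  set σ := √(∑ k, ∫ ω, X k ω ^ 2 ∂P) with hσ
  have σ0 : 0 < σ := Real.sqrt_pos.2 v0
  have σ2 : σ ^ 2 = ∑ k, ∫ ω, X k ω ^ 2 ∂P := Real.sq_sqrt v0.le
  have m1 : ∀ k, Measurable fun ω => X k ω / σ := fun k => (hm k).div_const σ
  have l1 : ∀ k, MemLp (fun ω => X k ω / σ) 3 P := fun k => by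
    simpa only [div_eq_mul_inv] using (h3 k).mul_const σ⁻¹
  have key := h _ _ _ _ (br_sumLaw (Y := fun k ω => X k ω / σ) m1
    (hi.comp (fun _ y => y / σ) fun _ => measurable_id.div_const σ) l1
    (fun k => by rw [integral_div, h0, zero_div])
    (by
      simp only [div_pow, integral_div, ← Finset.sum_div, ← σ2]
      exact div_self (by positivity))) x
  rw [map_measureReal_apply (Finset.measurable_fun_sum _ fun k _ => m1 k) measurableSet_Iic,
    ← Finset.sum_add_distrib] at key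
  have e1 : {ω | (∑ k, X k ω) / σ ≤ x} = (fun ω => ∑ k, X k ω / σ) ⁻¹' Set.Iic x := by
    ext ω
    simp [Finset.sum_div]
  rw [e1]
  refine key.trans (le_of_eq (congrArg _ ?_))
  rw [Finset.sum_div]
  refine Finset.sum_congr rfl fun k _ => ?_
  obtain ⟨-, i2, i3, -⟩ := br_sq (m1 k) (l1 k)
  rw [← integral_add i2 i3, ← integral_div]
  refine integral_congr_ae (Filter.Eventually.of_forall fun ω => ?_)
  have e2 : |X k ω| ^ 3 / σ ^ 3 = |X k ω / σ| ^ 3 := by rw [abs_div, abs_of_pos σ0, div_pow]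
  simp only
  rw [e2]
  rcases le_total 0 (X k ω / σ) with h | h
  · rw [abs_of_nonneg h, max_eq_left h, max_eq_right (neg_nonpos.2 h)]
    ring
  · rw [abs_of_nonpos h, max_eq_right h, max_eq_left (neg_nonneg.2 h)]
    ring

end aux

lemma br_Phi_neg (x : ℝ) : Phi (-x) = 1 - Phi x := by
  have := nullSingletonClass_gaussianReal (μ := 0) (v := 1) one_ne_zero
  have h : (gaussianReal 0 1).map (fun x : ℝ => -x) = gaussianReal 0 1 := by
    rw [gaussianReal_map_neg, neg_zero]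
  rw [Phi, Phi, cdf_eq_real, cdf_eq_real, ← probReal_compl_eq_one_sub measurableSet_Iic,
    Set.compl_Iic, measureReal_congr Ioi_ae_eq_Ici]
  conv_lhs => rw [← h, map_measureReal_apply measurable_neg measurableSet_Iic]
  congr 1
  ext y
  simp

theorem bridge (C : ℝ) (h : Upper C) :
    ∀ (n : ℕ) (Ω : Type) [MeasureSpace Ω]
        [IsProbabilityMeasure (volume : Measure Ω)] (X : Fin n → Ω → ℝ),
        0 < n → (∀ k, Measurable (X k)) → iIndepFun X volume →
        (∀ k, MemLp (X k) 3 volume) → (∀ k, ∫ ω, X k ω = 0) →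
        (∀ k, 0 < ∫ ω, X k ω ^ 2) →
        ∀ x : ℝ,
          |(volume {ω | (∑ k, X k ω) / Real.sqrt (∑ k, ∫ ω, X k ω ^ 2) ≤ x}).toReal
              - cdf (gaussianReal 0 1) x|
            ≤ C * ((∑ k, ∫ ω, |X k ω| ^ 3) / Real.sqrt (∑ k, ∫ ω, X k ω ^ 2) ^ 3) := by
  intro n Ω _ _ X hn hm hi h3 h0 h2 x
  have a1 := br_upper h hn hm hi h3 h0 h2 x
  have a2 := br_upper h (X := fun k ω => -X k ω) hn (fun k => (hm k).neg)
    (hi.comp (fun _ y => -y) fun _ => measurable_neg) (fun k => (h3 k).neg)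
    (fun k => by rw [integral_neg, h0, neg_zero]) (fun k => by simpa using h2 k) (-x)
  simp only [neg_sq, abs_neg, Finset.sum_neg_distrib, neg_div, neg_le_neg_iff, br_Phi_neg] at a2
  set S : Ω → ℝ := fun ω => (∑ k, X k ω) / √(∑ k, ∫ ω, X k ω ^ 2) with hS
  have mS : Measurable S := (Finset.measurable_fun_sum _ fun k _ => hm k).div_const _
  have a3 : 1 - volume.real {ω | S ω ≤ x} ≤ volume.real {ω | x ≤ S ω} := by
    rw [← probReal_compl_eq_one_sub (measurableSet_le mS measurable_const)]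
    exact measureReal_mono fun ω (hω : ¬ S ω ≤ x) => (not_le.1 hω).le
  change |volume.real {ω | S ω ≤ x} - Phi x| ≤ _
  rw [abs_le]
  constructor <;> linarith

end Pool.Agent.Lib.MP_33650d_pr
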