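import Mathlib

namespace Pool.Agent.Lib.MP_33650d_pr
open MeasureTheory ProbabilityTheory Real

/-- Moment data of one centred summand `X`: `E X^2`, `E (X₊)^3`, `E (X₋)^3`, `E |X|^(5/2)`,
`E cos X`, `E sin X`. -/
structure LD where
  s2 : ℝ
  bp : ℝ
  bm : ℝ
  g : ℝ
  C : ℝ
  S : ℝ

/-- Every pointwise inequality (in the variable `w = sqrt |x|`, one for each sign of `x`)
can be integrated. -/
def LD.Lin (d : LD) : Prop :=
  ∀ c s c0 a m z np nm : ℝ,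
    (∀ w : ℝ, 0 ≤ w → c * cos (w ^ 2) + s * sin (w ^ 2)
      ≤ c0 + a * w ^ 2 + m * w ^ 4 + z * w ^ 5 + np * w ^ 6) →
    (∀ w : ℝ, 0 ≤ w → c * cos (w ^ 2) - s * sin (w ^ 2)
      ≤ c0 - a * w ^ 2 + m * w ^ 4 + z * w ^ 5 + nm * w ^ 6) →
    c * d.C + s * d.S ≤ c0 + m * d.s2 + z * d.g + np * d.bp + nm * d.bm

/-- The law `ν` of a normalised sum of independent centred summands, with the additive
invariants `bp = ∑ E (X₊)^3`, `bm = ∑ E (X₋)^3`, `g = ∑ E |X|^(5/2)`. -/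
structure SumLaw (ν : Measure ℝ) (bp bm g : ℝ) : Prop where
  prob : IsProbabilityMeasure ν
  mem2 : MemLp id 2 ν
  mean : ∫ y, y ∂ν = 0
  var : ∫ y, y ^ 2 ∂ν = 1
  freq : ∀ t : ℝ, 0 < t → ∃ (n : ℕ) (d : Fin n → LD), (∀ k, (d k).Lin) ∧
    ∑ k, (d k).s2 = t ^ 2 ∧ ∑ k, (d k).bp = bp * t ^ 3 ∧ ∑ k, (d k).bm = bm * t ^ 3 ∧
    ∑ k, (d k).g = g * (t ^ 2 * √t) ∧
    charFun ν t = ∏ k, (((d k).C : ℂ) + ((d k).S : ℂ) * Complex.I)

/-- The standard normal distribution function. -/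
noncomputable def Phi (x : ℝ) : ℝ := cdf (gaussianReal 0 1) x

/-- The one-sided Berry-Esseen bound with constant `C`. -/
def Upper (C : ℝ) : Prop :=
  ∀ (ν : Measure ℝ) (bp bm g : ℝ), SumLaw ν bp bm g →
    ∀ x : ℝ, ν.real (Set.Iic x) - Phi x ≤ C * (bp + bm)

/-- Modulus of the Prawitz kernel at `u = t / T`, divided by `T`. -/
noncomputable def Kt (T t : ℝ) : ℝ :=
  √((1 - t / T) ^ 2 + ((1 - t / T) * (cos (π * (t / T)) / sin (π * (t / T))) + 1 / π) ^ 2) / T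

end Pool.Agent.Lib.MP_33650d_pr
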