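import Pool.Agent.Lib.MP_33650d_pr.Defs

namespace Pool.Agent.Lib.MP_33650d_pr
open MeasureTheory ProbabilityTheory Real

/-- Value of the characteristic function of one summand. -/
noncomputable def LD.f (d : LD) : ℂ := (d.C : ℂ) + (d.S : ℂ) * Complex.I

/-- An entry: a bound `|f| exp (k arg f) ≤ exp (m s2 + z g + np bp + nm bm)` for all summands with
third absolute moment at most `sB ^ 3` (no restriction if `sB = 0`). -/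
structure REnt where
  k : ℝ
  m : ℝ
  z : ℝ
  np : ℝ
  nm : ℝ
  sB : ℝ

def REnt.Bd (e : REnt) (d : LD) : Prop :=
  ‖d.f‖ * exp (e.k * Complex.arg d.f) ≤ exp (e.m * d.s2 + e.z * d.g + e.np * d.bp + e.nm * d.bm)

def REnt.Ok (e : REnt) (b : ℝ) : Prop := e.sB = 0 ∨ b ≤ e.sB ^ 3

def REnt.Valid (e : REnt) : Prop := ∀ d : LD, d.Lin → e.Ok (d.bp + d.bm) → e.Bd d

def REnt.On (e : REnt) (a b : ℝ) : Prop :=
  ∀ d : LD, d.Lin → e.Ok (d.bp + d.bm) → a ≤ Complex.arg d.f → Complex.arg d.f ≤ b → e.Bd d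

def REnt.mirror (e : REnt) : REnt := ⟨-e.k, e.m, e.z, e.nm, e.np, e.sB⟩

/-- All possible arguments are at most `a`. -/
def EndAt (sB a : ℝ) : Prop :=
  π ≤ a ∨ (0 < sB ∧ sB ≤ 2 ∧ 0 ≤ a ∧ 0 < cos sB ∧ sB ^ 3 * cos a ≤ 6 * cos sB * sin a)

noncomputable def REnt.psi (e : REnt) (bp bm g t : ℝ) : ℝ :=
  e.m * t ^ 2 + e.z * (g * (t ^ 2 * √t)) + e.np * (bp * t ^ 3) + e.nm * (bm * t ^ 3)

/-- The function whose nonnegativity is checked on a grid. -/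
noncomputable def Pw (k0 k2 c s m z n w : ℝ) : ℝ :=
  k0 + k2 * w ^ 2 + c * (1 - cos (w ^ 2)) + s * (w ^ 2 - sin (w ^ 2)) + m * w ^ 4 + z * w ^ 5
    + n * w ^ 6

def P1 (nu eta w0 : ℝ) : Prop :=
  ∀ w : ℝ, 0 ≤ w → cos (w ^ 2) - 1 + w ^ 4 / 2 ≤ nu * w ^ 6 + eta * (w ^ 4 * (max (w - w0) 0) ^ 2)

def P2 (np nm eta w0 : ℝ) : Prop :=
  ∀ w : ℝ, 0 ≤ w → sin (w ^ 2) - w ^ 2 ≤ np * w ^ 6 + eta * (w ^ 4 * (max (w - w0) 0) ^ 2) ∧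
    w ^ 2 - sin (w ^ 2) ≤ nm * w ^ 6 + eta * (w ^ 4 * (max (w - w0) 0) ^ 2)

/-- What is known about the value `f` of the characteristic function of the sum at `t`. -/
structure Freq (f : ℂ) (bp bm g t R Ω : ℝ) : Prop where
  eq : f = (R : ℂ) * Complex.exp ((Ω : ℂ) * Complex.I)
  R0 : 0 ≤ R
  R1 : R ≤ 1
  ent : ∀ e : REnt, e.Valid → e.Ok ((bp + bm) * t ^ 3) → R * exp (e.k * Ω) ≤ exp (e.psi bp bm g t)
  low : ∀ s c : ℝ, 0 < s → s ≤ 2 → (bp + bm) * t ^ 3 ≤ s ^ 3 →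
    exp (-(s ^ 2 / 2) - c * s ^ 3) ≤ cos s → exp (-(t ^ 2 / 2) - c * ((bp + bm) * t ^ 3)) ≤ R
  up : ∀ s cs nu eta w0 : ℝ, 0 < s → s ≤ 2 → 0 < cs → cs ≤ cos s → (bp + bm) * t ^ 3 ≤ s ^ 3 →
    0 ≤ w0 → (bp + bm) * t ≤ w0 ^ 2 → 0 ≤ eta → P1 nu eta w0 →
    R ≤ exp (-(t ^ 2 / 2) + (nu + eta * (2 - 2 * (g / √(bp + bm))) + s ^ 3 / (72 * cs ^ 2))
      * ((bp + bm) * t ^ 3))
  arg : ∀ s cs np nm eta w0 : ℝ, 0 < s → s ≤ 2 → 0 < cs → cs ≤ cos s →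
    (bp + bm) * t ^ 3 ≤ s ^ 3 → 0 ≤ w0 → (bp + bm) * t ≤ w0 ^ 2 → 0 ≤ eta → P2 np nm eta w0 →
    Ω ≤ np * (bp * t ^ 3) + nm * (bm * t ^ 3)
        + (eta * (2 - 2 * (g / √(bp + bm))) + (1 / cs - 1) / 6) * ((bp + bm) * t ^ 3) ∧
      -Ω ≤ nm * (bp * t ^ 3) + np * (bm * t ^ 3)
        + (eta * (2 - 2 * (g / √(bp + bm))) + (1 / cs - 1) / 6) * ((bp + bm) * t ^ 3)

/-- The bound holds on a cell of the middle range. -/
def Cov (C l0 l1 u0 u1 g0 g1 c0 c1 : ℝ) : Prop :=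
  ∀ (ν : Measure ℝ) (bp bm g : ℝ), SumLaw ν bp bm g → l0 ≤ bp + bm → bp + bm ≤ l1 →
    u0 * (bp + bm) ≤ bp → bp ≤ u1 * (bp + bm) →
    g0 * (c0 + c1 * (bp + bm)) ≤ g → g ≤ g1 * (c0 + c1 * (bp + bm)) →
    ∀ x : ℝ, ν.real (Set.Iic x) - Phi x ≤ C * (bp + bm)

/-- The bound holds on a cell of the small range. -/
def CovS (C l1 u0 u1 g0 g1 : ℝ) : Prop :=
  ∀ (ν : Measure ℝ) (bp bm g : ℝ), SumLaw ν bp bm g → bp + bm ≤ l1 →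
    u0 * (bp + bm) ≤ bp → bp ≤ u1 * (bp + bm) →
    g0 * √(bp + bm) ≤ g → g ≤ g1 * √(bp + bm) →
    ∀ x : ℝ, ν.real (Set.Iic x) - Phi x ≤ C * (bp + bm)

/-- Choice of an endpoint. -/
def sel (b : Bool) (x y : ℝ) : ℝ := if b then y else x

/-- The trigonometric majorant, in the variable `s = y / (4 π)`. -/
noncomputable def hK (J : ℕ) (a0 : ℝ) (p q : ℕ → ℝ) (s : ℝ) : ℝ :=
  a0 + s ^ 2 - s + ∑ j ∈ Finset.range J,
    (p j * cos (2 * π * (j + 1) * s) + q j * sin (2 * π * (j + 1) * s))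

/-- Grid point of the variable `s = x / (4 π)`. -/
noncomputable def sx (i : ℕ) : ℝ := ((i : ℝ) - 256) / 1024

/-- The `j`-th frequency. -/
noncomputable def tj (j : ℕ) : ℝ := ((j : ℝ) + 1) / 2

/-- `T` is a table whose linear interpolation is a lower bound of the normal distribution. -/
def PhiTab (T : ℕ → ℝ) : Prop :=
  ∀ i < 511, ∀ θ : ℝ, 0 ≤ θ → θ ≤ 1 →
    (1 - θ) * T i + θ * T (i + 1) ≤ Phi (4 * π * (sx i + θ / 1024))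

end Pool.Agent.Lib.MP_33650d_pr
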