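import Pool.Agent.Lib.MP_33650d_pr.Defs2

namespace Pool.Agent.Lib.MP_33650d_pr
open MeasureTheory ProbabilityTheory Real

lemma lw_mono {f f' : ℝ → ℝ} {a s : ℝ} (hd : ∀ x, a ≤ x → x ≤ s → HasDerivAt f (f' x) x)
    (hp : ∀ x, a ≤ x → x ≤ s → 0 ≤ f' x) (h : a ≤ s) : f a ≤ f s :=
  monotoneOn_of_deriv_nonneg (convex_Icc a s)
    (fun x c => (hd x c.1 c.2).continuousAt.continuousWithinAt)
    (fun x c => (hd x (interior_subset c).1 (interior_subset c).2).differentiableAt.differentiableWithinAt)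
    (fun x c => by
      rw [(hd x (interior_subset c).1 (interior_subset c).2).deriv]
      exact hp x (interior_subset c).1 (interior_subset c).2)
    (Set.left_mem_Icc.2 h) (Set.right_mem_Icc.2 h) h

lemma lw_sin3 {y : ℝ} (h : 0 ≤ y) : y - y ^ 3 / 6 ≤ sin y := sin_ge_sub_cube h

lemma lw_cos4 {y : ℝ} (h : 0 ≤ y) : cos y ≤ 1 - y ^ 2 / 2 + y ^ 4 / 24 := by
  have := lw_mono (f := fun x => -cos x - x ^ 2 / 2 + x ^ 4 / 24)
    (f' := fun x => sin x - x + x ^ 3 / 6) (fun x _ _ =>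
      (((hasDerivAt_cos x).neg.sub ((hasDerivAt_pow 2 x).div_const 2)).add
        ((hasDerivAt_pow 4 x).div_const 24)).congr_deriv (by ring)) (fun x a _ => by linarith [lw_sin3 a]) h
  simp at this
  linarith

lemma lw_sin5 {y : ℝ} (h : 0 ≤ y) : sin y ≤ y - y ^ 3 / 6 + y ^ 5 / 120 := by
  have := lw_mono (f := fun x => x - sin x - x ^ 3 / 6 + x ^ 5 / 120)
    (f' := fun x => 1 - cos x - x ^ 2 / 2 + x ^ 4 / 24) (fun x _ _ =>
      ((((hasDerivAt_id x).sub (hasDerivAt_sin x)).sub ((hasDerivAt_pow 3 x).div_const 6)).add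
        ((hasDerivAt_pow 5 x).div_const 120)).congr_deriv (by ring)) (fun x a _ => by linarith [lw_cos4 a]) h
  simp at this
  linarith

lemma lw_conc {θ D : ℝ} (h0 : 0 ≤ θ) (h1 : θ ≤ 1) (hD : 0 ≤ D) (hπ : D ≤ π) :
    θ * sin D ≤ sin (θ * D) := by
  simpa using strictConcaveOn_sin_Icc.concaveOn.2 ⟨le_rfl, pi_pos.le⟩ ⟨hD, hπ⟩
    (sub_nonneg.2 h1) h0 (sub_add_cancel _ _)

lemma lw_tang {s y : ℝ} (h0 : 0 < s) (h1 : s ≤ π / 2) (hy : 0 ≤ y) :
    cos s + sin s / (2 * s) * s ^ 2 ≤ cos y + sin s / (2 * s) * y ^ 2 := by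
  have d : ∀ x, HasDerivAt (fun x => cos x + sin s / (2 * s) * x ^ 2) (x / s * sin s - sin x) x :=
    fun x => ((hasDerivAt_cos x).add ((hasDerivAt_pow 2 x).const_mul
      (sin s / (2 * s)))).congr_deriv (by field_simp; ring)
  rcases le_total y s with h | h
  · refine neg_le_neg_iff.1 (lw_mono (f := fun x => -(cos x + sin s / (2 * s) * x ^ 2))
      (fun x _ _ => (d x).neg) (fun x a b => ?_) h)
    have := lw_conc (div_nonneg (hy.trans a) h0.le) ((div_le_one h0).2 b) h0.le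
      (by linarith [pi_pos])
    rw [div_mul_cancel₀ _ h0.ne'] at this
    linarith
  · refine lw_mono (fun x _ _ => d x) (fun x a _ => sub_nonneg.2 ?_) h
    have x0 := h0.trans_le a
    rw [div_mul_eq_mul_div, le_div_iff₀ h0]
    rcases le_total x π with b | b
    · have := lw_conc (div_nonneg h0.le x0.le) ((div_le_one x0).2 a) x0.le b
      rw [div_mul_cancel₀ _ x0.ne', div_mul_eq_mul_div, div_le_iff₀ x0] at this
      linarith
    · have c := mul_le_sin h0.le h1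
      rw [div_mul_eq_mul_div, div_le_iff₀ pi_pos] at c
      nlinarith [sin_le_one x, sin_nonneg_of_nonneg_of_le_pi h0.le (by linarith [pi_pos])]

lemma lw_half {s : ℝ} (h1 : s ≤ 2) (h : 0 < cos s) : s < π / 2 :=
  by_contra fun a => h.not_ge (cos_nonpos_of_pi_div_two_le_of_le (not_lt.1 a)
    (by linarith [pi_gt_three]))

lemma lw_log {θ s : ℝ} (h0 : 0 ≤ θ) (h1 : θ ≤ 1) (hs : 0 ≤ s) (hπ : s < π / 2) :
    0 ≤ -log (cos s) - s ^ 2 / 2 ∧
      -log (cos (θ * s)) - (θ * s) ^ 2 / 2 ≤ θ ^ 3 * (-log (cos s) - s ^ 2 / 2) := by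
  have c : ∀ x, 0 ≤ x → x ≤ s → 0 < cos x := fun x a b =>
    cos_pos_of_mem_Ioo ⟨by linarith [pi_pos], by linarith⟩
  have m : ∀ x, 0 ≤ x → x ≤ s → 0 ≤ θ * x ∧ θ * x ≤ x := fun x a _ =>
    ⟨mul_nonneg h0 a, mul_le_of_le_one_left a h1⟩
  have c' : ∀ x, 0 ≤ x → x ≤ s → 0 < cos (θ * x) := fun x a b =>
    c _ (m x a b).1 ((m x a b).2.trans b)
  have l : ∀ x : ℝ, HasDerivAt (fun x => θ * x) θ x := fun x => by
    simpa using (hasDerivAt_id x).const_mul θ
  have d1 : ∀ x, 0 < cos x → HasDerivAt (fun x => -log (cos x) - x ^ 2 / 2) (tan x - x) x :=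
    fun x a => (((hasDerivAt_cos x).log a.ne').neg.sub
      ((hasDerivAt_pow 2 x).div_const 2)).congr_deriv (by rw [tan_eq_sin_div_cos]; ring)
  have d2 : ∀ x, 0 < cos x → HasDerivAt (fun x => tan x - x) (tan x ^ 2) x := fun x a =>
    ((hasDerivAt_tan a.ne').sub (hasDerivAt_id x)).congr_deriv (by
      rw [tan_eq_sin_div_cos, div_pow, sin_sq]; field_simp)
  have e1 : ∀ x, 0 ≤ x → x ≤ s → tan (θ * x) ≤ θ * tan x := fun x a b => by
    have := lw_mono (f := fun x => θ * tan x - tan (θ * x))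
      (f' := fun x => θ * (1 / cos x ^ 2) - 1 / cos (θ * x) ^ 2 * θ) (fun y u v =>
        ((hasDerivAt_tan (c y u (v.trans b)).ne').const_mul θ).sub
          ((hasDerivAt_tan (c' y u (v.trans b)).ne').comp y (l y))) (fun y u v => by
        have k := m y u (v.trans b)
        have := one_div_le_one_div_of_le (pow_pos (c y u (v.trans b)) 2) (pow_le_pow_left₀
          (c y u (v.trans b)).le (cos_le_cos_of_nonneg_of_le_pi k.1 (by linarith [pi_pos]) k.2) 2)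
        nlinarith) a
    simpa using this
  have e2 : ∀ x, 0 ≤ x → x ≤ s → (tan (θ * x) - θ * x) * θ ≤ θ ^ 3 * (tan x - x) := fun x a b => by
    have := lw_mono (f := fun x => θ ^ 3 * (tan x - x) - (tan (θ * x) - θ * x) * θ)
      (f' := fun x => θ ^ 3 * tan x ^ 2 - tan (θ * x) ^ 2 * θ * θ) (fun y u v =>
        ((d2 y (c y u (v.trans b))).const_mul _).sub
          (((d2 _ (c' y u (v.trans b))).comp y (l y)).mul_const θ)) (fun y u v => by
        have k := m y u (v.trans b)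
        have k1 := pow_le_pow_left₀ (tan_nonneg_of_nonneg_of_le_pi_div_two k.1 (by linarith))
          (e1 y u (v.trans b)) 2
        have k2 := mul_le_mul_of_nonneg_right k1 (mul_nonneg h0 h0)
        have k3 := mul_le_mul_of_nonneg_right h1 (show 0 ≤ θ ^ 3 * tan y ^ 2 by positivity)
        nlinarith) a
    simpa using this
  constructor
  · simpa using lw_mono (fun x a b => d1 x (c x a b))
      (fun x a b => sub_nonneg.2 (le_tan a (by linarith))) hs
  · have := lw_mono (f := fun x => θ ^ 3 * (-log (cos x) - x ^ 2 / 2) -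
      (-log (cos (θ * x)) - (θ * x) ^ 2 / 2)) (fun y u v => ((d1 y (c y u v)).const_mul _).sub
        ((d1 _ (c' y u v)).comp y (l y))) (fun y u v => sub_nonneg.2 (e2 y u v)) hs
    simpa using this

variable {d : LD}

lemma lw_nonneg (h : d.Lin) : 0 ≤ d.s2 ∧ 0 ≤ d.bp ∧ 0 ≤ d.bm ∧ 0 ≤ d.g :=
  ⟨by simpa using h 0 0 0 0 1 0 0 0 (fun w _ => by simp; positivity) fun w _ => by simp; positivity,
    by simpa using h 0 0 0 0 0 0 1 0 (fun w _ => by simp; positivity) fun w _ => by simp,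
    by simpa using h 0 0 0 0 0 0 0 1 (fun w _ => by simp) fun w _ => by simp; positivity,
    by simpa using h 0 0 0 0 0 1 0 0 (fun w _ => by simp; positivity) fun w _ => by simp; positivity⟩

lemma lw_C (d : LD) : ‖d.f‖ * cos (Complex.arg d.f) = d.C := by
  rw [Complex.norm_mul_cos_arg]; simp [LD.f]

lemma lw_S (d : LD) : ‖d.f‖ * sin (Complex.arg d.f) = d.S := by
  rw [Complex.norm_mul_sin_arg]; simp [LD.f]

lemma lw_norm (h : d.Lin) : ‖d.f‖ ≤ 1 := by
  have := h (cos (Complex.arg d.f)) (sin (Complex.arg d.f)) 1 0 0 0 0 0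
    (fun w _ => by rw [← cos_sub]; simpa using cos_le_one _)
    fun w _ => by rw [← cos_add]; simpa using cos_le_one _
  rw [← lw_C, ← lw_S] at this
  nlinarith [sin_sq_add_cos_sq (Complex.arg d.f)]

lemma lw_cube (h : d.Lin) : √d.s2 ^ 3 ≤ d.bp + d.bm := by
  have a : ∀ w : ℝ, 0 ≤ √d.s2 ^ 3 / 2 + -(3 / 2 * √d.s2) * w ^ 4 + w ^ 6 := fun w => by
    nlinarith [mul_nonneg (sq_nonneg (w ^ 2 - √d.s2))
      (show 0 ≤ w ^ 2 + √d.s2 / 2 by positivity)]
  have := h 0 0 (√d.s2 ^ 3 / 2) 0 (-(3 / 2 * √d.s2)) 0 1 1 (fun w _ => by linarith [a w])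
    fun w _ => by linarith [a w]
  have b : √d.s2 * d.s2 = √d.s2 ^ 3 := by
    rw [pow_succ, sq_sqrt (lw_nonneg h).1, mul_comm]
  linarith

/-- The law of `-X`. -/
def lw_mir (d : LD) : LD := ⟨d.s2, d.bm, d.bp, d.g, d.C, -d.S⟩

lemma lw_mir_lin (h : d.Lin) : (lw_mir d).Lin := fun c s c0 a m z np nm h1 h2 => by
  have := h c (-s) c0 (-a) m z nm np (fun w b => by linarith [h2 w b]) fun w b => by
    linarith [h1 w b]
  simp only [lw_mir]
  linarith

lemma lw_mir_f (d : LD) : (lw_mir d).f = (starRingEnd ℂ) d.f := by simp [lw_mir, LD.f]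

lemma lw_mir_arg (h : Complex.arg d.f ≠ π) : Complex.arg (lw_mir d).f = -Complex.arg d.f := by
  rw [lw_mir_f, Complex.arg_conj, if_neg h]

lemma lw_S_le (h : d.Lin) : d.S ≤ (d.bp + d.bm) / 6 := by
  have := h 0 1 0 1 0 0 (1 / 6) (1 / 6) (fun w _ => by
    nlinarith [sin_le (sq_nonneg w), show 0 ≤ w ^ 6 by positivity]) fun w _ => by
      nlinarith [lw_sin3 (sq_nonneg w)]
  linarith

lemma lw_S_abs (h : d.Lin) : |d.S| ≤ (d.bp + d.bm) / 6 :=
  abs_le.2 ⟨by have := lw_S_le (lw_mir_lin h); simp only [lw_mir] at this; linarith, lw_S_le h⟩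

lemma lw_cos (h : d.Lin) (h1 : √d.s2 ≤ π / 2) : cos √d.s2 ≤ d.C := by
  have b := sq_sqrt (lw_nonneg h).1
  rcases (sqrt_nonneg d.s2).eq_or_lt with a | a
  · have := h (-1) 0 (-1) 0 (1 / 2) 0 0 0
      (fun w _ => by nlinarith [one_sub_sq_div_two_le_cos (x := w ^ 2)])
      fun w _ => by nlinarith [one_sub_sq_div_two_le_cos (x := w ^ 2)]
    rw [← a] at b ⊢
    rw [cos_zero]
    linarith
  · have := h (-1) 0 (-(cos √d.s2 + sin √d.s2 / (2 * √d.s2) * √d.s2 ^ 2)) 0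
      (sin √d.s2 / (2 * √d.s2)) 0 0 0
      (fun w _ => by nlinarith [lw_tang a h1 (sq_nonneg w)])
      fun w _ => by nlinarith [lw_tang a h1 (sq_nonneg w)]
    rw [b] at this
    linarith

lemma lw_root (h : d.Lin) {s : ℝ} (hs : 0 ≤ s) (hb : d.bp + d.bm ≤ s ^ 3) : √d.s2 ≤ s :=
  le_of_pow_le_pow_left₀ three_ne_zero hs ((lw_cube h).trans hb)

lemma lw_cos' (h : d.Lin) {s : ℝ} (hs : 0 ≤ s) (h1 : s < π / 2) (hb : d.bp + d.bm ≤ s ^ 3) :
    cos s ≤ d.C :=
  (cos_le_cos_of_nonneg_of_le_pi (sqrt_nonneg _) (by linarith) (lw_root h hs hb)).trans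
    (lw_cos h ((lw_root h hs hb).trans h1.le))

lemma lw_g (h : d.Lin) {q : ℝ} (hq : 0 < q) : d.g ≤ ((d.bp + d.bm) / q + q * d.s2) / 2 := by
  have a : ∀ w : ℝ, 0 ≤ q / 2 * w ^ 4 + -1 * w ^ 5 + 1 / (2 * q) * w ^ 6 := fun w => by
    rw [show q / 2 * w ^ 4 + -1 * w ^ 5 + 1 / (2 * q) * w ^ 6 = w ^ 4 * (w - q) ^ 2 / (2 * q) by
      field_simp; ring]
    positivity
  have := h 0 0 0 0 (q / 2) (-1) (1 / (2 * q)) (1 / (2 * q)) (fun w _ => by linarith [a w])
    fun w _ => by linarith [a w]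
  rw [show ((d.bp + d.bm) / q + q * d.s2) / 2 =
    q / 2 * d.s2 + 1 / (2 * q) * d.bp + 1 / (2 * q) * d.bm by field_simp; ring]
  linarith

theorem REnt.on_cell (e : REnt) {a b c s l0 k0 k2 χ : ℝ} (hab : a ≤ b) (hb : b ≤ a + 3)
    (hχ : 0 ≤ χ) (hχ0 : e.sB = 0 → χ = 0) (hk0 : k0 ≤ 1 - l0 - χ * e.sB ^ 3 - c)
    (h2a : exp (e.k * a - l0) ≤ c * cos a + s * sin a)
    (h2b : exp (e.k * b - l0) ≤ c * cos b + s * sin b)
    (h1p : ∀ w : ℝ, 0 ≤ w → 0 ≤ Pw k0 k2 c s e.m e.z (e.np + χ) w)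
    (h1m : ∀ w : ℝ, 0 ≤ w → 0 ≤ Pw k0 (-k2) c (-s) e.m e.z (e.nm + χ) w) : e.On a b := by
  intro d h ok ha hb'
  have a1 := h c s (k0 + c) (k2 + s) e.m e.z (e.np + χ) (e.nm + χ)
    (fun w u => by have := h1p w u; unfold Pw at this; linarith)
    fun w u => by have := h1m w u; unfold Pw at this; linarith
  have a2 : χ * (d.bp + d.bm) ≤ χ * e.sB ^ 3 := by
    rcases ok with o | o
    exacts [by simp [hχ0 o], mul_le_mul_of_nonneg_left o hχ]
  unfold REnt.Bd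
  rw [← lw_C, ← lw_S] at a1
  generalize Complex.arg d.f = ω at *
  have a3 : exp (e.k * ω - l0) ≤ c * cos ω + s * sin ω := by
    rcases hab.eq_or_lt with rfl | hab'
    · rwa [le_antisymm hb' ha]
    have D0 : 0 < b - a := sub_pos.2 hab'
    have D1 : b - a ≤ π := by linarith [pi_gt_three]
    have D2 : 0 < sin (b - a) := sin_pos_of_pos_of_lt_pi D0 (by linarith [pi_gt_three])
    set θ := (ω - a) / (b - a) with hθ
    have t0 : 0 ≤ θ := div_nonneg (sub_nonneg.2 ha) D0.le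
    have t1 : θ ≤ 1 := (div_le_one D0).2 (by linarith)
    have t2 : θ * (b - a) = ω - a := div_mul_cancel₀ _ D0.ne'
    have u1 := lw_conc t0 t1 D0.le D1
    have u2 := lw_conc (sub_nonneg.2 t1) (by linarith) D0.le D1
    rw [t2] at u1
    rw [show (1 - θ) * (b - a) = b - ω by linarith] at u2
    have u3 : (c * cos ω + s * sin ω) * sin (b - a) = sin (b - ω) * (c * cos a + s * sin a) +
        sin (ω - a) * (c * cos b + s * sin b) := by simp only [sin_sub]; ring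
    have u4 := convexOn_exp.2 (Set.mem_univ (e.k * a - l0)) (Set.mem_univ (e.k * b - l0))
      (sub_nonneg.2 t1) t0 (sub_add_cancel _ _)
    simp only [smul_eq_mul] at u4
    rw [show (1 - θ) * (e.k * a - l0) + θ * (e.k * b - l0) = e.k * (a + θ * (b - a)) - l0 by ring,
      t2, add_sub_cancel] at u4
    refine le_of_mul_le_mul_right ?_ D2
    have v1 := mul_le_mul u2 h2a (exp_pos _).le (le_trans (by positivity) u2)
    have v2 := mul_le_mul u1 h2b (exp_pos _).le (le_trans (by positivity) u1)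
    nlinarith [mul_le_mul_of_nonneg_right u4 D2.le]
  have a4 := add_one_le_exp (e.m * d.s2 + e.z * d.g + e.np * d.bp + e.nm * d.bm - l0)
  have a5 := mul_le_mul_of_nonneg_left a3 (norm_nonneg d.f)
  rw [exp_sub] at a4 a5
  refine le_of_mul_le_mul_right ?_ (inv_pos.2 (exp_pos l0))
  rw [mul_assoc, ← div_eq_mul_inv, ← div_eq_mul_inv]
  linarith

theorem REnt.On.trans {e : REnt} {a b c : ℝ} (h1 : e.On a b) (h2 : e.On b c) : e.On a c :=
  fun d h ok ha hc => (le_total (Complex.arg d.f) b).elim (h1 d h ok ha) fun hb => h2 d h ok hb hc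

theorem small_w {s m z n S Z : ℝ} (hn : 0 ≤ n) (hs : |s| ≤ S) (hz : -z ≤ Z) (hZ : 0 ≤ Z)
    (h : Z / 32 + (S / 6 + 1 / 24) / 1024 ≤ m + 1 / 2) {w : ℝ} (h0 : 0 ≤ w) (h1 : w ≤ 1 / 32) :
    0 ≤ Pw 0 0 1 s m z n w := by
  have a1 := lw_cos4 (sq_nonneg w)
  have a2 := lw_sin3 (sq_nonneg w)
  have a3 := sin_le (sq_nonneg w)
  have a4 : 0 ≤ w ^ 4 := by positivity
  have a5 : w ^ 2 ≤ 1 / 1024 := by nlinarith
  have a6 : w ^ 6 ≤ w ^ 4 / 1024 := by nlinarith
  have a7 : w ^ 8 ≤ w ^ 4 / 1024 := by nlinarith [show 0 ≤ w ^ 6 by positivity]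
  have a8 : w ^ 5 ≤ w ^ 4 / 32 := by nlinarith
  have a9 : -(S * (w ^ 4 / 1024 / 6)) ≤ s * (w ^ 2 - sin (w ^ 2)) := by
    have b := abs_le.1 hs
    nlinarith [mul_le_mul_of_nonneg_right b.1 (sub_nonneg.2 a3), mul_le_mul_of_nonneg_left
      (show w ^ 2 - sin (w ^ 2) ≤ w ^ 4 / 1024 / 6 by nlinarith) ((abs_nonneg s).trans hs)]
  have b1 : -(Z * (w ^ 4 / 32)) ≤ z * w ^ 5 := by
    nlinarith [mul_le_mul_of_nonneg_right hz (show 0 ≤ w ^ 5 by positivity),
      mul_le_mul_of_nonneg_left a8 hZ]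
  have b2 := mul_le_mul_of_nonneg_right h a4
  have b3 : 0 ≤ n * w ^ 6 := by positivity
  unfold Pw
  nlinarith

lemma lw_end (h : d.Lin) {sB a : ℝ} (ok : sB = 0 ∨ d.bp + d.bm ≤ sB ^ 3) (ha : EndAt sB a) :
    Complex.arg d.f ≤ a := by
  rcases ha with ha | ⟨a1, a2, a3, a4, a5⟩
  · exact (Complex.arg_le_pi _).trans ha
  have b1 := ok.resolve_left a1.ne'
  have b2 := lw_cos' h a1.le (lw_half a2 a4) b1
  have b3 := lw_S_le h
  by_contra c
  have c := not_le.1 c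
  have b4 := (abs_lt.1 (Complex.abs_arg_lt_pi_div_two_iff.2
    (.inl (show 0 < d.f.re by simpa [LD.f] using a4.trans_le b2)))).2
  have b5 := sin_pos_of_pos_of_lt_pi (sub_pos.2 c) (by linarith [pi_pos])
  have b6 : 0 < ‖d.f‖ := norm_pos_iff.2 fun e => by
    have := lw_C d
    rw [e, norm_zero, zero_mul] at this
    linarith
  have b7 := mul_pos b6 b5
  rw [sin_sub, mul_sub, ← mul_assoc, ← mul_assoc, lw_C, lw_S] at b7
  have b8 : 0 ≤ cos a := cos_nonneg_of_mem_Icc ⟨by linarith [pi_pos], by linarith⟩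
  have b9 : 0 ≤ sin a := sin_nonneg_of_nonneg_of_le_pi a3 (by linarith [pi_pos])
  nlinarith [mul_le_mul_of_nonneg_right b2 b9, mul_le_mul_of_nonneg_right b3 b8,
    mul_le_mul_of_nonneg_right b1 b8]

theorem REnt.valid_of_on {e : REnt} {a b : ℝ} (h1 : e.On 0 a) (h2 : e.mirror.On 0 b)
    (ha : EndAt e.sB a) (hb : EndAt e.sB b) : e.Valid := by
  intro d h ok
  rcases le_or_gt 0 (Complex.arg d.f) with c | c
  · exact h1 d h ok c (lw_end h ok ha)
  · have f := lw_mir_arg (d := d) (by linarith [pi_pos])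
    have ok' : e.sB = 0 ∨ (lw_mir d).bp + (lw_mir d).bm ≤ e.sB ^ 3 :=
      Or.imp id (fun o => (add_comm _ _).le.trans o) ok
    have := h2 _ (lw_mir_lin h) ok' (by linarith) (lw_end (lw_mir_lin h) ok' hb)
    unfold REnt.Bd at this ⊢
    rw [f, lw_mir_f, Complex.norm_conj] at this
    simp only [REnt.mirror, lw_mir, neg_mul_neg] at this
    exact this.trans_eq (by ring_nf)

theorem P1_of {nu eta w0 : ℝ} (h0 : 0 ≤ w0) (hnu : w0 ^ 2 / 24 ≤ nu) (heta : 0 ≤ eta)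
    (h : ∀ w : ℝ, w0 ≤ w →
      0 ≤ Pw 0 0 1 0 (eta * w0 ^ 2 - 1 / 2) (-(2 * eta * w0)) (nu + eta) w) : P1 nu eta w0 := by
  intro w hw
  rcases le_total w0 w with a | a
  · have := h w a
    unfold Pw at this
    rw [max_eq_left (sub_nonneg.2 a)]
    linarith
  · have b := mul_le_mul_of_nonneg_right ((div_le_div_of_nonneg_right
      (pow_le_pow_left₀ hw a 2) (by norm_num)).trans hnu) (show 0 ≤ w ^ 6 by positivity)
    have c : 0 ≤ eta * (w ^ 4 * max (w - w0) 0 ^ 2) := by positivity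
    linarith [lw_cos4 (sq_nonneg w)]

theorem P2_of {np nm eta w0 : ℝ} (h0 : 0 ≤ w0) (hnp : w0 ^ 4 / 120 - 1 / 6 ≤ np)
    (hnm : 1 / 6 ≤ nm) (heta : 0 ≤ eta)
    (h : ∀ w : ℝ, w0 ≤ w → 0 ≤ Pw 0 0 0 1 (eta * w0 ^ 2) (-(2 * eta * w0)) (np + eta) w) :
    P2 np nm eta w0 := by
  intro w hw
  have c : 0 ≤ eta * (w ^ 4 * max (w - w0) 0 ^ 2) := by positivity
  have w6 : 0 ≤ w ^ 6 := by positivity
  refine ⟨?_, by linarith [lw_sin3 (sq_nonneg w), mul_le_mul_of_nonneg_right hnm w6]⟩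
  rcases le_total w0 w with a | a
  · have := h w a
    unfold Pw at this
    rw [max_eq_left (sub_nonneg.2 a)]
    linarith
  · have b := mul_le_mul_of_nonneg_right ((sub_le_sub_right (div_le_div_of_nonneg_right
      (pow_le_pow_left₀ hw a 4) (by norm_num)) _).trans hnp) w6
    linarith [lw_sin5 (sq_nonneg w)]

theorem SumLaw.basic {ν : Measure ℝ} {bp bm g : ℝ} (h : SumLaw ν bp bm g) :
    0 ≤ bp ∧ 0 ≤ bm ∧ 0 < bp + bm ∧ 0 ≤ g ∧ g ≤ √(bp + bm) := by
  obtain ⟨n, d, a, b1, b2, b3, b4, -⟩ := h.freq 1 one_pos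
  simp only [one_pow, mul_one, sqrt_one] at b1 b2 b3 b4
  have c1 : 0 ≤ bp := b2 ▸ Finset.sum_nonneg fun k _ => (lw_nonneg (a k)).2.1
  have c2 : 0 ≤ bm := b3 ▸ Finset.sum_nonneg fun k _ => (lw_nonneg (a k)).2.2.1
  have c3 : 0 < bp + bm := by
    obtain ⟨k, -, e⟩ := Finset.exists_lt_of_sum_lt (s := Finset.univ) (f := fun _ => (0 : ℝ))
      (g := fun k => (d k).s2) (by simp [b1])
    rw [← b2, ← b3, ← Finset.sum_add_distrib]
    exact ((pow_pos (sqrt_pos.2 e) 3).trans_le (lw_cube (a k))).trans_le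
      (Finset.single_le_sum (f := fun k => (d k).bp + (d k).bm) (fun k _ =>
        add_nonneg (lw_nonneg (a k)).2.1 (lw_nonneg (a k)).2.2.1) (Finset.mem_univ k))
  refine ⟨c1, c2, c3, b4 ▸ Finset.sum_nonneg fun k _ => (lw_nonneg (a k)).2.2.2, ?_⟩
  have e := Finset.sum_le_sum fun k (_ : k ∈ Finset.univ) => lw_g (a k) (sqrt_pos.2 c3)
  simp only [← Finset.sum_div, Finset.sum_add_distrib, ← Finset.mul_sum, b1, b2, b3, b4,
    div_sqrt] at e
  linarith

lemma lw_low (h : d.Lin) {s c : ℝ} (h0 : 0 < s) (h2 : s ≤ 2) (hb : d.bp + d.bm ≤ s ^ 3)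
    (hc : exp (-(s ^ 2 / 2) - c * s ^ 3) ≤ cos s) :
    exp (-(d.s2 / 2) - c * (d.bp + d.bm)) ≤ ‖d.f‖ := by
  have a1 := (exp_pos _).trans_le hc
  have a2 := lw_half h2 a1
  have a3 := lw_root h h0.le hb
  obtain ⟨a4, a5⟩ := lw_log (div_nonneg (sqrt_nonneg d.s2) h0.le) ((div_le_one h0).2 a3) h0.le a2
  rw [div_mul_cancel₀ _ h0.ne', sq_sqrt (lw_nonneg h).1] at a5
  have a6 := (le_log_iff_exp_le a1).2 hc
  have a7 : 0 ≤ c := nonneg_of_mul_nonneg_left (b := s ^ 3) (by linarith) (pow_pos h0 3)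
  have a8 : (√d.s2 / s) ^ 3 * (-log (cos s) - s ^ 2 / 2) ≤ c * √d.s2 ^ 3 :=
    (mul_le_mul_of_nonneg_left (show _ ≤ c * s ^ 3 by linarith) (by positivity)).trans_eq (by
      field_simp)
  have a9 : 0 < cos √d.s2 := cos_pos_of_mem_Ioo ⟨by linarith [sqrt_nonneg d.s2], by linarith⟩
  refine ((le_log_iff_exp_le a9).1 (by
    linarith [mul_le_mul_of_nonneg_left (lw_cube h) a7])).trans ((lw_cos h (by linarith)).trans ?_)
  simpa [LD.f] using Complex.re_le_norm d.f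

lemma lw_max {w w0 ρ eta : ℝ} (h : ρ ≤ w0) (he : 0 ≤ eta) :
    eta * (w ^ 4 * max (w - w0) 0 ^ 2) ≤ eta * (w ^ 4 * (w - ρ) ^ 2) := by
  refine mul_le_mul_of_nonneg_left (mul_le_mul_of_nonneg_left ?_ (by positivity)) he
  rcases le_total (w - w0) 0 with a | a
  · rw [max_eq_right a]; simpa using sq_nonneg _
  · rw [max_eq_left a]; exact pow_le_pow_left₀ a (by linarith) 2

lemma lw_up (h : d.Lin) {s cs nu eta w0 ρ : ℝ} (h0 : 0 < s) (h2 : s ≤ 2) (c0 : 0 < cs)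
    (c1 : cs ≤ cos s) (hb : d.bp + d.bm ≤ s ^ 3) (hρ : ρ ≤ w0) (he : 0 ≤ eta) (hP : P1 nu eta w0) :
    ‖d.f‖ ≤ exp ((-1 / 2 + eta * ρ ^ 2) * d.s2 + -(2 * eta * ρ) * d.g +
      (nu + eta + s ^ 3 / (72 * cs ^ 2)) * (d.bp + d.bm)) := by
  have a1 := h 1 0 1 0 (-1 / 2 + eta * ρ ^ 2) (-(2 * eta * ρ)) (nu + eta) (nu + eta)
    (fun w u => by linarith [hP w u, lw_max (w := w) hρ he])
    fun w u => by linarith [hP w u, lw_max (w := w) hρ he]
  have a2 := c1.trans (lw_cos' h h0.le (lw_half h2 (c0.trans_le c1)) hb)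
  have a3 := c0.trans_le a2
  have a4 := add_nonneg (lw_nonneg h).2.1 (lw_nonneg h).2.2.1
  have a5 : d.S ^ 2 / (2 * d.C ^ 2) ≤ s ^ 3 / (72 * cs ^ 2) * (d.bp + d.bm) := by
    have b := pow_le_pow_left₀ (abs_nonneg _) (lw_S_abs h) 2
    rw [sq_abs] at b
    refine (div_le_div₀ (c := s ^ 3 * (d.bp + d.bm) / 36) (d := 2 * cs ^ 2) (by positivity)
      (by nlinarith [mul_le_mul_of_nonneg_right hb a4]) (by positivity) (by gcongr)).trans_eq ?_
    field_simp; ring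
  have a6 : ‖d.f‖ ≤ d.C * exp (d.S ^ 2 / (2 * d.C ^ 2)) := by
    refine le_of_pow_le_pow_left₀ two_ne_zero (by positivity) ?_
    have b := mul_le_mul_of_nonneg_left (add_one_le_exp (d.S ^ 2 / d.C ^ 2)) (sq_nonneg d.C)
    rw [mul_add, mul_div_cancel₀ _ (by positivity)] at b
    rw [Complex.sq_norm, LD.f, Complex.normSq_add_mul_I, mul_pow, ← exp_nat_mul,
      show ((2 : ℕ) : ℝ) * (d.S ^ 2 / (2 * d.C ^ 2)) = d.S ^ 2 / d.C ^ 2 by field_simp; ring]
    linarith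
  refine a6.trans ((mul_le_mul_of_nonneg_right (show d.C ≤ exp (d.C - 1) by
    linarith [add_one_le_exp (d.C - 1)]) (exp_pos _).le).trans ?_)
  rw [← exp_add, exp_le_exp]
  linarith

lemma lw_arg (h : d.Lin) {cs np nm eta w0 ρ : ℝ} (c0 : 0 < cs) (c1 : cs ≤ d.C) (hρ : ρ ≤ w0)
    (he : 0 ≤ eta) (hP : P2 np nm eta w0) :
    Complex.arg d.f ≤ eta * ρ ^ 2 * d.s2 + -(2 * eta * ρ) * d.g + np * d.bp + nm * d.bm +
      (eta + (1 / cs - 1) / 6) * (d.bp + d.bm) := by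
  have a1 := h 0 1 0 1 (eta * ρ ^ 2) (-(2 * eta * ρ)) (np + eta) (nm + eta)
    (fun w u => by linarith [(hP w u).1, lw_max (w := w) hρ he])
    fun w u => by linarith [(hP w u).2, lw_max (w := w) hρ he]
  have a2 : d.C ≤ ‖d.f‖ := by simpa [LD.f] using Complex.re_le_norm d.f
  have a3 := lw_norm h
  have a4 : 0 ≤ 1 / cs - 1 := sub_nonneg.2 ((one_le_div c0).2 (by linarith))
  have a5 := add_nonneg (lw_nonneg h).2.1 (lw_nonneg h).2.2.1
  have a6 : Complex.arg d.f ≤ d.S + (1 / cs - 1) / 6 * (d.bp + d.bm) := by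
    rcases le_or_gt 0 (Complex.arg d.f) with b | b
    · have b1 := le_tan b (abs_lt.1 (Complex.abs_arg_lt_pi_div_two_iff.2
        (.inl (show 0 < d.f.re by simpa [LD.f] using c0.trans_le c1)))).2
      have b2 : 0 ≤ d.S := by simpa [LD.f] using Complex.arg_nonneg_iff.1 b
      rw [Complex.tan_arg, show d.f.im / d.f.re = d.S / d.C by simp [LD.f]] at b1
      have b3 := div_le_div_of_nonneg_left b2 c0 c1
      have b4 := mul_le_mul_of_nonneg_left (lw_S_le h) a4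
      rw [div_eq_mul_one_div d.S cs] at b3
      linarith
    · have b1 := le_sin b.le
      have b2 := sin_nonpos_of_nonpos_of_neg_pi_le b.le (Complex.neg_pi_lt_arg _).le
      have b3 := lw_S d
      nlinarith [mul_nonneg a4 a5]
  linarith

theorem SumLaw.exists_freq {ν : Measure ℝ} {bp bm g : ℝ} (h : SumLaw ν bp bm g) {t : ℝ}
    (ht : 0 < t) : ∃ R Ω : ℝ, Freq (charFun ν t) bp bm g t R Ω := by
  obtain ⟨n, d, a, b1, b2, b3, b4, b5⟩ := h.freq t ht
  have l0 := h.basic.2.2.1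
  have c1 : ∀ k, (d k).bp + (d k).bm ≤ (bp + bm) * t ^ 3 := fun k => by
    rw [add_mul, ← b2, ← b3, ← Finset.sum_add_distrib]
    exact Finset.single_le_sum (f := fun k => (d k).bp + (d k).bm) (fun k _ =>
      add_nonneg (lw_nonneg (a k)).2.1 (lw_nonneg (a k)).2.2.1) (Finset.mem_univ k)
  have r1 : √((bp + bm) * t) ^ 2 = (bp + bm) * t := sq_sqrt (by positivity)
  have r2 : √((bp + bm) * t) * (g * (t ^ 2 * √t)) = g / √(bp + bm) * ((bp + bm) * t ^ 3) := by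
    have e1 := mul_self_sqrt ht.le
    have e2 := sqrt_pos.2 l0
    rw [sqrt_mul l0.le, div_mul_eq_mul_div, eq_div_iff e2.ne']
    calc _ = g * ((√(bp + bm) * √(bp + bm)) * (t ^ 2 * (√t * √t))) := by ring
      _ = _ := by rw [e1, mul_self_sqrt l0.le]; ring
  refine ⟨∏ k, ‖(d k).f‖, ∑ k, Complex.arg (d k).f, ?_, Finset.prod_nonneg fun _ _ => norm_nonneg _,
    Finset.prod_le_one (fun _ _ => norm_nonneg _) fun k _ => lw_norm (a k), fun e v ok => ?_,
    fun s c h0 h2 hb hc => ?_, fun s cs nu eta w0 h0 h2 c0 c2 hb w1 w2 he hP => ?_,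
    fun s cs np nm eta w0 h0 h2 c0 c2 hb w1 w2 he hP => ?_⟩
  · rw [b5]
    push_cast
    rw [Finset.sum_mul, Complex.exp_sum, ← Finset.prod_mul_distrib]
    exact Finset.prod_congr rfl fun k _ => (Complex.norm_mul_exp_arg_mul_I (d k).f).symm
  · rw [Finset.mul_sum, exp_sum, ← Finset.prod_mul_distrib]
    refine (Finset.prod_le_prod (fun _ _ => by positivity) fun k _ =>
      v _ (a k) (Or.imp id (c1 k).trans ok)).trans_eq ?_
    simp only [← exp_sum, Finset.sum_add_distrib, ← Finset.mul_sum, b1, b2, b3, b4, REnt.psi]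
  · refine le_of_eq_of_le ?_ (Finset.prod_le_prod (fun _ _ => (exp_pos _).le) fun k _ =>
      lw_low (a k) h0 h2 ((c1 k).trans hb) hc)
    simp only [← exp_sum, Finset.sum_sub_distrib, Finset.sum_neg_distrib, Finset.sum_add_distrib,
      ← Finset.mul_sum, ← Finset.sum_div, b1, b2, b3, add_mul]
  · refine (Finset.prod_le_prod (fun _ _ => norm_nonneg _) fun k _ => lw_up (a k) h0 h2 c0 c2
      ((c1 k).trans hb) ((sqrt_le_iff.2 ⟨w1, w2⟩)) he hP).trans_eq ?_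
    simp only [← exp_sum, Finset.sum_add_distrib, ← Finset.mul_sum, b1, b2, b3, b4, r1]
    congr 1
    linear_combination (-2 * eta) * r2
  · have c3 := fun k => c2.trans (lw_cos' (a k) h0.le (lw_half h2 (c0.trans_le c2))
      ((c1 k).trans hb))
    constructor
    · refine (Finset.sum_le_sum fun k _ =>
        lw_arg (a k) c0 (c3 k) (sqrt_le_iff.2 ⟨w1, w2⟩) he hP).trans_eq ?_
      simp only [Finset.sum_add_distrib, ← Finset.mul_sum, b1, b2, b3, b4, r1]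
      linear_combination (-2 * eta) * r2
    · rw [← Finset.sum_neg_distrib]
      refine (Finset.sum_le_sum fun k _ => (lw_mir_arg fun e => ?_).ge.trans
        (lw_arg (lw_mir_lin (a k)) c0 (c3 k) (sqrt_le_iff.2 ⟨w1, w2⟩) he hP)).trans_eq ?_
      · have := (Complex.arg_eq_pi_iff.1 e).1
        simp [LD.f] at this
        linarith [c3 k]
      · simp only [lw_mir, Finset.sum_add_distrib, ← Finset.mul_sum, b1, b2, b3, b4, r1]
        linear_combination (-2 * eta) * r2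

end Pool.Agent.Lib.MP_33650d_pr
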