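import Pool.Agent.Lib.MP_33650d_pr.Side
import Pool.Agent.Lib.MP_33650d_pr.Law

namespace Pool.Agent.Lib.MP_33650d_pr
open Real

/-- Field number `i` (40 bits) of a packed record. -/
noncomputable def fld (x i : ℕ) : ℕ := Nat.mod (Nat.shiftRight x (Nat.mul 40 i)) 1099511627776

/-- Positive and negative part of a biased number. -/
noncomputable def bp (x : ℕ) : ℕ := Nat.sub x 549755813888
noncomputable def bn (x : ℕ) : ℕ := Nat.sub 549755813888 x

/-- Real value of a biased number. -/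
noncomputable def bv (x : ℕ) : ℝ := ((x : ℝ) - 2 ^ 39) / 2 ^ 24

noncomputable def mkE (k m z np nm sB : ℕ) : REnt :=
  ⟨bv k, bv m, bv z, np / 2 ^ 24, nm / 2 ^ 24, sB / 2 ^ 24⟩

/-- The entry coded by a record. -/
noncomputable def dec (x : ℕ) : REnt :=
  mkE (fld x 1) (fld x 0) (fld x 2) (fld x 3) (fld x 4) (fld x 5)

noncomputable def aC (ω : ℕ) : ℕ := Nat.mod (ang ω) 79228162514264337593543950336
noncomputable def aS (ω : ℕ) : ℕ := Nat.shiftRight (ang ω) 96

/-- Check of `exp (k ω - l) ≤ c cos ω + s sin ω`. -/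
noncomputable def chkH (k ω l cp cn sp sn : ℕ) : Bool :=
  Nat.ble (Nat.add (Nat.add (Nat.mul cn (aC ω)) (Nat.mul sn (aS ω)))
      (Nat.add (Nat.add (Nat.shiftLeft (Nat.add cp sp) 81)
        (Nat.shiftLeft (Nat.add (Nat.add cp cn) (Nat.add sp sn)) 49))
        (Nat.shiftLeft (expU (Nat.add (Nat.shiftRight (Nat.mul k ω) 16) 140737488355329)
          (Nat.add (Nat.shiftLeft ω 23) (Nat.shiftLeft l 8))) 40)))
    (Nat.add (Nat.add (Nat.mul cp (aC ω)) (Nat.mul sp (aS ω))) (Nat.shiftLeft (Nat.add cn sn) 81))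

noncomputable def chkG2 (k mp mn zp zn np nm sB a b cp cn sp sn l k2p k2n χ k0n : ℕ) : Bool :=
  band (Nat.ble a b) (band (Nat.ble b (Nat.add a 50331648)) (band (Nat.ble b 67108864)
    (band (bor (Nat.ble 1 sB) (Nat.ble χ 0)) (band (chkH k a l cp cn sp sn)
      (band (chkH k b l cp cn sp sn)
        (band (side 0 1099528404992 k0n k2p k2n cp cn sp sn mp mn zp zn (Nat.add np χ))
          (side 0 1099528404992 k0n k2n k2p cp cn sn sp mp mn zp zn (Nat.add nm χ))))))))

/-- Check of a general cell `[a, fld d 0]`. -/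
noncomputable def chkG (k mp mn zp zn np nm sB a d : ℕ) : Bool :=
  force (fld d 0) fun b => force (fld d 1) fun c => force (fld d 2) fun s =>
    force (fld d 3) fun l => force (fld d 4) fun k2 => force (fld d 5) fun χ =>
      chkG2 k mp mn zp zn np nm sB a b (bp c) (bn c) (bp s) (bn s) l (bp k2) (bn k2) χ
        (Nat.add (Nat.add l c)
          (Nat.add (Nat.shiftRight (Nat.mul χ (Nat.mul sB (Nat.mul sB sB))) 72) 1))

/-- Check of the first cell `[0, b]`. -/
noncomputable def chkD (k m mp mn zp zn np nm b sp sn : ℕ) : Bool :=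
  band (Nat.ble b 50331648)
    (band (Nat.ble (Nat.add (Nat.add (Nat.mul 768 zn) (Nat.mul 4 (Nat.add sp sn))) 13510798898888704)
        (Nat.mul 24576 (Nat.add m 8388608)))
      (band (chkH k b 549755813888 16777216 0 sp sn)
        (band (side 8 0 0 0 0 16777216 0 sp sn mp mn zp zn np)
          (side 8 0 0 0 0 16777216 0 sn sp mp mn zp zn nm))))

noncomputable def chkEnd (sB a : ℕ) : Bool :=
  bor (Nat.ble 52707179 a)
    (band (Nat.ble 1 sB) (band (Nat.ble sB 33554432)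
      (band (Nat.ble 2417851639792208302833665 (aC sB))
        (band (Nat.ble 2417851639792208302833664 (aS a))
          (Nat.ble (Nat.shiftLeft (Nat.mul (Nat.mul sB (Nat.mul sB sB))
              (Nat.sub (aC a) 2417851638666308395991040)) 8)
            (Nat.mul 6 (Nat.mul (Nat.sub (aC sB) 2417851639792208302833664)
              (Nat.sub (aS a) 2417851639792208302833664))))))))

/-- Loop over `n` general cells, packed in `d`, starting at `a`. -/
noncomputable def chkL (k mp mn zp zn np nm sB n : ℕ) : ℕ → ℕ → Bool :=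
  Nat.rec (motive := fun _ => ℕ → ℕ → Bool) (fun a _ => chkEnd sB a)
    (fun _ ih a d => band (chkG k mp mn zp zn np nm sB a d)
      (force (fld d 0) fun b => ih b (Nat.shiftRight d 240))) n

/-- Check of one half of the arguments. -/
noncomputable def chkHalf (k m z np nm sB d : ℕ) : Bool :=
  force (bp m) fun mp => force (bn m) fun mn => force (bp z) fun zp => force (bn z) fun zn =>
    force (fld d 0) fun b => band (chkD k m mp mn zp zn np nm b (bp (fld d 1)) (bn (fld d 1)))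
      (chkL k mp mn zp zn np nm sB (fld d 2) b (Nat.shiftRight d 120))

/-- Check of an entry. -/
noncomputable def chkE (x d1 d2 : ℕ) : Bool :=
  force (fld x 1) fun k => force (fld x 0) fun m => force (fld x 2) fun z =>
    force (fld x 3) fun np => force (fld x 4) fun nm => force (fld x 5) fun sB =>
      band (chkHalf k m z np nm sB d1) (chkHalf (Nat.sub 1099511627776 k) m z nm np sB d2)

seal Nat.shiftRight Nat.shiftLeft Nat.mod Nat.sub Nat.add Nat.mul

theorem fld_lt (x i : ℕ) : fld x i < 2 ^ 40 := by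
  rw [fld, nmod_eq]; exact Nat.mod_lt _ (by norm_num)

theorem cast_sub_sub (a b : ℕ) : ((Nat.sub a b : ℕ) : ℝ) - (Nat.sub b a : ℕ) = a - b := by
  rcases le_total a b with h | h
  · rw [cast_nsub (a := b) (b := a) (by exact_mod_cast h), Nat.sub_eq, Nat.sub_eq_zero_of_le h]
    simp
  · rw [cast_nsub (a := a) (b := b) (by exact_mod_cast h), Nat.sub_eq, Nat.sub_eq_zero_of_le h]
    simp

theorem bp_bn (x : ℕ) : (bp x : ℝ) - bn x = bv x * 2 ^ 24 := by
  refine (cast_sub_sub x 549755813888).trans ?_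
  rw [bv]; push_cast; ring

theorem aCS (ω : ℕ) (h : (ω : ℝ) ≤ 2 ^ 26) :
    |(aC ω : ℝ) - (cos (ω / 2 ^ 24) + 2) * 2 ^ 80| ≤ 2 ^ 49 ∧
      |(aS ω : ℝ) - (sin (ω / 2 ^ 24) + 2) * 2 ^ 80| ≤ 2 ^ 49 := by
  obtain ⟨h1, h2⟩ := ang_spec ω h
  rw [cre, ← aC] at h1
  rw [cim, ← aS] at h2
  rw [abs_le] at h1 h2 ⊢
  rw [abs_le]
  refine ⟨⟨?_, ?_⟩, ?_, ?_⟩ <;> linarith [h1.1, h1.2, h2.1, h2.2]

theorem chkH_sound {k ω l cp cn sp sn : ℕ} (h : chkH k ω l cp cn sp sn = true)
    (hω : (ω : ℝ) ≤ 2 ^ 26) :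
    exp (bv k * (ω / 2 ^ 24) - bv l) ≤ ((cp : ℝ) - cn) / 2 ^ 24 * cos (ω / 2 ^ 24)
      + ((sp : ℝ) - sn) / 2 ^ 24 * sin (ω / 2 ^ 24) := by
  have h1 := ble_cast h
  have h2 := expU_spec (Nat.add (Nat.shiftRight (Nat.mul k ω) 16) 140737488355329)
    (Nat.add (Nat.shiftLeft ω 23) (Nat.shiftLeft l 8))
  have h3 := cast_shr_ge (Nat.mul k ω) 16
  obtain ⟨h4, h5⟩ := aCS ω hω
  obtain ⟨E, hE⟩ : ∃ E, E = expU (Nat.add (Nat.shiftRight (Nat.mul k ω) 16) 140737488355329)
    (Nat.add (Nat.shiftLeft ω 23) (Nat.shiftLeft l 8)) := ⟨_, rfl⟩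
  rw [← hE] at h1 h2
  clear hE h
  simp only [cast_nadd, cast_nmul, cast_shl] at h1 h2 h3
  obtain ⟨A, hA⟩ : ∃ A : ℝ, A = (Nat.shiftRight (Nat.mul k ω) 16 : ℕ) := ⟨_, rfl⟩
  rw [← hA] at h2 h3
  clear hA
  push_cast at h2
  have h6 : exp (bv k * (ω / 2 ^ 24) - bv l)
      ≤ exp ((A + 140737488355329 - (ω * 2 ^ 23 + l * 2 ^ 8)) / 2 ^ 32) := by
    apply exp_le_exp.2
    unfold bv
    linarith
  rw [abs_le] at h4 h5
  have b1 := mul_le_mul_of_nonneg_left h4.2 (Nat.cast_nonneg (α := ℝ) cp)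
  have b2 := mul_le_mul_of_nonneg_left h4.1 (Nat.cast_nonneg (α := ℝ) cn)
  have b3 := mul_le_mul_of_nonneg_left h5.2 (Nat.cast_nonneg (α := ℝ) sp)
  have b4 := mul_le_mul_of_nonneg_left h5.1 (Nat.cast_nonneg (α := ℝ) sn)
  nlinarith

theorem Pw_scale {k0 k2 c s m z n w : ℝ} (h : 0 ≤ Pw k0 k2 c s m z n w) :
    0 ≤ Pw (k0 / 2 ^ 24) (k2 / 2 ^ 24) (c / 2 ^ 24) (s / 2 ^ 24) (m / 2 ^ 24) (z / 2 ^ 24)
      (n / 2 ^ 24) w := by
  unfold Pw at h ⊢
  linarith

theorem chkG2_sound {k m z mp mn zp zn np nm sB a b cp cn sp sn l k2p k2n χ k0n : ℕ}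
    (hm : (mp : ℝ) - mn = bv m * 2 ^ 24) (hz : (zp : ℝ) - zn = bv z * 2 ^ 24)
    (hk : (l : ℝ) + (cp - cn + 2 ^ 39) + χ * (sB * (sB * sB)) / 2 ^ 72 ≤ k0n)
    (h : chkG2 k mp mn zp zn np nm sB a b cp cn sp sn l k2p k2n χ k0n = true) :
    (mkE k m z np nm sB).On (a / 2 ^ 24) (b / 2 ^ 24) ∧ (b : ℝ) ≤ 2 ^ 26 := by
  simp only [chkG2, band_eq, bor_eq] at h
  obtain ⟨h1, h2, h3, h4, h5, h6, h7, h8⟩ := h
  have h1' := ble_cast h1
  have h2' := ble_cast h2
  have h3' := ble_cast h3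
  rw [cast_nadd] at h2'
  push_cast at h2' h3'
  have h5' := chkH_sound h5 (by linarith)
  have h6' := chkH_sound h6 (by linarith)
  refine ⟨REnt.on_cell _ (c := ((cp : ℝ) - cn) / 2 ^ 24) (s := ((sp : ℝ) - sn) / 2 ^ 24)
    (l0 := bv l) (k0 := (((1099528404992 : ℕ) : ℝ) - k0n) / 2 ^ 24)
    (k2 := ((k2p : ℝ) - k2n) / 2 ^ 24) (χ := χ / 2 ^ 24) (by linarith) (by linarith)
    (by positivity) ?_ ?_ h5' h6' (fun w hw => ?_) (fun w hw => ?_), by linarith⟩
  · intro h0
    rcases h4 with h4 | h4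
    · have := ble_cast h4
      simp only [mkE] at h0
      push_cast at this
      linarith
    · have := ble_cast h4
      have h9 : (0 : ℝ) ≤ χ := by positivity
      push_cast at this
      linarith
  · simp only [mkE, bv]
    push_cast
    linarith
  · have := Pw_scale (side_sound h7 (w := w) (by simpa using hw))
    rw [hm, hz, cast_nadd] at this
    simp only [mkE]
    convert this using 2 <;> ring
  · have := Pw_scale (side_sound h8 (w := w) (by simpa using hw))
    rw [hm, hz, cast_nadd] at this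
    simp only [mkE]
    convert this using 2 <;> ring

theorem chkG_sound {k m z mp mn zp zn np nm sB a d : ℕ}
    (hm : (mp : ℝ) - mn = bv m * 2 ^ 24) (hz : (zp : ℝ) - zn = bv z * 2 ^ 24)
    (h : chkG k mp mn zp zn np nm sB a d = true) :
    (mkE k m z np nm sB).On (a / 2 ^ 24) (fld d 0 / 2 ^ 24) ∧ (fld d 0 : ℝ) ≤ 2 ^ 26 := by
  simp only [chkG, force_eq] at h
  refine chkG2_sound hm hz ?_ h
  have h1 := cast_shr_ge (Nat.mul (fld d 5) (Nat.mul sB (Nat.mul sB sB))) 72
  have h2 := bp_bn (fld d 1)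
  rw [cast_nadd, cast_nadd, cast_nadd, h2, bv]
  simp only [cast_nmul] at h1
  push_cast
  linarith

theorem chkD_sound {k m z mp mn zp zn np nm sB b sp sn : ℕ}
    (hm : (mp : ℝ) - mn = bv m * 2 ^ 24) (hz : (zp : ℝ) - zn = bv z * 2 ^ 24)
    (h : chkD k m mp mn zp zn np nm b sp sn = true) :
    (mkE k m z np nm sB).On 0 (b / 2 ^ 24) ∧ (b : ℝ) ≤ 2 ^ 26 := by
  simp only [chkD, band_eq] at h
  obtain ⟨h1, h2, h3, h4, h5⟩ := h
  have h1' := ble_cast h1
  have h2' := ble_cast h2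
  simp only [cast_nadd, cast_nmul] at h2'
  push_cast at h1' h2'
  have h3' := chkH_sound h3 (by linarith)
  have e1 : bv 549755813888 = 0 := by rw [bv]; norm_num
  have e2 : (((16777216 : ℕ) : ℝ) - (0 : ℕ)) / 2 ^ 24 = 1 := by norm_num
  rw [e1, e2] at h3'
  have p1 : (0 : ℝ) ≤ sp := by positivity
  have p2 : (0 : ℝ) ≤ sn := by positivity
  have p3 : (0 : ℝ) ≤ zp := by positivity
  have hsm : (zn : ℝ) / 2 ^ 24 / 32 + ((sp + sn) / 2 ^ 24 / 6 + 1 / 24) / 1024 ≤ bv m + 1 / 2 := by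
    rw [bv]; linarith
  refine ⟨REnt.on_cell _ (c := 1) (s := ((sp : ℝ) - sn) / 2 ^ 24)
    (l0 := 0) (k0 := 0) (k2 := 0) (χ := 0) (by positivity) (by linarith) le_rfl (fun _ => rfl)
    (by simp) (by simp) h3' (fun w hw => ?_) (fun w hw => ?_), by linarith⟩
  · simp only [mkE, add_zero]
    rcases le_total w (1 / 32) with hw1 | hw1
    · exact small_w (by positivity) (by rw [abs_le]; constructor <;> linarith) (by linarith)
        (by positivity) hsm hw hw1
    · have := Pw_scale (side_sound h4 (w := w) (by push_cast; linarith))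
      rw [hm, hz] at this
      convert this using 2 <;> norm_num
  · simp only [mkE, add_zero, neg_zero]
    rcases le_total w (1 / 32) with hw1 | hw1
    · exact small_w (by positivity) (by rw [abs_le]; constructor <;> linarith) (by linarith)
        (by positivity) hsm hw hw1
    · have := Pw_scale (side_sound h5 (w := w) (by push_cast; linarith))
      rw [hm, hz] at this
      convert this using 2 <;> ring

theorem chkEnd_sound {sB a : ℕ} (h : chkEnd sB a = true) (ha : (a : ℝ) ≤ 2 ^ 26) :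
    EndAt (sB / 2 ^ 24) (a / 2 ^ 24) := by
  simp only [chkEnd, band_eq, bor_eq] at h
  rcases h with h | ⟨h1, h2, h3, h4, h5⟩
  · left
    have := ble_cast h
    push_cast at this
    linarith [pi_lt_d20]
  · right
    have h1' := ble_cast h1
    have h2' := ble_cast h2
    have h3' := ble_cast h3
    have h4' := ble_cast h4
    have h5' := ble_cast h5
    have h6 := cast_nsub_ge (aC a) 2417851638666308395991040
    simp only [cast_nmul, cast_shl] at h5'
    rw [cast_nsub (a := aC sB) (by push_cast at h3' ⊢; linarith), cast_nsub h4'] at h5'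
    obtain ⟨A, hA⟩ : ∃ A : ℝ, A = (Nat.sub (aC a) 2417851638666308395991040 : ℕ) := ⟨_, rfl⟩
    rw [← hA] at h5' h6
    clear hA h1 h2 h3 h4 h5
    push_cast at h1' h2' h3' h4' h5' h6
    obtain ⟨c1, -⟩ := aCS sB (by linarith)
    obtain ⟨c2, c3⟩ := aCS a ha
    rw [abs_le] at c1 c2 c3
    have q1 : (aC sB : ℝ) - 2417851639792208302833664 ≤ cos (sB / 2 ^ 24) * 2 ^ 80 := by
      linarith [c1.2]
    have q2 : (aS a : ℝ) - 2417851639792208302833664 ≤ sin (a / 2 ^ 24) * 2 ^ 80 := by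
      linarith [c3.2]
    have q3 := mul_le_mul q1 q2 (by linarith) (by linarith)
    have q4 : cos (a / 2 ^ 24) * 2 ^ 80 ≤ A := by linarith [c2.1]
    have q5 := mul_le_mul_of_nonneg_left q4 (show (0 : ℝ) ≤ sB * (sB * sB) by positivity)
    refine ⟨by linarith, by linarith, by positivity, by linarith, ?_⟩
    nlinarith

theorem chkL_sound {k m z mp mn zp zn np nm sB : ℕ}
    (hm : (mp : ℝ) - mn = bv m * 2 ^ 24) (hz : (zp : ℝ) - zn = bv z * 2 ^ 24) (n : ℕ) :
    ∀ a d : ℕ, (a : ℝ) ≤ 2 ^ 26 → (mkE k m z np nm sB).On 0 (a / 2 ^ 24) →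
      chkL k mp mn zp zn np nm sB n a d = true →
      ∃ b : ℝ, (mkE k m z np nm sB).On 0 b ∧ EndAt (sB / 2 ^ 24) b := by
  induction n with
  | zero => exact fun a d ha h0 h => ⟨_, h0, chkEnd_sound h ha⟩
  | succ n ih =>
    intro a d _ h0 h
    have h' : band (chkG k mp mn zp zn np nm sB a d)
      (force (fld d 0) fun b => chkL k mp mn zp zn np nm sB n b (Nat.shiftRight d 240)) = true := h
    rw [band_eq, force_eq] at h'
    obtain ⟨g1, g2⟩ := chkG_sound hm hz h'.1
    exact ih _ _ g2 (h0.trans g1) h'.2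

theorem chkHalf_sound {k m z np nm sB d : ℕ} (h : chkHalf k m z np nm sB d = true) :
    ∃ b : ℝ, (mkE k m z np nm sB).On 0 b ∧ EndAt (sB / 2 ^ 24) b := by
  simp only [chkHalf, force_eq, band_eq] at h
  obtain ⟨g1, g2⟩ := chkD_sound (sB := sB) (bp_bn m) (bp_bn z) h.1
  exact chkL_sound (bp_bn m) (bp_bn z) _ _ _ g2 g1 h.2

theorem REnt.mirror_mirror (e : REnt) : e.mirror.mirror = e := by
  simp [REnt.mirror]

/-- The coded entry and its mirror image are valid. -/
def V2 (x : ℕ) : Prop := (dec x).Valid ∧ (dec x).mirror.Valid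

theorem bv_neg {k : ℕ} (h : k < 2 ^ 40) : bv (Nat.sub 1099511627776 k) = -bv k := by
  have : (k : ℝ) < 2 ^ 40 := by exact_mod_cast h
  rw [bv, bv, cast_nsub (by push_cast; linarith)]
  push_cast; ring

theorem chkE_sound {x d1 d2 : ℕ} (h : chkE x d1 d2 = true) : V2 x := by
  simp only [chkE, force_eq, band_eq] at h
  obtain ⟨a, a1, a2⟩ := chkHalf_sound h.1
  obtain ⟨b, b1, b2⟩ := chkHalf_sound h.2
  rw [mkE, bv_neg (fld_lt x 1)] at b1
  exact ⟨REnt.valid_of_on a1 b1 a2 b2,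
    REnt.valid_of_on b1 (by rw [REnt.mirror_mirror]; exact a1) b2 a2⟩

/-- Record number `k` (240 bits) of a chunk. -/
noncomputable def rec6 (c k : ℕ) : ℕ :=
  Nat.mod (Nat.shiftRight c (Nat.mul 240 k))
    1766847064778384329583297500742918515827483896875618958121606201292619776

/-- Check of the records `k, k + 1, ...` of a chunk against a list of certificates. -/
noncomputable def chkC (c : ℕ) (l : List (ℕ × ℕ)) : ℕ → Bool :=
  List.rec (motive := fun _ => ℕ → Bool) (fun k => Nat.ble 16 k)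
    (fun p _ ih k => band (force (rec6 c k) fun x => chkE x p.1 p.2) (force (Nat.add k 1) ih)) l

def ChunkOK (c : ℕ) : Prop := ∀ k < 16, V2 (rec6 c k)

theorem chkC_aux (c : ℕ) (l : List (ℕ × ℕ)) : ∀ k0, chkC c l k0 = true →
    ∀ k, k0 ≤ k → k < 16 → V2 (rec6 c k) := by
  induction l with
  | nil =>
    intro k0 h k h1 h2
    have : 16 ≤ k0 := Nat.le_of_ble_eq_true h
    omega
  | cons p l ih =>
    intro k0 h k h1 h2
    have h' : band (force (rec6 c k0) fun x => chkE x p.1 p.2)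
      (force (Nat.add k0 1) (chkC c l)) = true := h
    rw [band_eq, force_eq, force_eq, Nat.add_eq] at h'
    rcases h1.eq_or_lt with rfl | h3
    · exact chkE_sound h'.1
    · exact ih _ h'.2 k (by omega) h2

theorem chkC_sound {c : ℕ} {l : List (ℕ × ℕ)} (h : chkC c l 0 = true) : ChunkOK c :=
  fun k hk => chkC_aux c l 0 h k (Nat.zero_le _) hk

/-- Binary tree of chunks. -/
inductive BT where
  | leaf : ℕ → BT
  | node : BT → BT → BT

noncomputable def BT.get (t : BT) : ℕ → ℕ :=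
  BT.rec (motive := fun _ => ℕ → ℕ) (fun c _ => c)
    (fun _ _ l r i => ite' (Nat.beq (Nat.land i 1) 0) (force (Nat.shiftRight i 1) l)
      (force (Nat.shiftRight i 1) r)) t

def BT.All (P : ℕ → Prop) : BT → Prop
  | .leaf c => P c
  | .node l r => l.All P ∧ r.All P

theorem BT.get_all {P : ℕ → Prop} (t : BT) : t.All P → ∀ i, P (t.get i) := by
  induction t with
  | leaf c => exact fun h _ => h
  | node l r ihl ihr =>
    intro h i
    have e : (BT.node l r).get i = ite' (Nat.beq (Nat.land i 1) 0)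
      (force (Nat.shiftRight i 1) l.get) (force (Nat.shiftRight i 1) r.get) := rfl
    rw [e, force_eq, force_eq]
    cases Nat.beq (Nat.land i 1) 0
    · exact ihr h.2 _
    · exact ihl h.1 _

/-- Record number `i` of the table `t`. -/
noncomputable def ent0 (t : BT) (i : ℕ) : ℕ := rec6 (t.get (Nat.shiftRight i 4)) (Nat.land i 15)

theorem ent0_valid {t : BT} (h : t.All ChunkOK) (i : ℕ) : V2 (ent0 t i) :=
  BT.get_all t h _ _ (Nat.lt_succ_of_le (Nat.and_le_right (n := i) (m := 15)))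

noncomputable def pack6 (a b c d e f : ℕ) : ℕ :=
  Nat.add a (Nat.shiftLeft (Nat.add b (Nat.shiftLeft (Nat.add c (Nat.shiftLeft (Nat.add d
    (Nat.shiftLeft (Nat.add e (Nat.shiftLeft f 40)) 40)) 40)) 40)) 40)

theorem fld_pack6 {a b c d e f : ℕ} (ha : a < 2 ^ 40) (hb : b < 2 ^ 40) (hc : c < 2 ^ 40)
    (hd : d < 2 ^ 40) (he : e < 2 ^ 40) (hf : f < 2 ^ 40) :
    fld (pack6 a b c d e f) 0 = a ∧ fld (pack6 a b c d e f) 1 = b ∧ fld (pack6 a b c d e f) 2 = c ∧
      fld (pack6 a b c d e f) 3 = d ∧ fld (pack6 a b c d e f) 4 = e ∧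
      fld (pack6 a b c d e f) 5 = f := by
  simp only [fld, pack6, nmod_eq, nshr_eq, nshl_eq, Nat.add_eq, Nat.mul_eq]
  omega

/-- The record of the mirror image. -/
noncomputable def mir (x : ℕ) : ℕ :=
  ite' (Nat.ble 1 (fld x 1)) (pack6 (fld x 0) (Nat.sub 1099511627776 (fld x 1)) (fld x 2) (fld x 4)
    (fld x 3) (fld x 5)) x

theorem mir_valid {x : ℕ} (h : V2 x) : (dec (mir x)).Valid := by
  unfold mir
  cases hk : Nat.ble 1 (fld x 1)
  · exact h.1
  · have h1 := Nat.le_of_ble_eq_true hk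
    have h2 : Nat.sub 1099511627776 (fld x 1) < 2 ^ 40 := by rw [Nat.sub_eq]; omega
    obtain ⟨e0, e1, e2, e3, e4, e5⟩ := fld_pack6 (fld_lt x 0) h2 (fld_lt x 2) (fld_lt x 4)
      (fld_lt x 3) (fld_lt x 5)
    rw [ite'_true, dec, e0, e1, e2, e3, e4, e5, mkE, bv_neg (fld_lt x 1)]
    exact h.2

/-- Entry number `i`: the lowest bit of `i` asks for the mirror image. -/
noncomputable def ent (t : BT) (i : ℕ) : ℕ :=
  force (ent0 t (Nat.shiftRight i 1)) fun x => ite' (Nat.beq (Nat.land i 1) 0) x (mir x)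

theorem ent_valid {t : BT} (h : t.All ChunkOK) (i : ℕ) : (dec (ent t i)).Valid := by
  rw [ent, force_eq]
  cases Nat.beq (Nat.land i 1) 0
  · exact mir_valid (ent0_valid h _)
  · exact (ent0_valid h _).1

end Pool.Agent.Lib.MP_33650d_pr
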