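import Pool.Agent.Lib.MP_33650d_pr.Lane

namespace Pool.Agent.Lib.MP_33650d_pr
open Real

theorem nmod_eq (a b : ℕ) : Nat.mod a b = a % b := rfl
theorem ndiv_eq (a b : ℕ) : Nat.div a b = a / b := rfl
theorem nshr_eq (a b : ℕ) : Nat.shiftRight a b = a / 2 ^ b := Nat.shiftRight_eq_div_pow a b
theorem nshl_eq (a b : ℕ) : Nat.shiftLeft a b = a * 2 ^ b := Nat.shiftLeft_eq a b
theorem npow_eq (a b : ℕ) : Nat.pow a b = a ^ b := rfl

/-- Strict iteration. -/
noncomputable def iter (F : ℕ → ℕ) (r : ℕ) : ℕ → ℕ :=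
  Nat.rec (motive := fun _ => ℕ → ℕ) (fun z => z) (fun _ ih z => force (F z) ih) r

theorem iter_zero (F : ℕ → ℕ) (z : ℕ) : iter F 0 z = z := rfl

theorem iter_succ (F : ℕ → ℕ) (r z : ℕ) : iter F (r + 1) z = iter F r (F z) :=
  force_eq (F z) (iter F r)

theorem cast_shr_le (a k : ℕ) : ((Nat.shiftRight a k : ℕ) : ℝ) ≤ a / 2 ^ k := by
  show ((a >>> k : ℕ) : ℝ) ≤ _
  rw [Nat.shiftRight_eq_div_pow]
  exact_mod_cast (Nat.cast_div_le (α := ℝ) (m := a) (n := 2 ^ k))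

theorem cast_div_gt (a b : ℕ) (hb : 0 < b) : (a : ℝ) / b - 1 ≤ ((a / b : ℕ) : ℝ) := by
  have h := Nat.lt_div_mul_add (a := a) hb
  have hb' : (0 : ℝ) < b := by exact_mod_cast hb
  have h' : (a : ℝ) < ((a / b : ℕ) : ℝ) * b + b := by exact_mod_cast h
  rw [sub_le_iff_le_add, div_le_iff₀ hb']; linarith

theorem cast_shr_ge (a k : ℕ) : (a : ℝ) / 2 ^ k - 1 ≤ ((Nat.shiftRight a k : ℕ) : ℝ) := by
  show _ ≤ ((a >>> k : ℕ) : ℝ)
  rw [Nat.shiftRight_eq_div_pow]
  exact_mod_cast cast_div_gt a (2 ^ k) (by positivity)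

theorem cast_shl (a k : ℕ) : ((Nat.shiftLeft a k : ℕ) : ℝ) = a * 2 ^ k := by
  show ((a <<< k : ℕ) : ℝ) = _
  rw [Nat.shiftLeft_eq]; push_cast; rfl

theorem cast_nadd (a b : ℕ) : ((Nat.add a b : ℕ) : ℝ) = a + b := by
  rw [Nat.add_eq]; push_cast; rfl

theorem cast_nmul (a b : ℕ) : ((Nat.mul a b : ℕ) : ℝ) = a * b := by
  rw [Nat.mul_eq]; push_cast; rfl

theorem cast_nsub_ge (a b : ℕ) : (a : ℝ) - b ≤ ((Nat.sub a b : ℕ) : ℝ) := by
  rw [Nat.sub_eq]
  rcases le_total b a with h | h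
  · rw [Nat.cast_sub h]
  · have : (a : ℝ) ≤ b := by exact_mod_cast h
    have : (0 : ℝ) ≤ ((a - b : ℕ) : ℝ) := by positivity
    linarith

theorem cast_nsub {a b : ℕ} (h : (b : ℝ) ≤ a) : ((Nat.sub a b : ℕ) : ℝ) = a - b := by
  rw [Nat.sub_eq, Nat.cast_sub (by exact_mod_cast h)]

theorem ble_cast {a b : ℕ} (h : Nat.ble a b = true) : (a : ℝ) ≤ b := by
  exact_mod_cast Nat.le_of_ble_eq_true h

noncomputable def mn (a b : ℕ) : ℕ := ite' (Nat.ble a b) a b

theorem mn_eq (a b : ℕ) : mn a b = min a b := by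
  unfold mn
  cases h : Nat.ble a b
  · have : ¬ a ≤ b := by rw [← Nat.ble_eq]; simp [h]
    simp; omega
  · have := Nat.le_of_ble_eq_true h
    simp; omega

noncomputable def mx (a b : ℕ) : ℕ := ite' (Nat.ble a b) b a

theorem mx_eq (a b : ℕ) : mx a b = max a b := by
  unfold mx
  cases h : Nat.ble a b
  · have : ¬ a ≤ b := by rw [← Nat.ble_eq]; simp [h]
    simp; omega
  · have := Nat.le_of_ble_eq_true h
    simp; omega

noncomputable def sqUp (r : ℕ) : ℕ → ℕ :=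
  iter (fun u => Nat.add (Nat.shiftRight (Nat.mul u u) 64) 1) r

noncomputable def sqDn (r : ℕ) : ℕ → ℕ := iter (fun u => Nat.shiftRight (Nat.mul u u) 64) r

theorem sqUp_spec (r : ℕ) : ∀ (u : ℕ) (z : ℝ), exp z * 2 ^ 64 ≤ u →
    exp (2 ^ r * z) * 2 ^ 64 ≤ sqUp r u := by
  induction r with
  | zero => intro u z h; simpa [sqUp, iter_zero] using h
  | succ r ih =>
    intro u z h
    have e : sqUp (r + 1) u = sqUp r (Nat.add (Nat.shiftRight (Nat.mul u u) 64) 1) :=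
      iter_succ _ _ _
    rw [e, show (2 : ℝ) ^ (r + 1) * z = 2 ^ r * (z + z) by ring]
    apply ih
    have h1 := cast_shr_ge (Nat.mul u u) 64
    rw [cast_nadd, exp_add]
    rw [cast_nmul] at h1
    have h2 : exp z * 2 ^ 64 * (exp z * 2 ^ 64) ≤ u * u :=
      mul_self_le_mul_self (by positivity) h
    have h3 : exp z * exp z * 2 ^ 64 ≤ (u : ℝ) * u / 2 ^ 64 := by
      rw [le_div_iff₀ (by positivity)]; linarith
    push_cast; linarith

theorem sqDn_spec (r : ℕ) : ∀ (u : ℕ) (z : ℝ), (u : ℝ) ≤ exp z * 2 ^ 64 →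
    (sqDn r u : ℝ) ≤ exp (2 ^ r * z) * 2 ^ 64 := by
  induction r with
  | zero => intro u z h; simpa [sqDn, iter_zero] using h
  | succ r ih =>
    intro u z h
    have e : sqDn (r + 1) u = sqDn r (Nat.shiftRight (Nat.mul u u) 64) :=
      iter_succ _ _ _
    rw [e, show (2 : ℝ) ^ (r + 1) * z = 2 ^ r * (z + z) by ring]
    apply ih
    have h1 := cast_shr_le (Nat.mul u u) 64
    rw [exp_add]
    rw [cast_nmul] at h1
    have h2 : (u : ℝ) * u ≤ exp z * 2 ^ 64 * (exp z * 2 ^ 64) :=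
      mul_self_le_mul_self (by positivity) h
    have h3 : (u : ℝ) * u / 2 ^ 64 ≤ exp z * exp z * 2 ^ 64 := by
      rw [div_le_iff₀ (by positivity)]; linarith
    linarith

theorem exp_base {z : ℝ} (hz : |z| ≤ 1) : |exp z - (1 + z + z ^ 2 / 2)| ≤ |z| ^ 3 / 4 := by
  have h := Real.exp_bound hz (n := 3) (by norm_num)
  simp only [Finset.sum_range_succ, Finset.range_zero, Finset.sum_empty, Nat.factorial] at h
  norm_num at h
  have : 0 ≤ |z| ^ 3 := by positivity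
  linarith

/-- `y ^ 2 / 2 ^ 25 + y ^ 3 / 2 ^ 70 + 2 ^ 64 + 2`, rounded. -/
noncomputable def exq (y : ℕ) : ℕ :=
  Nat.add (Nat.add (Nat.shiftRight (Nat.mul y y) 25) (Nat.shiftRight (Nat.mul y (Nat.mul y y)) 70))
    18446744073709551618

theorem exq_ge (y : ℕ) : (y : ℝ) ^ 2 / 2 ^ 25 + (y : ℝ) ^ 3 / 2 ^ 70 + 2 ^ 64 ≤ exq y := by
  have h1 := cast_shr_ge (Nat.mul y y) 25
  have h2 := cast_shr_ge (Nat.mul y (Nat.mul y y)) 70
  simp only [exq, cast_nadd, cast_nmul] at *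
  push_cast
  have e1 : (y : ℝ) * y = y ^ 2 := by ring
  have e2 : (y : ℝ) * (y * y) = y ^ 3 := by ring
  rw [e2] at h2; rw [e1] at h1
  linarith

noncomputable def expUn (y : ℕ) : ℕ := sqUp 12 (Nat.sub (exq y) (Nat.shiftLeft y 20))
noncomputable def expUp (y : ℕ) : ℕ := sqUp 12 (Nat.add (exq y) (Nat.shiftLeft y 20))

/-- Upper bound for `2 ^ 64 * exp ((p - n) / 2 ^ 32)`. -/
noncomputable def expU (p n : ℕ) : ℕ :=
  ite' (Nat.ble p n) (force (mn (Nat.sub n p) 274877906944) expUn)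
    (ite' (Nat.ble p (Nat.add n 17592186044416)) (force (Nat.sub p n) expUp)
      (Nat.pow 2 (Nat.add p 64)))

theorem exp_up_aux (y : ℕ) (hy : (y : ℝ) ≤ 2 ^ 44) (σ : ℝ) (hσ : σ = 1 ∨ σ = -1) :
    exp (σ * y / 2 ^ 44) * 2 ^ 64 ≤ exq y + σ * (y * 2 ^ 20) := by
  have hy0 : (0 : ℝ) ≤ y := by positivity
  have ha : |σ * y / 2 ^ 44| = (y : ℝ) / 2 ^ 44 := by
    rcases hσ with rfl | rfl
    · rw [one_mul, abs_of_nonneg (by positivity)]
    · rw [neg_mul, one_mul, neg_div, abs_neg, abs_of_nonneg (by positivity)]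
  have h := exp_base (z := σ * y / 2 ^ 44) (by rw [ha, div_le_one (by positivity)]; exact hy)
  rw [ha] at h
  have h1 := (abs_le.1 h).2
  have h2 := exq_ge y
  have e : (σ * y / 2 ^ 44) ^ 2 = (y : ℝ) ^ 2 / 2 ^ 88 := by
    rcases hσ with rfl | rfl <;> ring
  rw [e] at h1
  nlinarith

theorem expU_spec (p n : ℕ) : exp (((p : ℝ) - n) / 2 ^ 32) * 2 ^ 64 ≤ expU p n := by
  unfold expU
  cases h : Nat.ble p n
  · have hpn : n ≤ p := by
      have : ¬ p ≤ n := by rw [← Nat.ble_eq]; simp [h]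
      omega
    rw [ite'_false]
    cases h2 : Nat.ble p (Nat.add n 17592186044416)
    · rw [ite'_false]
      show _ ≤ (((2 : ℕ) ^ (p + 64) : ℕ) : ℝ)
      push_cast
      rw [pow_add]
      apply mul_le_mul_of_nonneg_right _ (by positivity)
      have h3 : ((p : ℝ) - n) / 2 ^ 32 ≤ p * log 2 := by
        have := Real.log_two_gt_d9
        have hp : (0 : ℝ) ≤ p := by positivity
        have hn : (0 : ℝ) ≤ n := by positivity
        rw [div_le_iff₀ (by positivity)]; nlinarith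
      calc _ ≤ exp (p * log 2) := exp_le_exp.2 h3
        _ = 2 ^ p := by rw [mul_comm, exp_mul, exp_log (by norm_num), rpow_natCast]
    · rw [ite'_true, force_eq]
      have h3 := ble_cast h2
      rw [cast_nadd] at h3
      have hc : ((Nat.sub p n : ℕ) : ℝ) = p - n := cast_nsub (by exact_mod_cast hpn)
      have := exp_up_aux (Nat.sub p n) (by rw [hc]; push_cast at h3; linarith) 1 (Or.inl rfl)
      have h5 := sqUp_spec 12 (Nat.add (exq (Nat.sub p n)) (Nat.shiftLeft (Nat.sub p n) 20))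
        (1 * ((Nat.sub p n : ℕ) : ℝ) / 2 ^ 44) (by rw [cast_nadd, cast_shl]; linarith)
      rw [hc] at h5
      rw [expUp]
      convert h5 using 3
      ring
  · rw [ite'_true, force_eq, mn_eq]
    have hpn := Nat.le_of_ble_eq_true h
    set y := min (Nat.sub n p) 274877906944 with hy
    have hy1 : (y : ℝ) ≤ n - p := by
      rw [← cast_nsub (by exact_mod_cast hpn)]; exact_mod_cast min_le_left _ _
    have hy2 : (y : ℝ) ≤ 274877906944 := by exact_mod_cast min_le_right _ _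
    have := exp_up_aux y (by linarith [show (274877906944 : ℝ) ≤ 2 ^ 44 by norm_num]) (-1)
      (Or.inr rfl)
    have h4 := cast_nsub_ge (exq y) (Nat.shiftLeft y 20)
    rw [cast_shl] at h4
    have h5 := sqUp_spec 12 (Nat.sub (exq y) (Nat.shiftLeft y 20)) (-1 * y / 2 ^ 44) (by linarith)
    refine le_trans ?_ h5
    apply mul_le_mul_of_nonneg_right _ (by positivity)
    apply exp_le_exp.2
    linarith

noncomputable def expLn (y : ℕ) : ℕ :=
  sqDn 12 (Nat.sub (Nat.add (Nat.shiftRight (Nat.mul y y) 25) 18446744073709551615)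
    (Nat.add (Nat.shiftRight (Nat.mul y (Nat.mul y y)) 70) (Nat.shiftLeft y 20)))

/-- Lower bound for `2 ^ 64 * exp (-y / 2 ^ 32)`. -/
noncomputable def expL (y : ℕ) : ℕ := ite' (Nat.ble y 17592186044416) (force y expLn) 0

theorem expL_spec (y : ℕ) : (expL y : ℝ) ≤ exp (-(y : ℝ) / 2 ^ 32) * 2 ^ 64 := by
  unfold expL
  cases h : Nat.ble y 17592186044416
  · rw [ite'_false]; push_cast; positivity
  · rw [ite'_true, force_eq]
    have hy := ble_cast h
    have hy0 : (0 : ℝ) ≤ y := by positivity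
    have ha : |-(y : ℝ) / 2 ^ 44| = (y : ℝ) / 2 ^ 44 := by
      rw [neg_div, abs_neg, abs_of_nonneg (by positivity)]
    have hb := exp_base (z := -(y : ℝ) / 2 ^ 44)
      (by rw [ha, div_le_one (by positivity)]; push_cast at hy; linarith)
    rw [ha] at hb
    have h1 := (abs_le.1 hb).1
    have h2 := cast_shr_le (Nat.mul y y) 25
    have h3 := cast_shr_ge (Nat.mul y (Nat.mul y y)) 70
    simp only [cast_nmul] at h2 h3
    have h5 := sqDn_spec 12 (Nat.sub (Nat.add (Nat.shiftRight (Nat.mul y y) 25) 18446744073709551615)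
      (Nat.add (Nat.shiftRight (Nat.mul y (Nat.mul y y)) 70) (Nat.shiftLeft y 20)))
      (-(y : ℝ) / 2 ^ 44) (by
        rw [Nat.sub_eq]
        rcases le_total (Nat.add (Nat.shiftRight (Nat.mul y (Nat.mul y y)) 70) (Nat.shiftLeft y 20))
          (Nat.add (Nat.shiftRight (Nat.mul y y) 25) 18446744073709551615) with h6 | h6
        · rw [Nat.cast_sub h6, cast_nadd, cast_nadd, cast_shl]
          generalize ((Nat.shiftRight (Nat.mul y y) 25 : ℕ) : ℝ) = A at *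
          generalize ((Nat.shiftRight (Nat.mul y (Nat.mul y y)) 70 : ℕ) : ℝ) = B at *
          clear h6 h
          push_cast
          nlinarith
        · rw [Nat.sub_eq_zero_of_le h6]; push_cast; positivity)
    rw [expLn]
    convert h5 using 3
    ring

/-- Real and imaginary parts of a packed complex number (bias 2, scale `2 ^ 80`). -/
noncomputable def cre (z : ℕ) : ℝ := ((Nat.mod z 79228162514264337593543950336 : ℕ) : ℝ) / 2 ^ 80 - 2
noncomputable def cim (z : ℕ) : ℝ := ((Nat.shiftRight z 96 : ℕ) : ℝ) / 2 ^ 80 - 2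

def Near (z : ℕ) (θ e : ℝ) : Prop :=
  ‖((cre z : ℂ) + (cim z : ℂ) * Complex.I) - Complex.exp (θ * Complex.I)‖ ≤ e

theorem cre_pack {a b : ℕ} (ha : (a : ℝ) < 2 ^ 96) :
    cre (Nat.add a (Nat.shiftLeft b 96)) = a / 2 ^ 80 - 2 ∧
      cim (Nat.add a (Nat.shiftLeft b 96)) = b / 2 ^ 80 - 2 := by
  have ha' : a < 2 ^ 96 := by exact_mod_cast ha
  have e1 : Nat.mod (Nat.add a (Nat.shiftLeft b 96)) 79228162514264337593543950336 = a := by
    rw [nmod_eq, Nat.add_eq, nshl_eq, show 79228162514264337593543950336 = 2 ^ 96 by norm_num,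
      Nat.add_mul_mod_self_right, Nat.mod_eq_of_lt ha']
  have e2 : Nat.shiftRight (Nat.add a (Nat.shiftLeft b 96)) 96 = b := by
    rw [nshr_eq, Nat.add_eq, nshl_eq, Nat.add_mul_div_right _ _ (by positivity),
      Nat.div_eq_of_lt ha', zero_add]
  rw [cre, cim, e1, e2]; exact ⟨rfl, rfl⟩

theorem norm_le_of_parts {a b c d e : ℝ} (h1 : |a - c| ≤ e) (h2 : |b - d| ≤ e) :
    ‖((a : ℂ) + b * Complex.I) - (c + d * Complex.I)‖ ≤ 2 * e := by
  have : ((a : ℂ) + b * Complex.I) - (c + d * Complex.I) = ((a - c : ℝ) : ℂ) + ((b - d : ℝ) : ℂ) * Complex.I := by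
    push_cast; ring
  rw [this]
  refine (norm_add_le _ _).trans ?_
  rw [norm_mul, Complex.norm_I, Complex.norm_real, Complex.norm_real, mul_one, norm_eq_abs,
    norm_eq_abs]
  linarith

theorem parts_of_norm {a b θ e : ℝ}
    (h : ‖((a : ℂ) + b * Complex.I) - Complex.exp (θ * Complex.I)‖ ≤ e) :
    |a - cos θ| ≤ e ∧ |b - sin θ| ≤ e := by
  have h1 := (Complex.abs_re_le_norm _).trans h
  have h2 := (Complex.abs_im_le_norm _).trans h
  simp [Complex.exp_ofReal_mul_I_re, Complex.exp_ofReal_mul_I_im] at h1 h2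
  exact ⟨h1, h2⟩

theorem norm_mul_near {u v : ℂ} {θ φ e f : ℝ} (hu : ‖u - Complex.exp (θ * Complex.I)‖ ≤ e)
    (hv : ‖v - Complex.exp (φ * Complex.I)‖ ≤ f) :
    ‖u * v - Complex.exp ((θ + φ : ℝ) * Complex.I)‖ ≤ e * (1 + f) + f := by
  have e1 : Complex.exp ((θ + φ : ℝ) * Complex.I)
      = Complex.exp (θ * Complex.I) * Complex.exp (φ * Complex.I) := by
    rw [← Complex.exp_add]; push_cast; ring_nf
  have n1 := Complex.norm_exp_ofReal_mul_I θ
  have n2 := Complex.norm_exp_ofReal_mul_I φ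
  set A := Complex.exp (θ * Complex.I)
  set B := Complex.exp (φ * Complex.I)
  have hv' : ‖v‖ ≤ 1 + f := by
    calc ‖v‖ = ‖B + (v - B)‖ := by congr 1; ring
      _ ≤ ‖B‖ + ‖v - B‖ := norm_add_le _ _
      _ ≤ 1 + f := by linarith
  rw [e1]
  calc ‖u * v - A * B‖ = ‖(u - A) * v + A * (v - B)‖ := by congr 1; ring
    _ ≤ ‖u - A‖ * ‖v‖ + ‖A‖ * ‖v - B‖ := by
      refine (norm_add_le _ _).trans ?_; rw [norm_mul, norm_mul]
    _ ≤ e * (1 + f) + f := by
      rw [n1, one_mul]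
      have := mul_le_mul hu hv' (norm_nonneg _) ((norm_nonneg _).trans hu)
      linarith

noncomputable def csq2 (c s : ℕ) : ℕ :=
  Nat.add (Nat.shiftRight (Nat.sub (Nat.add (Nat.add (Nat.mul c c) (Nat.shiftLeft s 82))
      2923003274661805836407369665432566039311865085952)
      (Nat.add (Nat.shiftLeft c 82) (Nat.mul s s))) 80)
    (Nat.shiftLeft (Nat.shiftRight (Nat.sub (Nat.add (Nat.mul 2 (Nat.mul c s))
      14615016373309029182036848327162830196559325429760)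
      (Nat.shiftLeft (Nat.add c s) 82)) 80) 96)

noncomputable def csq (z : ℕ) : ℕ :=
  csq2 (Nat.mod z 79228162514264337593543950336) (Nat.shiftRight z 96)

theorem shr_near {A B k : ℕ} {x : ℝ} (hx : 0 ≤ x) (h : (A : ℝ) - B = x * 2 ^ k) :
    |((Nat.shiftRight (Nat.sub A B) k : ℕ) : ℝ) - x| ≤ 1 := by
  have hk : (0 : ℝ) < 2 ^ k := by positivity
  have h0 : (B : ℝ) ≤ A := by nlinarith
  have h1 := cast_shr_le (Nat.sub A B) k
  have h2 := cast_shr_ge (Nat.sub A B) k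
  rw [cast_nsub h0, h, mul_div_cancel_right₀ _ hk.ne'] at h1 h2
  rw [abs_le]; constructor <;> linarith

seal Nat.shiftRight Nat.shiftLeft Nat.mod Nat.sub Nat.add Nat.mul

theorem csq2_spec {c s : ℕ} {a b : ℝ} (hc : (c : ℝ) = (a + 2) * 2 ^ 80)
    (hs : (s : ℝ) = (b + 2) * 2 ^ 80) (hn : a ^ 2 + b ^ 2 ≤ 2) :
    ∃ A B : ℕ, csq2 c s = Nat.add A (Nat.shiftLeft B 96) ∧
      |(A : ℝ) - (a * a - b * b + 2) * 2 ^ 80| ≤ 1 ∧ |(B : ℝ) - (b * a + a * b + 2) * 2 ^ 80| ≤ 1 :=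
  ⟨_, _, rfl,
    shr_near (by nlinarith [sq_nonneg a])
      (by simp only [cast_nadd, cast_nmul, cast_shl, hc, hs]; push_cast; ring),
    shr_near (by nlinarith [sq_nonneg (a + b)])
      (by simp only [cast_nadd, cast_nmul, cast_shl, hc, hs]; push_cast; ring)⟩

theorem near_sq_le {a b θ e : ℝ}
    (h : ‖((a : ℂ) + b * Complex.I) - Complex.exp (θ * Complex.I)‖ ≤ e) (he : e ≤ 1 / 1024) :
    a ^ 2 + b ^ 2 ≤ (1 + 1 / 1024) ^ 2 := by
  have h3 : ‖(a : ℂ) + b * Complex.I‖ ≤ 1 + 1 / 1024 := by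
    have n1 := Complex.norm_exp_ofReal_mul_I θ
    calc _ = ‖Complex.exp (θ * Complex.I) + (((a : ℂ) + b * Complex.I)
          - Complex.exp (θ * Complex.I))‖ := by congr 1; ring
      _ ≤ _ := (norm_add_le _ _).trans (by linarith)
  have h4 : ‖(a : ℂ) + b * Complex.I‖ ^ 2 = a ^ 2 + b ^ 2 := by
    rw [Complex.sq_norm, Complex.normSq_add_mul_I]
  rw [← h4]; exact pow_le_pow_left₀ (norm_nonneg _) h3 2

theorem csq_near {z : ℕ} {θ e : ℝ} (h : Near z θ e) (he : e ≤ 1 / 1024) :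
    Near (csq z) (2 * θ) ((2 + 1 / 1024) * e + 2 / 2 ^ 80) := by
  have he0 : 0 ≤ e := (norm_nonneg _).trans h
  have hm := norm_mul_near h h
  have hn := near_sq_le h he
  obtain ⟨A, B, e0, r1, r2⟩ := csq2_spec (c := Nat.mod z 79228162514264337593543950336)
    (s := Nat.shiftRight z 96) (a := cre z) (b := cim z) (by rw [cre]; field_simp; ring)
    (by rw [cim]; field_simp; ring) (by linarith)
  unfold Near
  rw [csq, e0]
  obtain ⟨a, ha⟩ : ∃ a, a = cre z := ⟨_, rfl⟩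
  obtain ⟨b, hb⟩ : ∃ b, b = cim z := ⟨_, rfl⟩
  rw [← ha, ← hb] at hm hn r1 r2
  clear ha hb e0 h
  have hlt := (abs_le.1 r1).2
  obtain ⟨e1, e2⟩ := cre_pack (a := A) (b := B) (by nlinarith [sq_nonneg b])
  rw [e1, e2]
  have q := norm_le_of_parts (e := 1 / 2 ^ 80) (a := (A : ℝ) / 2 ^ 80 - 2)
    (b := (B : ℝ) / 2 ^ 80 - 2) (c := a * a - b * b) (d := b * a + a * b)
    (by rw [abs_le] at r1 ⊢; constructor <;> linarith [r1.1, r1.2])
    (by rw [abs_le] at r2 ⊢; constructor <;> linarith [r2.1, r2.2])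
  have e4 : ((a * a - b * b : ℝ) : ℂ) + ((b * a + a * b : ℝ) : ℂ) * Complex.I
      = ((a : ℂ) + b * Complex.I) * ((a : ℂ) + b * Complex.I) := by
    push_cast; ring_nf; rw [Complex.I_sq]; ring
  rw [e4] at q
  rw [show 2 * θ = θ + θ by ring]
  refine (norm_sub_le_norm_sub_add_norm_sub _ _ _).trans ((add_le_add q hm).trans ?_)
  nlinarith

noncomputable def csqN (r : ℕ) : ℕ → ℕ := iter csq r

theorem csqN_succ (r z : ℕ) : csqN (r + 1) z = csqN r (csq z) := iter_succ _ _ _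

theorem csqN_near (r : ℕ) : ∀ (z : ℕ) (θ e : ℝ), Near z θ e →
    (2 + 1 / 1024) ^ r * (e + 2 / 2 ^ 80) ≤ 1 / 1024 →
    Near (csqN r z) (2 ^ r * θ) ((2 + 1 / 1024) ^ r * (e + 2 / 2 ^ 80) - 2 / 2 ^ 80) := by
  induction r with
  | zero => intro z θ e h _; simpa [csqN, iter_zero] using h
  | succ r ih =>
    intro z θ e h hr
    have he0 : 0 ≤ e := (norm_nonneg _).trans h
    have hq : (1 : ℝ) ≤ (2 + 1 / 1024) ^ r := one_le_pow₀ (by norm_num)
    rw [pow_succ (2 + 1 / 1024 : ℝ) r] at hr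
    have h1 := csq_near h (by nlinarith)
    have h2 := ih _ _ _ h1 (by nlinarith)
    rw [csqN_succ, show (2 : ℝ) ^ (r + 1) * θ = 2 ^ r * (2 * θ) by ring]
    refine le_trans h2 ?_
    rw [pow_succ (2 + 1 / 1024 : ℝ) r]; nlinarith

noncomputable def cbase (x : ℕ) : ℕ :=
  Nat.add (Nat.sub 3626777458843887524118528 (Nat.shiftRight (Nat.mul x x) 81))
    (Nat.shiftLeft (Nat.sub (Nat.add x 2417851639229258349412352)
      (Nat.div (Nat.mul x (Nat.mul x x)) 8769009823985417509222108996297698117935595257856)) 96)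

theorem cbase_spec (x : ℕ) : ∃ A B : ℕ, cbase x = Nat.add (Nat.sub 3626777458843887524118528 A)
      (Nat.shiftLeft (Nat.sub (Nat.add x 2417851639229258349412352) B) 96) ∧
    (A : ℝ) ≤ ((Nat.mul x x : ℕ) : ℝ) / 2 ^ 81 ∧ ((Nat.mul x x : ℕ) : ℝ) / 2 ^ 81 - 1 ≤ A ∧
    (B : ℝ) ≤ ((Nat.mul x (Nat.mul x x) : ℕ) : ℝ)
        / ((8769009823985417509222108996297698117935595257856 : ℕ) : ℝ) ∧
    ((Nat.mul x (Nat.mul x x) : ℕ) : ℝ)
      / ((8769009823985417509222108996297698117935595257856 : ℕ) : ℝ) - 1 ≤ B :=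
  ⟨_, _, rfl, cast_shr_le _ _, cast_shr_ge _ _, by rw [ndiv_eq]; exact Nat.cast_div_le,
    by rw [ndiv_eq]; exact cast_div_gt _ _ (by norm_num)⟩

theorem cbase_near (x : ℕ) (hx : (x : ℝ) ≤ 2 ^ 80) :
    Near (cbase x) (x / 2 ^ 80) ((x / 2 ^ 80) ^ 4 * (5 / 48) + 2 / 2 ^ 80) := by
  obtain ⟨y, hy⟩ : ∃ y : ℝ, y = x / 2 ^ 80 := ⟨_, rfl⟩
  rw [← hy]
  have hy0 : 0 ≤ y := by rw [hy]; positivity
  have hy1 : y ≤ 1 := by rw [hy, div_le_one (by positivity)]; exact hx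
  have hxy : (x : ℝ) = y * 2 ^ 80 := by rw [hy]; field_simp
  have y5 : y ^ 5 ≤ y ^ 4 := pow_le_pow_of_le_one hy0 hy1 (by norm_num)
  have y6 : 0 ≤ y ^ 4 := by positivity
  have hc := Real.cos_bound (x := y) (by rw [abs_of_nonneg hy0]; exact hy1)
  have hs := Real.sin_bound (x := y) (by rw [abs_of_nonneg hy0]; exact hy1)
  rw [abs_of_nonneg hy0] at hc hs
  obtain ⟨A, B, e0, a1, a2, b1, b2⟩ := cbase_spec x
  simp only [cast_nmul, hxy] at a1 a2 b1 b2
  push_cast at b1 b2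
  have y2 : y * y ≤ 1 := by nlinarith
  have y3 : y * (y * y) ≤ 1 := by nlinarith
  have y4 : 0 ≤ y * (y * y) := by positivity
  have c1 : ((Nat.sub 3626777458843887524118528 A : ℕ) : ℝ) = 3626777458843887524118528 - A := by
    rw [cast_nsub (by push_cast; nlinarith)]; push_cast; rfl
  have c2 : ((Nat.sub (Nat.add x 2417851639229258349412352) B : ℕ) : ℝ)
      = y * 2 ^ 80 + 2417851639229258349412352 - B := by
    rw [cast_nsub (by rw [cast_nadd, hxy]; push_cast; nlinarith), cast_nadd, hxy]; push_cast; rfl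
  obtain ⟨A', hA⟩ : ∃ A', A' = Nat.sub 3626777458843887524118528 A := ⟨_, rfl⟩
  obtain ⟨B', hB⟩ : ∃ B', B' = Nat.sub (Nat.add x 2417851639229258349412352) B := ⟨_, rfl⟩
  rw [← hA, ← hB] at e0
  rw [← hA] at c1
  rw [← hB] at c2
  clear hA hB
  obtain ⟨e1, e2⟩ := cre_pack (a := A') (b := B')
    (by rw [c1]; have : (0 : ℝ) ≤ A := by positivity
        linarith [show (3626777458843887524118528 : ℝ) < 2 ^ 96 by norm_num])
  unfold Near
  rw [e0, e1, e2, c1, c2, Complex.exp_mul_I, ← Complex.ofReal_cos, ← Complex.ofReal_sin]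
  clear e0 e1 e2
  refine (norm_le_of_parts (e := y ^ 4 * (5 / 96) + 1 / 2 ^ 80) ?_ ?_).trans (by linarith)
  · rw [abs_le] at hc ⊢; constructor <;> nlinarith [hc.1, hc.2]
  · rw [abs_le] at hs ⊢; constructor <;> nlinarith [hs.1, hs.2]

/-- Approximation of `exp (i * 2 ^ r * x / 2 ^ 80)`. -/
noncomputable def cexp (r x : ℕ) : ℕ := force (cbase x) (csqN r)

theorem cexp_near (r x : ℕ) {b e : ℝ} (hx : (x : ℝ) / 2 ^ 80 ≤ b) (hb : b ≤ 1)
    (he : (2 + 1 / 1024) ^ r * (b ^ 4 * (5 / 48) + 4 / 2 ^ 80) ≤ e) (he1 : e ≤ 1 / 1024) :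
    Near (cexp r x) (2 ^ r * (x / 2 ^ 80)) e := by
  have h0 := cbase_near x (by
    have := hx.trans hb
    rwa [div_le_one (by positivity)] at this)
  have h1 : ((x : ℝ) / 2 ^ 80) ^ 4 ≤ b ^ 4 := pow_le_pow_left₀ (by positivity) hx 4
  have hq : (0 : ℝ) ≤ (2 + 1 / 1024) ^ r := by positivity
  have h2 : (2 + 1 / 1024 : ℝ) ^ r * (((x : ℝ) / 2 ^ 80) ^ 4 * (5 / 48) + 2 / 2 ^ 80 + 2 / 2 ^ 80)
      ≤ e := le_trans (mul_le_mul_of_nonneg_left (by linarith) hq) he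
  have h3 := csqN_near r _ _ _ h0 (h2.trans he1)
  rw [cexp, force_eq]
  exact le_trans h3 (by linarith [show (0 : ℝ) < 2 / 2 ^ 80 by positivity])

/-- Approximation of `exp (i * ω / 2 ^ 24)` for `ω ≤ 2 ^ 26`. -/
noncomputable def ang (ω : ℕ) : ℕ := cexp 12 (Nat.shiftLeft ω 44)

theorem ang_spec (ω : ℕ) (h : (ω : ℝ) ≤ 2 ^ 26) :
    |cre (ang ω) - cos (ω / 2 ^ 24)| ≤ 1 / 2 ^ 31 ∧ |cim (ang ω) - sin (ω / 2 ^ 24)| ≤ 1 / 2 ^ 31 := by
  have := cexp_near 12 (Nat.shiftLeft ω 44) (b := 1 / 2 ^ 10) (e := 1 / 2 ^ 31)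
    (by rw [cast_shl, div_le_iff₀ (by positivity)]; linarith) (by norm_num) (by norm_num)
    (by norm_num)
  rw [cast_shl, show (2 : ℝ) ^ 12 * (ω * 2 ^ 44 / 2 ^ 80) = ω / 2 ^ 24 by ring] at this
  exact parts_of_norm this

end Pool.Agent.Lib.MP_33650d_pr
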