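import Mathlib

namespace Pool.Agent.Lib.MP_33650d_pr

/-- A function with second derivative at most `M` lies above its chord, up to `M d ^ 2 / 8`. -/
theorem lerp_lower {f f' f'' : ℝ → ℝ} {a b M x : ℝ} (hab : a < b) (hM : 0 ≤ M)
    (h1 : ∀ y, HasDerivAt f (f' y) y) (h2 : ∀ y, HasDerivAt f' (f'' y) y)
    (h3 : ∀ y, a ≤ y → y ≤ b → f'' y ≤ M) (hx1 : a ≤ x) (hx2 : x ≤ b) :
    (b - x) / (b - a) * f a + (x - a) / (b - a) * f b - M * (b - a) ^ 2 / 8 ≤ f x := by
  have d1 : ∀ y, HasDerivAt (fun y => f y - M * y ^ 2 / 2) (f' y - M * y) y := by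
    intro y
    have := (h1 y).sub (((hasDerivAt_pow 2 y).const_mul M).div_const 2)
    exact this.congr_deriv (by simp; ring)
  have d2 : ∀ y, HasDerivAt (fun y => f' y - M * y) (f'' y - M) y := by
    intro y
    have := (h2 y).sub ((hasDerivAt_id y).const_mul M)
    exact this.congr_deriv (by simp)
  have hc : ConcaveOn ℝ (Set.Icc a b) fun y => f y - M * y ^ 2 / 2 := by
    refine concaveOn_of_hasDerivWithinAt2_nonpos (convex_Icc a b)
      (fun y _ => (d1 y).continuousAt.continuousWithinAt)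
      (fun y _ => (d1 y).hasDerivWithinAt) (fun y _ => (d2 y).hasDerivWithinAt) ?_
    intro y hy
    have := interior_subset hy
    linarith [h3 y this.1 this.2]
  have hd : 0 < b - a := by linarith
  have := hc.2 (Set.left_mem_Icc.2 hab.le) (Set.right_mem_Icc.2 hab.le)
    (show 0 ≤ (b - x) / (b - a) by apply div_nonneg <;> linarith)
    (show 0 ≤ (x - a) / (b - a) by apply div_nonneg <;> linarith) (by field_simp; ring)
  simp only [smul_eq_mul] at this
  have e1 : (b - x) / (b - a) * a + (x - a) / (b - a) * b = x := by field_simp; ring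
  rw [e1] at this
  have e2 : (b - x) / (b - a) * (f a - M * a ^ 2 / 2) + (x - a) / (b - a) * (f b - M * b ^ 2 / 2)
      = (b - x) / (b - a) * f a + (x - a) / (b - a) * f b - M * x ^ 2 / 2
        - M * ((x - a) * (b - x)) / 2 := by field_simp; ring
  rw [e2] at this
  have e3 : (x - a) * (b - x) ≤ (b - a) ^ 2 / 4 := by nlinarith [sq_nonneg (a + b - 2 * x)]
  have := mul_le_mul_of_nonneg_left e3 hM
  linarith

theorem lerp_nonneg {f f' f'' : ℝ → ℝ} {a b M x : ℝ} (hab : a < b) (hM : 0 ≤ M)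
    (h1 : ∀ y, HasDerivAt f (f' y) y) (h2 : ∀ y, HasDerivAt f' (f'' y) y)
    (h3 : ∀ y, a ≤ y → y ≤ b → f'' y ≤ M) (hx1 : a ≤ x) (hx2 : x ≤ b)
    (ha : M * (b - a) ^ 2 / 8 ≤ f a) (hb : M * (b - a) ^ 2 / 8 ≤ f b) : 0 ≤ f x := by
  have h := lerp_lower hab hM h1 h2 h3 hx1 hx2
  have hd : 0 < b - a := by linarith
  have p1 : 0 ≤ (b - x) / (b - a) := by apply div_nonneg <;> linarith
  have p2 : 0 ≤ (x - a) / (b - a) := by apply div_nonneg <;> linarith
  have p3 : (b - x) / (b - a) + (x - a) / (b - a) = 1 := by field_simp; ring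
  have q1 := mul_le_mul_of_nonneg_left ha p1
  have q2 := mul_le_mul_of_nonneg_left hb p2
  have : (b - x) / (b - a) * (M * (b - a) ^ 2 / 8) + (x - a) / (b - a) * (M * (b - a) ^ 2 / 8)
      = M * (b - a) ^ 2 / 8 := by rw [← add_mul, p3, one_mul]
  linarith

/-- Every point of `[lo, hi]` lies in a unit cell of the grid. -/
theorem exists_cell {lo hi : ℕ} {x : ℝ} (hlh : lo < hi) (h1 : (lo : ℝ) ≤ x) (h2 : x ≤ hi) :
    ∃ i : ℕ, lo ≤ i ∧ i + 1 ≤ hi ∧ (i : ℝ) ≤ x ∧ x ≤ i + 1 := by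
  have h0 : 0 ≤ x := le_trans (by positivity) h1
  rcases eq_or_lt_of_le h2 with h | h
  · refine ⟨hi - 1, by omega, by omega, ?_, ?_⟩
    · rw [h]; exact_mod_cast Nat.sub_le _ _
    · rw [h, Nat.cast_sub (by omega)]; simp
  · refine ⟨⌊x⌋₊, Nat.le_floor h1, ?_, Nat.floor_le h0, (Nat.lt_floor_add_one x).le⟩
    exact (Nat.floor_lt h0).2 h

end Pool.Agent.Lib.MP_33650d_pr
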