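import Pool.Agent.Lib.MP_33650d_pr.Defs2
import Pool.Agent.Lib.MP_33650d_pr.Lerp
import Pool.Agent.Lib.MP_33650d_pr.Bridge

namespace Pool.Agent.Lib.MP_33650d_pr
open MeasureTheory ProbabilityTheory Real Set

/-- The standard normal density. -/
noncomputable def ga_phi (x : ℝ) : ℝ := exp (-x ^ 2 / 2) / √(2 * π)

theorem ga_sqrt : 2.5 ≤ √(2 * π) := by
  apply le_sqrt_of_sq_le
  linarith [pi_gt_d2]

theorem ga_int : Integrable ga_phi := by
  have := integrable_exp_neg_mul_sq (b := 1 / 2) (by norm_num)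
  refine (this.div_const √(2 * π)).congr (ae_of_all _ fun t => ?_)
  simp only [ga_phi]
  congr 2
  ring

theorem ga_cont : Continuous ga_phi := by
  unfold ga_phi
  fun_prop

theorem ga_Phi_eq (x : ℝ) : Phi x = ∫ y in Iic x, ga_phi y := by
  have hp : ∀ y, gaussianPDFReal 0 1 y = ga_phi y := fun y => by
    simp [gaussianPDFReal, ga_phi, div_eq_inv_mul]
  rw [Phi, cdf_eq_real, Measure.real, gaussianReal_apply_eq_integral _ one_ne_zero,
    ENNReal.toReal_ofReal (integral_nonneg fun y => gaussianPDFReal_nonneg _ _ _)]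
  simp only [hp]

theorem ga_deriv_Phi (x : ℝ) : HasDerivAt Phi (ga_phi x) x := by
  have e : Phi = fun x => Phi 0 + ∫ y in (0 : ℝ)..x, ga_phi y := by
    funext x
    rw [← intervalIntegral.integral_Iic_sub_Iic ga_int.integrableOn ga_int.integrableOn,
      ← ga_Phi_eq, ← ga_Phi_eq]
    ring
  rw [e]
  exact (intervalIntegral.integral_hasDerivAt_right (ga_cont.intervalIntegrable _ _)
    (ga_cont.stronglyMeasurableAtFilter _ _) ga_cont.continuousAt).const_add _

theorem ga_deriv_phi (x : ℝ) : HasDerivAt ga_phi (-x * ga_phi x) x := by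
  have h : HasDerivAt (fun x : ℝ => -x ^ 2 / 2) (-x) x := by
    have := ((hasDerivAt_pow 2 x).neg).div_const 2
    exact this.congr_deriv (by simp; ring)
  exact (h.exp.div_const √(2 * π)).congr_deriv (by simp only [ga_phi]; ring)

theorem ga_deriv_phi' (x : ℝ) :
    HasDerivAt (fun x => -x * ga_phi x) ((x ^ 2 - 1) * ga_phi x) x :=
  (((hasDerivAt_id x).neg).mul (ga_deriv_phi x)).congr_deriv (by simp; ring)

theorem ga_phi_nonneg (x : ℝ) : 0 ≤ ga_phi x := by
  unfold ga_phi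
  positivity

theorem ga_mul_le {c x B : ℝ} (hB : 0 ≤ B) (h : c ≤ 2.5 * B * exp (x ^ 2 / 2)) :
    c * ga_phi x ≤ B := by
  have h0 : 0 < √(2 * π) := by positivity
  have h1 : 0 < exp (x ^ 2 / 2) := exp_pos _
  rw [ga_phi, neg_div, exp_neg, ← mul_div_assoc, div_le_iff₀ h0, ← div_eq_mul_inv, div_le_iff₀ h1]
  refine h.trans ?_
  have := mul_le_mul_of_nonneg_left ga_sqrt hB
  nlinarith

theorem ga_phi_le (x : ℝ) : ga_phi x ≤ 0.4 := by
  have h := ga_mul_le (c := 1) (x := x) (B := 0.4) (by norm_num)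
    (by linarith [one_le_exp (show 0 ≤ x ^ 2 / 2 by positivity)])
  rwa [one_mul] at h

theorem ga_phi1_le (x : ℝ) : -x * ga_phi x ≤ 0.26 := by
  refine ga_mul_le (by norm_num) ?_
  have h := quadratic_le_exp_of_nonneg (show 0 ≤ x ^ 2 / 2 by positivity)
  nlinarith [sq_nonneg (x + 1), sq_nonneg (x ^ 2 - 1)]

theorem ga_phi2_le (x : ℝ) : |(x ^ 2 - 1) * ga_phi x| ≤ 0.4 := by
  rw [abs_mul, abs_of_nonneg (ga_phi_nonneg x)]
  refine ga_mul_le (by norm_num) ?_
  have h := quadratic_le_exp_of_nonneg (show 0 ≤ x ^ 2 / 2 by positivity)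
  rw [abs_le]
  constructor <;> nlinarith [sq_nonneg x, sq_nonneg (x ^ 2 - 2)]

theorem ga_fence {h h' : ℝ → ℝ} (h0 : h 0 = 0) (hd : ∀ t, HasDerivAt h (h' t) t)
    (hp : ∀ t, 0 ≤ t → 0 ≤ h' t) {t : ℝ} (ht : 0 ≤ t) : 0 ≤ h t := by
  have hm : MonotoneOn h (Ici 0) := by
    refine monotoneOn_of_deriv_nonneg (convex_Ici 0)
      (fun y _ => (hd y).continuousAt.continuousWithinAt)
      (fun y _ => (hd y).differentiableAt.differentiableWithinAt) fun y hy => ?_
    rw [(hd y).deriv]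
    exact hp y (interior_subset hy)
  have := hm (mem_Ici.2 le_rfl) (mem_Ici.2 ht) ht
  rwa [h0] at this

theorem Phi_zero : Phi 0 = 1 / 2 := by
  have := br_Phi_neg 0
  rw [neg_zero] at this
  linarith

theorem Phi_mono {x y : ℝ} (h : x ≤ y) : Phi x ≤ Phi y := by
  exact monotone_cdf _ h

theorem Phi_nonneg (x : ℝ) : 0 ≤ Phi x := by
  exact cdf_nonneg _ _

theorem ga_step (a e : ℝ) (he : |e| = 1) {d : ℝ} (hd : 0 ≤ d) :
    0 ≤ d ^ 3 / 30 + e * (Phi (a + d) - Phi a - d * (ga_phi a + ga_phi (a + d)) / 2) := by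
  have s1 : ∀ t : ℝ, HasDerivAt (fun t => Phi (a + t)) (ga_phi (a + t)) t := fun t =>
    (ga_deriv_Phi (a + t)).comp_const_add a t
  have s2 : ∀ t : ℝ, HasDerivAt (fun t => ga_phi (a + t)) (-(a + t) * ga_phi (a + t)) t := fun t =>
    (ga_deriv_phi (a + t)).comp_const_add a t
  have s3 : ∀ t : ℝ, HasDerivAt (fun t => -(a + t) * ga_phi (a + t))
      (((a + t) ^ 2 - 1) * ga_phi (a + t)) t := fun t =>
    (ga_deriv_phi' (a + t)).comp_const_add a t
  have k1 : ∀ t : ℝ, 0 ≤ t → 0 ≤ t ^ 2 / 10 + e * ((ga_phi (a + t) - ga_phi a) / 2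
      - t * (-(a + t) * ga_phi (a + t)) / 2) := by
    intro t ht
    refine ga_fence (h := fun t => t ^ 2 / 10 + e * ((ga_phi (a + t) - ga_phi a) / 2
      - t * (-(a + t) * ga_phi (a + t)) / 2))
      (h' := fun t => t / 5 - e * (t * (((a + t) ^ 2 - 1) * ga_phi (a + t)) / 2))
      (by simp) (fun t => ?_) (fun t ht => ?_) ht
    · have := ((hasDerivAt_pow 2 t).div_const 10).add
        (((((s2 t).sub_const (ga_phi a)).div_const 2).sub
          (((hasDerivAt_id t).mul (s3 t)).div_const 2)).const_mul e)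
      exact this.congr_deriv (by simp; ring)
    · have b1 := ga_phi2_le (a + t)
      generalize ((a + t) ^ 2 - 1) * ga_phi (a + t) = w at *
      have b2 : e * w ≤ 0.4 := (le_abs_self _).trans (by rw [abs_mul, he, one_mul]; exact b1)
      nlinarith
  refine ga_fence (h := fun d => d ^ 3 / 30
    + e * (Phi (a + d) - Phi a - d * (ga_phi a + ga_phi (a + d)) / 2)) (by simp) (fun t => ?_) k1 hd
  have := ((hasDerivAt_pow 3 t).div_const 30).add
    ((((s1 t).sub_const (Phi a)).sub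
      (((hasDerivAt_id t).mul ((s2 t).const_add (ga_phi a))).div_const 2)).const_mul e)
  exact this.congr_deriv (by simp; ring)

theorem Phi_step {a d : ℝ} (hd : 0 < d) :
    |Phi (a + d) - Phi a - d * (exp (-a ^ 2 / 2) + exp (-(a + d) ^ 2 / 2)) / (2 * √(2 * π))|
      ≤ d ^ 3 / 20 := by
  have h1 := ga_step a 1 (by simp) hd.le
  have h2 := ga_step a (-1) (by simp) hd.le
  have e : d * (exp (-a ^ 2 / 2) + exp (-(a + d) ^ 2 / 2)) / (2 * √(2 * π))
      = d * (ga_phi a + ga_phi (a + d)) / 2 := by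
    have h0 : 0 < √(2 * π) := by positivity
    simp only [ga_phi]
    field_simp
  have h3 : 0 < d ^ 3 := by positivity
  rw [e, abs_le]
  constructor <;> linarith

/-- A table built from pointwise lower bounds. -/
theorem phiTab_of {T : ℕ → ℝ} (h : ∀ i < 512, T i + 1 / 200000 ≤ Phi (4 * π * sx i)) :
    PhiTab T := by
  intro i hi θ h0 h1
  have a1 := h i (by omega)
  have a2 := h (i + 1) (by omega)
  have e : 4 * π * sx (i + 1) = 4 * π * sx i + π / 256 := by
    simp only [sx]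
    push_cast
    ring
  rw [e] at a2
  have e' : 4 * π * (sx i + θ / 1024) = 4 * π * sx i + θ * (π / 256) := by ring
  rw [e']
  generalize 4 * π * sx i = a at *
  have hp : 0 < π / 256 := by positivity
  have key := lerp_lower (a := a) (b := a + π / 256) (M := 0.26) (x := a + θ * (π / 256))
    (by linarith) (by norm_num) ga_deriv_Phi ga_deriv_phi (fun y _ _ => ga_phi1_le y)
    (by nlinarith) (by nlinarith)
  have e1 : (a + π / 256 - (a + θ * (π / 256))) / (a + π / 256 - a) = 1 - θ := by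
    rw [add_sub_cancel_left]
    field_simp
    ring
  have e2 : (a + θ * (π / 256) - a) / (a + π / 256 - a) = θ := by
    rw [add_sub_cancel_left, add_sub_cancel_left]
    field_simp
  rw [e1, e2, add_sub_cancel_left] at key
  have b1 := mul_le_mul_of_nonneg_left a1 (sub_nonneg.2 h1)
  have b2 := mul_le_mul_of_nonneg_left a2 h0
  have b3 : π ^ 2 ≤ 10 := by nlinarith [pi_lt_d2, pi_pos]
  nlinarith

theorem ga_int1 {ν : Measure ℝ} {bp bm g : ℝ} (h : SumLaw ν bp bm g) :
    Integrable (fun y : ℝ => y) ν ∧ Integrable (fun y : ℝ => y ^ 2) ν := by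
  have := h.prob
  exact ⟨h.mem2.integrable (by norm_num), h.mem2.integrable_sq⟩

theorem ga_quad {ν : Measure ℝ} {bp bm g : ℝ} (h : SumLaw ν bp bm g) (c0 c1 c2 : ℝ) :
    Integrable (fun y : ℝ => c0 + c1 * y + c2 * y ^ 2) ν ∧
      ∫ y, c0 + c1 * y + c2 * y ^ 2 ∂ν = c0 + c2 := by
  have := h.prob
  obtain ⟨i1, i2⟩ := ga_int1 h
  have j1 := (integrable_const c0).fun_add (i1.const_mul c1)
  refine ⟨j1.fun_add (i2.const_mul c2), ?_⟩
  rw [integral_add j1 (i2.const_mul c2), integral_add (integrable_const c0) (i1.const_mul c1),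
    integral_const_mul, integral_const_mul, h.mean, h.var]
  simp

theorem cantelli {ν : Measure ℝ} {bp bm g : ℝ} (h : SumLaw ν bp bm g) {x : ℝ} (hx : x ≤ 0) :
    ν.real (Iic x) * (1 + x ^ 2) ≤ 1 := by
  have := h.prob
  obtain ⟨i1, i2⟩ := ga_quad h 1 (2 * x) (x ^ 2)
  have key : ν.real (Iic x) * (1 + x ^ 2) ^ 2 ≤ 1 + x ^ 2 := by
    refine le_of_le_of_eq ?_ i2
    rw [← integral_indicator_one measurableSet_Iic, ← integral_mul_const]
    refine integral_mono (((integrable_const 1).indicator measurableSet_Iic).mul_const _) i1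
      fun y => ?_
    by_cases hy : y ≤ x
    · have b1 : x ^ 2 ≤ x * y := by nlinarith
      have b2 : (1 + x ^ 2) ^ 2 ≤ (1 + x * y) ^ 2 := pow_le_pow_left₀ (by positivity) (by linarith) 2
      simp only [indicator, mem_Iic, hy, if_true, Pi.one_apply, one_mul]
      linarith
    · simp only [indicator, mem_Iic, hy, if_false, zero_mul]
      nlinarith [sq_nonneg (1 + x * y)]
  have hp : 0 < 1 + x ^ 2 := by positivity
  refine le_of_mul_le_mul_right ?_ hp
  linarith

theorem ga_Phi_ge {t : ℝ} (ht : 0 ≤ t) : 1 / 2 - 0.4 * t ≤ Phi (-t) := by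
  have := ga_fence (h := fun t => 0.4 * t - (Phi t - Phi 0)) (h' := fun t => 0.4 - ga_phi t)
    (by simp) (fun t => (((hasDerivAt_id t).const_mul 0.4).sub
      ((ga_deriv_Phi t).sub_const _)).congr_deriv (by simp))
    (fun t _ => sub_nonneg.2 (ga_phi_le t)) ht
  rw [br_Phi_neg]
  simp only [Phi_zero] at this
  linarith

theorem large_bound {ν : Measure ℝ} {bp bm g : ℝ} (h : SumLaw ν bp bm g) (x : ℝ) :
    ν.real (Iic x) - Phi x ≤ 0.542 := by
  have := h.prob
  rcases le_total 0 x with hx | hx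
  · have a1 : ν.real (Iic x) ≤ 1 := measureReal_le_one
    have a2 := Phi_mono hx
    rw [Phi_zero] at a2
    linarith
  · have a1 := cantelli h hx
    have a2 := ga_Phi_ge (neg_nonneg.2 hx)
    have a3 := Phi_nonneg x
    rw [neg_neg] at a2
    have hp : 0 < 1 + x ^ 2 := by positivity
    rcases le_total x (-0.92) with hy | hy
    · have : ν.real (Iic x) ≤ 0.542 := by
        refine le_of_mul_le_mul_right (a1.trans ?_) hp
        nlinarith
      linarith
    · have : ν.real (Iic x) ≤ 1.042 + 0.4 * x := by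
        refine le_of_mul_le_mul_right (a1.trans ?_) hp
        have := mul_nonneg (sq_nonneg (x + 0.22)) (show 0 ≤ 0.866 + 0.4 * x by linarith)
        nlinarith
      linarith

theorem ga_char (μ : Measure ℝ) [IsProbabilityMeasure μ] (t : ℝ) :
    (charFun μ t).re = ∫ y, cos (t * y) ∂μ ∧ (charFun μ t).im = ∫ y, sin (t * y) ∂μ := by
  have i1 : Integrable (fun y => cos (t * y)) μ := Integrable.of_bound (by fun_prop) 1
    (ae_of_all _ fun y => abs_cos_le_one _)
  have i2 : Integrable (fun y => sin (t * y)) μ := Integrable.of_bound (by fun_prop) 1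
    (ae_of_all _ fun y => abs_sin_le_one _)
  have e : charFun μ t = (∫ y, cos (t * y) ∂μ : ℝ) + (∫ y, sin (t * y) ∂μ : ℝ) * Complex.I := by
    rw [charFun_apply_real, ← integral_complex_ofReal, ← integral_complex_ofReal,
      ← integral_mul_const, ← integral_add i1.ofReal (i2.ofReal.mul_const _)]
    congr 1
    funext y
    rw [← Complex.ofReal_mul, Complex.exp_mul_I]
    simp
  rw [e]
  simp

theorem ga_hK_shift (J : ℕ) (a0 : ℝ) (p q : ℕ → ℝ) (s : ℝ) (k : ℤ) :
    hK J a0 p q (s + k) = hK J a0 p q s + k * (2 * s + k - 1) := by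
  have e : ∀ j : ℕ, 2 * π * (j + 1) * (s + k)
      = 2 * π * (j + 1) * s + (((j + 1) * k : ℤ) : ℝ) * (2 * π) := fun j => by
    push_cast
    ring
  simp only [hK, e, cos_add_int_mul_two_pi, sin_add_int_mul_two_pi]
  ring

theorem ga_trig {p q r : ℝ} (h0 : 0 ≤ r) (h : p ^ 2 + q ^ 2 ≤ r ^ 2) (θ : ℝ) :
    -(p * cos θ + q * sin θ) ≤ r := by
  refine le_trans (neg_le_abs _) (abs_le_of_sq_le_sq ?_ h0)
  nlinarith [sq_nonneg (p * sin θ - q * cos θ), sin_sq_add_cos_sq θ]

theorem ga_hK_unit (J : ℕ) (a0 : ℝ)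
    (p q r : ℕ → ℝ) (hr0 : ∀ j < J, 0 ≤ r j) (hr : ∀ j < J, p j ^ 2 + q j ^ 2 ≤ r j ^ 2)
    (hker : ∀ i : ℕ, 1 ≤ i → i ≤ 4096 → max 0 (2 * ((i : ℝ) / 4096) - 1)
      + (2 + ∑ j ∈ Finset.range J, (2 * π * (j + 1)) ^ 2 * r j) / (8 * 4096 ^ 2)
      ≤ hK J a0 p q (i / 4096)) (c : ℝ) (hc0 : 0 ≤ c) (hc1 : c ≤ 1) {s : ℝ} (h0 : 0 ≤ s)
    (h1 : s ≤ 1) : c * (2 * s - 1) ≤ hK J a0 p q s := by
  set M := 2 + ∑ j ∈ Finset.range J, (2 * π * (j + 1)) ^ 2 * r j with hM
  have M0 : 0 ≤ M := add_nonneg zero_le_two (Finset.sum_nonneg fun j hj =>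
    mul_nonneg (sq_nonneg _) (hr0 j (Finset.mem_range.1 hj)))
  have g : ∀ i : ℕ, i ≤ 4096 →
      M / (8 * 4096 ^ 2) ≤ hK J a0 p q (i / 4096) - c * (2 * (i / 4096) - 1) := by
    intro i hi
    rcases Nat.eq_zero_or_pos i with rfl | hi0
    · have a1 := hker 4096 (by norm_num) le_rfl
      have a2 := ga_hK_shift J a0 p q 0 1
      have a3 := le_trans (add_le_add_left
        (le_max_left (0 : ℝ) (2 * (((4096 : ℕ) : ℝ) / 4096) - 1)) _) a1
      have a4 : (((4096 : ℕ) : ℝ) / 4096) = 0 + ((1 : ℤ) : ℝ) := by norm_num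
      have a5 : (((0 : ℕ) : ℝ) / 4096) = 0 := by norm_num
      rw [a5]
      rw [a4, a2, Int.cast_one] at a3
      linarith
    · have a1 := hker i hi0 hi
      have a2 := le_max_left (0 : ℝ) (2 * ((i : ℝ) / 4096) - 1)
      have a3 := le_max_right (0 : ℝ) (2 * ((i : ℝ) / 4096) - 1)
      generalize max (0 : ℝ) (2 * ((i : ℝ) / 4096) - 1) = m at *
      nlinarith
  obtain ⟨i, -, i1, i2, i3⟩ := exists_cell (lo := 0) (hi := 4096) (x := 4096 * s) (by norm_num)
    (by push_cast; linarith) (by push_cast; linarith)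
  have lin : ∀ (j : ℕ) (y : ℝ), HasDerivAt (fun y : ℝ => 2 * π * (j + 1) * y) (2 * π * (j + 1)) y :=
    fun j y => ((hasDerivAt_id y).const_mul _).congr_deriv (mul_one _)
  have d1 : ∀ y : ℝ, HasDerivAt (fun y => hK J a0 p q y - c * (2 * y - 1))
      (2 * y - 1 - 2 * c + ∑ j ∈ Finset.range J, (2 * π * (j + 1)) *
        (-p j * sin (2 * π * (j + 1) * y) + q j * cos (2 * π * (j + 1) * y))) y := by
    intro y
    have := (((((hasDerivAt_pow 2 y).const_add a0).sub (hasDerivAt_id y)).add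
      (HasDerivAt.fun_sum (u := Finset.range J) fun j _ =>
        (((lin j y).cos.const_mul (p j)).add ((lin j y).sin.const_mul (q j))))).sub
      ((((hasDerivAt_id y).const_mul 2).sub_const 1).const_mul c))
    refine this.congr_deriv ?_
    rw [Finset.sum_congr rfl (g := fun j : ℕ => (2 * π * (j + 1)) *
        (-p j * sin (2 * π * (j + 1) * y) + q j * cos (2 * π * (j + 1) * y))) fun j _ => by ring]
    simp
    ring
  have d2 : ∀ y : ℝ, HasDerivAt (fun y => 2 * y - 1 - 2 * c + ∑ j ∈ Finset.range J,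
      (2 * π * (j + 1)) * (-p j * sin (2 * π * (j + 1) * y) + q j * cos (2 * π * (j + 1) * y)))
      (2 + ∑ j ∈ Finset.range J, (2 * π * (j + 1)) ^ 2 *
        -(p j * cos (2 * π * (j + 1) * y) + q j * sin (2 * π * (j + 1) * y))) y := by
    intro y
    have := ((((hasDerivAt_id y).const_mul 2).sub_const 1).sub_const (2 * c)).add
      (HasDerivAt.fun_sum (u := Finset.range J) fun j _ =>
        (((lin j y).sin.const_mul (-p j)).add ((lin j y).cos.const_mul (q j))).const_mul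
          (2 * π * (j + 1)))
    refine this.congr_deriv ?_
    rw [mul_one]
    congr 1
    exact Finset.sum_congr rfl fun j _ => by ring
  have e : (((i + 1 : ℕ) : ℝ) / 4096 - (i : ℝ) / 4096) = 1 / 4096 := by
    push_cast
    ring
  have key := lerp_nonneg (a := (i : ℝ) / 4096) (b := ((i + 1 : ℕ) : ℝ) / 4096) (M := M) (x := s)
    (by push_cast; linarith) M0 d1 d2 (fun y _ _ => by
      refine add_le_add le_rfl (Finset.sum_le_sum fun j hj => ?_)
      have hj' := Finset.mem_range.1 hj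
      exact mul_le_mul_of_nonneg_left (ga_trig (hr0 j hj') (hr j hj') _) (sq_nonneg _))
    (by linarith) (by push_cast; linarith)
    (by rw [e]; linarith [g i (by omega)]) (by rw [e]; linarith [g (i + 1) i1])
  linarith

theorem ga_hK_ind {J : ℕ} {a0 : ℝ} {p q : ℕ → ℝ}
    (h : ∀ c : ℝ, 0 ≤ c → c ≤ 1 → ∀ s : ℝ, 0 ≤ s → s ≤ 1 → c * (2 * s - 1) ≤ hK J a0 p q s)
    (u : ℝ) : (if u ≤ 0 then 1 else 0) ≤ hK J a0 p q u := by
  have c1 := Int.le_ceil u
  have c2 := Int.ceil_lt_add_one u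
  have e := ga_hK_shift J a0 p q (u - (⌈u⌉ - 1)) (⌈u⌉ - 1)
  push_cast at e
  rw [sub_add_cancel] at e
  have s0 : 0 ≤ u - (⌈u⌉ - 1) := by linarith
  have s1 : u - (⌈u⌉ - 1) ≤ 1 := by linarith
  have a0 := h 0 le_rfl zero_le_one _ s0 s1
  have a1 := h 1 zero_le_one le_rfl _ s0 s1
  rw [e]
  generalize hK J _ p q (u - (⌈u⌉ - 1)) = H at *
  split_ifs with hu
  · have b1 : ⌈u⌉ ≤ 0 := Int.ceil_le.2 (by exact_mod_cast hu)
    rcases b1.eq_or_lt with b2 | b2
    · have b3 : ((⌈u⌉ : ℤ) : ℝ) = 0 := by exact_mod_cast b2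
      rw [b3] at a1 ⊢
      linarith
    · have b3 : ((⌈u⌉ : ℤ) : ℝ) ≤ -1 := by exact_mod_cast Int.le_sub_one_of_lt b2
      nlinarith
  · have b1 : 0 < ⌈u⌉ := Int.ceil_pos.2 (not_le.1 hu)
    rcases (Int.add_one_le_of_lt b1).eq_or_lt with b2 | b2
    · rw [← b2] at *
      push_cast at *
      nlinarith
    · have b3 : (2 : ℝ) ≤ ((⌈u⌉ : ℤ) : ℝ) := by exact_mod_cast Int.add_one_le_of_lt b2
      nlinarith

/-- The majorant inequality. -/
theorem kernel_bound {ν : Measure ℝ} {bp bm g : ℝ} (h : SumLaw ν bp bm g) (J : ℕ) (a0 : ℝ)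
    (p q r : ℕ → ℝ) (hr0 : ∀ j < J, 0 ≤ r j) (hr : ∀ j < J, p j ^ 2 + q j ^ 2 ≤ r j ^ 2)
    (hker : ∀ i : ℕ, 1 ≤ i → i ≤ 4096 → max 0 (2 * ((i : ℝ) / 4096) - 1)
      + (2 + ∑ j ∈ Finset.range J, (2 * π * (j + 1)) ^ 2 * r j) / (8 * 4096 ^ 2)
      ≤ hK J a0 p q (i / 4096)) (s : ℝ) :
    ν.real (Iic (4 * π * s)) ≤ a0 + 1 / (16 * π ^ 2) + s ^ 2 + s + ∑ j ∈ Finset.range J,
      ((p j * cos (2 * π * (j + 1) * s) - q j * sin (2 * π * (j + 1) * s))
          * (charFun ν (tj j)).re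
        + (p j * sin (2 * π * (j + 1) * s) + q j * cos (2 * π * (j + 1) * s))
          * (charFun ν (tj j)).im) := by
  have := h.prob
  have hp : 0 < 4 * π := by positivity
  have key := ga_hK_ind fun c c0 c1 s s0 s1 => ga_hK_unit J a0 p q r hr0 hr hker c c0 c1 s0 s1
  obtain ⟨i1, i2⟩ := ga_quad h (a0 + s ^ 2 + s) (-(2 * s + 1) / (4 * π)) (1 / (16 * π ^ 2))
  have ic : ∀ t : ℝ, Integrable (fun y => cos (t * y)) ν := fun t =>
    Integrable.of_bound (by fun_prop) 1 (ae_of_all _ fun y => abs_cos_le_one _)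
  have is : ∀ t : ℝ, Integrable (fun y => sin (t * y)) ν := fun t =>
    Integrable.of_bound (by fun_prop) 1 (ae_of_all _ fun y => abs_sin_le_one _)
  have i3 : ∀ j ∈ Finset.range J, Integrable (fun y =>
      (p j * cos (2 * π * (j + 1) * s) - q j * sin (2 * π * (j + 1) * s)) * cos (tj j * y)
        + (p j * sin (2 * π * (j + 1) * s) + q j * cos (2 * π * (j + 1) * s)) * sin (tj j * y))
      ν := fun j _ => ((ic _).const_mul _).fun_add ((is _).const_mul _)
  have i4 := integrable_finsetSum _ i3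
  have main := integral_mono ((integrable_const (1 : ℝ)).indicator (measurableSet_Iic (a := 4 * π * s)))
    (i1.fun_add i4) fun y => ?_
  · rw [integral_add i1 i4, i2, integral_finsetSum _ i3, integral_indicator_const _ measurableSet_Iic,
      smul_eq_mul, mul_one] at main
    refine main.trans (le_of_eq ?_)
    congr 1
    · ring
    · refine Finset.sum_congr rfl fun j _ => ?_
      rw [integral_add ((ic _).const_mul _) ((is _).const_mul _), integral_const_mul,
        integral_const_mul, (ga_char ν _).1, (ga_char ν _).2]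
  · refine le_trans (le_of_eq ?_) ((key (y / (4 * π) - s)).trans (le_of_eq ?_))
    · simp only [indicator, mem_Iic, sub_nonpos, div_le_iff₀ hp, mul_comm s]
    · simp only [hK]
      congr 1
      · field_simp
        ring
      · refine Finset.sum_congr rfl fun j _ => ?_
        have e : 2 * π * (j + 1) * (y / (4 * π) - s) = tj j * y - 2 * π * (j + 1) * s := by
          simp only [tj]
          field_simp
          ring
        rw [e, cos_sub, sin_sub]
        ring

end Pool.Agent.Lib.MP_33650d_pr
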