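import Pool.Agent.Lib.MP_33650d_pr.TabD
import Pool.Agent.Lib.MP_33650d_pr.Gauss

namespace Pool.Agent.Lib.MP_33650d_pr
open Real

noncomputable def tb_sq (n : ℕ) : Bool :=
  bor (Nat.ble n 0) (force (sqt n) fun x => band (Nat.ble 1 x)
    (band (Nat.ble (Nat.mul (Nat.sub x 1) (Nat.sub x 1)) (Nat.shiftLeft n 63))
      (Nat.ble (Nat.shiftLeft n 63) (Nat.mul (Nat.add x 1) (Nat.add x 1)))))

noncomputable def tb_A (a : ℕ) : Bool :=
  Nat.ble (expU 34359738368 (Nat.shiftLeft a 32))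
    (Nat.shiftLeft (bt tabA (Nat.mul 64 a) 18446744073709551616) 16)

noncomputable def tb_B (b : ℕ) : Bool :=
  Nat.ble (expU 0 (Nat.shiftLeft b 27))
    (Nat.shiftLeft (bt tabB (Nat.mul 64 b) 18446744073709551616) 4)

noncomputable def tb_z (j i : ℕ) : ℕ :=
  force (Nat.mod (Nat.mul (Nat.add j 1) (Nat.add i 768)) 1024) fun m =>
    cexp 16 (Nat.mul m 113187804032455044)

noncomputable def tb_C (j i : ℕ) : ℕ :=
  Nat.shiftRight (Nat.mod (tb_z j i) 79228162514264337593543950336) 40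

noncomputable def tb_S (j i : ℕ) : ℕ := Nat.shiftRight (Nat.shiftRight (tb_z j i) 96) 40

noncomputable def tb_X (j : ℕ) : Bool :=
  band (Nat.beq (xC j) (packD 128 (tb_C j) 9 0)) (Nat.beq (xS j) (packD 128 (tb_S j) 9 0))

noncomputable def tb_R (i : ℕ) : ℕ :=
  ite' (Nat.ble i 0) 1152921504606846976 (Nat.shiftLeft (Nat.add (Nat.mul i (Nat.sub 4096 i))
    (Nat.mul (Nat.sub (Nat.mul 2 i) 4096) 4096)) 36)

noncomputable def tb_run (test : ℕ → ℕ → Bool) (inc : ℕ → ℕ) (n : ℕ) : ℕ → ℕ → Bool :=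
  Nat.rec (motive := fun _ => ℕ → ℕ → Bool) (fun _ _ => true)
    (fun _ ih k a => band (test k a)
      (force (Nat.add a (inc k)) fun a' => force (Nat.add k 1) fun k' => ih k' a')) n

noncomputable def tb_eL (k : ℕ) : ℕ :=
  expL (Nat.add (Nat.shiftRight (Nat.mul 10851744800548 (Nat.mul k k)) 29) 1)

noncomputable def tb_eU (k : ℕ) : ℕ :=
  expU 0 (Nat.shiftRight (Nat.mul 10851744800545 (Nat.mul k k)) 29)

noncomputable def tb_lo (k : ℕ) : ℕ :=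
  Nat.sub (Nat.shiftRight (Nat.mul 1378033467233 (Nat.add (tb_eL k) (tb_eL (Nat.add k 1)))) 51)
    26634188864

noncomputable def tb_up (k : ℕ) : ℕ :=
  Nat.add (Nat.shiftRight (Nat.mul 1378033467236 (Nat.add (tb_eU k) (tb_eU (Nat.add k 1)))) 51)
    26634188865

noncomputable def tb_tlo (k a : ℕ) : Bool :=
  Nat.ble (Nat.add (fT (Nat.add 256 (Nat.shiftRight k 2))) (Nat.shiftLeft 92233720368548 46))
    (Nat.shiftLeft (Nat.add 9223372036854775808 a) 46)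

noncomputable def tb_tup (k a : ℕ) : Bool :=
  Nat.ble (Nat.add (fT (Nat.sub 256 (Nat.shiftRight (Nat.add k 3) 2)))
    (Nat.shiftLeft (Nat.add 92233720368548 a) 46)) (Nat.shiftLeft 9223372036854775808 46)

theorem tb_sq_ok : allN 257 tb_sq = true := by decide +kernel
theorem tb_A_ok : allN 32 tb_A = true := by decide +kernel
theorem tb_B_ok : allN 32 tb_B = true := by decide +kernel
theorem tb_X_ok : allN 9 tb_X = true := by decide +kernel
theorem tb_R_ok : Nat.beq rR (packD 72 tb_R 12 0) = true := by decide +kernel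
theorem tb_Q_ok : Nat.beq rQ (packD 128
    (fun i => Nat.shiftLeft (Nat.pow (Nat.add i 256) 2) 90) 9 0) = true := by decide +kernel
theorem tb_T_ok : Nat.beq rT (packD 128 fT 9 0) = true := by decide +kernel
theorem tb_T_le : allN 512 (fun i => Nat.ble (fT i) 1298074214633706907132624082305024) = true := by
  decide +kernel
theorem tb_lo_ok : tb_run tb_tlo tb_lo 1021 0 0 = true := by decide +kernel
theorem tb_up_ok : tb_run tb_tup tb_up 1025 0 0 = true := by decide +kernel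

theorem tb_h72 : h72 = Nat.shiftLeft (one72 12) 71 := Nat.eq_of_beq_eq_true (by decide +kernel)
theorem tb_h128 : h128 = Nat.shiftLeft one128 127 := Nat.eq_of_beq_eq_true (by decide +kernel)
theorem tb_one128 : one128 =
    Nat.div (Nat.sub (Nat.pow 2 65536) 1) 340282366920938463463374607431768211455 :=
  Nat.eq_of_beq_eq_true (by decide +kernel)

seal h72 h128 one128 Nat.shiftRight Nat.shiftLeft Nat.mod Nat.sub Nat.add Nat.mul Nat.pow Nat.land rR rQ rT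
  rC0 rC1 rC2 rC3 rC4 rC5 rC6 rC7 rC8 rS0x rS1x rS2x rS3x rS4x rS5x rS6x rS7x rS8x tabA tabB

theorem allN_spec {n : ℕ} {f : ℕ → Bool} (h : allN n f = true) : ∀ i < n, f i = true := by
  induction n with
  | zero => intro i hi; omega
  | succ n ih =>
    have e : allN (n + 1) f = band (f n) (allN n f) := rfl
    rw [e, band_eq] at h
    intro i hi
    rcases Nat.lt_succ_iff_lt_or_eq.1 hi with h1 | rfl
    · exact ih h.2 i h1
    · exact h.1

theorem sumN_eq (n : ℕ) (f : ℕ → ℕ) : sumN n f = ∑ i ∈ Finset.range n, f i := by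
  induction n with
  | zero => rfl
  | succ n ih =>
    have e : sumN (n + 1) f = Nat.add (sumN n f) (f n) := rfl
    rw [e, Nat.add_eq, ih, Finset.sum_range_succ]

theorem bt_lt (d o : ℕ) {m : ℕ} (h : 0 < m) : bt d o m < m := by
  rw [bt, nmod_eq]
  exact Nat.mod_lt _ h

theorem tb_rep_sum {w n m : ℕ} {X : ℕ → ℕ} {v : ℕ → ℕ → ℕ} {B : ℕ → ℕ}
    (h : ∀ j < m, Rep w n (X j) (v j) (B j)) :
    Rep w n (sumN m X) (fun i => ∑ j ∈ Finset.range m, v j i) (∑ j ∈ Finset.range m, B j) := by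
  induction m with
  | zero => exact Rep.zero w n
  | succ m ih =>
    have e : sumN (m + 1) X = Nat.add (sumN m X) (X m) := rfl
    rw [e, Finset.sum_range_succ]
    exact ((ih fun j hj => h j (by omega)).add (h m (by omega))).congr
      fun i _ => (Finset.sum_range_succ (fun j => v j i) m).symm

theorem Rep.sumN {w n m : ℕ} {X : ℕ → ℕ} {v : ℕ → ℕ → ℕ} {B : ℕ → ℕ}
    (h : ∀ j < m, Rep w n (X j) (v j) (B j)) :
    Rep w n (sumN m X) (fun i => ∑ j ∈ Finset.range m, v j i) (∑ j ∈ Finset.range m, B j) := by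
  exact tb_rep_sum h

theorem Rep.shl {w n X B : ℕ} {u : ℕ → ℕ} (k : ℕ) (h : Rep w n X u B) :
    Rep w n (Nat.shiftLeft X k) (fun i => u i * 2 ^ k) (B * 2 ^ k) := by
  refine ⟨?_, fun i hi => Nat.mul_le_mul_right _ (h.2 i hi)⟩
  rw [nshl_eq, h.1, mul_comm, pk_mul]
  exact pk_congr fun i _ => mul_comm _ _

theorem tb_land (x : ℕ) : Nat.land x 1984 = Nat.mul 64 (x / 64 % 32) := by
  rw [Nat.land_eq, Nat.mul_eq]
  have h1 : (x &&& 1984) / 2 ^ 6 = x / 2 ^ 6 % 2 ^ 5 := by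
    rw [Nat.and_div_two_pow, ← Nat.and_two_pow_sub_one_eq_mod]
  have h2 : (x &&& 1984) % 2 ^ 6 = 0 := by
    rw [Nat.and_mod_two_pow, show 1984 % 2 ^ 6 = 0 by norm_num, Nat.and_zero]
  omega

theorem tb_exp_neg {x : ℝ} (hx : 0 ≤ x) : exp (-x) ≤ 1 - x + x ^ 2 / 2 := by
  have h1 := quadratic_le_exp_of_nonneg hx
  have h2 : 0 < 1 - x + x ^ 2 / 2 := by nlinarith [sq_nonneg (x - 1)]
  rw [exp_neg, inv_le_iff_one_le_mul₀ (exp_pos x)]
  have := mul_le_mul_of_nonneg_left h1 h2.le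
  nlinarith [sq_nonneg (x ^ 2)]

theorem tb_A_spec {a : ℕ} (ha : a < 32) :
    exp (8 - a) * 2 ^ 48 ≤ (bt tabA (Nat.mul 64 a) 18446744073709551616 : ℕ) := by
  have h := ble_cast (allN_spec tb_A_ok a ha)
  have h2 := expU_spec 34359738368 (Nat.shiftLeft a 32)
  replace h := h2.trans h
  rw [cast_shl, cast_shl, show (((34359738368 : ℕ) : ℝ) - a * 2 ^ 32) / 2 ^ 32 = 8 - a by
    push_cast; ring] at h
  linarith

theorem tb_B_spec {b : ℕ} (hb : b < 32) :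
    exp (-(b / 32)) * 2 ^ 60 ≤ (bt tabB (Nat.mul 64 b) 18446744073709551616 : ℕ) := by
  have h := ble_cast (allN_spec tb_B_ok b hb)
  have h2 := expU_spec 0 (Nat.shiftLeft b 27)
  replace h := h2.trans h
  rw [cast_shl, cast_shl, show (((0 : ℕ) : ℝ) - b * 2 ^ 27) / 2 ^ 32 = -(b / 32) by
    push_cast; ring] at h
  linarith

theorem tb_C_spec (r : ℕ) : exp (-(r / 2 ^ 32)) * 2 ^ 64 ≤
    (Nat.sub (Nat.add (Nat.shiftRight (Nat.mul r r) 1) 18446744073709551617)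
      (Nat.shiftLeft r 32) : ℕ) := by
  refine le_trans ?_ (cast_nsub_ge _ _)
  have h1 := cast_shr_ge (Nat.mul r r) 1
  have h2 := tb_exp_neg (x := (r : ℝ) / 2 ^ 32) (by positivity)
  rw [cast_nmul] at h1
  rw [cast_nadd, cast_shl]
  obtain ⟨A, hA⟩ : ∃ A : ℝ, A = ((Nat.shiftRight (Nat.mul r r) 1 : ℕ) : ℝ) := ⟨_, rfl⟩
  rw [← hA] at h1 ⊢
  clear hA
  push_cast
  nlinarith

theorem tb_expT2 {y : ℕ} (hy : y < 2 ^ 37) :
    exp (8 - (y : ℝ) / 2 ^ 32) * 2 ^ 40 ≤ expT2 y (Nat.mod y 134217728) := by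
  have ea : Nat.shiftRight y 26 / 64 % 32 = y / 2 ^ 32 := by rw [nshr_eq]; omega
  have eb : Nat.shiftRight y 21 / 64 % 32 = y / 2 ^ 27 % 32 := by rw [nshr_eq]; omega
  have hA := tb_A_spec (a := y / 2 ^ 32) (by omega)
  have hB := tb_B_spec (b := y / 2 ^ 27 % 32) (by omega)
  have hC := tb_C_spec (Nat.mod y 134217728)
  have hy2 : y = (y / 2 ^ 32) * 2 ^ 32 + (y / 2 ^ 27 % 32) * 2 ^ 27 + Nat.mod y 134217728 := by
    rw [nmod_eq]; omega
  rw [expT2, tb_land, tb_land, ea, eb, cast_nadd]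
  refine le_trans ?_ (add_le_add (cast_shr_ge _ _) le_rfl)
  rw [cast_nmul, cast_nmul]
  obtain ⟨a, ha⟩ : ∃ a, a = y / 2 ^ 32 := ⟨_, rfl⟩
  obtain ⟨b, hb⟩ : ∃ b, b = y / 2 ^ 27 % 32 := ⟨_, rfl⟩
  obtain ⟨r, hr⟩ : ∃ r, r = Nat.mod y 134217728 := ⟨_, rfl⟩
  rw [← ha, ← hb, ← hr] at hy2
  rw [← ha] at hA
  rw [← hb] at hB
  rw [← hr] at hC
  rw [← ha, ← hb, ← hr]
  clear ha hb hr ea eb
  have e : exp (8 - (y : ℝ) / 2 ^ 32) = exp (8 - a) * exp (-(b / 32)) * exp (-(r / 2 ^ 32)) := by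
    rw [← exp_add, ← exp_add, hy2]
    push_cast
    ring_nf
  have h1 := mul_le_mul (mul_le_mul hA hB (by positivity) (by positivity)) hC (by positivity)
    (by positivity)
  rw [e, Nat.cast_one, sub_add_cancel, le_div_iff₀ (by positivity)]
  refine le_trans (le_of_eq ?_) h1
  ring

theorem expT_spec (y : ℕ) : exp (8 - (y : ℝ) / 2 ^ 32) * 2 ^ 40 ≤ expT y := by
  rw [expT, force_eq, mn_eq]
  refine le_trans ?_ (tb_expT2 (by omega))
  have : ((min y 137438953471 : ℕ) : ℝ) ≤ y := by exact_mod_cast min_le_left _ _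
  gcongr

theorem sqt_spec {n : ℕ} (h1 : 1 ≤ n) (h2 : n ≤ 256) :
    1 ≤ sqt n ∧ (sqt n : ℝ) - 1 ≤ √((n : ℝ) / 2) * 2 ^ 32 ∧ √((n : ℝ) / 2) * 2 ^ 32 ≤ sqt n + 1 := by
  have h := allN_spec tb_sq_ok n (by omega)
  rw [tb_sq, bor_eq, force_eq, band_eq, band_eq] at h
  obtain ⟨x, hx⟩ : ∃ x, x = sqt n := ⟨_, rfl⟩
  rw [← hx] at h ⊢
  clear hx
  rcases h with h | ⟨a1, a2, a3⟩
  · have := Nat.le_of_ble_eq_true h
    omega
  · have b1 := ble_cast a1
    have b2 := ble_cast a2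
    have b3 := ble_cast a3
    rw [cast_nmul, cast_shl, cast_nsub b1] at b2
    rw [cast_nmul, cast_shl, cast_nadd] at b3
    push_cast at b1 b2 b3
    have e : √((n : ℝ) / 2) * 2 ^ 32 = √(n * 2 ^ 63) := by
      rw [show (n : ℝ) * 2 ^ 63 = n / 2 * (2 ^ 32) ^ 2 by ring, sqrt_mul (by positivity),
        sqrt_sq (by positivity)]
    rw [e]
    refine ⟨Nat.le_of_ble_eq_true a1, le_sqrt_of_sq_le ?_, ?_⟩
    · clear a1 a2 a3
      nlinarith
    · clear a1 a2 a3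
      rw [sqrt_le_left (by positivity)]
      nlinarith

theorem tb_nwt_pos (N x : ℕ) : 1 ≤ nwt N x := by
  rw [nwt, Nat.add_eq]; omega

theorem tb_nwt {N x : ℕ} (hx : 1 ≤ x) : N ≤ nwt N x ^ 2 := by
  have h1 : x + N / x + 1 ≤ 2 * nwt N x := by
    rw [nwt, Nat.add_eq, nshr_eq, Nat.add_eq, ndiv_eq]; omega
  have h2 : N < x * (N / x + 1) := Nat.lt_mul_div_succ N hx
  obtain ⟨q, hq⟩ : ∃ q, q = N / x := ⟨_, rfl⟩
  obtain ⟨t, ht⟩ : ∃ t, t = nwt N x := ⟨_, rfl⟩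
  rw [← hq] at h1 h2
  rw [← ht] at h1 ⊢
  clear hq ht
  have h3 : (x + q + 1) ^ 2 ≤ (2 * t) ^ 2 := Nat.pow_le_pow_left h1 2
  zify at *
  nlinarith [sq_nonneg ((x : ℤ) - q - 1)]

theorem hyp_spec (a b : ℕ) : a ^ 2 + b ^ 2 ≤ hyp a b ^ 2 := by
  rw [hyp, force_eq, force_eq, force_eq, force_eq]
  refine le_trans (le_of_eq ?_) (tb_nwt (tb_nwt_pos _ _))
  rw [Nat.add_eq, Nat.mul_eq, Nat.mul_eq, pow_two, pow_two]

theorem tb_one {w n e m : ℕ} (hw : 1 ≤ w) (he : e = w * n) (hm : m + 1 = 2 ^ w) :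
    Rep w n (Nat.div (Nat.sub (Nat.pow 2 e) 1) m) (fun _ => 1) 1 := by
  refine ⟨?_, fun _ _ => le_rfl⟩
  have h2 : 2 ≤ 2 ^ w := by
    calc 2 = 2 ^ 1 := rfl
      _ ≤ 2 ^ w := Nat.pow_le_pow_right (by norm_num) hw
  rw [ndiv_eq, Nat.sub_eq, npow_eq, he, show m = 2 ^ w - 1 by omega, pow_mul, ← Nat.geomSum_eq h2,
    pk]
  exact Finset.sum_congr rfl fun i _ => by rw [one_mul, pow_mul]

theorem tb_top {w n X : ℕ} (h : Rep (w + 1) n X (fun _ => 1) 1) :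
    Nat.shiftLeft X w = pk (w + 1) n fun _ => 2 ^ w :=
  (h.shl w).1.trans (pk_congr fun _ _ => one_mul _)

theorem tb_one' {w n e m X : ℕ} (hX : X = Nat.div (Nat.sub (Nat.pow 2 e) 1) m) (hw : 1 ≤ w)
    (he : e = w * n) (hm : m + 1 = 2 ^ w) : Rep w n X (fun _ => 1) 1 := hX ▸ tb_one hw he hm

theorem tb_top' {w n X Y : ℕ} (hY : Y = Nat.shiftLeft X w) (h : Rep (w + 1) n X (fun _ => 1) 1) :
    Y = pk (w + 1) n fun _ => 2 ^ w := hY.trans (tb_top h)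

theorem one72_rep (d : ℕ) : Rep 72 (2 ^ d) (one72 d) (fun _ => 1) 1 := by
  rw [one72]
  exact tb_one (by norm_num) (by rw [Nat.mul_eq, npow_eq]) (by norm_num)

theorem one72_rep' : Rep 72 4096 (one72 12) (fun _ => 1) 1 := by
  have := one72_rep 12
  rwa [show 2 ^ 12 = 4096 by norm_num] at this

seal one72

theorem h72_eq : h72 = pk (71 + 1) 4096 fun _ => 2 ^ 71 := by
  exact tb_top' (w := 71) (n := 4096) tb_h72 one72_rep'

theorem one128_rep : Rep 128 512 one128 (fun _ => 1) 1 := by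
  exact tb_one' tb_one128 (by norm_num) (by norm_num) (by norm_num)

theorem h128_eq : h128 = pk (127 + 1) 512 fun _ => 2 ^ 127 := by
  exact tb_top' (w := 127) (n := 512) tb_h128 one128_rep

theorem tb_rep9 {X B : ℕ} {f g : ℕ → ℕ} (h : Nat.beq X (packD 128 f 9 0) = true)
    (hfg : ∀ i, f i = g i) (hB : ∀ i < 512, g i ≤ B) : Rep 128 512 X g B :=
  (packD_rep (Nat.eq_of_beq_eq_true h) fun i hi => (hfg i).symm ▸ hB i hi).congr fun i _ => hfg i

theorem tb_shr40 {A : ℕ} {c : ℝ} (h : |(A : ℝ) / 2 ^ 80 - 2 - c| ≤ 1 / 2 ^ 40) :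
    |((Nat.shiftRight A 40 : ℕ) : ℝ) - (c + 2) * 2 ^ 40| ≤ 2 := by
  have h1 := cast_shr_le A 40
  have h2 := cast_shr_ge A 40
  rw [abs_le] at h ⊢
  constructor <;> linarith [h.1, h.2]

theorem tb_CS (j i : ℕ) :
    |(tb_C j i : ℝ) - (cos (2 * π * (j + 1) * sx i) + 2) * 2 ^ 40| ≤ 2 ∧
      |(tb_S j i : ℝ) - (sin (2 * π * (j + 1) * sx i) + 2) * 2 ^ 40| ≤ 2 := by
  obtain ⟨m, hm⟩ : ∃ m, m = Nat.mod (Nat.mul (Nat.add j 1) (Nat.add i 768)) 1024 := ⟨_, rfl⟩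
  have hz : tb_z j i = cexp 16 (Nat.mul m 113187804032455044) := by rw [tb_z, force_eq, ← hm]
  rw [nmod_eq, Nat.mul_eq, Nat.add_eq, Nat.add_eq] at hm
  have hm1 : m < 1024 := by omega
  obtain ⟨q, hq⟩ : ∃ q, (j + 1) * (i + 768) = m + 1024 * q :=
    ⟨(j + 1) * (i + 768) / 1024, by omega⟩
  clear hm
  have hq' : ((j : ℝ) + 1) * (i + 768) = m + 1024 * q := by exact_mod_cast hq
  have hm' : (m : ℝ) ≤ 1024 := by exact_mod_cast hm1.le
  have hm0 : (0 : ℝ) ≤ m := by positivity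
  have ha : 2 * π * (j + 1) * sx i = π * m / 512 + ((q : ℤ) - j - 1 : ℤ) * (2 * π) := by
    rw [sx]
    push_cast
    linear_combination (2 * π / 1024) * hq'
  have hn := cexp_near 16 (Nat.mul m 113187804032455044) (b := 1 / 10 ^ 4) (e := 7 / 8 / 2 ^ 40)
    (by rw [cast_nmul, div_le_iff₀ (by positivity)]; push_cast; nlinarith) (by norm_num)
    (by norm_num) (by norm_num)
  rw [← hz, cast_nmul] at hn
  obtain ⟨h1, h2⟩ := parts_of_norm hn
  have hd : |2 ^ 16 * ((m : ℝ) * ((113187804032455044 : ℕ) : ℝ) / 2 ^ 80) - π * m / 512|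
      ≤ 1 / 8 / 2 ^ 40 := by
    have p1 := pi_gt_d20
    have p2 := pi_lt_d20
    push_cast
    rw [abs_le]
    constructor <;> nlinarith
  have h3 := (abs_cos_sub_cos_le _ _).trans hd
  have h4 := (abs_sin_sub_sin_le _ _).trans hd
  rw [ha, cos_add_int_mul_two_pi, sin_add_int_mul_two_pi, tb_C, tb_S]
  rw [cre] at h1
  rw [cim] at h2
  refine ⟨tb_shr40 ?_, tb_shr40 ?_⟩
  · exact (abs_sub_le _ _ _).trans ((add_le_add h1 h3).trans (by norm_num))
  · exact (abs_sub_le _ _ _).trans ((add_le_add h2 h4).trans (by norm_num))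

theorem tb_le42 {u : ℕ} {c : ℝ} (hc : c ≤ 1) (h : |(u : ℝ) - (c + 2) * 2 ^ 40| ≤ 2) :
    u ≤ 2 ^ 42 := by
  have h1 := (abs_le.1 h).2
  have : (u : ℝ) ≤ 2 ^ 42 := by linarith
  exact_mod_cast this

theorem x_spec {j : ℕ} (hj : j < 9) : ∃ u v : ℕ → ℕ, Rep 128 512 (xC j) u (2 ^ 42) ∧
    Rep 128 512 (xS j) v (2 ^ 42) ∧ ∀ i < 512,
      |(u i : ℝ) - (cos (2 * π * (j + 1) * sx i) + 2) * 2 ^ 40| ≤ 2 ∧
      |(v i : ℝ) - (sin (2 * π * (j + 1) * sx i) + 2) * 2 ^ 40| ≤ 2 := by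
  have h := allN_spec tb_X_ok j hj
  rw [tb_X, band_eq] at h
  exact ⟨tb_C j, tb_S j,
    tb_rep9 h.1 (fun _ => rfl) fun i _ => tb_le42 (cos_le_one _) (tb_CS j i).1,
    tb_rep9 h.2 (fun _ => rfl) fun i _ => tb_le42 (sin_le_one _) (tb_CS j i).2,
    fun i _ => tb_CS j i⟩

theorem tb_R_eq (i : ℕ) : tb_R i = fR i := by
  rw [tb_R, fR]
  cases h : Nat.ble i 0
  · have : ¬ i ≤ 0 := by rw [← Nat.ble_eq]; simp [h]
    rw [ite'_false, if_neg (by omega), nshl_eq, Nat.add_eq, Nat.mul_eq, Nat.mul_eq, Nat.sub_eq,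
      Nat.sub_eq, Nat.mul_eq]
  · have := Nat.le_of_ble_eq_true h
    rw [ite'_true, if_pos (by omega)]
    norm_num

theorem rR_rep : Rep 72 4096 rR fR (2 ^ 60) := by
  have hB : ∀ i < 2 ^ 12, tb_R i ≤ 2 ^ 60 := by
    intro i hi
    rw [tb_R_eq, fR]
    split_ifs
    · exact le_rfl
    · have : i * (4096 - i) + (2 * i - 4096) * 4096 ≤ 2 ^ 24 := by
        obtain ⟨k, hk⟩ : ∃ k, i + k = 4096 := ⟨4096 - i, by omega⟩
        rw [show 4096 - i = k by omega]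
        rcases le_total (2 * i) 4096 with h | h
        · rw [Nat.sub_eq_zero_of_le h]
          nlinarith
        · obtain ⟨l, hl⟩ : ∃ l, 2 * i = 4096 + l := ⟨2 * i - 4096, by omega⟩
          rw [show 2 * i - 4096 = l by omega]
          nlinarith
      omega
  have := (packD_rep (Nat.eq_of_beq_eq_true tb_R_ok) hB).congr fun i _ => tb_R_eq i
  rwa [show 2 ^ 12 = 4096 by norm_num] at this

theorem rQ_rep : Rep 128 512 rQ (fun i => (i + 256) ^ 2 * 2 ^ 90) (2 ^ 110) := by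
  refine tb_rep9 tb_Q_ok (fun i => by rw [nshl_eq, npow_eq, Nat.add_eq]) fun i hi => ?_
  have := pow_lane_le (i := i + 256) (by omega) 2
  omega

theorem rT_rep : Rep 128 512 rT fT (2 ^ 110) := by
  refine tb_rep9 tb_T_ok (fun _ => rfl) fun i hi => ?_
  have := Nat.le_of_ble_eq_true (allN_spec tb_T_le i hi)
  omega

theorem tb_run_spec {test : ℕ → ℕ → Bool} {inc : ℕ → ℕ} (Inv : ℕ → ℕ → Prop)
    (hs : ∀ k a, Inv k a → Inv (k + 1) (a + inc k)) (n : ℕ) :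
    ∀ k a, Inv k a → tb_run test inc n k a = true →
      ∀ t < n, ∃ a', Inv (k + t) a' ∧ test (k + t) a' = true := by
  induction n with
  | zero => intro k a _ _ t ht; omega
  | succ n ih =>
    intro k a hi h t ht
    have e : tb_run test inc (n + 1) k a = band (test k a) (force (Nat.add a (inc k)) fun a' =>
      force (Nat.add k 1) fun k' => tb_run test inc n k' a') := rfl
    rw [e, band_eq, force_eq, force_eq, Nat.add_eq, Nat.add_eq] at h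
    cases t with
    | zero => rw [add_zero]; exact ⟨a, hi, h.1⟩
    | succ t =>
      rw [show k + (t + 1) = k + 1 + t by omega]
      exact ih _ _ (hs k a hi) h.2 t (by omega)

theorem tb_pi2 : (10851744800545 : ℝ) ≤ π ^ 2 * 2 ^ 40 ∧ π ^ 2 * 2 ^ 40 ≤ 10851744800548 := by
  have p1 := pi_gt_d20
  have p2 := pi_lt_d20
  constructor <;> nlinarith

theorem tb_sqrt : (1378033467233 : ℝ) / 2 ^ 51 ≤ π / 1024 / (2 * √(2 * π)) ∧
    π / 1024 / (2 * √(2 * π)) ≤ 1378033467236 / 2 ^ 51 := by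
  have p1 := pi_gt_d20
  have p2 := pi_lt_d20
  have h0 : 0 < √(2 * π) := by positivity
  have h1 : √(2 * π) * √(2 * π) = 2 * π := mul_self_sqrt (by positivity)
  have e : π / 1024 / (2 * √(2 * π)) = √(2 * π) / 4096 := by
    rw [div_eq_div_iff (by positivity) (by norm_num)]
    linarith
  rw [e]
  constructor
  · rw [le_div_iff₀ (by norm_num)]
    apply le_sqrt_of_sq_le
    linarith
  · rw [div_le_iff₀ (by norm_num), sqrt_le_left (by norm_num)]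
    linarith

theorem tb_d3 : (π / 1024) ^ 3 / 20 * 2 ^ 64 ≤ 26634188864 := by
  have p2 := pi_lt_d20
  have h : π ^ 3 ≤ 3.14159265358979323847 ^ 3 := pow_le_pow_left₀ pi_pos.le p2.le 3
  rw [div_pow]
  linarith

theorem tb_eL_le (k : ℕ) : (tb_eL k : ℝ) ≤ exp (-(k * (π / 1024)) ^ 2 / 2) * 2 ^ 64 := by
  rw [tb_eL]
  refine (expL_spec _).trans ?_
  have h1 := cast_shr_ge (Nat.mul 10851744800548 (Nat.mul k k)) 29
  rw [cast_nmul, cast_nmul] at h1
  rw [cast_nadd]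
  obtain ⟨A, hA⟩ : ∃ A : ℝ,
    A = ((Nat.shiftRight (Nat.mul 10851744800548 (Nat.mul k k)) 29 : ℕ) : ℝ) := ⟨_, rfl⟩
  rw [← hA] at h1 ⊢
  clear hA
  refine mul_le_mul_of_nonneg_right (exp_le_exp.2 ?_) (by positivity)
  have h2 := mul_le_mul_of_nonneg_right tb_pi2.2 (mul_self_nonneg (k : ℝ))
  push_cast at h1 ⊢
  nlinarith

theorem tb_eU_ge (k : ℕ) : exp (-(k * (π / 1024)) ^ 2 / 2) * 2 ^ 64 ≤ (tb_eU k : ℝ) := by
  rw [tb_eU]
  refine le_trans ?_ (expU_spec _ _)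
  have h1 := cast_shr_le (Nat.mul 10851744800545 (Nat.mul k k)) 29
  rw [cast_nmul, cast_nmul] at h1
  obtain ⟨A, hA⟩ : ∃ A : ℝ,
    A = ((Nat.shiftRight (Nat.mul 10851744800545 (Nat.mul k k)) 29 : ℕ) : ℝ) := ⟨_, rfl⟩
  rw [← hA] at h1 ⊢
  clear hA
  refine mul_le_mul_of_nonneg_right (exp_le_exp.2 ?_) (by positivity)
  have h2 := mul_le_mul_of_nonneg_right tb_pi2.1 (mul_self_nonneg (k : ℝ))
  push_cast at h1 ⊢
  nlinarith

theorem tb_step (k : ℕ) : ∃ x y : ℝ, 0 ≤ x ∧ 0 ≤ y ∧ (tb_eL k : ℝ) ≤ x * 2 ^ 64 ∧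
    x * 2 ^ 64 ≤ tb_eU k ∧ (tb_eL (Nat.add k 1) : ℝ) ≤ y * 2 ^ 64 ∧
    y * 2 ^ 64 ≤ tb_eU (Nat.add k 1) ∧
    |Phi (((k + 1 : ℕ) : ℝ) * (π / 1024)) - Phi (k * (π / 1024))
      - π / 1024 / (2 * √(2 * π)) * (x + y)| ≤ (π / 1024) ^ 3 / 20 := by
  refine ⟨_, _, (exp_pos _).le, (exp_pos _).le, tb_eL_le k, tb_eU_ge k, tb_eL_le _, tb_eU_ge _, ?_⟩
  have h := Phi_step (a := k * (π / 1024)) (d := π / 1024) (by positivity)
  rw [show (k : ℝ) * (π / 1024) + π / 1024 = ((k + 1 : ℕ) : ℝ) * (π / 1024) by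
    push_cast; ring] at h
  rw [Nat.add_eq, div_mul_eq_mul_div (π / 1024)]
  exact h

theorem tb_sub_le {A B : ℕ} {x : ℝ} (h0 : 0 ≤ x) (h : (A : ℝ) - B ≤ x) :
    ((Nat.sub A B : ℕ) : ℝ) ≤ x := by
  rcases le_total B A with h2 | h2
  · rwa [cast_nsub (by exact_mod_cast h2)]
  · rwa [Nat.sub_eq, Nat.sub_eq_zero_of_le h2, Nat.cast_zero]

theorem tb_lo_def (k : ℕ) : tb_lo k =
    Nat.sub (Nat.shiftRight (Nat.mul 1378033467233 (Nat.add (tb_eL k) (tb_eL (Nat.add k 1)))) 51)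
      26634188864 := by
  delta tb_lo
  with_reducible rfl

theorem tb_lo_le (k : ℕ) : (tb_lo k : ℝ) ≤
    (Phi (((k + 1 : ℕ) : ℝ) * (π / 1024)) - Phi (k * (π / 1024))) * 2 ^ 64 := by
  obtain ⟨x, y, hx, hy, a1, -, a2, -, h⟩ := tb_step k
  have h1 := cast_shr_le (Nat.mul 1378033467233 (Nat.add (tb_eL k) (tb_eL (Nat.add k 1)))) 51
  rw [cast_nmul, cast_nadd] at h1
  have : Phi (k * (π / 1024)) ≤ Phi (((k + 1 : ℕ) : ℝ) * (π / 1024)) :=
    Phi_mono (by push_cast; nlinarith [pi_pos])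
  refine (le_of_eq (congrArg Nat.cast (tb_lo_def k))).trans
    (tb_sub_le (mul_nonneg (sub_nonneg.2 this) (by positivity)) ?_)
  obtain ⟨A, hA⟩ : ∃ A : ℕ,
    A = Nat.shiftRight (Nat.mul 1378033467233 (Nat.add (tb_eL k) (tb_eL (Nat.add k 1)))) 51 :=
    ⟨_, rfl⟩
  rw [← hA] at h1 ⊢
  clear hA
  have h3 := (abs_le.1 h).1
  have h4 := mul_le_mul_of_nonneg_right tb_sqrt.1 (add_nonneg hx hy)
  have h5 := tb_d3
  clear h this
  simp only [Nat.cast_ofNat] at h1 ⊢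
  linarith

theorem tb_up_ge (k : ℕ) :
    (Phi (((k + 1 : ℕ) : ℝ) * (π / 1024)) - Phi (k * (π / 1024))) * 2 ^ 64 ≤ (tb_up k : ℝ) := by
  obtain ⟨x, y, hx, hy, -, a1, -, a2, h⟩ := tb_step k
  have h1 := cast_shr_ge (Nat.mul 1378033467236 (Nat.add (tb_eU k) (tb_eU (Nat.add k 1)))) 51
  rw [cast_nmul, cast_nadd] at h1
  rw [tb_up, cast_nadd]
  obtain ⟨A, hA⟩ : ∃ A : ℕ,
    A = Nat.shiftRight (Nat.mul 1378033467236 (Nat.add (tb_eU k) (tb_eU (Nat.add k 1)))) 51 :=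
    ⟨_, rfl⟩
  rw [← hA] at h1 ⊢
  clear hA
  have h3 := (abs_le.1 h).2
  have h4 := mul_le_mul_of_nonneg_right tb_sqrt.2 (add_nonneg hx hy)
  have h5 := tb_d3
  clear h
  simp only [Nat.cast_ofNat] at h1 ⊢
  linarith

theorem rT_phi : PhiTab fun i => (fT i : ℝ) / 2 ^ 110 := by
  refine phiTab_of fun i hi => ?_
  rcases le_total 256 i with h | h
  · obtain ⟨t, rfl⟩ : ∃ t, i = 256 + t := ⟨i - 256, by omega⟩
    obtain ⟨a, h1, h2⟩ := tb_run_spec
      (fun k a => (a : ℝ) ≤ (Phi (k * (π / 1024)) - 1 / 2) * 2 ^ 64)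
      (fun k a ha => by have := tb_lo_le k; rw [Nat.cast_add a]; linarith) 1021 0 0
      (by simp [Phi_zero]) tb_lo_ok (4 * t) (by omega)
    rw [zero_add] at h1 h2
    rw [tb_tlo] at h2
    replace h2 := ble_cast h2
    rw [cast_nadd, cast_shl, cast_shl, cast_nadd, nshr_eq, Nat.add_eq,
      show 4 * t / 2 ^ 2 = t by omega] at h2
    rw [show 4 * π * sx (256 + t) = ((4 * t : ℕ) : ℝ) * (π / 1024) by rw [sx]; push_cast; ring]
    push_cast at h1 h2 ⊢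
    linarith
  · obtain ⟨t, ht⟩ : ∃ t, i + t = 256 := ⟨256 - i, by omega⟩
    obtain ⟨a, h1, h2⟩ := tb_run_spec
      (fun k a => (Phi (k * (π / 1024)) - 1 / 2) * 2 ^ 64 ≤ (a : ℝ))
      (fun k a ha => by have := tb_up_ge k; rw [Nat.cast_add a]; linarith) 1025 0 0
      (by simp [Phi_zero]) tb_up_ok (4 * t) (by omega)
    rw [zero_add] at h1 h2
    rw [tb_tup] at h2
    replace h2 := ble_cast h2
    rw [cast_nadd, cast_shl, cast_shl, cast_nadd, nshr_eq, Nat.add_eq, Nat.sub_eq,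
      show 256 - (4 * t + 3) / 2 ^ 2 = i by omega] at h2
    have ht' : (i : ℝ) + t = 256 := by exact_mod_cast ht
    rw [show 4 * π * sx i = -(((4 * t : ℕ) : ℝ) * (π / 1024)) by
      rw [sx]; push_cast; linear_combination (π / 256) * ht', br_Phi_neg]
    push_cast at h1 h2 ⊢
    linarith

end Pool.Agent.Lib.MP_33650d_pr
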