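import Pool.Agent.Lib.MP_33650d_pr.Tab

namespace Pool.Agent.Lib.MP_33650d_pr
open Real

theorem yt_bld_zero (k : ℕ) :
    bld k 0 = (cexp 12 (Nat.mul k 452751216129820177), 3221225472, 2147483648) := rfl

theorem yt_bld_succ (k d : ℕ) {z C S : ℕ} (h : bld k d = (z, C, S)) :
    bld k (d + 1) = (csq z, stepC d (rotA z) (rotB z) C S, stepS d (rotA z) (rotB z) C S) := by
  have : bld k (d + 1) = Prod.rec (motive := fun _ => ℕ × ℕ × ℕ) (fun z t =>
      Prod.rec (motive := fun _ => ℕ × ℕ × ℕ) (fun C S =>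
        (csq z, stepC d (rotA z) (rotB z) C S, stepS d (rotA z) (rotB z) C S)) t) (bld k d) := rfl
  rw [this, h]

seal Nat.shiftRight Nat.shiftLeft Nat.mod Nat.sub Nat.add Nat.mul

theorem yt_stepF {d X P N B Bp Bq : ℕ} {u p q : ℕ → ℕ} (hX : Rep 72 (2 ^ d) X u B)
    (hP : Rep 72 (2 ^ d) P p Bp) (hN : Rep 72 (2 ^ d) N q Bq) (hB : Bp < 2 ^ 72)
    (h : ∀ i < 2 ^ d, q i ≤ p i) :
    stepF d X P N = pk 72 (2 ^ (d + 1))
      fun i => if i < 2 ^ d then u i else (p (i - 2 ^ d) - q (i - 2 ^ d)) / 2 ^ 32 := by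
  have h1 := hP.sub hN h
  have h2 := ((one72_rep d).mul 1099511627775).1
  have h3 := pk_shr_land (w := 72) (n := 2 ^ d) (k := 32) (u := fun i => p i - q i) (by norm_num)
    fun i hi => (h1.2 i hi).trans_lt hB
  have h4 : (fun _ : ℕ => 1099511627775 * 1) = fun _ : ℕ => 2 ^ (72 - 32) - 1 := by
    funext i; norm_num
  rw [h4] at h2
  have h5 : Nat.land (Nat.shiftRight (Nat.sub P N) 32) (Nat.mul 1099511627775 (one72 d)) =
      pk 72 (2 ^ d) fun i => (p i - q i) / 2 ^ 32 := by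
    rw [h1.1, h2, ← h3, nshr_eq, Nat.shiftRight_eq_div_pow]; rfl
  rw [stepF, h5, Nat.add_eq, nshl_eq, Nat.mul_eq, npow_eq, pow_succ 2 d, mul_two, pk_append, hX.1]
  congr 1
  · exact pk_congr fun i hi => by rw [if_pos hi]
  · congr 1
    exact pk_congr fun i _ => by rw [if_neg (by omega), Nat.add_sub_cancel_left]

theorem yt_lane {p q : ℕ} {t : ℝ} (ht : 0 ≤ t) (h : (p : ℝ) - q = t * 2 ^ 62) :
    q ≤ p ∧ |((((p - q) / 2 ^ 32 : ℕ) : ℝ) / 2 ^ 30 - 2) - (t - 2)| ≤ 1 / 2 ^ 30 := by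
  have h0 : (q : ℝ) ≤ p := by nlinarith
  have h1 : q ≤ p := by exact_mod_cast h0
  refine ⟨h1, ?_⟩
  have h2 := shr_near (A := p) (B := q) (k := 32) (x := t * 2 ^ 30) (by positivity)
    (by rw [h]; ring)
  rw [nshr_eq, Nat.sub_eq] at h2
  rw [abs_le] at h2 ⊢
  constructor <;> linarith [h2.1, h2.2]

theorem yt_rot {z : ℕ} {φ : ℝ} (h : Near z φ (1 / 2 ^ 33)) :
    ‖((((rotA z : ℕ) : ℝ) / 2 ^ 32 - 2 : ℝ) : ℂ) + ((((rotB z : ℕ) : ℝ) / 2 ^ 32 - 2 : ℝ) : ℂ) *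
      Complex.I - Complex.exp (φ * Complex.I)‖ ≤ 5 / 2 ^ 33 := by
  have e : rotB z = Nat.shiftRight (Nat.shiftRight z 96) 48 := by
    rw [rotB, nshr_eq, nshr_eq, nshr_eq, Nat.div_div_eq_div_mul, ← pow_add]
  have a1 := cast_shr_le (Nat.mod z 79228162514264337593543950336) 48
  have a2 := cast_shr_ge (Nat.mod z 79228162514264337593543950336) 48
  have b1 := cast_shr_le (Nat.shiftRight z 96) 48
  have b2 := cast_shr_ge (Nat.shiftRight z 96) 48
  rw [← e] at b1 b2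
  have q := norm_le_of_parts (e := 1 / 2 ^ 32) (a := ((rotA z : ℕ) : ℝ) / 2 ^ 32 - 2)
    (b := ((rotB z : ℕ) : ℝ) / 2 ^ 32 - 2) (c := cre z) (d := cim z)
    (by rw [cre, rotA, abs_le]; constructor <;> linarith)
    (by rw [cim, abs_le]; constructor <;> linarith)
  exact (norm_sub_le_norm_sub_add_norm_sub _ _ _).trans ((add_le_add q h).trans (by norm_num))

/-- The lane `(a, b)` approximates the point of angle `φ` on the unit circle. -/
def ytOK (a b : ℕ) (φ e : ℝ) : Prop :=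
  ‖(((a : ℝ) / 2 ^ 30 - 2 : ℝ) : ℂ) + (((b : ℝ) / 2 ^ 30 - 2 : ℝ) : ℂ) * Complex.I -
    Complex.exp (φ * Complex.I)‖ ≤ e

theorem yt_le {a b : ℕ} {φ e : ℝ} (h : ytOK a b φ e) (he : e ≤ 1) : a ≤ 2 ^ 32 ∧ b ≤ 2 ^ 32 := by
  obtain ⟨h1, h2⟩ := parts_of_norm h
  have := cos_le_one φ
  have := sin_le_one φ
  rw [abs_le] at h1 h2
  constructor
  · have : (a : ℝ) ≤ 2 ^ 32 := by linarith [h1.2]
    exact_mod_cast this
  · have : (b : ℝ) ≤ 2 ^ 32 := by linarith [h2.2]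
    exact_mod_cast this

theorem yt_mul {a b u v : ℕ} {φ ψ e : ℝ}
    (h : ‖(((a : ℝ) / 2 ^ 32 - 2 : ℝ) : ℂ) + (((b : ℝ) / 2 ^ 32 - 2 : ℝ) : ℂ) *
      Complex.I - Complex.exp (φ * Complex.I)‖ ≤ 5 / 2 ^ 33) (hu : ytOK u v ψ e)
    (he : e ≤ 1 / 1024) :
    u * 2 ^ 33 + b * v + a * 2 ^ 31 * 1 ≤ a * u + v * 2 ^ 33 + (b * 2 ^ 31 + 9223372036854775808) * 1 ∧
    (u + v) * 2 ^ 33 + (a + b) * 2 ^ 31 * 1 ≤ b * u + a * v + 46116860184273879040 * 1 ∧
    ytOK ((a * u + v * 2 ^ 33 + (b * 2 ^ 31 + 9223372036854775808) * 1 -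
        (u * 2 ^ 33 + b * v + a * 2 ^ 31 * 1)) / 2 ^ 32)
      ((b * u + a * v + 46116860184273879040 * 1 - ((u + v) * 2 ^ 33 + (a + b) * 2 ^ 31 * 1)) / 2 ^ 32)
      (ψ + φ) (e + 3 / 2 ^ 30) := by
  have hm := norm_mul_near hu h
  have n1 := near_sq_le hu he
  have n2 := near_sq_le h (by norm_num)
  have he0 : 0 ≤ e := (norm_nonneg _).trans hu
  obtain ⟨x, hx⟩ : ∃ x : ℝ, x = (u : ℝ) / 2 ^ 30 - 2 := ⟨_, rfl⟩
  obtain ⟨y, hy⟩ : ∃ y : ℝ, y = (v : ℝ) / 2 ^ 30 - 2 := ⟨_, rfl⟩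
  obtain ⟨al, hal⟩ : ∃ x : ℝ, x = (a : ℝ) / 2 ^ 32 - 2 := ⟨_, rfl⟩
  obtain ⟨be, hbe⟩ : ∃ y : ℝ, y = (b : ℝ) / 2 ^ 32 - 2 := ⟨_, rfl⟩
  rw [← hx, ← hy] at n1 hm
  rw [← hal, ← hbe] at n2 hm
  have eu : (u : ℝ) = (x + 2) * 2 ^ 30 := by rw [hx]; ring
  have ev : (v : ℝ) = (y + 2) * 2 ^ 30 := by rw [hy]; ring
  have ea : (a : ℝ) = (al + 2) * 2 ^ 32 := by rw [hal]; ring
  have eb : (b : ℝ) = (be + 2) * 2 ^ 32 := by rw [hbe]; ring
  obtain ⟨c1, c2⟩ := yt_lane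
    (p := a * u + v * 2 ^ 33 + (b * 2 ^ 31 + 9223372036854775808) * 1)
    (q := u * 2 ^ 33 + b * v + a * 2 ^ 31 * 1) (t := x * al - y * be + 2)
    (by nlinarith [sq_nonneg (x + al), sq_nonneg (y - be)])
    (by push_cast; rw [eu, ev, ea, eb]; ring)
  obtain ⟨s1, s2⟩ := yt_lane (p := b * u + a * v + 46116860184273879040 * 1)
    (q := (u + v) * 2 ^ 33 + (a + b) * 2 ^ 31 * 1) (t := x * be + y * al + 2)
    (by nlinarith [sq_nonneg (x + be), sq_nonneg (y + al)])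
    (by push_cast; rw [eu, ev, ea, eb]; ring)
  refine ⟨c1, s1, ?_⟩
  have q := norm_le_of_parts c2 s2
  have e4 : ((x * al - y * be + 2 - 2 : ℝ) : ℂ) + ((x * be + y * al + 2 - 2 : ℝ) : ℂ) * Complex.I
      = ((x : ℂ) + y * Complex.I) * ((al : ℂ) + be * Complex.I) := by
    push_cast; ring_nf; rw [Complex.I_sq]; ring
  rw [e4] at q
  exact (norm_sub_le_norm_sub_add_norm_sub _ _ _).trans ((add_le_add q hm).trans (by nlinarith))

theorem yt_base {k : ℕ} (hk : k ≤ 256) :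
    Near (cexp 12 (Nat.mul k 452751216129820177)) (2 * π * k / 4096) (44 / 10 ^ 15) := by
  have hk' : (k : ℝ) ≤ 256 := by exact_mod_cast hk
  have hk0 : (0 : ℝ) ≤ k := by positivity
  have h := cexp_near 12 (Nat.mul k 452751216129820177) (b := 1 / 10 ^ 4) (e := 43 / 10 ^ 15)
    (by rw [cast_nmul, div_le_iff₀ (by positivity)]; push_cast; linarith) (by norm_num)
    (by norm_num) (by norm_num)
  rw [cast_nmul] at h
  push_cast at h
  obtain ⟨ψ, hψ⟩ : ∃ ψ : ℝ, ψ = 2 ^ 12 * ((k : ℝ) * 452751216129820177 / 2 ^ 80) := ⟨_, rfl⟩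
  rw [← hψ] at h
  have h1 : |ψ - 2 * π * k / 4096| ≤ 1 / 10 ^ 15 := by
    have := pi_gt_d20
    have := pi_lt_d20
    rw [abs_le, hψ]; constructor <;> nlinarith
  have h2 : ‖Complex.exp (ψ * Complex.I) - Complex.exp ((2 * π * k / 4096 : ℝ) * Complex.I)‖ ≤
      1 / 10 ^ 15 := by
    have e : Complex.exp (ψ * Complex.I) - Complex.exp ((2 * π * k / 4096 : ℝ) * Complex.I) =
        Complex.exp ((2 * π * k / 4096 : ℝ) * Complex.I) *
          (Complex.exp (Complex.I * (ψ - 2 * π * k / 4096 : ℝ)) - 1) := by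
      rw [mul_sub, ← Complex.exp_add]; push_cast; ring_nf
    rw [e, norm_mul, Complex.norm_exp_ofReal_mul_I, one_mul]
    exact norm_exp_I_mul_ofReal_sub_one_le.trans h1
  exact (norm_sub_le_norm_sub_add_norm_sub _ _ _).trans ((add_le_add h h2).trans (by norm_num))

theorem yt_inv {k : ℕ} (hk : k ≤ 256) : ∀ d ≤ 12, ∃ z C S, bld k d = (z, C, S) ∧
    Near z (2 ^ d * (2 * π * k / 4096)) ((2 + 1 / 1024) ^ d * (45 / 10 ^ 15) - 2 / 2 ^ 80) ∧
    ∃ u v : ℕ → ℕ, C = pk 72 (2 ^ d) u ∧ S = pk 72 (2 ^ d) v ∧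
      ∀ i < 2 ^ d, ytOK (u i) (v i) (i * (2 * π * k / 4096)) (3 * d / 2 ^ 30) := by
  intro d
  induction d with
  | zero =>
    intro _
    refine ⟨_, _, _, yt_bld_zero k, ?_, fun _ => 3221225472, fun _ => 2147483648, by simp [pk],
      by simp [pk], fun i hi => ?_⟩
    · rw [pow_zero, pow_zero, one_mul]
      exact le_trans (yt_base hk) (by norm_num)
    · obtain rfl : i = 0 := by omega
      norm_num [ytOK]
  | succ d ih =>
    intro hd
    obtain ⟨z, C, S, hb, hz, u, v, hC, hS, hok⟩ := ih (by omega)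
    have hd' : (d : ℝ) ≤ 11 := by exact_mod_cast (by omega : d ≤ 11)
    have he : (3 * d / 2 ^ 30 : ℝ) ≤ 1 / 1024 := by linarith
    have hq : ((2 : ℝ) + 1 / 1024) ^ d ≤ (2 + 1 / 1024) ^ 11 :=
      pow_le_pow_right₀ (by norm_num) (by omega)
    have hz1 : Near z (2 ^ d * (2 * π * k / 4096)) (1 / 2 ^ 33) := le_trans hz (by linarith)
    have hr := yt_rot hz1
    obtain ⟨ha, hb'⟩ : rotA z ≤ 2 ^ 34 ∧ rotB z ≤ 2 ^ 34 := by
      obtain ⟨h1, h2⟩ := parts_of_norm hr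
      have := cos_le_one (2 ^ d * (2 * π * k / 4096))
      have := sin_le_one (2 ^ d * (2 * π * k / 4096))
      rw [abs_le] at h1 h2
      constructor
      · have : ((rotA z : ℕ) : ℝ) ≤ 2 ^ 34 := by linarith [h1.2]
        exact_mod_cast this
      · have : ((rotB z : ℕ) : ℝ) ≤ 2 ^ 34 := by linarith [h2.2]
        exact_mod_cast this
    have rC : Rep 72 (2 ^ d) C u (2 ^ 32) := ⟨hC, fun i hi => (yt_le (hok i hi) (by linarith)).1⟩
    have rS : Rep 72 (2 ^ d) S v (2 ^ 32) := ⟨hS, fun i hi => (yt_le (hok i hi) (by linarith)).2⟩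
    have hm := fun i hi => yt_mul hr (hok i hi) he
    have hb1 := yt_bld_succ k d hb
    obtain ⟨a, hae⟩ : ∃ a, a = rotA z := ⟨_, rfl⟩
    obtain ⟨b, hbe⟩ : ∃ b, b = rotB z := ⟨_, rfl⟩
    rw [← hae] at ha
    rw [← hbe] at hb'
    rw [← hae, ← hbe] at hb1 hm
    clear hae hbe hr
    have o := one72_rep d
    have eC := yt_stepF rC (((rC.mul a).add (rS.shl 33)).add
        (o.mul (Nat.add (Nat.shiftLeft b 31) 9223372036854775808)))
      (((rC.shl 33).add (rS.mul b)).add (o.mul (Nat.shiftLeft a 31)))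
      (by rw [Nat.add_eq, nshl_eq]; omega)
      (fun i hi => by rw [Nat.add_eq, nshl_eq, nshl_eq]; exact (hm i hi).1)
    have eS := yt_stepF rS (((rC.mul b).add (rS.mul a)).add (o.mul 46116860184273879040))
      (((rC.add rS).shl 33).add (o.mul (Nat.shiftLeft (Nat.add a b) 31))) (by omega)
      (fun i hi => by rw [nshl_eq, Nat.add_eq]; exact (hm i hi).2.1)
    refine ⟨_, _, _, hb1, ?_, _, _, eC, eS, fun i hi => ?_⟩
    · rw [show (2 : ℝ) ^ (d + 1) * (2 * π * k / 4096) = 2 * (2 ^ d * (2 * π * k / 4096)) by ring]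
      refine le_trans (csq_near hz (by linarith)) ?_
      rw [pow_succ _ d]; linarith
    · by_cases h : i < 2 ^ d
      · simp only [if_pos h]
        exact le_trans (hok i h) (by push_cast; linarith)
      · simp only [if_neg h, Nat.add_eq, nshl_eq]
        obtain ⟨j, rfl⟩ : ∃ j, i = 2 ^ d + j := ⟨i - 2 ^ d, by omega⟩
        rw [Nat.add_sub_cancel_left]
        have := (hm j (by omega)).2.2
        rw [show ((2 ^ d + j : ℕ) : ℝ) * (2 * π * k / 4096) =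
          j * (2 * π * k / 4096) + 2 ^ d * (2 * π * k / 4096) by push_cast; ring]
        exact le_trans this (by push_cast; linarith)

theorem y_spec {k : ℕ} (hk : k ≤ 256) : ∃ u v : ℕ → ℕ, Rep 72 4096 (yC k) u (2 ^ 32) ∧
    Rep 72 4096 (yS k) v (2 ^ 32) ∧ ∀ i < 4096,
      |(u i : ℝ) - (cos (2 * π * k * (i / 4096)) + 2) * 2 ^ 30| ≤ 36 ∧
      |(v i : ℝ) - (sin (2 * π * k * (i / 4096)) + 2) * 2 ^ 30| ≤ 36 := by
  obtain ⟨z, C, S, hb, -, u, v, hC, hS, hok⟩ := yt_inv hk 12 le_rfl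
  have e : 2 ^ 12 = 4096 := by norm_num
  rw [e] at hC hS hok
  refine ⟨u, v, ⟨?_, fun i hi => (yt_le (hok i hi) (by norm_num)).1⟩,
    ⟨?_, fun i hi => (yt_le (hok i hi) (by norm_num)).2⟩, fun i hi => ?_⟩
  · rw [yC, force_eq, yC0, hb]; exact hC
  · rw [yS, force_eq, yS0, hb]; exact hS
  · obtain ⟨h1, h2⟩ := parts_of_norm (hok i hi)
    rw [show (i : ℝ) * (2 * π * k / 4096) = 2 * π * k * (i / 4096) by ring] at h1 h2
    rw [abs_le] at h1 h2
    push_cast at h1 h2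
    constructor <;> rw [abs_le] <;> constructor <;> linarith [h1.1, h1.2, h2.1, h2.2]

end Pool.Agent.Lib.MP_33650d_pr
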