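import Pool.Agent.Lib.MP_33650d_pr.MDef
import Pool.Agent.Lib.MP_33650d_pr.YTab

namespace Pool.Agent.Lib.MP_33650d_pr
open Real

noncomputable def pR (K J0 J th tf j : ℕ) : ℝ :=
  if j < J0 then ((pB K j : ℝ) - 2 ^ 30) / 2 ^ 30 else ((th : ℝ) + tf) * VP J j / 2 ^ 30
noncomputable def qR (K J0 J th j : ℕ) : ℝ :=
  if j < J0 then ((qB K j : ℝ) - 2 ^ 30) / 2 ^ 30 else -((th : ℝ) * VQ J j) / 2 ^ 30
noncomputable def rR' (K J0 J th tf j : ℕ) : ℝ := (rA K J0 J th tf j : ℝ) / 2 ^ 30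

seal Nat.shiftRight Nat.shiftLeft Nat.mod Nat.sub Nat.add Nat.mul Nat.pow rR one72 one128
  h72 h128 xC xS yC yS hyp VP VQ geqR lsub

theorem sumI_eq (a b : ℕ) (f : ℕ → ℕ) : sumI a b f = ∑ j ∈ Finset.Ico a b, f j := by
  rw [sumI, sumN_eq, Finset.sum_Ico_eq_sum_range, Nat.sub_eq]
  exact Finset.sum_congr rfl fun i _ => by rw [force_eq, Nat.add_eq]

theorem rA_low {K J0 J th tf j : ℕ} (h : j < J0) : rA K J0 J th tf j = rF K j := by
  have e : Nat.ble J0 j = false := by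
    rw [Bool.eq_false_iff, Ne, Nat.ble_eq]; omega
  rw [rA, e, ite'_false]

theorem kc_rA_high {K J0 J th tf j : ℕ} (h : J0 ≤ j) :
    (rA K J0 J th tf j : ℝ) = th * VR J j + tf * VP J j := by
  rw [rA, Nat.ble_eq_true_of_le h, ite'_true, cast_nadd, cast_nmul, cast_nmul]

theorem kc_ab_sq (x : ℕ) : (ab x : ℝ) ^ 2 = ((x : ℝ) - 2 ^ 30) ^ 2 := by
  rw [ab, cast_nadd]
  rcases le_total x 1073741824 with h | h
  · rw [cast_nsub (a := 1073741824) (b := x) (by exact_mod_cast h), Nat.sub_eq,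
      Nat.sub_eq_zero_of_le h]
    push_cast; ring
  · rw [cast_nsub (a := x) (b := 1073741824) (by exact_mod_cast h), Nat.sub_eq,
      Nat.sub_eq_zero_of_le h]
    push_cast; ring

theorem kc_hyp (a b : ℕ) : (a : ℝ) ^ 2 + (b : ℝ) ^ 2 ≤ (hyp a b : ℝ) ^ 2 := by
  exact_mod_cast hyp_spec a b

theorem kc_pB (K j : ℕ) : pB K j ≤ 2 ^ 31 := (bt_lt _ _ (by norm_num)).le
theorem kc_qB (K j : ℕ) : qB K j ≤ 2 ^ 31 := (bt_lt _ _ (by norm_num)).le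

theorem kc_rep_sumI {w n a b : ℕ} {X : ℕ → ℕ} {v : ℕ → ℕ → ℕ} {B : ℕ → ℕ}
    (h : ∀ j, a ≤ j → j < b → Rep w n (X j) (v j) (B j)) :
    Rep w n (sumI a b X) (fun i => ∑ j ∈ Finset.Ico a b, v j i) (∑ j ∈ Finset.Ico a b, B j) := by
  refine ⟨?_, fun i hi => Finset.sum_le_sum fun j hj =>
    (h j (Finset.mem_Ico.1 hj).1 (Finset.mem_Ico.1 hj).2).2 i hi⟩
  rw [sumI_eq, Finset.sum_congr rfl fun j hj =>
    (h j (Finset.mem_Ico.1 hj).1 (Finset.mem_Ico.1 hj).2).1]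
  unfold pk
  rw [Finset.sum_comm]
  exact Finset.sum_congr rfl fun i _ => (Finset.sum_mul _ _ _).symm

theorem kc_prod {c B x y e : ℝ} (hc : |c| ≤ B) (h : |x - y| ≤ e) : |c * x - c * y| ≤ B * e := by
  rw [← mul_sub, abs_mul]
  exact mul_le_mul hc h (abs_nonneg _) ((abs_nonneg _).trans hc)

theorem kc_abs {x : ℕ} (h : x ≤ 2 ^ 31) : |(x : ℝ) - 2 ^ 30| ≤ 2 ^ 30 := by
  have h1 : (x : ℝ) ≤ 2 ^ 31 := by exact_mod_cast h
  have h2 : (0 : ℝ) ≤ x := by positivity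
  rw [abs_le]; constructor <;> linarith

theorem kc_fR {i : ℕ} (hi1 : 1 ≤ i) (hi2 : i ≤ 4096) : (fR (i % 4096) : ℝ) =
    (max 0 (2 * ((i : ℝ) / 4096) - 1) + (i : ℝ) / 4096 - ((i : ℝ) / 4096) ^ 2) * 2 ^ 60 := by
  rcases hi2.eq_or_lt with rfl | h
  · norm_num [fR]
  · rw [Nat.mod_eq_of_lt h, fR, if_neg (by omega)]
    push_cast [Nat.cast_sub h.le]
    rcases le_total (2 * i) 4096 with h2 | h2
    · have h3 : (2 * i : ℝ) ≤ 4096 := by exact_mod_cast h2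
      rw [Nat.sub_eq_zero_of_le h2, max_eq_left (by linarith)]
      push_cast; ring
    · have h3 : (4096 : ℝ) ≤ 2 * i := by exact_mod_cast h2
      rw [Nat.cast_sub h2, max_eq_right (by linarith)]
      push_cast; ring

theorem kc_trig (k : ℕ) {i : ℕ} (hi2 : i ≤ 4096) :
    cos (2 * π * k * (((i % 4096 : ℕ) : ℝ) / 4096)) = cos (2 * π * k * ((i : ℝ) / 4096)) ∧
      sin (2 * π * k * (((i % 4096 : ℕ) : ℝ) / 4096)) = sin (2 * π * k * ((i : ℝ) / 4096)) := by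
  rcases hi2.eq_or_lt with rfl | h
  · have e : 2 * π * k * (((4096 : ℕ) : ℝ) / 4096) = 0 + k * (2 * π) := by push_cast; ring
    rw [e, cos_add_nat_mul_two_pi, sin_add_nat_mul_two_pi]
    simp
  · rw [Nat.mod_eq_of_lt h]; exact ⟨rfl, rfl⟩

theorem kc_lane {K J0 J th tf cL cR : ℕ} {u v : ℕ → ℕ → ℕ} (h2 : J0 ≤ 16) (h3 : J ≤ 256)
    (hu : ∀ k ≤ 256, Rep 72 4096 (yC k) (u k) (2 ^ 32))
    (hv : ∀ k ≤ 256, Rep 72 4096 (yS k) (v k) (2 ^ 32))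
    (hs : (th + tf) * ∑ j ∈ Finset.Ico J0 J, VP J j + th * ∑ j ∈ Finset.Ico J0 J, VQ J j ≤ 2 ^ 34)
    (h : chkK2 K J0 J th tf cL cR = true) {i : ℕ} (hi : i < 4096) :
    (∑ j ∈ Finset.Ico 0 J0, (u (j + 1) i + v (j + 1) i)) * 2 ^ 30 + fR i
        + th * ∑ j ∈ Finset.Ico J0 J, VQ J j * v (j + 1) i + cR * 1 ≤
      ∑ j ∈ Finset.Ico 0 J0, (pB K j * u (j + 1) i + qB K j * v (j + 1) i)
        + (th + tf) * ∑ j ∈ Finset.Ico J0 J, VP J j * u (j + 1) i + cL * 1 := by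
  simp only [chkK2, band_eq] at h
  obtain ⟨c1, c2, c3⟩ := h
  have c1' : cL ≤ 2 ^ 69 := Nat.le_of_ble_eq_true c1
  have c2' : cR ≤ 2 ^ 69 := Nat.le_of_ble_eq_true c2
  have hu' : ∀ j, j < 256 → Rep 72 4096 (yC (Nat.add j 1)) (u (j + 1)) (2 ^ 32) :=
    fun j hj => by rw [Nat.add_eq]; exact hu _ hj
  have hv' : ∀ j, j < 256 → Rep 72 4096 (yS (Nat.add j 1)) (v (j + 1)) (2 ^ 32) :=
    fun j hj => by rw [Nat.add_eq]; exact hv _ hj
  have r1 := kc_rep_sumI (a := 0) (b := J0) fun j _ hj =>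
    (Rep.mul' (kc_pB K j) (hu' j (by omega))).add (Rep.mul' (kc_qB K j) (hv' j (by omega)))
  have r2 := (kc_rep_sumI (a := J0) (b := J) fun j _ hj =>
    Rep.mul (VP J j) (hu' j (by omega))).mul (Nat.add th tf)
  have r3 := (kc_rep_sumI (a := 0) (b := J0) fun j _ hj =>
    (hu' j (by omega)).add (hv' j (by omega))).shl 30
  have r4 := (kc_rep_sumI (a := J0) (b := J) fun j _ hj =>
    Rep.mul (VQ J j) (hv' j (by omega))).mul th
  have rX := (r1.add r2).add (Rep.mul' c1' one72_rep')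
  have rY := ((r3.add rR_rep).add r4).add (Rep.mul' c2' one72_rep')
  rw [HVP, SCS, HVQ] at c3
  have := geqR_sound (w := 71) h72_eq rX rY ?_ ?_ c3 (Nat.zero_le i) (by omega) hi
  · rw [Nat.add_eq] at this
    exact this
  · rw [Nat.add_eq, ← Finset.sum_mul, ← mul_assoc, Finset.sum_const, Nat.card_Ico, smul_eq_mul]
    omega
  · rw [← Finset.sum_mul, ← mul_assoc, Finset.sum_const, Nat.card_Ico, smul_eq_mul]
    omega

theorem pq_le (K J0 J th tf j : ℕ) :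
    pR K J0 J th tf j ^ 2 + qR K J0 J th j ^ 2 ≤ rR' K J0 J th tf j ^ 2 := by
  unfold pR qR rR'
  split_ifs with h
  · have h1 := kc_hyp (ab (pB K j)) (ab (qB K j))
    rw [kc_ab_sq, kc_ab_sq, ← rF] at h1
    rw [rA_low h, div_pow, div_pow, div_pow, ← add_div]
    exact div_le_div_of_nonneg_right h1 (by positivity)
  · have h1 := kc_hyp (VP J j) (VQ J j)
    rw [← VR] at h1
    rw [kc_rA_high (not_lt.1 h), div_pow, div_pow, div_pow, ← add_div]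
    refine div_le_div_of_nonneg_right ?_ (by positivity)
    have p1 : (0 : ℝ) ≤ VP J j := by positivity
    have p2 : (0 : ℝ) ≤ VR J j := by positivity
    have p3 : (0 : ℝ) ≤ th := by positivity
    have p4 : (0 : ℝ) ≤ tf := by positivity
    have h2 : (VP J j : ℝ) ≤ VR J j :=
      abs_le_of_sq_le_sq' (by nlinarith [sq_nonneg (VQ J j : ℝ)]) p2 |>.2
    have h3 := mul_le_mul_of_nonneg_left h1 (sq_nonneg (th : ℝ))
    have h4 := mul_le_mul_of_nonneg_left h2 (show (0 : ℝ) ≤ th * tf * VP J j by positivity)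
    nlinarith

theorem chkK_sound {K J0 J th tf a0 : ℕ} (h1 : J0 ≤ J) (h2 : J0 ≤ 16) (h3 : J ≤ 256)
    (h : chkK K J0 J th tf a0 = true) (i : ℕ) (hi1 : 1 ≤ i) (hi2 : i ≤ 4096) :
    max 0 (2 * ((i : ℝ) / 4096) - 1)
      + (2 + ∑ j ∈ Finset.range J, (2 * π * (j + 1)) ^ 2 * rR' K J0 J th tf j) / (8 * 4096 ^ 2)
      ≤ hK J (a0 / 2 ^ 30) (pR K J0 J th tf) (qR K J0 J th) (i / 4096) := by
  have hy : ∀ k : ℕ, ∃ u v : ℕ → ℕ, k ≤ 256 → (Rep 72 4096 (yC k) u (2 ^ 32) ∧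
      Rep 72 4096 (yS k) v (2 ^ 32) ∧ ∀ i < 4096,
      |(u i : ℝ) - (cos (2 * π * k * (i / 4096)) + 2) * 2 ^ 30| ≤ 36 ∧
      |(v i : ℝ) - (sin (2 * π * k * (i / 4096)) + 2) * 2 ^ 30| ≤ 36) := by
    intro k
    by_cases hk : k ≤ 256
    · obtain ⟨u, v, h⟩ := y_spec hk
      exact ⟨u, v, fun _ => h⟩
    · exact ⟨fun _ => 0, fun _ => 0, fun h => absurd h hk⟩
  choose u v huv using hy
  rw [chkK, band_eq] at h
  obtain ⟨c1, c2⟩ := h
  have c1' := Nat.le_of_ble_eq_true c1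
  clear c1
  simp only [Nat.add_eq, Nat.mul_eq, SVP, SVQ, sumI_eq] at c1'
  have hm : i % 4096 < 4096 := Nat.mod_lt _ (by norm_num)
  have hl := kc_lane h2 h3 (fun k hk => (huv k hk).1) (fun k hk => (huv k hk).2.1) c1' c2 hm
  clear c2 c1'
  have hl' := (Nat.cast_le (α := ℝ)).2 hl
  clear hl
  simp only [Nat.add_eq, Nat.mul_eq, nshl_eq, SVP, SVQ, S2f, MVR, MVP, sq, sumI_eq] at hl'
  push_cast at hl'
  rw [kc_fR hi1 hi2] at hl'
  obtain ⟨s, hs⟩ : ∃ s : ℝ, s = (i : ℝ) / 4096 := ⟨_, rfl⟩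
  have he : ∀ j, j < J →
      |(u (j + 1) (i % 4096) : ℝ) - 2 ^ 31 - cos (2 * π * (j + 1) * s) * 2 ^ 30| ≤ 36 ∧
      |(v (j + 1) (i % 4096) : ℝ) - 2 ^ 31 - sin (2 * π * (j + 1) * s) * 2 ^ 30| ≤ 36 := by
    intro j hj
    have h5 := (huv (j + 1) (by omega)).2.2 _ hm
    rw [(kc_trig (j + 1) hi2).1, (kc_trig (j + 1) hi2).2, ← hs] at h5
    push_cast at h5
    constructor
    · convert h5.1 using 2; ring
    · convert h5.2 using 2; ring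
  rw [← hs] at hl' ⊢
  have s1 : ∑ j ∈ Finset.Ico 0 J0, (((pB K j : ℝ) * u (j + 1) (i % 4096)
        + qB K j * v (j + 1) (i % 4096)) - ((u (j + 1) (i % 4096) : ℝ) + v (j + 1) (i % 4096)) * 2 ^ 30
        - ((pB K j : ℝ) + qB K j) * 2 ^ 31 + (2 ^ 62 - 36 * 2 ^ 31)) ≤
      ∑ j ∈ Finset.Ico 0 J0, (pR K J0 J th tf j * cos (2 * π * (j + 1) * s)
        + qR K J0 J th j * sin (2 * π * (j + 1) * s)) * 2 ^ 60 := by
    refine Finset.sum_le_sum fun j hj => ?_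
    have hj' := (Finset.mem_Ico.1 hj).2
    obtain ⟨e1, e2⟩ := he j (by omega)
    have e3 := (abs_le.1 (kc_prod (kc_abs (kc_pB K j)) e1)).2
    have e4 := (abs_le.1 (kc_prod (kc_abs (kc_qB K j)) e2)).2
    rw [pR, qR, if_pos hj', if_pos hj']
    linarith
  have s2 : ∑ j ∈ Finset.Ico J0 J, (((th : ℝ) + tf) * (VP J j * u (j + 1) (i % 4096))
        - th * (VQ J j * v (j + 1) (i % 4096)) - ((th : ℝ) + tf) * (2 ^ 31 + 36) * VP J j
        + (th : ℝ) * (2 ^ 31 - 36) * VQ J j) ≤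
      ∑ j ∈ Finset.Ico J0 J, (pR K J0 J th tf j * cos (2 * π * (j + 1) * s)
        + qR K J0 J th j * sin (2 * π * (j + 1) * s)) * 2 ^ 60 := by
    refine Finset.sum_le_sum fun j hj => ?_
    obtain ⟨hj1, hj2⟩ := Finset.mem_Ico.1 hj
    obtain ⟨e1, e2⟩ := he j hj2
    have e3 := (abs_le.1 (kc_prod (c := ((th : ℝ) + tf) * VP J j)
      (abs_of_nonneg (by positivity)).le e1)).2
    have e4 := (abs_le.1 (kc_prod (c := (th : ℝ) * VQ J j)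
      (abs_of_nonneg (by positivity)).le e2)).1
    rw [pR, qR, if_neg (by omega), if_neg (by omega)]
    linarith
  have s3 : ∑ j ∈ Finset.range J, (2 * π * (j + 1)) ^ 2 * rR' K J0 J th tf j =
      4 * π ^ 2 / 2 ^ 30 * (∑ j ∈ Finset.Ico 0 J0, ((j : ℝ) + 1) * (j + 1) * rF K j
        + (th * ∑ j ∈ Finset.Ico J0 J, ((j : ℝ) + 1) * (j + 1) * VR J j
          + tf * ∑ j ∈ Finset.Ico J0 J, ((j : ℝ) + 1) * (j + 1) * VP J j)) := by
    rw [Finset.range_eq_Ico, ← Finset.sum_Ico_consecutive _ (Nat.zero_le J0) h1, Finset.mul_sum,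
      Finset.mul_sum, ← Finset.sum_add_distrib, mul_add, Finset.mul_sum, Finset.mul_sum]
    congr 1
    · refine Finset.sum_congr rfl fun j hj => ?_
      rw [rR', rA_low (Finset.mem_Ico.1 hj).2]; ring
    · refine Finset.sum_congr rfl fun j hj => ?_
      rw [rR', kc_rA_high (Finset.mem_Ico.1 hj).1]; ring
  rw [s3, hK, Finset.range_eq_Ico, ← Finset.sum_Ico_consecutive _ (Nat.zero_le J0) h1]
  simp only [Finset.sum_add_distrib, Finset.sum_sub_distrib, ← Finset.sum_mul, ← Finset.mul_sum,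
    Finset.sum_const, Nat.card_Ico, nsmul_eq_mul, Nat.sub_zero] at s1 s2 hl' ⊢
  have hp : π ^ 2 ≤ 316 / 32 := by nlinarith [pi_lt_d4, pi_pos]
  obtain ⟨T, hT⟩ : ∃ T : ℝ, T = ∑ j ∈ Finset.Ico 0 J0, ((j : ℝ) + 1) * (j + 1) * rF K j
        + (th * ∑ j ∈ Finset.Ico J0 J, ((j : ℝ) + 1) * (j + 1) * VR J j
          + tf * ∑ j ∈ Finset.Ico J0 J, ((j : ℝ) + 1) * (j + 1) * VP J j) := ⟨_, rfl⟩
  have hT0 : 0 ≤ T := by rw [hT]; positivity
  rw [← hT] at hl' ⊢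
  have h7 := mul_le_mul_of_nonneg_right hp hT0
  linarith

theorem kc_pm {X Y : ℕ} {x y : ℕ → ℕ} (hX : Rep 128 512 X x (2 ^ 75))
    (hY : Rep 128 512 Y y (2 ^ 75)) :
    Rep 128 512 (lsub 127 X Y h128) (fun i => x i - y i) (2 ^ 76) ∧
      Rep 128 512 (Nat.sub (Nat.add (lsub 127 X Y h128) Y) X) (fun i => x i - y i + y i - x i)
        (2 ^ 76) := by
  have r := lsub_rep (w := 127) h128_eq hX hY (by norm_num) (by norm_num)
  exact ⟨r.mono (by norm_num), ((r.add hY).sub hX fun i _ => le_tsub_add).mono (by norm_num)⟩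

/-- The rows of the positive and negative parts of the rotated coefficients. -/
theorem ab_rows (K : ℕ) {j e1 f1 e2 f2 : ℕ} (hj : j < 9) (h1 : e1 ≤ 2 ^ 73) (h2 : f1 ≤ 2 ^ 73)
    (h3 : e2 ≤ 2 ^ 73) (h4 : f2 ≤ 2 ^ 73) : ∃ ap an bp' bn' : ℕ → ℕ,
    Rep 128 512 (rAp0 K j e1 f1) ap (2 ^ 76) ∧ Rep 128 512 (rAn0 K j e1 f1) an (2 ^ 76) ∧
    Rep 128 512 (rBp0 K j e2 f2) bp' (2 ^ 76) ∧ Rep 128 512 (rBn0 K j e2 f2) bn' (2 ^ 76) ∧ ∀ i < 512,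
      |((pB K j : ℝ) - 2 ^ 30) / 2 ^ 30 * cos (2 * π * (j + 1) * sx i)
        - ((qB K j : ℝ) - 2 ^ 30) / 2 ^ 30 * sin (2 * π * (j + 1) * sx i) - ((f1 : ℝ) - e1) / 2 ^ 70
        - ((ap i : ℝ) / 2 ^ 70 - an i / 2 ^ 70)| ≤ 4 / 2 ^ 40 ∧
      |((pB K j : ℝ) - 2 ^ 30) / 2 ^ 30 * sin (2 * π * (j + 1) * sx i)
        + ((qB K j : ℝ) - 2 ^ 30) / 2 ^ 30 * cos (2 * π * (j + 1) * sx i) - ((f2 : ℝ) - e2) / 2 ^ 70
        - ((bp' i : ℝ) / 2 ^ 70 - bn' i / 2 ^ 70)| ≤ 4 / 2 ^ 40 := by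
  obtain ⟨u, v, hu, hv, h⟩ := x_spec hj
  have hp := kc_pB K j
  have hq := kc_qB K j
  have sp : Nat.add (Nat.shiftLeft (pB K j) 41) f1 ≤ 2 ^ 72 + 2 ^ 73 := by
    rw [Nat.add_eq, nshl_eq]; omega
  have sq' : Nat.add (Nat.shiftLeft (qB K j) 41) e1 ≤ 2 ^ 72 + 2 ^ 73 := by
    rw [Nat.add_eq, nshl_eq]; omega
  have s72 : Nat.add 4722366482869645213696 e2 ≤ 2 ^ 72 + 2 ^ 73 := by
    rw [Nat.add_eq]; omega
  have spq : Nat.add (Nat.shiftLeft (Nat.add (pB K j) (qB K j)) 41) f2 ≤ 2 ^ 74 := by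
    rw [Nat.add_eq, nshl_eq, Nat.add_eq]; omega
  have r1 : Rep 128 512 (aX K j e1) (fun i => pB K j * u i + v i * 2 ^ 30
      + Nat.add (Nat.shiftLeft (qB K j) 41) e1 * 1) (2 ^ 75) := by
    unfold aX xS30
    exact (((Rep.mul' hp hu).add (hv.shl 30)).add (Rep.mul' sq' one128_rep)).mono (by norm_num)
  have r2 : Rep 128 512 (aY K j f1) (fun i => qB K j * v i + u i * 2 ^ 30
      + Nat.add (Nat.shiftLeft (pB K j) 41) f1 * 1) (2 ^ 75) := by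
    unfold aY xC30
    exact (((Rep.mul' hq hv).add (hu.shl 30)).add (Rep.mul' sp one128_rep)).mono (by norm_num)
  have r3 : Rep 128 512 (bX K j e2) (fun i => pB K j * v i + qB K j * u i
      + Nat.add 4722366482869645213696 e2 * 1) (2 ^ 75) := by
    unfold bX
    exact (((Rep.mul' hp hv).add (Rep.mul' hq hu)).add (Rep.mul' s72 one128_rep)).mono
      (by norm_num)
  have r4 : Rep 128 512 (bY K j f2) (fun i => u i * 2 ^ 30 + v i * 2 ^ 30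
      + Nat.add (Nat.shiftLeft (Nat.add (pB K j) (qB K j)) 41) f2 * 1) (2 ^ 75) := by
    unfold bY xP xC30 xS30
    exact (((hu.shl 30).add (hv.shl 30)).add (Rep.mul' spq one128_rep)).mono (by norm_num)
  obtain ⟨q1, q2⟩ := kc_pm r1 r2
  obtain ⟨q3, q4⟩ := kc_pm r3 r4
  unfold rAn0 rBn0 rAp0 rBp0
  refine ⟨_, _, _, _, q1, q2, q3, q4, fun i hi => ?_⟩
  obtain ⟨c1, c2⟩ := h i hi
  have key : ∀ a b : ℕ, ((a - b : ℕ) : ℝ) / 2 ^ 70 - ((a - b + b - a : ℕ) : ℝ) / 2 ^ 70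
      = ((a : ℝ) - b) / 2 ^ 70 := by
    intro a b
    have := cast_sub_sub a b
    rw [Nat.sub_eq, Nat.sub_eq] at this
    rw [show a - b + b - a = b - a by omega, ← this]; ring
  simp only [key, nshl_eq, Nat.add_eq]
  push_cast
  have c3 := abs_le.1 (kc_prod (kc_abs hp) c1)
  have c4 := abs_le.1 (kc_prod (kc_abs hp) c2)
  have c5 := abs_le.1 (kc_prod (kc_abs hq) c1)
  have c6 := abs_le.1 (kc_prod (kc_abs hq) c2)
  rw [abs_le, abs_le]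
  refine ⟨⟨?_, ?_⟩, ?_, ?_⟩ <;> linarith [c3.1, c3.2, c4.1, c4.2, c5.1, c5.2, c6.1, c6.2]

end Pool.Agent.Lib.MP_33650d_pr
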