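import Pool.Agent.Lib.MP_33650d_pr.Defs

namespace Pool.Agent.Lib.MP_33650d_pr
open MeasureTheory ProbabilityTheory Real Set Filter Topology

/-- The singular part of the Prawitz kernel. -/
noncomputable def pw_c (u : ℝ) : ℝ := (1 - u) * (cos (π * u) / sin (π * u))

/-- The difference between `1 / (π u)` and the cotangent. -/
noncomputable def pw_D (u : ℝ) : ℝ := 1 / (π * u) - cos (π * u) / sin (π * u)

theorem pw_sin_pos {u : ℝ} (h0 : 0 < u) (h1 : u < 1) : 0 < sin (π * u) :=
  sin_pos_of_pos_of_lt_pi (by positivity) (by nlinarith [pi_pos])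

theorem pw_sin_half {u : ℝ} (h0 : 0 ≤ u) (h1 : u ≤ 1 / 2) : 2 * u ≤ sin (π * u) := by
  have := mul_le_sin (x := π * u) (by positivity) (by nlinarith [pi_pos])
  rwa [show 2 / π * (π * u) = 2 * u by field_simp] at this

theorem pw_sin_ge {u : ℝ} (h0 : 0 ≤ u) (h1 : u ≤ 1) : 2 * u * (1 - u) ≤ sin (π * u) := by
  rcases le_total u (1 / 2) with h | h
  · nlinarith [pw_sin_half h0 h]
  · have := pw_sin_half (u := 1 - u) (by linarith) (by linarith)
    rw [mul_sub π, mul_one, sin_pi_sub] at this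
    nlinarith

theorem pw_c_bd {u : ℝ} (h0 : 0 ≤ u) (h1 : u ≤ 1) (a : ℝ) : |pw_c u * sin (u * a)| ≤ |a| / 2 := by
  rcases h0.eq_or_lt with rfl | h0
  · simp only [zero_mul, sin_zero, mul_zero, abs_zero]
    positivity
  rcases h1.eq_or_lt with rfl | h1
  · simp only [pw_c, sub_self, zero_mul, abs_zero]
    positivity
  have h2 := pw_sin_pos h0 h1
  have h3 : |pw_c u| * u ≤ 1 / 2 := by
    rw [pw_c, abs_mul, abs_div, abs_of_pos h2, abs_of_pos (sub_pos.2 h1), ← mul_div_assoc,
      div_mul_eq_mul_div, div_le_iff₀ h2]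
    have := mul_le_mul_of_nonneg_left (abs_cos_le_one (π * u)) (show 0 ≤ (1 - u) * u by nlinarith)
    nlinarith [pw_sin_ge h0.le h1.le]
  rw [abs_mul]
  refine (mul_le_mul_of_nonneg_left abs_sin_le_abs (abs_nonneg _)).trans ?_
  rw [abs_mul, abs_of_pos h0, ← mul_assoc]
  nlinarith [abs_nonneg a]

theorem pw_c_meas : Measurable pw_c := by
  unfold pw_c
  fun_prop

theorem pw_int {g : ℝ → ℝ} (hg : Measurable g) (C : ℝ) (h : ∀ u, 0 ≤ u → u ≤ 1 → |g u| ≤ C) :
    IntervalIntegrable g volume 0 1 := by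
  rw [intervalIntegrable_iff_integrableOn_Ioc_of_le zero_le_one]
  exact Measure.integrableOn_of_bounded (M := C) (by simp) hg.aestronglyMeasurable
    (ae_restrict_of_forall_mem measurableSet_Ioc fun u hu => h u hu.1.le hu.2)

theorem pw_c_int (a : ℝ) : IntervalIntegrable (fun u => pw_c u * sin (u * a)) volume 0 1 :=
  pw_int (pw_c_meas.mul (by fun_prop)) _ fun _ h0 h1 => pw_c_bd h0 h1 a

/-- The Fejer part. -/
noncomputable def pw_G (a : ℝ) : ℝ := ∫ u in (0 : ℝ)..1, (1 - u) * cos (u * a)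

/-- The sine part. -/
noncomputable def pw_S (a : ℝ) : ℝ := ∫ u in (0 : ℝ)..1, sin (u * a)

/-- The cotangent part. -/
noncomputable def pw_J (a : ℝ) : ℝ := ∫ u in (0 : ℝ)..1, pw_c u * sin (u * a)

theorem pw_G_eq {a : ℝ} (ha : a ≠ 0) : pw_G a = (1 - cos a) / a ^ 2 := by
  have : ∀ u ∈ uIcc (0 : ℝ) 1, HasDerivAt (fun u => (1 - u) * sin (u * a) / a - cos (u * a) / a ^ 2)
      ((1 - u) * cos (u * a)) u := fun u _ => by
    have h1 := ((hasDerivAt_id' u).mul_const a).sin
    have h2 := ((hasDerivAt_id' u).mul_const a).cos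
    refine (((((hasDerivAt_id' u).const_sub 1).mul h1).div_const a).sub
      (h2.div_const (a ^ 2))).congr_deriv ?_
    field_simp
    ring
  rw [pw_G, intervalIntegral.integral_eq_sub_of_hasDerivAt this (Continuous.intervalIntegrable
    (by fun_prop) _ _)]
  simp
  ring

theorem pw_G_zero : pw_G 0 = 1 / 2 := by
  simp only [pw_G, mul_zero, cos_zero, mul_one]
  rw [intervalIntegral.integral_sub (by simp) (by simp)]
  norm_num

theorem pw_S_eq {a : ℝ} (ha : a ≠ 0) : pw_S a = (1 - cos a) / a := by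
  rw [pw_S, intervalIntegral.integral_comp_mul_right sin ha]
  simp [div_eq_inv_mul]

theorem pw_J_step (a : ℝ) : pw_J (a + 2 * π) = pw_J a + pw_G a + pw_G (a + 2 * π) := by
  have i1 : ∀ a : ℝ, IntervalIntegrable (fun u : ℝ => (1 - u) * cos (u * a)) volume 0 1 := fun a =>
    Continuous.intervalIntegrable (by fun_prop) _ _
  rw [pw_J, pw_J, pw_G, pw_G, ← intervalIntegral.integral_add (pw_c_int _) (i1 _),
    ← intervalIntegral.integral_add ((pw_c_int _).add (i1 _)) (i1 _),
    intervalIntegral.integral_of_le zero_le_one, intervalIntegral.integral_of_le zero_le_one,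
    integral_Ioc_eq_integral_Ioo, integral_Ioc_eq_integral_Ioo]
  refine setIntegral_congr_fun measurableSet_Ioo fun u hu => ?_
  have h := (pw_sin_pos hu.1 hu.2).ne'
  have h2 := sin_sq_add_cos_sq (π * u)
  simp only [pw_c, show u * (a + 2 * π) = u * a + (π * u + π * u) by ring, sin_add, cos_add]
  generalize sin (π * u) = s at *
  generalize cos (π * u) = c at *
  generalize sin (u * a) = p
  generalize cos (u * a) = q
  field_simp
  linear_combination (1 - u) * (c * p + s * q) * h2

theorem pw_J_nat (N : ℕ) : pw_J ((N + 1) * (2 * π)) = 1 / 2 := by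
  have h : ∀ N : ℕ, pw_G ((N + 1) * (2 * π)) = 0 := fun N => by
    rw [pw_G_eq (by positivity), ← Nat.cast_succ, cos_nat_mul_two_pi, sub_self, zero_div]
  induction N with
  | zero =>
    have := pw_J_step 0
    have h0 := h 0
    simp only [zero_add, CharP.cast_eq_zero, one_mul, pw_G_zero] at this h0 ⊢
    rw [this, h0, pw_J]
    simp
  | succ N ih =>
    have h1 := h (N + 1)
    push_cast at h1 ⊢
    rw [add_mul _ 1, one_mul] at h1 ⊢
    rw [pw_J_step, ih, h, h1]
    simp

theorem pw_RL {g : ℝ → ℝ} (hg : IntervalIntegrable g volume 0 1) (b : ℝ) :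
    Tendsto (fun N : ℕ => ∫ u in (0 : ℝ)..1, g u * cos (u * ((N + 1) * (2 * π) + b))) atTop (𝓝 0) := by
  have h1 : Tendsto (fun N : ℕ => (N : ℝ) + (1 + b / (2 * π))) atTop (cocompact ℝ) :=
    (tendsto_atTop_add_const_right _ _ tendsto_natCast_atTop_atTop).mono_right atTop_le_cocompact
  have h2 := (Complex.continuous_re.tendsto _).comp ((Real.tendsto_integral_exp_smul_cocompact
    ((Ioc (0 : ℝ) 1).indicator fun u => (g u : ℂ))).comp h1)
  refine h2.congr fun N => ?_
  have hg' := (intervalIntegrable_iff_integrableOn_Ioc_of_le zero_le_one).1 hg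
  simp only [Function.comp, Circle.smul_def, fourierChar_apply, smul_eq_mul]
  rw [intervalIntegral.integral_of_le zero_le_one]
  have h3 : ∀ (f : ℝ → ℂ) (u : ℝ), f u * (Ioc (0 : ℝ) 1).indicator (fun u => (g u : ℂ)) u =
      (Ioc (0 : ℝ) 1).indicator (fun u => f u * g u) u := fun f u => by
    simp only [indicator]
    split_ifs <;> simp
  rw [integral_congr_ae (ae_of_all _ (h3 _)), integral_indicator measurableSet_Ioc,
    ← RCLike.re_to_complex, ← integral_re]
  · refine setIntegral_congr_fun measurableSet_Ioc fun u _ => ?_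
    simp only [RCLike.re_to_complex, Complex.mul_re, Complex.ofReal_re, Complex.ofReal_im, mul_zero,
      sub_zero, Complex.exp_ofReal_mul_I_re]
    rw [mul_comm, ← cos_neg]
    congr 2
    field_simp
    ring
  · exact Integrable.bdd_mul (c := 1) hg'.ofReal (by fun_prop)
      (ae_of_all _ fun u => (Complex.norm_exp_ofReal_mul_I _).le)

theorem pw_J_lim (a : ℝ) : Tendsto (fun N : ℕ => pw_J (a + (N + 1) * (2 * π))) atTop (𝓝 (1 / 2)) := by
  have h := (pw_RL ((pw_c_int (a / 2)).const_mul 2) (a / 2)).const_add (1 / 2)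
  rw [add_zero] at h
  refine h.congr fun N => ?_
  rw [← pw_J_nat N, pw_J, pw_J, ← intervalIntegral.integral_add (pw_c_int _)
    (((pw_c_int (a / 2)).const_mul 2).mul_continuousOn (by fun_prop))]
  congr 1
  funext u
  have := sin_sub_sin (u * (a + (N + 1) * (2 * π))) (u * ((N + 1) * (2 * π)))
  rw [show (u * (a + (N + 1) * (2 * π)) - u * ((N + 1) * (2 * π))) / 2 = u * (a / 2) by ring,
    show (u * (a + (N + 1) * (2 * π)) + u * ((N + 1) * (2 * π))) / 2 =
      u * ((N + 1) * (2 * π) + a / 2) by ring] at this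
  linear_combination (-pw_c u) * this

theorem pw_mono {f : ℝ → ℝ} {l : ℝ} (h : ∀ a, 0 < a → f (a + 2 * π) ≤ f a) {a : ℝ} (ha : 0 < a)
    (hl : Tendsto (fun N : ℕ => f (a + (N + 1) * (2 * π))) atTop (𝓝 l)) : l ≤ f a := by
  refine le_of_tendsto' hl fun N => ?_
  induction N with
  | zero => simpa using h a ha
  | succ N ih =>
    push_cast
    rw [add_mul _ 1, one_mul, ← add_assoc]
    exact (h _ (by positivity)).trans ih

theorem pw_lim (a s : ℝ) (ha : 0 < a) : Tendsto (fun N : ℕ => pw_G (a + (N + 1) * (2 * π)) +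
    s * (pw_S (a + (N + 1) * (2 * π)) / π + pw_J (a + (N + 1) * (2 * π)))) atTop (𝓝 (s / 2)) := by
  have h1 : Tendsto (fun N : ℕ => (a + (N + 1) * (2 * π))⁻¹) atTop (𝓝 0) :=
    tendsto_inv_atTop_zero.comp (tendsto_atTop_add_const_left _ _ ((tendsto_atTop_add_const_right _ _
      tendsto_natCast_atTop_atTop).atTop_mul_const (by positivity)))
  have h2 := ((h1.pow 2).const_mul (1 - cos a)).add (((((h1.const_mul (1 - cos a)).div_const π)).add
    (pw_J_lim a)).const_mul s)
  simp only [ne_eq, OfNat.ofNat_ne_zero, not_false_eq_true, zero_pow, mul_zero, zero_div, zero_add,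
    mul_one_div] at h2
  refine h2.congr fun N => ?_
  rw [pw_G_eq (by positivity), pw_S_eq (by positivity), ← Nat.cast_succ, cos_add_nat_mul_two_pi]
  simp only [div_eq_mul_inv, inv_pow]

/-- The majorant of the indicator function. -/
noncomputable def pw_H (a : ℝ) : ℝ := 1 / 2 + pw_G a - (pw_S a / π + pw_J a)

theorem pw_H_ge (a : ℝ) : (Iic (0 : ℝ)).indicator 1 a ≤ pw_H a := by
  have key : ∀ s : ℝ, s = 1 ∨ s = -1 → ∀ a, 0 < a → s / 2 ≤ pw_G a + s * (pw_S a / π + pw_J a) := by
    intro s hs a ha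
    refine pw_mono (f := fun a => pw_G a + s * (pw_S a / π + pw_J a)) (fun a ha => ?_) ha
      (pw_lim a s ha)
    have h1 : 0 ≤ 1 - cos a := sub_nonneg.2 (cos_le_one a)
    have h2 := pi_pos
    rw [pw_J_step, pw_G_eq ha.ne', pw_G_eq (by positivity), pw_S_eq ha.ne', pw_S_eq (by positivity),
      cos_add_two_pi, ← sub_nonneg]
    rcases hs with rfl | rfl
    · refine le_of_le_of_eq (show 0 ≤ (1 - cos a) * (4 * π) / (a * (a + 2 * π) ^ 2) by positivity) ?_
      field_simp
      ring
    · refine le_of_le_of_eq (show 0 ≤ (1 - cos a) * (4 * π) / (a ^ 2 * (a + 2 * π)) by positivity) ?_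
      field_simp
      ring
  unfold pw_H
  rcases lt_trichotomy a 0 with h | rfl | h
  · have := key 1 (Or.inl rfl) (-a) (by linarith)
    simp only [pw_G, pw_S, pw_J, mul_neg, cos_neg, sin_neg, intervalIntegral.integral_neg] at this ⊢
    rw [indicator_of_mem (mem_Iic.2 h.le), Pi.one_apply]
    rw [neg_div] at this
    linarith
  · simp [pw_G_zero, pw_S, pw_J]
    norm_num
  · have := key (-1) (Or.inr rfl) a h
    rw [indicator_of_notMem (by simpa using h)]
    linarith

theorem pw_H_eq (a : ℝ) : pw_H a =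
    1 / 2 + ∫ u in (0 : ℝ)..1, ((1 - u) * cos (u * a) - (pw_c u + 1 / π) * sin (u * a)) := by
  have i1 : IntervalIntegrable (fun u : ℝ => sin (u * a) / π) volume 0 1 :=
    Continuous.intervalIntegrable (by fun_prop) _ _
  rw [pw_H, pw_G, pw_S, pw_J, ← intervalIntegral.integral_div, ← intervalIntegral.integral_add i1
    (pw_c_int a), add_sub_assoc, ← intervalIntegral.integral_sub (Continuous.intervalIntegrable
    (by fun_prop) _ _) (i1.add (pw_c_int a))]
  congr 2
  funext u
  ring

theorem pw_D_nonneg {u : ℝ} (h0 : 0 < u) (h1 : u < 1) : 0 ≤ pw_D u := by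
  have h2 := pw_sin_pos h0 h1
  have h3 : 0 < π * u := by positivity
  rw [pw_D, sub_nonneg, div_le_div_iff₀ h2 h3, one_mul]
  rcases lt_or_ge (π * u) (π / 2) with h | h
  · have := le_tan h3.le h
    rwa [tan_eq_sin_div_cos, le_div_iff₀ (cos_pos_of_mem_Ioo ⟨by linarith, h⟩), mul_comm] at this
  · have := cos_nonpos_of_pi_div_two_le_of_le h (by nlinarith [pi_pos])
    nlinarith

theorem pw_D_le {u : ℝ} (h0 : 0 < u) (h1 : u ≤ 1 / 2) : pw_D u ≤ 3 * u := by
  have h2 := pw_sin_half h0.le h1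
  have h3 : 0 < π * u := by positivity
  have h4 : 0 < sin (π * u) := by linarith
  have h5 := sin_le h3.le
  have h6 := mul_le_mul_of_nonneg_left (one_sub_sq_div_two_le_cos (x := π * u)) h3.le
  have h7 : π ^ 2 ≤ 12 := by nlinarith [pi_lt_d2, pi_pos]
  rw [pw_D, div_sub_div _ _ h3.ne' h4.ne', div_le_iff₀ (by positivity)]
  have h8 := mul_le_mul_of_nonneg_left h2 (show 0 ≤ 3 * u * (π * u) by positivity)
  have h9 := mul_le_mul_of_nonneg_left h7 (show 0 ≤ π * u ^ 3 by positivity)
  nlinarith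

theorem pw_k_eq {u : ℝ} (h0 : 0 < u) : pw_c u + 1 / π = 1 / (π * u) - (1 - u) * pw_D u := by
  unfold pw_c pw_D
  field_simp
  ring

theorem pw_k_eq' {u : ℝ} (h1 : u < 1) : pw_c u + 1 / π = (1 - u) * pw_D (1 - u) := by
  have := (sub_pos.2 h1).ne'
  unfold pw_c pw_D
  rw [mul_sub π, mul_one, sin_pi_sub, cos_pi_sub, show π - π * u = π * (1 - u) by ring]
  field_simp
  ring

theorem pw_k_bd {u : ℝ} (h0 : 0 < u) (h1 : u < 1) :
    0 ≤ pw_c u + 1 / π ∧ pw_c u + 1 / π ≤ 1 / (π * u) := by
  constructor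
  · rw [pw_k_eq' h1]
    exact mul_nonneg (by linarith) (pw_D_nonneg (by linarith) (by linarith))
  · rw [pw_k_eq h0]
    exact sub_le_self _ (mul_nonneg (by linarith) (pw_D_nonneg h0 h1))

theorem pw_one {u : ℝ} (h0 : 0 < u) (h1 : u < 1) : (1 - u) ^ 2 + ((1 - u) * pw_D u) ^ 2 ≤ 1 := by
  have h2 := pw_D_nonneg h0 h1
  rcases le_total u (1 / 2) with h | h
  · have h3 := pow_le_pow_left₀ (mul_nonneg (by linarith) h2) (mul_le_mul_of_nonneg_left
      (pw_D_le h0 h) (show 0 ≤ 1 - u by linarith)) 2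
    have h4 : -2 + 10 * u - 18 * u ^ 2 + 9 * u ^ 3 ≤ 0 := by
      nlinarith [sq_nonneg (u - 2 / 5), mul_nonneg (sub_nonneg.2 h) (sq_nonneg u)]
    nlinarith [mul_le_mul_of_nonneg_left h4 h0.le]
  · have h3 : (1 - u) * pw_D u ≤ 2 / 3 := by
      have a1 := (pw_k_bd h0 h1).1
      rw [pw_k_eq h0, sub_nonneg] at a1
      refine a1.trans ?_
      rw [div_le_div_iff₀ (by positivity) (by norm_num)]
      nlinarith [pi_gt_three]
    have h4 := pow_le_pow_left₀ (mul_nonneg (by linarith) h2) h3 2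
    nlinarith

theorem pw_char (μ : Measure ℝ) [IsProbabilityMeasure μ] (t : ℝ) :
    charFun μ t = (∫ y, cos (t * y) ∂μ : ℝ) + (∫ y, sin (t * y) ∂μ : ℝ) * Complex.I := by
  have i1 : Integrable (fun y => cos (t * y)) μ := Integrable.of_bound (by fun_prop) 1
    (ae_of_all _ fun y => abs_cos_le_one _)
  have i2 : Integrable (fun y => sin (t * y)) μ := Integrable.of_bound (by fun_prop) 1
    (ae_of_all _ fun y => abs_sin_le_one _)
  rw [charFun_apply_real, ← integral_complex_ofReal, ← integral_complex_ofReal, ← integral_mul_const,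
    ← integral_add i1.ofReal (i2.ofReal.mul_const _)]
  congr 1
  funext y
  rw [← Complex.ofReal_mul, Complex.exp_mul_I]
  simp

theorem pw_fubini (ν : Measure ℝ) [IsProbabilityMeasure ν] (h1 : Integrable (fun y : ℝ => y) ν)
    (T x : ℝ) : IntegrableOn (fun u => ∫ y, ((1 - u) * cos (u * ((y - x) * T)) -
      (pw_c u + 1 / π) * sin (u * ((y - x) * T))) ∂ν) (Ioc 0 1) ∧
    ν.real (Iic x) * (if 0 < T then 1 else 0) ≤ 1 / 2 + ∫ u in Ioc (0 : ℝ) 1, ∫ y, ((1 - u) *
      cos (u * ((y - x) * T)) - (pw_c u + 1 / π) * sin (u * ((y - x) * T))) ∂ν := by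
  have hm := pw_c_meas
  have hi : Integrable (Function.uncurry fun u y : ℝ => (1 - u) * cos (u * ((y - x) * T)) -
      (pw_c u + 1 / π) * sin (u * ((y - x) * T))) ((volume.restrict (Ioc 0 1)).prod ν) := by
    have h2 : Integrable (fun y : ℝ => 2 + |(y - x) * T| / 2) ν :=
      (integrable_const _).add (((h1.sub (integrable_const x)).mul_const T).abs.div_const 2)
    refine (h2.comp_snd _).mono' (Measurable.aestronglyMeasurable (by fun_prop)) ?_
    rw [Measure.ae_prod_iff_ae_ae (measurableSet_le (by fun_prop) (by fun_prop))]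
    refine ae_restrict_of_forall_mem measurableSet_Ioc fun u hu => ae_of_all _ fun y => ?_
    have a1 := abs_le.1 (pw_c_bd hu.1.le hu.2 ((y - x) * T))
    have a2 := abs_le.1 (show |(1 - u) * cos (u * ((y - x) * T))| ≤ 1 by
      rw [abs_mul]
      exact mul_le_one₀ (abs_le.2 ⟨by linarith [hu.2], by linarith [hu.1]⟩) (abs_nonneg _)
        (abs_cos_le_one _))
    have a3 := abs_le.1 (show |1 / π * sin (u * ((y - x) * T))| ≤ 1 by
      rw [abs_mul, abs_of_pos (by positivity)]
      exact mul_le_one₀ ((div_le_one pi_pos).2 (by linarith [pi_gt_three])) (abs_nonneg _)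
        (abs_sin_le_one _))
    simp only [Function.uncurry, norm_eq_abs, add_mul, abs_le]
    constructor <;> linarith [a1.1, a1.2, a2.1, a2.2, a3.1, a3.2]
  refine ⟨hi.integral_prod_left, ?_⟩
  have h3 := hi.integral_prod_right
  simp only [Function.uncurry] at h3
  rw [integral_integral_swap hi, show (1 / 2 : ℝ) = ∫ _y, 1 / 2 ∂ν by simp,
    ← integral_add (integrable_const _) h3, ← integral_indicator_one measurableSet_Iic,
    ← integral_mul_const]
  refine integral_mono (((integrable_const 1).indicator measurableSet_Iic).mul_const _)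
    ((integrable_const _).add h3) fun y => ?_
  have h4 := pw_H_ge ((y - x) * T)
  rw [pw_H_eq, intervalIntegral.integral_of_le zero_le_one] at h4
  refine le_trans ?_ h4
  split_ifs with hT
  · by_cases hy : y ≤ x
    · simp [indicator, hy, mul_nonpos_of_nonpos_of_nonneg (sub_nonpos.2 hy) hT.le]
    · simp only [indicator, mem_Iic, hy, if_false, zero_mul]
      split_ifs <;> simp
  · simp only [mul_zero, indicator]
    split_ifs <;> simp

theorem pw_sinc_bd (t x : ℝ) : |sin (t * x) / t| ≤ |x| := by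
  rcases eq_or_ne t 0 with rfl | h
  · simp
  rw [abs_div, div_le_iff₀ (abs_pos.2 h), mul_comm, ← abs_mul]
  exact abs_sin_le_abs

theorem pw_gauss_int : Integrable fun t : ℝ => exp (-t ^ 2 / 2) := by
  have := integrable_exp_neg_mul_sq (b := 1 / 2) (by norm_num)
  refine this.congr (ae_of_all _ fun t => ?_)
  simp only
  congr 1
  ring

theorem pw_sinc_int (x : ℝ) : Integrable fun t : ℝ => exp (-t ^ 2 / 2) * (sin (t * x) / t) / π :=
  (pw_gauss_int.mul_bdd (c := |x|) (Measurable.aestronglyMeasurable (by fun_prop))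
    (ae_of_all _ fun t => pw_sinc_bd t x)).div_const π

theorem pw_gauss_Ioi : ∫ t in Ioi (0 : ℝ), exp (-t ^ 2 / 2) = √(π / 2) := by
  have := integral_gaussian_Ioi (1 / 2)
  rw [show π / (1 / 2) = 2 ^ 2 * (π / 2) by ring, sqrt_mul (by norm_num), sqrt_sq zero_le_two,
    mul_div_cancel_left₀ _ two_ne_zero] at this
  rw [← this]
  congr 1
  funext t
  congr 1
  ring

theorem pw_Phi (x : ℝ) :
    Phi x = 1 / 2 + ∫ t in Ioi (0 : ℝ), exp (-t ^ 2 / 2) * (sin (t * x) / t) / π := by
  have hp : ∀ y, gaussianPDFReal 0 1 y = (√(2 * π))⁻¹ * exp (-y ^ 2 / 2) := fun y => by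
    simp [gaussianPDFReal]
  have h0 : 0 < √(2 * π) := by positivity
  have h1 : Phi x = (√(2 * π))⁻¹ * ∫ y in Iic x, exp (-y ^ 2 / 2) := by
    rw [Phi, cdf_eq_real, Measure.real, gaussianReal_apply_eq_integral _ one_ne_zero,
      ENNReal.toReal_ofReal (integral_nonneg fun y => gaussianPDFReal_nonneg _ _ _)]
    simp only [hp, integral_const_mul]
  have h2 : ∫ y in Iic (0 : ℝ), exp (-y ^ 2 / 2) = √(2 * π) / 2 := by
    have := integral_comp_neg_Iic 0 fun y : ℝ => exp (-y ^ 2 / 2)
    simp only [neg_sq, neg_zero] at this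
    rw [this, pw_gauss_Ioi, show 2 * π = 2 ^ 2 * (π / 2) by ring, sqrt_mul (by norm_num),
      sqrt_sq zero_le_two, mul_div_cancel_left₀ _ two_ne_zero]
  have h3 := intervalIntegral.integral_Iic_sub_Iic (a := 0) (b := x) pw_gauss_int.integrableOn
    pw_gauss_int.integrableOn
  have h4 : ∀ y : ℝ, exp (-y ^ 2 / 2) = ∫ t, cos (y * t) ∂gaussianReal 0 1 := fun y => by
    have := congrArg Complex.re ((charFun_gaussianReal (μ := 0) (v := 1) y).symm.trans (pw_char _ y))
    simp only [Complex.add_re, Complex.ofReal_re, Complex.mul_re, Complex.I_re, Complex.ofReal_im,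
      Complex.I_im, mul_zero, mul_one, sub_self, add_zero] at this
    rw [← this, ← Complex.exp_ofReal_re]
    congr 2
    push_cast
    ring
  have h5 : ∫ y in (0 : ℝ)..x, exp (-y ^ 2 / 2) = ∫ t, sin (t * x) / t ∂gaussianReal 0 1 := by
    simp only [h4]
    have : IsFiniteMeasure (volume.restrict (uIoc 0 x)) := ⟨by simp [uIoc]⟩
    rw [intervalIntegral_integral_swap (Integrable.of_bound (by fun_prop) 1
      (ae_of_all _ fun y => abs_cos_le_one _))]
    refine integral_congr_ae ?_
    filter_upwards [(gaussianReal_absolutelyContinuous 0 one_ne_zero).ae_le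
      (compl_mem_ae_iff.2 (measure_singleton (0 : ℝ)))] with t ht
    rw [intervalIntegral.integral_comp_mul_right cos ht]
    simp [div_eq_inv_mul, mul_comm]
  have h6 : ∫ t, sin (t * x) / t ∂gaussianReal 0 1 =
      2 * ∫ t in Ioi (0 : ℝ), (√(2 * π))⁻¹ * exp (-t ^ 2 / 2) * (sin (t * x) / t) := by
    rw [integral_gaussianReal_eq_integral_smul one_ne_zero, ← integral_comp_abs]
    congr 1
    funext t
    rw [hp, smul_eq_mul, sq_abs]
    rcases abs_cases t with h | h <;> simp [h.1, neg_div_neg_eq]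
  rw [h1, ← sub_add_cancel (∫ y in Iic x, _) (∫ y in Iic (0 : ℝ), exp (-y ^ 2 / 2)), h3, h2, h5, h6]
  simp only [mul_assoc, integral_const_mul, integral_div]
  have h7 : √(2 * π) ^ 2 = 2 * π := sq_sqrt (by positivity)
  generalize ∫ a in Ioi (0 : ℝ), exp (-a ^ 2 / 2) * (sin (a * x) / a) = I
  generalize √(2 * π) = r at *
  field_simp
  rw [h7]
  ring

/-- Prawitz smoothing inequality against the standard normal law (upper side). -/
theorem prawitz (ν : Measure ℝ) [IsProbabilityMeasure ν] (h1 : Integrable (fun y : ℝ => y) ν)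
    {T : ℝ} (hT : 0 < T) (β : ℝ → ℝ) (hβ : IntegrableOn β (Ioo 0 T))
    (hb : ∀ t ∈ Ioo 0 T, Kt T t * ‖charFun ν t - (Real.exp (-t ^ 2 / 2) : ℝ)‖ ≤ β t) (x : ℝ) :
    ν.real (Iic x) - Phi x
      ≤ (∫ t in Ioo 0 T, β t) + √(π / 2) / T + ∫ t in Ioi T, Real.exp (-t ^ 2 / 2) / (π * t) := by
  obtain ⟨f1, f2⟩ := pw_fubini ν h1 T x
  rw [if_pos hT, mul_one, integral_Ioc_eq_integral_Ioo] at f2
  have i1 := pw_sinc_int x
  have i2 := pw_gauss_int.div_const T
  let R : ℝ → ℝ := fun t => β t + exp (-t ^ 2 / 2) * (sin (t * x) / t) / π + exp (-t ^ 2 / 2) / T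
  have r1 : IntervalIntegrable R volume 0 T := by
    rw [intervalIntegrable_iff_integrableOn_Ioo_of_le hT.le]
    exact (hβ.add i1.integrableOn).add i2.integrableOn
  have r2 : IntegrableOn (fun u => T * R (T * u)) (Ioo 0 1) := by
    have := (r1.comp_mul_left (c := T)).const_mul T
    rwa [zero_div, div_self hT.ne', intervalIntegrable_iff_integrableOn_Ioo_of_le zero_le_one] at this
  have r3 : ∫ u in Ioo (0 : ℝ) 1, T * R (T * u) = ∫ t in Ioo 0 T, R t := by
    rw [← integral_Ioc_eq_integral_Ioo, ← integral_Ioc_eq_integral_Ioo,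
      ← intervalIntegral.integral_of_le zero_le_one, ← intervalIntegral.integral_of_le hT.le,
      intervalIntegral.integral_const_mul, intervalIntegral.integral_comp_mul_left R hT.ne']
    simp [hT.ne']
  have r4 := setIntegral_mono_on (f1.mono_set Ioo_subset_Ioc_self) r2 measurableSet_Ioo
    fun u hu => by
      have c1 : Integrable (fun y => cos (T * u * y)) ν := Integrable.of_bound (by fun_prop) 1
        (ae_of_all _ fun y => abs_cos_le_one _)
      have c2 : Integrable (fun y => sin (T * u * y)) ν := Integrable.of_bound (by fun_prop) 1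
        (ae_of_all _ fun y => abs_sin_le_one _)
      have a1 := hb (T * u) ⟨mul_pos hT hu.1, mul_lt_of_lt_one_right hT hu.2⟩
      rw [Kt, mul_div_cancel_left₀ _ hT.ne', ← pw_c, pw_char, div_mul_eq_mul_div, div_le_iff₀ hT,
        add_sub_right_comm, ← Complex.ofReal_sub, Complex.norm_add_mul_I] at a1
      have a2 : ∫ y, ((1 - u) * cos (u * ((y - x) * T)) - (pw_c u + 1 / π) *
          sin (u * ((y - x) * T))) ∂ν = ((1 - u) * cos (T * u * x) + (pw_c u + 1 / π) *
          sin (T * u * x)) * ∫ y, cos (T * u * y) ∂ν + ((1 - u) * sin (T * u * x) -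
          (pw_c u + 1 / π) * cos (T * u * x)) * ∫ y, sin (T * u * y) ∂ν := by
        rw [← integral_const_mul, ← integral_const_mul, ← integral_add (c1.const_mul _)
          (c2.const_mul _)]
        congr 1
        funext y
        rw [show u * ((y - x) * T) = T * u * y - T * u * x by ring, cos_sub, sin_sub]
        ring
      rw [a2]
      simp only [R]
      have e0 := exp_pos (-(T * u) ^ 2 / 2)
      have e1 := sin_sq_add_cos_sq (T * u * x)
      have e2 := pw_one hu.1 hu.2
      have e3 := pw_k_eq hu.1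
      have u0 := hu.1.ne'
      generalize exp (-(T * u) ^ 2 / 2) = φ at *
      generalize ∫ y, cos (T * u * y) ∂ν = C at *
      generalize ∫ y, sin (T * u * y) ∂ν = S at *
      generalize cos (T * u * x) = c at *
      generalize sin (T * u * x) = s at *
      generalize pw_c u + 1 / π = k at *
      have a3 : ((1 - u) * c + k * s) * (C - φ) + ((1 - u) * s - k * c) * S ≤
          √((1 - u) ^ 2 + k ^ 2) * √((C - φ) ^ 2 + S ^ 2) := by
        rw [← sqrt_mul (by positivity)]
        refine le_sqrt_of_sq_le ?_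
        have : (1 - u) ^ 2 + k ^ 2 = ((1 - u) * c + k * s) ^ 2 + ((1 - u) * s - k * c) ^ 2 := by
          linear_combination (-(1 - u) ^ 2 - k ^ 2) * e1
        rw [this]
        nlinarith [sq_nonneg (((1 - u) * c + k * s) * S - ((1 - u) * s - k * c) * (C - φ))]
      have a4 : (1 - u) * c - (1 - u) * pw_D u * s ≤ 1 := by
        nlinarith [sq_nonneg (1 - u - c), sq_nonneg ((1 - u) * pw_D u + s)]
      have a5 : T * (β (T * u) + φ * (s / (T * u)) / π + φ / T) =
          β (T * u) * T + φ * (1 / (π * u) * s) + φ := by field_simp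
      have a6 := mul_le_mul_of_nonneg_left a4 e0.le
      rw [a5]
      rw [e3] at a3 ⊢
      rw [e3] at a1
      nlinarith
  rw [r3] at r4
  simp only [R] at r4
  rw [integral_add (f := fun t => β t + exp (-t ^ 2 / 2) * (sin (t * x) / t) / π)
    (hβ.add i1.integrableOn) i2.integrableOn, integral_add hβ i1.integrableOn,
    integral_div (T : ℝ)] at r4
  have p1 := pw_Phi x
  rw [← Ioc_union_Ioi_eq_Ioi hT.le, setIntegral_union Ioc_disjoint_Ioi_same measurableSet_Ioi
    i1.integrableOn i1.integrableOn, integral_Ioc_eq_integral_Ioo] at p1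
  have p2 : (∫ t in Ioo 0 T, exp (-t ^ 2 / 2)) / T ≤ √(π / 2) / T := by
    rw [← pw_gauss_Ioi]
    exact div_le_div_of_nonneg_right (setIntegral_mono_set pw_gauss_int.integrableOn
      (ae_of_all _ fun t => (exp_pos _).le) (Ioo_subset_Ioi_self.eventuallyLE)) hT.le
  have p3 : -∫ t in Ioi T, exp (-t ^ 2 / 2) * (sin (t * x) / t) / π ≤
      ∫ t in Ioi T, exp (-t ^ 2 / 2) / (π * t) := by
    rw [← integral_neg]
    refine setIntegral_mono_on i1.neg.integrableOn ?_ measurableSet_Ioi fun t ht => ?_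
    · refine Integrable.mono' (pw_gauss_int.div_const (π * T)).integrableOn
        (Measurable.aestronglyMeasurable (by fun_prop))
        (ae_restrict_of_forall_mem measurableSet_Ioi fun t ht => ?_)
      have := hT.trans ht
      rw [norm_eq_abs, abs_of_pos (by positivity)]
      gcongr
      exact le_of_lt ht
    · have := hT.trans ht
      rw [show -(exp (-t ^ 2 / 2) * (sin (t * x) / t) / π) =
        exp (-t ^ 2 / 2) / (π * t) * (-sin (t * x)) by field_simp]
      exact mul_le_of_le_one_right (by positivity) (by linarith [neg_one_le_sin (t * x)])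
  linarith

theorem Kt_le_quad {T t : ℝ} (ht : 0 < t) (htT : t < T) :
    Kt T t ≤ (1 + (π * t / T) ^ 2 / 2) / (π * t) := by
  have hT := ht.trans htT
  have h0 : 0 < t / T := by positivity
  have h1 := (div_lt_one hT).2 htT
  obtain ⟨h2, h3⟩ := pw_k_bd h0 h1
  rw [Kt, ← pw_c, div_le_iff₀ hT, sqrt_le_left (by positivity), mul_div_assoc,
    show (1 + (π * (t / T)) ^ 2 / 2) / (π * t) * T = 1 / (π * (t / T)) + π * (t / T) / 2 by field_simp]
  have h4 := pow_le_pow_left₀ h2 h3 2
  have h5 : 1 / (π * (t / T)) * (π * (t / T)) = 1 := by field_simp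
  nlinarith [sq_nonneg (π * (t / T))]

theorem Kt_le_lin {T t : ℝ} (ht : 0 < t) (htT : t < T) : Kt T t ≤ 1 / (π * t) + 1 / T := by
  have hT := ht.trans htT
  have h0 : 0 < t / T := by positivity
  have h1 := (div_lt_one hT).2 htT
  obtain ⟨h2, h3⟩ := pw_k_bd h0 h1
  rw [Kt, ← pw_c, div_le_iff₀ hT, sqrt_le_left (by positivity),
    show (1 / (π * t) + 1 / T) * T = 1 / (π * (t / T)) + 1 by field_simp]
  have h4 := pow_le_pow_left₀ h2 h3 2
  nlinarith

theorem Kt_le_top {T t : ℝ} (ht : T / 2 ≤ t) (htT : t < T) :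
    Kt T t ≤ (1 - t / T) * (1 + 9 / 2 * (1 - t / T) ^ 2) / T := by
  have hT : 0 < T := by linarith
  have h0 : 1 / 2 ≤ t / T := by
    rw [le_div_iff₀ hT]
    linarith
  have h1 := sub_pos.2 ((div_lt_one hT).2 htT)
  have h2 := pw_D_le h1 (by linarith)
  have h3 := pw_D_nonneg h1 (by linarith)
  rw [Kt, ← pw_c, pw_k_eq' (by linarith)]
  gcongr
  rw [sqrt_le_left (by positivity)]
  generalize 1 - t / T = v at *
  have h4 := pow_le_pow_left₀ (mul_nonneg h1.le h3) (mul_le_mul_of_nonneg_left h2 h1.le) 2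
  nlinarith [sq_nonneg (v ^ 3)]

end Pool.Agent.Lib.MP_33650d_pr
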