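import Pool.Agent.Lib.MP_33650d_pr.Law
import Pool.Agent.Lib.MP_33650d_pr.Prawitz

namespace Pool.Agent.Lib.MP_33650d_pr
open MeasureTheory ProbabilityTheory Real Set

theorem sr_exp_sub {z : ℂ} {M : ℝ} (hM : 0 ≤ M) (hz : z.re ≤ M) :
    ‖Complex.exp z - 1‖ ≤ exp M * ‖z‖ := by
  have h := (convex_halfSpace_re_le (r := M)).norm_image_sub_le_of_norm_deriv_le (𝕜 := ℂ)
    (f := Complex.exp) (C := exp M) (x := 0) (y := z)
    (fun x _ => Complex.differentiable_exp x)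
    (fun x hx => by
      rw [Complex.deriv_exp, Complex.norm_exp]
      exact exp_le_exp.2 hx) (by simpa using hM) hz
  simpa using h

theorem disc_bound {R Ω t y B c u v a D0 : ℝ} (hy : 0 ≤ y) (hyB : y ≤ B)
    (h1 : exp (-(t ^ 2 / 2) - c * y) ≤ R) (h2 : R ≤ exp (-(t ^ 2 / 2) + u * y))
    (h3 : |Ω| ≤ v * y) (hu : 0 ≤ u) (hua : u ≤ a) (hca : c ≤ a) (hD0 : 0 ≤ D0)
    (hD : a ^ 2 + v ^ 2 ≤ D0 ^ 2) :
    ‖(R : ℂ) * Complex.exp ((Ω : ℂ) * Complex.I) - (Real.exp (-t ^ 2 / 2) : ℝ)‖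
      ≤ D0 * exp (u * B) * y * exp (-t ^ 2 / 2) := by
  have hR : 0 < R := (exp_pos _).trans_le h1
  have l1 : -(t ^ 2 / 2) - c * y ≤ log R := (le_log_iff_exp_le hR).2 h1
  have l2 : log R ≤ -(t ^ 2 / 2) + u * y := (log_le_iff_le_exp hR).2 h2
  set p : ℝ := log R + t ^ 2 / 2 with hp
  have e1 : (R : ℂ) * Complex.exp ((Ω : ℂ) * Complex.I) - (Real.exp (-t ^ 2 / 2) : ℝ) =
      (Real.exp (-t ^ 2 / 2) : ℝ) * (Complex.exp ((p : ℂ) + (Ω : ℂ) * Complex.I) - 1) := by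
    have : R = exp (-t ^ 2 / 2) * exp p := by
      rw [← exp_add, hp, show -t ^ 2 / 2 + (log R + t ^ 2 / 2) = log R by ring, exp_log hR]
    rw [Complex.exp_add, ← Complex.ofReal_exp, mul_sub, mul_one, ← mul_assoc, ← Complex.ofReal_mul,
      ← this]
  have b1 : u * y ≤ u * B := mul_le_mul_of_nonneg_left hyB hu
  have b2 : u * y ≤ a * y := mul_le_mul_of_nonneg_right hua hy
  have b3 : c * y ≤ a * y := mul_le_mul_of_nonneg_right hca hy
  have b4 : 0 ≤ u * y := mul_nonneg hu hy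
  have e2 := sr_exp_sub (z := (p : ℂ) + (Ω : ℂ) * Complex.I) (M := u * B) (b4.trans b1)
    (by simp; linarith)
  have e3 : ‖(p : ℂ) + (Ω : ℂ) * Complex.I‖ ≤ D0 * y := by
    rw [Complex.norm_add_mul_I, sqrt_le_left (mul_nonneg hD0 hy)]
    have c1 : p ^ 2 ≤ (a * y) ^ 2 := sq_le_sq' (by linarith) (by linarith)
    have c2 : Ω ^ 2 ≤ (v * y) ^ 2 := sq_le_sq' (abs_le.1 h3).1 (abs_le.1 h3).2
    have c3 := mul_le_mul_of_nonneg_right hD (sq_nonneg y)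
    nlinarith
  rw [e1, norm_mul, Complex.norm_real, norm_eq_abs, abs_of_pos (exp_pos _), mul_comm]
  refine mul_le_mul_of_nonneg_right (e2.trans ?_) (exp_pos _).le
  calc exp (u * B) * ‖(p : ℂ) + (Ω : ℂ) * Complex.I‖ ≤ exp (u * B) * (D0 * y) :=
        mul_le_mul_of_nonneg_left e3 (exp_pos _).le
    _ = _ := by ring

theorem sr_tail {F f g : ℝ → ℝ} {a : ℝ} (hd : ∀ y ∈ Ici a, HasDerivAt F (f y) y)
    (hg : Continuous g) (h0 : ∀ y ∈ Ioi a, 0 ≤ g y) (h1 : ∀ y ∈ Ioi a, g y ≤ f y)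
    (hl : Filter.Tendsto F Filter.atTop (nhds 0)) :
    IntegrableOn g (Ioi a) ∧ ∫ y in Ioi a, g y ≤ -F a := by
  have hf : ∀ y ∈ Ioi a, 0 ≤ f y := fun y hy => (h0 y hy).trans (h1 y hy)
  have i1 := integrableOn_Ioi_deriv_of_nonneg' hd hf hl
  have i2 : IntegrableOn g (Ioi a) := Integrable.mono' i1 hg.aestronglyMeasurable
    (ae_restrict_of_forall_mem measurableSet_Ioi fun y hy => by
      rw [norm_eq_abs, abs_of_nonneg (h0 y hy)]
      exact h1 y hy)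
  refine ⟨i2, (setIntegral_mono_on i2 i1 measurableSet_Ioi h1).trans ?_⟩
  rw [integral_Ioi_of_hasDerivAt_of_nonneg' hd hf hl, zero_sub]

theorem sr_lim {η : ℝ} (hη : 0 < η) (n : ℕ) :
    Filter.Tendsto (fun y : ℝ => (η * y ^ 2) ^ n * exp (-(η * y ^ 2))) Filter.atTop (nhds 0) :=
  (tendsto_pow_mul_exp_neg_atTop_nhds_zero n).comp
    ((Filter.tendsto_pow_atTop two_ne_zero).const_mul_atTop hη)

theorem sr_tail2 {η a : ℝ} (hη : 0 < η) (ha : 0 < a) :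
    IntegrableOn (fun y : ℝ => y ^ 2 * exp (-(η * y ^ 2))) (Ioi a) ∧
      ∫ y in Ioi a, y ^ 2 * exp (-(η * y ^ 2))
        ≤ (a ^ 2 / (2 * η) + 1 / (2 * η ^ 2)) * exp (-(η * a ^ 2)) / a := by
  have h := sr_tail (a := a)
    (F := fun y => -((y ^ 2 / (2 * η) + 1 / (2 * η ^ 2)) * exp (-(η * y ^ 2)) / a))
    (f := fun y => y ^ 3 * exp (-(η * y ^ 2)) / a) (g := fun y => y ^ 2 * exp (-(η * y ^ 2)))
    (fun y _ => by
      have d1 := hasDerivAt_pow 2 y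
      refine ((((d1.div_const (2 * η)).add_const (1 / (2 * η ^ 2))).mul
        (d1.const_mul η).neg.exp).div_const a).neg.congr_deriv ?_
      simp only [Pi.neg_apply]
      field_simp
      ring)
    (by fun_prop) (fun y _ => by positivity)
    (fun y hy => by
      have hy' : a < y := hy
      rw [le_div_iff₀ ha]
      have : 0 ≤ y ^ 2 * exp (-(η * y ^ 2)) := by positivity
      nlinarith)
    (by
      have := ((((sr_lim hη 1).add (sr_lim hη 0)).div_const (2 * η ^ 2)).div_const a).neg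
      simp only [add_zero, zero_div, neg_zero] at this
      refine this.congr fun y => ?_
      field_simp)
  simpa using h

theorem sr_tail2' {a : ℝ} (ha : 0 < a) :
    IntegrableOn (fun y : ℝ => y ^ 2 * exp (-y ^ 2 / 2)) (Ioi a) ∧
      ∫ y in Ioi a, y ^ 2 * exp (-y ^ 2 / 2) ≤ (a ^ 2 + 2) * exp (-a ^ 2 / 2) / a := by
  have h := sr_tail2 (η := 1 / 2) (by norm_num) ha
  have e : ∀ y : ℝ, -(1 / 2 * y ^ 2) = -y ^ 2 / 2 := fun y => by ring
  simp only [e] at h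
  refine ⟨h.1, h.2.trans (le_of_eq ?_)⟩
  ring

theorem sr_tail0 {a : ℝ} (ha : 0 < a) :
    IntegrableOn (fun y : ℝ => exp (-y ^ 2 / 2)) (Ioi a) ∧
      ∫ y in Ioi a, exp (-y ^ 2 / 2) ≤ exp (-a ^ 2 / 2) / a := by
  have h := sr_tail (a := a) (F := fun y => -(exp (-y ^ 2 / 2) / a))
    (f := fun y => y * exp (-y ^ 2 / 2) / a) (g := fun y => exp (-y ^ 2 / 2))
    (fun y _ => by
      refine (((hasDerivAt_pow 2 y).neg.div_const 2).exp.div_const a).neg.congr_deriv ?_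
      simp only [Pi.neg_apply]
      field_simp
      ring)
    (by fun_prop) (fun y _ => by positivity)
    (fun y hy => by
      have hy' : a < y := hy
      rw [le_div_iff₀ ha]
      have := exp_pos (-y ^ 2 / 2)
      nlinarith)
    (by
      have := ((sr_lim (η := 1 / 2) (by norm_num) 0).div_const a).neg
      simp only [zero_div, neg_zero, pow_zero, one_mul] at this
      refine this.congr fun y => ?_
      congr 3
      ring)
  simpa using h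

theorem sr_praw (ν : Measure ℝ) [IsProbabilityMeasure ν] (h1 : Integrable (fun y : ℝ => y) ν)
    {T : ℝ} (hT : 0 < T) (β : ℝ → ℝ) (hβ : Integrable β) (h0 : ∀ y, 0 ≤ β y)
    (hb : ∀ t ∈ Ioo 0 T, Kt T t * ‖charFun ν t - (Real.exp (-t ^ 2 / 2) : ℝ)‖ ≤ β t)
    (hc : ∀ t ∈ Ioi T, Real.exp (-t ^ 2 / 2) / (π * t) ≤ β t) (x : ℝ) :
    ν.real (Iic x) - Phi x ≤ √(π / 2) / T + ∫ t, β t := by
  have h := prawitz ν h1 hT β hβ.integrableOn hb x
  have a1 : ∫ t in Ioi T, Real.exp (-t ^ 2 / 2) / (π * t) ≤ ∫ t in Ioi T, β t :=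
    integral_mono_of_nonneg
      (ae_restrict_of_forall_mem measurableSet_Ioi fun t ht => by
        have : 0 < t := hT.trans ht
        positivity) hβ.integrableOn (ae_restrict_of_forall_mem measurableSet_Ioi hc)
  have a2 : ∫ t in Ioo 0 T ∪ Ioi T, β t = (∫ t in Ioo 0 T, β t) + ∫ t in Ioi T, β t :=
    setIntegral_union (Set.disjoint_left.2 fun t h1 h2 => lt_asymm h1.2 h2) measurableSet_Ioi
      hβ.integrableOn hβ.integrableOn
  have a3 : ∫ t in Ioo 0 T ∪ Ioi T, β t ≤ ∫ t, β t :=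
    setIntegral_le_integral hβ (ae_of_all _ h0)
  linarith

theorem sr_block {r : ℕ → ℝ} {x : ℝ} (h0 : r 0 < x) {n : ℕ} (h : x ≤ r n) :
    ∃ i < n, r i < x ∧ x ≤ r (i + 1) := by
  induction n with
  | zero => exact absurd h0 (not_lt.2 h)
  | succ n ih =>
    rcases lt_or_ge (r n) x with h1 | h1
    · exact ⟨n, Nat.lt_succ_self n, h1, h⟩
    · obtain ⟨i, hi, h2⟩ := ih h1
      exact ⟨i, hi.trans (Nat.lt_succ_self n), h2⟩

theorem sr_mono {r : ℕ → ℝ} {n : ℕ} (h : ∀ i < n, r i < r (i + 1)) {i j : ℕ} (hij : i ≤ j)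
    (hj : j ≤ n) : r i ≤ r j := by
  induction j, hij using Nat.le_induction with
  | base => exact le_rfl
  | succ j _ ih => exact (ih (by omega)).trans (h j (by omega)).le

theorem sr_cube {l l1 s0 τ0 y : ℝ} (hl : 0 ≤ l) (hl1 : l ≤ l1) (hs0 : 0 ≤ s0) (hτ0 : 0 ≤ τ0)
    (hτ : l1 ^ 2 * s0 ^ 3 ≤ τ0 ^ 3) (h : l * y ^ 3 ≤ s0 ^ 3) : l * y ≤ τ0 := by
  refine le_of_pow_le_pow_left₀ (n := 3) (by norm_num) hτ0 ?_
  calc (l * y) ^ 3 = l ^ 2 * (l * y ^ 3) := by ring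
    _ ≤ l ^ 2 * s0 ^ 3 := by gcongr
    _ ≤ l1 ^ 2 * s0 ^ 3 := by gcongr
    _ ≤ _ := hτ

theorem sr_scale {A l l1 : ℝ} (hl : 0 < l) (hl1 : l ≤ l1) (h : l1 ^ 2 ≤ 2 * A) :
    exp (-(A / l ^ 2)) / l ≤ exp (-(A / l1 ^ 2)) / l1 := by
  have h1 : 0 < l1 := hl.trans_le hl1
  have h2 : l1 / l ≤ exp (A / l ^ 2 - A / l1 ^ 2) := by
    refine le_trans ?_ (add_one_le_exp _)
    have e : A / l ^ 2 - A / l1 ^ 2 = A / l1 ^ 2 * ((l1 / l) ^ 2 - 1) := by field_simp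
    have b1 : 1 / 2 ≤ A / l1 ^ 2 := by
      rw [le_div_iff₀ (by positivity)]
      linarith
    have b2 : 1 ≤ l1 / l := (one_le_div hl).2 hl1
    rw [e]
    have b3 : 0 ≤ (l1 / l) ^ 2 - 1 := by nlinarith
    nlinarith [mul_le_mul_of_nonneg_right b1 b3, sq_nonneg (l1 / l - 1)]
  rw [div_le_div_iff₀ hl h1]
  rw [div_le_iff₀ hl] at h2
  calc exp (-(A / l ^ 2)) * l1 ≤ exp (-(A / l ^ 2)) * (exp (A / l ^ 2 - A / l1 ^ 2) * l) :=
        mul_le_mul_of_nonneg_left h2 (exp_pos _).le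
    _ = _ := by
      rw [← mul_assoc, ← exp_add]
      congr 2
      ring

theorem sr_quad {l P y b : ℝ} (hl : 0 < l) (hy : 0 < y) (hyP : l * y < P) (hb : l * y ≤ b) :
    Kt (P / l) y ≤ (1 + (π * b / P) ^ 2 / 2) / (π * y) := by
  have hP : 0 < P := (mul_pos hl hy).trans hyP
  refine (Kt_le_quad hy (by rw [lt_div_iff₀ hl]; linarith)).trans ?_
  rw [show π * y / (P / l) = π * (l * y) / P by field_simp]
  gcongr

theorem sr_Kt0 {T y : ℝ} (hT : 0 < T) : 0 ≤ Kt T y := by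
  unfold Kt
  positivity

theorem sr_KW {l P y r0 r1 W : ℝ} (hl : 0 < l) (hr0 : 0 < r0) (hyP : l * y < P)
    (h0 : r0 ≤ l * y) (h1 : l * y ≤ r1)
    (hW : (1 + (π * r1 / P) ^ 2 / 2) / (π * r0) ≤ W ∨
      (P ≤ 2 * r0 ∧ (1 - r0 / P) * (1 + 9 / 2 * (1 - r0 / P) ^ 2) / P ≤ W)) :
    Kt (P / l) y ≤ l * W := by
  have hy : 0 < y := (mul_pos_iff_of_pos_left hl).1 (hr0.trans_le h0)
  have hP : 0 < P := (mul_pos hl hy).trans hyP
  rcases hW with hW | ⟨hW1, hW⟩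
  · refine (sr_quad hl hy hyP h1).trans (le_trans ?_ (mul_le_mul_of_nonneg_left hW hl.le))
    rw [show (1 + (π * r1 / P) ^ 2 / 2) / (π * y) = l * ((1 + (π * r1 / P) ^ 2 / 2) / (π * (l * y)))
      by field_simp]
    gcongr
  · refine (Kt_le_top (by rw [div_div, div_le_iff₀ (by positivity)]; linarith)
      (by rw [lt_div_iff₀ hl]; linarith)).trans (le_trans ?_ (mul_le_mul_of_nonneg_left hW hl.le))
    rw [show y / (P / l) = l * y / P by field_simp, div_div_eq_mul_div, mul_comm _ l, mul_div_assoc]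
    have b1 : 0 ≤ 1 - l * y / P := sub_nonneg.2 ((div_le_one hP).2 hyP.le)
    have b2 : 1 - l * y / P ≤ 1 - r0 / P := by gcongr
    gcongr
    exact b1.trans b2


/-- The analytic part: bounds for the characteristic function give the estimate. -/
theorem small_analytic (ν : Measure ℝ) [IsProbabilityMeasure ν]
    (hint : Integrable (fun y : ℝ => y) ν) {l l1 s0 τ0 : ℝ} {nL nH : ℕ} {t D ρ η W : ℕ → ℝ}
    (hl : 0 < l) (hl1 : l ≤ l1) (hs0 : 0 < s0) (hτ0 : 0 ≤ τ0) (hτ : l1 ^ 2 * s0 ^ 3 ≤ τ0 ^ 3)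
    (hnL : 0 < nL) (hnH : 0 < nH) (ht0 : t 0 = 0) (ht : ∀ i < nL, t i < t (i + 1))
    (htc : l1 * t nL ^ 3 ≤ s0 ^ 3) (hD : ∀ i ≤ nL, 0 ≤ D i)
    (hρ0 : ρ 0 = 0) (hρ : ∀ i < nH, ρ i < ρ (i + 1)) (hτT : τ0 ≤ ρ nH ^ 2)
    (hη : ∀ i < nH, 0 < η i) (hη2 : ∀ i, 1 ≤ i → i < nH → l1 ^ 2 ≤ 2 * η i * ρ i ^ 4)
    (hW : ∀ i, 1 ≤ i → i < nH →
      (1 + (π * ρ (i + 1) ^ 2 / ρ nH ^ 2) ^ 2 / 2) / (π * ρ i ^ 2) ≤ W i ∨
      (ρ nH ^ 2 ≤ 2 * ρ i ^ 2 ∧
        (1 - ρ i ^ 2 / ρ nH ^ 2) * (1 + 9 / 2 * (1 - ρ i ^ 2 / ρ nH ^ 2) ^ 2) / ρ nH ^ 2 ≤ W i))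
    (hlow : ∀ i < nL, ∀ y, t i < y → y ≤ t (i + 1) →
      ‖charFun ν y - (Real.exp (-y ^ 2 / 2) : ℝ)‖ ≤ D i * (l * y ^ 3) * exp (-y ^ 2 / 2))
    (hinf : ∀ y, 0 < y → l * y ^ 3 ≤ s0 ^ 3 →
      ‖charFun ν y - (Real.exp (-y ^ 2 / 2) : ℝ)‖ ≤ D nL * (l * y ^ 3) * exp (-y ^ 2 / 2))
    (hhigh : ∀ i < nH, ∀ y, 0 < y → ρ i ^ 2 ≤ l * y → l * y ≤ ρ (i + 1) ^ 2 →
      ‖charFun ν y‖ ≤ exp (-(η i * y ^ 2))) (x : ℝ) :
    ν.real (Iic x) - Phi x ≤ l * (√(π / 2) / ρ nH ^ 2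
      + ∑ i ∈ Finset.range nL, (1 + (π * (l1 * t (i + 1)) / ρ nH ^ 2) ^ 2 / 2) * D i
          * t (i + 1) ^ 2 * exp (-t i ^ 2 / 2) * (t (i + 1) - t i) / π
      + ((1 + (π * τ0 / ρ nH ^ 2) ^ 2 / 2) * D nL + 1 / s0 ^ 3)
          * ((t nL ^ 2 + 2) * exp (-t nL ^ 2 / 2) / (π * t nL))
      + exp (-t nL ^ 2 / 2) / (t nL * ρ nH ^ 2)
      + (1 + (π * ρ 1 ^ 2 / ρ nH ^ 2) ^ 2 / 2) / (π * s0 ^ 3)
          * ((t nL ^ 2 / (2 * η 0) + 1 / (2 * η 0 ^ 2)) * exp (-(η 0 * t nL ^ 2)) / t nL)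
      + ∑ i ∈ Finset.Ico 1 nH, W i * ((ρ (i + 1) ^ 2 - ρ i ^ 2) / l1)
          * exp (-(η i * ρ i ^ 4 / l1 ^ 2))) := by
  have hl1' : 0 < l1 := hl.trans_le hl1
  have tm : ∀ i ≤ nL, 0 ≤ t i := fun i hi => ht0 ▸ sr_mono ht (Nat.zero_le i) hi
  have ρm : ∀ i ≤ nH, 0 ≤ ρ i := fun i hi => hρ0 ▸ sr_mono hρ (Nat.zero_le i) hi
  have ρp : ∀ i, 1 ≤ i → i ≤ nH → 0 < ρ i := fun i h1 hi =>
    (hρ0 ▸ hρ 0 hnH).trans_le (sr_mono hρ h1 hi)
  have ha : 0 < t nL := (ht0 ▸ ht 0 hnL).trans_le (sr_mono ht hnL le_rfl)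
  have hP : 0 < ρ nH ^ 2 := pow_pos (ρp nH hnH le_rfl) 2
  have hW0 : ∀ i, 1 ≤ i → i < nH → 0 ≤ W i := fun i h1 hi => by
    have := ρp i h1 hi.le
    rcases hW i h1 hi with h | ⟨_, h⟩
    · exact le_trans (by positivity) h
    · have : 0 ≤ 1 - ρ i ^ 2 / ρ nH ^ 2 := sub_nonneg.2 ((div_le_one hP).2
        (pow_le_pow_left₀ this.le (sr_mono hρ hi.le le_rfl) 2))
      exact le_trans (by positivity) h
  have hη0 := hη 0 hnH
  have hDn := hD nL le_rfl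
  have hat : l1 * t nL ≤ τ0 := sr_cube hl1'.le le_rfl hs0.le hτ0 hτ htc
  set P := ρ nH ^ 2 with hPd
  set a := t nL with had
  let A : ℕ → ℝ := fun i => l * ((1 + (π * (l1 * t (i + 1)) / P) ^ 2 / 2) * D i
    * t (i + 1) ^ 2 * exp (-t i ^ 2 / 2) / π)
  let B : ℕ → ℝ := fun i => l * W i * exp (-(η i * ρ i ^ 4 / l ^ 2))
  let c1 : ℝ := l * ((1 + (π * τ0 / P) ^ 2 / 2) * D nL + 1 / s0 ^ 3) / π
  let c2 : ℝ := l / P
  let c3 : ℝ := l * ((1 + (π * ρ 1 ^ 2 / P) ^ 2 / 2) / (π * s0 ^ 3))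
  have hA : ∀ i < nL, 0 ≤ A i := fun i hi => by
    have := hD i hi.le
    positivity
  have hB : ∀ i, 1 ≤ i → i < nH → 0 ≤ B i := fun i h1 hi => by
    have := hW0 i h1 hi
    positivity
  have hc1 : 0 ≤ c1 := by positivity
  have hc2 : 0 ≤ c2 := by positivity
  have hc3 : 0 ≤ c3 := by positivity
  let β1 : ℝ → ℝ := fun y => ∑ i ∈ Finset.range nL, (Ioc (t i) (t (i + 1))).indicator (fun _ => A i) y
  let G : ℝ → ℝ := fun y => c1 * (y ^ 2 * exp (-y ^ 2 / 2)) + c2 * exp (-y ^ 2 / 2)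
    + c3 * (y ^ 2 * exp (-(η 0 * y ^ 2)))
  let β3 : ℝ → ℝ := fun y => ∑ i ∈ Finset.Ico 1 nH,
    (Icc (ρ i ^ 2 / l) (ρ (i + 1) ^ 2 / l)).indicator (fun _ => B i) y
  have n1 : ∀ y, ∀ i ∈ Finset.range nL, 0 ≤ (Ioc (t i) (t (i + 1))).indicator (fun _ => A i) y :=
    fun y i hi => indicator_nonneg (fun _ _ => hA i (Finset.mem_range.1 hi)) y
  have n3 : ∀ y, ∀ i ∈ Finset.Ico 1 nH,
      0 ≤ (Icc (ρ i ^ 2 / l) (ρ (i + 1) ^ 2 / l)).indicator (fun _ => B i) y :=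
    fun y i hi => indicator_nonneg
      (fun _ _ => hB i (Finset.mem_Ico.1 hi).1 (Finset.mem_Ico.1 hi).2) y
  have m1 : ∀ y, 0 ≤ β1 y := fun y => Finset.sum_nonneg (n1 y)
  have m2 : ∀ y, 0 ≤ (Ioi a).indicator G y := fun y => indicator_nonneg (fun y _ => by positivity) y
  have m3 : ∀ y, 0 ≤ β3 y := fun y => Finset.sum_nonneg (n3 y)
  have j1 : ∀ i ∈ Finset.range nL, Integrable ((Ioc (t i) (t (i + 1))).indicator fun _ => A i) :=
    fun i _ => (integrable_indicator_iff measurableSet_Ioc).2 (integrableOn_const (by simp))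
  have j3 : ∀ i ∈ Finset.Ico 1 nH,
      Integrable ((Icc (ρ i ^ 2 / l) (ρ (i + 1) ^ 2 / l)).indicator fun _ => B i) :=
    fun i _ => (integrable_indicator_iff measurableSet_Icc).2 (integrableOn_const (by simp))
  have i1 : Integrable β1 := integrable_finsetSum _ j1
  have i3 : Integrable β3 := integrable_finsetSum _ j3
  obtain ⟨g1, g1'⟩ := sr_tail2' ha
  obtain ⟨g2, g2'⟩ := sr_tail0 ha
  obtain ⟨g3, g3'⟩ := sr_tail2 hη0 ha
  have iG : IntegrableOn G (Ioi a) := ((g1.const_mul c1).add (g2.const_mul c2)).add (g3.const_mul c3)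
  have i2 : Integrable ((Ioi a).indicator G) := (integrable_indicator_iff measurableSet_Ioi).2 iG
  have inv3 : ∀ y, 0 < y → s0 ^ 3 ≤ l * y ^ 3 → 1 / (π * y) ≤ l * y ^ 2 / (π * s0 ^ 3) := by
    intro y hy h
    rw [div_le_div_iff₀ (by positivity) (by positivity)]
    nlinarith [mul_le_mul_of_nonneg_left h pi_pos.le]
  have key := sr_praw ν hint (T := P / l) (by positivity)
    (fun y => β1 y + (Ioi a).indicator G y + β3 y) ((i1.add i2).add i3)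
    (fun y => add_nonneg (add_nonneg (m1 y) (m2 y)) (m3 y)) ?_ ?_ x
  · refine key.trans ?_
    rw [integral_add (f := fun y => β1 y + (Ioi a).indicator G y) (i1.add i2) i3,
      integral_add i1 i2, integral_finsetSum _ j1,
      integral_finsetSum _ j3, integral_indicator measurableSet_Ioi,
      integral_add (f := fun y => c1 * (y ^ 2 * exp (-y ^ 2 / 2)) + c2 * exp (-y ^ 2 / 2))
        ((g1.const_mul c1).add (g2.const_mul c2)) (g3.const_mul c3),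
      integral_add (g1.const_mul c1) (g2.const_mul c2), integral_const_mul, integral_const_mul,
      integral_const_mul]
    have k1 : ∑ i ∈ Finset.range nL, ∫ y, (Ioc (t i) (t (i + 1))).indicator (fun _ => A i) y
        = l * ∑ i ∈ Finset.range nL, (1 + (π * (l1 * t (i + 1)) / P) ^ 2 / 2) * D i
          * t (i + 1) ^ 2 * exp (-t i ^ 2 / 2) * (t (i + 1) - t i) / π := by
      rw [Finset.mul_sum]
      refine Finset.sum_congr rfl fun i hi => ?_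
      rw [integral_indicator_const _ measurableSet_Ioc,
        Real.volume_real_Ioc_of_le (ht i (Finset.mem_range.1 hi)).le, smul_eq_mul]
      simp only [A]
      ring
    have k3 : ∑ i ∈ Finset.Ico 1 nH,
        ∫ y, (Icc (ρ i ^ 2 / l) (ρ (i + 1) ^ 2 / l)).indicator (fun _ => B i) y
        ≤ l * ∑ i ∈ Finset.Ico 1 nH, W i * ((ρ (i + 1) ^ 2 - ρ i ^ 2) / l1)
          * exp (-(η i * ρ i ^ 4 / l1 ^ 2)) := by
      rw [Finset.mul_sum]
      refine Finset.sum_le_sum fun i hi => ?_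
      obtain ⟨h1, h2⟩ := Finset.mem_Ico.1 hi
      have b1 : ρ i ^ 2 ≤ ρ (i + 1) ^ 2 := pow_le_pow_left₀ (ρm i h2.le) (hρ i h2).le 2
      rw [integral_indicator_const _ measurableSet_Icc,
        Real.volume_real_Icc_of_le (by gcongr), smul_eq_mul]
      have b2 := sr_scale (A := η i * ρ i ^ 4) hl hl1 (by linarith [hη2 i h1 h2])
      have b3 : 0 ≤ l * W i * (ρ (i + 1) ^ 2 - ρ i ^ 2) :=
        mul_nonneg (mul_nonneg hl.le (hW0 i h1 h2)) (sub_nonneg.2 b1)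
      refine le_of_eq_of_le ?_ ((mul_le_mul_of_nonneg_left b2 b3).trans (le_of_eq ?_))
      · simp only [B]
        ring
      · ring
    have k4 := mul_le_mul_of_nonneg_left g1' hc1
    have k5 := mul_le_mul_of_nonneg_left g2' hc2
    have k6 := mul_le_mul_of_nonneg_left g3' hc3
    have k7 : c1 * ((a ^ 2 + 2) * exp (-a ^ 2 / 2) / a) = l * (((1 + (π * τ0 / P) ^ 2 / 2) * D nL
        + 1 / s0 ^ 3) * ((a ^ 2 + 2) * exp (-a ^ 2 / 2) / (π * a))) := by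
      simp only [c1]
      field_simp
    have k8 : c2 * (exp (-a ^ 2 / 2) / a) = l * (exp (-a ^ 2 / 2) / (a * P)) := by
      simp only [c2]
      field_simp
    have k9 : √(π / 2) / (P / l) = l * (√(π / 2) / P) := by field_simp
    rw [k1, k9]
    rw [k7] at k4
    rw [k8] at k5
    simp only [c3, mul_assoc l] at k6
    simp only [mul_add l, c3, mul_assoc l]
    linarith
  · rintro y ⟨hy, hyT⟩
    have hyP : l * y < P := by rwa [lt_div_iff₀ hl, mul_comm] at hyT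
    have hK0 : 0 ≤ Kt (P / l) y := sr_Kt0 (by positivity)
    have e0 := exp_pos (-y ^ 2 / 2)
    rcases le_or_gt y a with hya | hya
    · obtain ⟨i, hi, h1, h2⟩ := sr_block (r := t) (ht0 ▸ hy) hya
      have b1 := Finset.single_le_sum (n1 y) (Finset.mem_range.2 hi)
      rw [indicator_of_mem (mem_Ioc.2 ⟨h1, h2⟩)] at b1
      have b2 := sr_quad (b := l1 * t (i + 1)) hl hy hyP (by gcongr)
      have b3 := mul_le_mul b2 (hlow i hi y h1 h2) (norm_nonneg _) (by positivity)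
      have b4 : (1 + (π * (l1 * t (i + 1)) / P) ^ 2 / 2) / (π * y) *
          (D i * (l * y ^ 3) * exp (-y ^ 2 / 2)) ≤ A i := by
        rw [show (1 + (π * (l1 * t (i + 1)) / P) ^ 2 / 2) / (π * y) *
          (D i * (l * y ^ 3) * exp (-y ^ 2 / 2)) = l * ((1 + (π * (l1 * t (i + 1)) / P) ^ 2 / 2) *
          D i * y ^ 2 * exp (-y ^ 2 / 2) / π) by field_simp]
        have := hD i hi.le
        have := tm i hi.le
        simp only [A]
        gcongr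
      have := m2 y
      have := m3 y
      simp only [β1]
      linarith
    · have b0 := m1 y
      rw [indicator_of_mem (mem_Ioi.2 hya)]
      have e1 := exp_pos (-(η 0 * y ^ 2))
      rcases le_or_gt (l * y ^ 3) (s0 ^ 3) with h | h
      · have b2 := sr_quad hl hy hyP (sr_cube hl.le hl1 hs0.le hτ0 hτ h)
        have b3 := mul_le_mul b2 (hinf y hy h) (norm_nonneg _) (by positivity)
        have b4 : (1 + (π * τ0 / P) ^ 2 / 2) / (π * y) * (D nL * (l * y ^ 3) * exp (-y ^ 2 / 2))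
            + l * y ^ 2 / (π * s0 ^ 3) * exp (-y ^ 2 / 2) = c1 * (y ^ 2 * exp (-y ^ 2 / 2)) := by
          simp only [c1]
          field_simp
        have b5 : 0 ≤ l * y ^ 2 / (π * s0 ^ 3) * exp (-y ^ 2 / 2) := by positivity
        have b6 : 0 ≤ c2 * exp (-y ^ 2 / 2) := by positivity
        have b7 : 0 ≤ c3 * (y ^ 2 * exp (-(η 0 * y ^ 2))) := by positivity
        have := m3 y
        simp only [G]
        linarith
      · have b1 : ‖charFun ν y - (Real.exp (-y ^ 2 / 2) : ℝ)‖ ≤ ‖charFun ν y‖ + exp (-y ^ 2 / 2) := by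
          refine (norm_sub_le _ _).trans (le_of_eq ?_)
          rw [Complex.norm_real, norm_eq_abs, abs_of_pos e0]
        have b2 := mul_le_mul_of_nonneg_left b1 hK0
        have b3 := inv3 y hy h.le
        have b4 : Kt (P / l) y * exp (-y ^ 2 / 2)
            ≤ c1 * (y ^ 2 * exp (-y ^ 2 / 2)) + c2 * exp (-y ^ 2 / 2) := by
          have d1 := mul_le_mul_of_nonneg_right ((Kt_le_lin hy hyT).trans
            (add_le_add_left b3 _)) e0.le
          have d2 : c1 * (y ^ 2 * exp (-y ^ 2 / 2)) + c2 * exp (-y ^ 2 / 2) =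
              (l * y ^ 2 / (π * s0 ^ 3) + 1 / (P / l)) * exp (-y ^ 2 / 2) +
              l * ((1 + (π * τ0 / P) ^ 2 / 2) * D nL) / π * (y ^ 2 * exp (-y ^ 2 / 2)) := by
            simp only [c1, c2]
            field_simp
            ring
          have d3 : 0 ≤ l * ((1 + (π * τ0 / P) ^ 2 / 2) * D nL) / π * (y ^ 2 * exp (-y ^ 2 / 2)) := by
            positivity
          linarith
        obtain ⟨i, hi, h1, h2⟩ := sr_block (r := fun i => ρ i ^ 2) (x := l * y)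
          (by simpa [hρ0] using mul_pos hl hy) (n := nH) hyP.le
        have b5 := hhigh i hi y hy h1.le h2
        have b6 : Kt (P / l) y * ‖charFun ν y‖ ≤ c3 * (y ^ 2 * exp (-(η 0 * y ^ 2))) + β3 y := by
          rcases Nat.eq_zero_or_pos i with rfl | hi0
          · have d1 := sr_quad hl hy hyP h2
            rw [zero_add, div_eq_mul_one_div _ (π * y)] at d1
            have d2 := mul_le_mul (d1.trans (mul_le_mul_of_nonneg_left b3 (by positivity))) b5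
              (norm_nonneg _) (by positivity)
            have d3 : (1 + (π * ρ 1 ^ 2 / P) ^ 2 / 2) * (l * y ^ 2 / (π * s0 ^ 3)) *
                exp (-(η 0 * y ^ 2)) = c3 * (y ^ 2 * exp (-(η 0 * y ^ 2))) := by
              simp only [c3]
              ring
            have := m3 y
            linarith
          · have d0 := ρp i hi0 hi.le
            have d1 := sr_KW hl (by positivity) hyP h1.le h2 (hW i hi0 hi)
            have d2 := Finset.single_le_sum (n3 y) (Finset.mem_Ico.2 ⟨hi0, hi⟩)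
            rw [indicator_of_mem (mem_Icc.2 ⟨by rw [div_le_iff₀' hl]; exact h1.le,
              by rw [le_div_iff₀' hl]; exact h2⟩)] at d2
            have d3 : exp (-(η i * y ^ 2)) ≤ exp (-(η i * ρ i ^ 4 / l ^ 2)) := by
              rw [exp_le_exp, neg_le_neg_iff, div_le_iff₀ (by positivity), mul_assoc]
              refine mul_le_mul_of_nonneg_left ?_ (hη i hi).le
              have := pow_le_pow_left₀ (by positivity) h1.le 2
              nlinarith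
            have d4 := mul_le_mul d1 (b5.trans d3) (norm_nonneg _)
              (mul_nonneg hl.le (hW0 i hi0 hi))
            have b7 : 0 ≤ c3 * (y ^ 2 * exp (-(η 0 * y ^ 2))) := by positivity
            simp only [B] at d2
            simp only [β3, B]
            linarith
        simp only [G]
        linarith
  · intro y hy
    have hyP : P < l * y := by rwa [mem_Ioi, div_lt_iff₀ hl, mul_comm] at hy
    have hy0 : 0 < y := (mul_pos_iff_of_pos_left hl).1 (hP.trans hyP)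
    have hya : a < y := by
      have : l * a ≤ l1 * a := by gcongr
      exact lt_of_mul_lt_mul_left (a := l) (by linarith) hl.le
    have h : s0 ^ 3 ≤ l * y ^ 3 := by
      by_contra h
      have := sr_cube hl.le hl1 hs0.le hτ0 hτ (not_le.1 h).le
      linarith
    have e0 := exp_pos (-y ^ 2 / 2)
    have b3 := mul_le_mul_of_nonneg_right (inv3 y hy0 h) e0.le
    have d2 : c1 * (y ^ 2 * exp (-y ^ 2 / 2)) = l * y ^ 2 / (π * s0 ^ 3) * exp (-y ^ 2 / 2) +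
        l * ((1 + (π * τ0 / P) ^ 2 / 2) * D nL) / π * (y ^ 2 * exp (-y ^ 2 / 2)) := by
      simp only [c1]
      field_simp
      ring
    have d3 : 0 ≤ l * ((1 + (π * τ0 / P) ^ 2 / 2) * D nL) / π * (y ^ 2 * exp (-y ^ 2 / 2)) := by
      positivity
    have b6 : 0 ≤ c2 * exp (-y ^ 2 / 2) := by positivity
    have b7 : 0 ≤ c3 * (y ^ 2 * exp (-(η 0 * y ^ 2))) := by positivity
    have := m1 y
    have := m3 y
    rw [indicator_of_mem (mem_Ioi.2 hya), div_eq_mul_one_div, mul_comm]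
    simp only [G]
    linarith

theorem sr_aff {A B x x0 x1 M : ℝ} (h0 : x0 ≤ x) (h1 : x ≤ x1) (a0 : A + B * x0 ≤ M)
    (a1 : A + B * x1 ≤ M) : A + B * x ≤ M := by
  rcases le_total 0 B with h | h
  · nlinarith
  · nlinarith

theorem sr_cvx {A q B x x0 x1 M : ℝ} (hq : 0 ≤ q) (h0 : x0 ≤ x) (h1 : x ≤ x1)
    (a0 : A + q * x0 ^ 2 + B * x0 ≤ M) (a1 : A + q * x1 ^ 2 + B * x1 ≤ M) :
    A + q * x ^ 2 + B * x ≤ M := by
  have h := sr_aff (A := A - q * x0 * x1) (B := B + q * (x0 + x1)) (M := M) h0 h1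
    (by linarith) (by linarith)
  nlinarith [mul_nonneg hq (mul_nonneg (sub_nonneg.2 h0) (sub_nonneg.2 h1))]


theorem scell_real {C l1 u0 u1 g0 g1 w0 nu eta1 np nm eta2 uh vh : ℝ} {nL nH : ℕ}
    {t s cs c uu a v D0 D ρ η W : ℕ → ℝ} {e : ℕ → REnt}
    (hl1 : 0 < l1) (hw0 : 0 ≤ w0) (hτ : l1 ^ 2 * s nL ^ 3 ≤ (w0 ^ 2) ^ 3)
    (hP1 : P1 nu eta1 w0) (hP2 : P2 np nm eta2 w0) (heta1 : 0 ≤ eta1) (heta2 : 0 ≤ eta2)
    (huh0 : 0 ≤ uh) (huh : nu + eta1 * (2 - 2 * g0) ≤ uh)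
    (hvh : ∀ b, np * sel b u0 u1 + nm * (1 - sel b u0 u1) + eta2 * (2 - 2 * g0) ≤ vh ∧
      nm * sel b u0 u1 + np * (1 - sel b u0 u1) + eta2 * (2 - 2 * g0) ≤ vh)
    (hnL : 0 < nL) (hnH : 0 < nH) (ht0 : t 0 = 0) (ht : ∀ i < nL, t i < t (i + 1))
    (hts : ∀ i < nL, l1 * t (i + 1) ^ 3 ≤ s i ^ 3) (htc : l1 * t nL ^ 3 ≤ s nL ^ 3)
    (hs : ∀ i ≤ nL, 0 < s i ∧ s i ≤ 2 ∧ 0 < cs i ∧ cs i ≤ cos (s i) ∧
      exp (-(s i ^ 2 / 2) - c i * s i ^ 3) ≤ cos (s i) ∧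
      uh + s i ^ 3 / (72 * cs i ^ 2) ≤ uu i ∧ uu i ≤ a i ∧ c i ≤ a i ∧
      vh + (1 / cs i - 1) / 6 ≤ v i ∧ 0 ≤ D0 i ∧ a i ^ 2 + v i ^ 2 ≤ D0 i ^ 2 ∧
      D0 i * exp (uu i * s i ^ 3) ≤ D i)
    (hρ0 : ρ 0 = 0) (hρ : ∀ i < nH, ρ i < ρ (i + 1)) (hτT : w0 ^ 2 ≤ ρ nH ^ 2)
    (hη : ∀ i < nH, 0 < η i) (hη2 : ∀ i, 1 ≤ i → i < nH → l1 ^ 2 ≤ 2 * η i * ρ i ^ 4)
    (hW : ∀ i, 1 ≤ i → i < nH →
      (1 + (π * ρ (i + 1) ^ 2 / ρ nH ^ 2) ^ 2 / 2) / (π * ρ i ^ 2) ≤ W i ∨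
      (ρ nH ^ 2 ≤ 2 * ρ i ^ 2 ∧
        (1 - ρ i ^ 2 / ρ nH ^ 2) * (1 + 9 / 2 * (1 - ρ i ^ 2 / ρ nH ^ 2) ^ 2) / ρ nH ^ 2 ≤ W i))
    (he : ∀ i < nH, (e i).Valid ∧ (e i).k = 0 ∧ (e i).sB = 0 ∧ 0 ≤ (e i).np ∧ 0 ≤ (e i).nm ∧
      ∀ b1 b2 b3, (e i).m + ((e i).np * sel b2 u0 u1 + (e i).nm * (1 - sel b2 u0 u1))
          * sel b1 (ρ i) (ρ (i + 1)) ^ 2 + (e i).z * sel b3 g0 g1 * sel b1 (ρ i) (ρ (i + 1))
        ≤ -η i)
    (htot : √(π / 2) / ρ nH ^ 2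
      + ∑ i ∈ Finset.range nL, (1 + (π * (l1 * t (i + 1)) / ρ nH ^ 2) ^ 2 / 2) * D i
          * t (i + 1) ^ 2 * exp (-t i ^ 2 / 2) * (t (i + 1) - t i) / π
      + ((1 + (π * w0 ^ 2 / ρ nH ^ 2) ^ 2 / 2) * D nL + 1 / s nL ^ 3)
          * ((t nL ^ 2 + 2) * exp (-t nL ^ 2 / 2) / (π * t nL))
      + exp (-t nL ^ 2 / 2) / (t nL * ρ nH ^ 2)
      + (1 + (π * ρ 1 ^ 2 / ρ nH ^ 2) ^ 2 / 2) / (π * s nL ^ 3)
          * ((t nL ^ 2 / (2 * η 0) + 1 / (2 * η 0 ^ 2)) * exp (-(η 0 * t nL ^ 2)) / t nL)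
      + ∑ i ∈ Finset.Ico 1 nH, W i * ((ρ (i + 1) ^ 2 - ρ i ^ 2) / l1)
          * exp (-(η i * ρ i ^ 4 / l1 ^ 2)) ≤ C) : CovS C l1 u0 u1 g0 g1 := by
  intro ν bp bm g hν hl a1 a2 a3 a4 x
  obtain ⟨hbp, hbm, hl0, hg, -⟩ := hν.basic
  have := hν.prob
  have hsq : 0 < √(bp + bm) := sqrt_pos.2 hl0
  have hs0 := (hs nL le_rfl).1
  have gg0 : g0 ≤ g / √(bp + bm) := (le_div_iff₀ hsq).2 a3
  have gg1 : g / √(bp + bm) ≤ g1 := (div_le_iff₀ hsq).2 a4
  have uu0 : u0 ≤ bp / (bp + bm) := (le_div_iff₀ hl0).2 a1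
  have uu1 : bp / (bp + bm) ≤ u1 := (div_le_iff₀ hl0).2 a2
  have uu2 : 0 ≤ bp / (bp + bm) := by positivity
  have uu3 : 0 ≤ 1 - bp / (bp + bm) := sub_nonneg.2 ((div_le_one hl0).2 (by linarith))
  have ebp : bp = bp / (bp + bm) * (bp + bm) := by field_simp
  have ebm : bm = (1 - bp / (bp + bm)) * (bp + bm) := by
    field_simp
    ring
  have main : ∀ i ≤ nL, ∀ y, 0 < y → (bp + bm) * y ^ 3 ≤ s i ^ 3 → (bp + bm) * y ^ 3 ≤ s nL ^ 3 →
      ‖charFun ν y - (Real.exp (-y ^ 2 / 2) : ℝ)‖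
        ≤ D i * ((bp + bm) * y ^ 3) * exp (-y ^ 2 / 2) := by
    intro i hi y hy h1 h2
    obtain ⟨b1, b2, b3, b4, b5, b6, b7, b8, b9, b10, b11, b12⟩ := hs i hi
    obtain ⟨R, Ω, hf⟩ := hν.exists_freq hy
    have h3 := sr_cube hl0.le hl hs0.le (sq_nonneg w0) hτ h2
    have hY : 0 ≤ (bp + bm) * y ^ 3 := by positivity
    have f1 := hf.low _ _ b1 b2 h1 b5
    have f2 := hf.up _ _ _ _ _ b1 b2 b3 b4 h1 hw0 h3 heta1 hP1
    obtain ⟨f3, f4⟩ := hf.arg _ _ _ _ _ _ b1 b2 b3 b4 h1 hw0 h3 heta2 hP2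
    have c1 : eta1 * (2 - 2 * (g / √(bp + bm))) ≤ eta1 * (2 - 2 * g0) := by gcongr
    have c2 : eta2 * (2 - 2 * (g / √(bp + bm))) ≤ eta2 * (2 - 2 * g0) := by gcongr
    have c3 : 0 ≤ s i ^ 3 / (72 * cs i ^ 2) := by positivity
    obtain ⟨v1, v2⟩ := hvh false
    obtain ⟨v3, v4⟩ := hvh true
    simp only [sel, if_true, if_false, Bool.false_eq_true] at v1 v2 v3 v4
    have c4 := sr_aff (A := nm + eta2 * (2 - 2 * g0)) (B := np - nm) (M := vh) uu0 uu1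
      (by linarith) (by linarith)
    have c5 := sr_aff (A := np + eta2 * (2 - 2 * g0)) (B := nm - np) (M := vh) uu0 uu1
      (by linarith) (by linarith)
    have e1 : bp * y ^ 3 = bp / (bp + bm) * ((bp + bm) * y ^ 3) := by rw [← mul_assoc, ← ebp]
    have e2 : bm * y ^ 3 = (1 - bp / (bp + bm)) * ((bp + bm) * y ^ 3) := by rw [← mul_assoc, ← ebm]
    rw [e1, e2] at f3 f4
    rw [hf.eq]
    generalize (bp + bm) * y ^ 3 = Y at *
    generalize bp / (bp + bm) = U at *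
    refine (disc_bound (u := uu i) (v := v i) hY h1 f1 (f2.trans ?_) (abs_le.2 ⟨?_, ?_⟩)
      (by linarith) b7 b8 b10 b11).trans ?_
    · gcongr
      linarith
    · have : (nm * U + np * (1 - U) + (eta2 * (2 - 2 * (g / √(bp + bm))) + (1 / cs i - 1) / 6)) * Y
          ≤ v i * Y := mul_le_mul_of_nonneg_right (by linarith) hY
      linarith
    · have : (np * U + nm * (1 - U) + (eta2 * (2 - 2 * (g / √(bp + bm))) + (1 / cs i - 1) / 6)) * Y
          ≤ v i * Y := mul_le_mul_of_nonneg_right (by linarith) hY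
      linarith
    · gcongr
  have key := small_analytic ν (hν.mem2.integrable one_le_two) hl0 hl hs0 (sq_nonneg w0) hτ hnL hnH
    ht0 ht htc (D := D) (fun i hi => ?_) hρ0 hρ hτT hη hη2 hW (fun i hi y h1 h2 => ?_)
    (fun y hy h => main nL le_rfl y hy h h) (fun i hi y hy h1 h2 => ?_) x
  · exact key.trans ((mul_le_mul_of_nonneg_left htot hl0.le).trans_eq (mul_comm _ _))
  · obtain ⟨-, -, -, -, -, -, -, -, -, b10, -, b12⟩ := hs i hi
    exact le_trans (by positivity) b12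
  · have hy : 0 < y := (ht0 ▸ sr_mono ht (Nat.zero_le i) hi.le).trans_lt h1
    have h3 : y ≤ t nL := h2.trans (sr_mono ht hi le_rfl)
    exact main i hi.le y hy (le_trans (by gcongr) (hts i hi)) (le_trans (by gcongr) htc)
  · obtain ⟨R, Ω, hf⟩ := hν.exists_freq hy
    obtain ⟨b1, b2, b3, b4, b5, b6⟩ := he i hi
    have f1 := hf.ent _ b1 (Or.inl b3)
    rw [b2, zero_mul, exp_zero, mul_one] at f1
    rw [hf.eq, norm_mul, Complex.norm_exp_ofReal_mul_I, mul_one, Complex.norm_real, norm_eq_abs,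
      abs_of_nonneg hf.R0]
    refine f1.trans (exp_le_exp.2 ?_)
    have r0 : 0 ≤ ρ i := hρ0 ▸ sr_mono hρ (Nat.zero_le i) hi.le
    have r1 : 0 ≤ ρ (i + 1) := r0.trans (hρ i hi).le
    have r2 : ρ i ≤ √((bp + bm) * y) := (le_sqrt r0 (by positivity)).2 h1
    have r3 : √((bp + bm) * y) ≤ ρ (i + 1) := (sqrt_le_left r1).2 h2
    have r4 : √((bp + bm) * y) ^ 2 = (bp + bm) * y := sq_sqrt (by positivity)
    have r5 : g * √y = g / √(bp + bm) * √((bp + bm) * y) := by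
      rw [sqrt_mul hl0.le]
      field_simp
    have r6 : ∀ b : Bool, (e i).m + ((e i).np * (bp / (bp + bm)) + (e i).nm * (1 - bp / (bp + bm)))
        * sel b (ρ i) (ρ (i + 1)) ^ 2 + (e i).z * (g / √(bp + bm)) * sel b (ρ i) (ρ (i + 1))
        ≤ -η i := fun b => by
      have d1 := b6 b false false
      have d2 := b6 b false true
      have d3 := b6 b true false
      have d4 := b6 b true true
      generalize sel b (ρ i) (ρ (i + 1)) = r at *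
      simp only [sel, if_true, if_false, Bool.false_eq_true] at d1 d2 d3 d4
      have d5 := sr_aff (A := (e i).m + (e i).nm * r ^ 2 + (e i).z * g0 * r)
        (B := ((e i).np - (e i).nm) * r ^ 2) (M := -η i) uu0 uu1 (by linarith) (by linarith)
      have d6 := sr_aff (A := (e i).m + (e i).nm * r ^ 2 + (e i).z * g1 * r)
        (B := ((e i).np - (e i).nm) * r ^ 2) (M := -η i) uu0 uu1 (by linarith) (by linarith)
      have d7 := sr_aff (A := (e i).m + (e i).nm * r ^ 2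
        + ((e i).np - (e i).nm) * r ^ 2 * (bp / (bp + bm)))
        (B := (e i).z * r) (M := -η i) gg0 gg1 (by linarith) (by linarith)
      linarith
    have r7 := sr_cvx (add_nonneg (mul_nonneg b4 uu2) (mul_nonneg b5 uu3)) r2 r3 (r6 false) (r6 true)
    have r8 := mul_le_mul_of_nonneg_right r7 (sq_nonneg y)
    rw [r4, mul_assoc (e i).z, ← r5] at r8
    have e1 : bp * y ^ 3 = bp / (bp + bm) * ((bp + bm) * y ^ 3) := by rw [← mul_assoc, ← ebp]
    have e2 : bm * y ^ 3 = (1 - bp / (bp + bm)) * ((bp + bm) * y ^ 3) := by rw [← mul_assoc, ← ebm]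
    rw [REnt.psi, e1, e2]
    linarith

theorem CovS.splitU {C l1 u0 u u1 g0 g1 : ℝ} (h1 : CovS C l1 u0 u g0 g1)
    (h2 : CovS C l1 u u1 g0 g1) : CovS C l1 u0 u1 g0 g1 := by
  intro ν bp bm g hl h0 a1 a2 a3 a4
  rcases le_total bp (u * (bp + bm)) with h | h
  · exact h1 ν bp bm g hl h0 a1 h a3 a4
  · exact h2 ν bp bm g hl h0 h a2 a3 a4

theorem CovS.splitG {C l1 u0 u1 g0 g g1 : ℝ} (h1 : CovS C l1 u0 u1 g0 g)
    (h2 : CovS C l1 u0 u1 g g1) : CovS C l1 u0 u1 g0 g1 := by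
  intro ν bp bm g' hl h0 a1 a2 a3 a4
  rcases le_total g' (g * √(bp + bm)) with h | h
  · exact h1 ν bp bm g' hl h0 a1 a2 a3 h
  · exact h2 ν bp bm g' hl h0 a1 a2 h a4

end Pool.Agent.Lib.MP_33650d_pr
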