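import Pool.Agent.Lib.MP_33650d_pr.SDef
import Pool.Agent.Lib.MP_33650d_pr.KChk
import Pool.Agent.Lib.MP_33650d_pr.SReal

namespace Pool.Agent.Lib.MP_33650d_pr
open Real

def CovSN (Cn L u0 u1 g0 g1 : ℕ) : Prop :=
  CovS (Cn / 2 ^ 30) (L / 2 ^ 20) (u0 / 2 ^ 16) (u1 / 2 ^ 16) (g0 / 2 ^ 16) (g1 / 2 ^ 16)

seal Nat.shiftRight Nat.shiftLeft Nat.mod Nat.sub Nat.add Nat.mul expT expU aC hyp side

theorem sc_sq (n : ℕ) : (sq n : ℝ) = (n : ℝ) ^ 2 := by rw [sq, cast_nmul]; ring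
theorem sc_cu (n : ℕ) : (cu n : ℝ) = (n : ℝ) ^ 3 := by rw [cu, cast_nmul, cast_nmul]; ring

theorem sc_div_le (a b : ℕ) : ((Nat.div a b : ℕ) : ℝ) ≤ a / b := by
  have : Nat.div a b = a / b := ndiv_eq a b
  rw [this]; exact Nat.cast_div_le

theorem sc_cdiv {a b : ℕ} (hb : (0 : ℝ) < b) : (a : ℝ) / b ≤ cdiv a b := by
  have : Nat.div a b = a / b := ndiv_eq a b
  rw [cdiv, cast_nadd, this]
  have := cast_div_gt a b (by exact_mod_cast hb)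
  push_cast at this ⊢; linarith

theorem sc_cdiv1 (a b : ℕ) : (1 : ℝ) ≤ cdiv a b := by
  rw [cdiv, cast_nadd]
  have : (0 : ℝ) ≤ (Nat.div a b : ℕ) := by positivity
  push_cast; linarith

theorem sc_cshr (a k : ℕ) : (a : ℝ) / 2 ^ k ≤ cshr a k := by
  rw [cshr, cast_nadd]
  have := cast_shr_ge a k
  push_cast; linarith

theorem sc_cshr1 (a k : ℕ) : (1 : ℝ) ≤ cshr a k := by
  rw [cshr, cast_nadd]
  have : (0 : ℝ) ≤ (Nat.shiftRight a k : ℕ) := by positivity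
  push_cast; linarith

/-- The table exponential with the offset `8`. -/
theorem sc_expT {y : ℕ} {z : ℝ} (h : (y : ℝ) ≤ z * 2 ^ 32) :
    exp (-z) * 2 ^ 40 ≤ expT (Nat.add y 34359738368) := by
  refine le_trans ?_ (expT_spec _)
  rw [cast_nadd]
  gcongr
  push_cast; linarith

theorem sc_kap {x T : ℕ} {r : ℝ} (hT : (0 : ℝ) < T) (h0 : 0 ≤ r) (h : r ≤ x / T) :
    (1 + (π * r) ^ 2 / 2) * 2 ^ 40 ≤ kap x T := by
  have h1 := sc_cdiv (a := Nat.mul 3294199 x) hT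
  have h2 := sc_cshr (sq (cdiv (Nat.mul 3294199 x) T)) 1
  rw [kap, cast_nadd]
  rw [sc_sq] at h2
  rw [cast_nmul] at h1
  generalize ((cshr (sq (cdiv (Nat.mul 3294199 x) T)) 1 : ℕ) : ℝ) = A at *
  generalize ((cdiv (Nat.mul 3294199 x) T : ℕ) : ℝ) = B at *
  have h3 : π * r * 2 ^ 20 ≤ B := by
    refine le_trans ?_ h1
    push_cast
    rw [mul_div_assoc]
    have : π * 2 ^ 20 ≤ 3294199 := by linarith [pi_lt_d20]
    calc π * r * 2 ^ 20 = π * 2 ^ 20 * r := by ring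
      _ ≤ 3294199 * ((x : ℝ) / T) := by gcongr
  have h4 := pow_le_pow_left₀ (by positivity) h3 2
  push_cast
  nlinarith

theorem sc_kap1 (x T : ℕ) : (2 : ℝ) ^ 40 ≤ kap x T := by
  rw [kap, cast_nadd]
  have : (0 : ℝ) ≤ (cshr (sq (cdiv (Nat.mul 3294199 x) T)) 1 : ℕ) := by positivity
  push_cast; linarith

theorem sc_sE (H : ℕ) : exp (-((H : ℝ) / 2 ^ 12) ^ 2 / 2) * 2 ^ 40 ≤ sE H := by
  rw [neg_div]
  refine sc_expT ?_
  rw [cast_shl, sc_sq]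
  exact le_of_eq (by ring)

theorem sc_ipi : 1 / π ≤ 333773 / 2 ^ 20 := by
  rw [div_le_div_iff₀ pi_pos (by positivity)]
  linarith [pi_gt_d20]

theorem sc_P1 {iw nu e : ℕ} (h : chkP1 iw nu e = true) :
    P1 (nu / 2 ^ 24) (e / 2 ^ 24) (iw / 256) := by
  rw [chkP1, band_eq] at h
  have h1 := ble_cast h.1
  rw [cast_shl, cast_nmul, sc_sq] at h1
  refine P1_of (by positivity) (by push_cast at h1; linarith) (by positivity) fun w hw => ?_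
  have := side_sound h.2 hw
  simp only [cast_shl, cast_nmul, cast_nadd, sc_sq] at this
  clear h
  unfold Pw at this ⊢
  push_cast at this
  linarith

theorem sc_P2 {iw np nm e : ℕ} (h : chkP2 iw np nm e = true) :
    P2 (bv np) (nm / 2 ^ 24) (e / 2 ^ 24) (iw / 256) := by
  simp only [chkP2, band_eq] at h
  obtain ⟨⟨a1, a2⟩, a3, a4⟩ := h
  have h1 := ble_cast a1
  have h2 := ble_cast a2
  have h3 := ble_cast a3
  simp only [cast_nmul, cast_nadd, sc_sq] at h1 h2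
  refine P2_of (by positivity) (by rw [bv]; push_cast at h1; linarith)
    (by push_cast at h2; linarith) (by positivity) fun w hw => ?_
  have := side_sound a4 hw
  simp only [cast_shl, cast_nmul, cast_nsub h3, cast_nadd, sc_sq] at this
  clear a1 a2 a3 a4
  unfold Pw bv at *
  push_cast at this
  linarith

theorem sc_vh1 (np nm u : ℕ) :
    (bv np * (u / 2 ^ 16) + nm / 2 ^ 24 * (1 - u / 2 ^ 16)) * 2 ^ 40 ≤ vh1 np nm u := by
  refine le_trans ?_ (cast_nsub_ge _ _)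
  have := mul_le_mul_of_nonneg_left (cast_nsub_ge 65536 u) (Nat.cast_nonneg (α := ℝ) nm)
  rw [cast_nadd, cast_nmul, cast_nmul, cast_shl, bv]
  push_cast at this
  linarith

theorem sc_vh1' (np nm : ℕ) {u : ℕ} (h : (u : ℝ) ≤ (65536 : ℕ)) :
    (nm / 2 ^ 24 * (u / 2 ^ 16) + bv np * (1 - u / 2 ^ 16)) * 2 ^ 40
      ≤ vh1 np nm (Nat.sub 65536 u) := by
  have := sc_vh1 np nm (Nat.sub 65536 u)
  rw [cast_nsub h] at this
  refine le_trans (le_of_eq ?_) this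
  push_cast; ring

theorem sc_g (e g : ℕ) : (e : ℝ) / 2 ^ 24 * (2 - 2 * (g / 2 ^ 16)) * 2 ^ 32
    ≤ cshr (Nat.mul e (Nat.sub 65536 g)) 7 := by
  refine le_trans ?_ (sc_cshr _ _)
  have := mul_le_mul_of_nonneg_left (cast_nsub_ge 65536 g) (Nat.cast_nonneg (α := ℝ) e)
  rw [cast_nmul]
  push_cast at this
  linarith

theorem sc_vh {np nm e u0 u1 g : ℕ} (h0 : (u0 : ℝ) ≤ (65536 : ℕ)) (h1 : (u1 : ℝ) ≤ (65536 : ℕ))
    (b : Bool) :
    bv np * sel b (u0 / 2 ^ 16) (u1 / 2 ^ 16) + nm / 2 ^ 24 * (1 - sel b (u0 / 2 ^ 16) (u1 / 2 ^ 16))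
        + e / 2 ^ 24 * (2 - 2 * (g / 2 ^ 16))
      ≤ (Nat.add (cshr (vh4 np nm u0 u1) 8) (cshr (Nat.mul e (Nat.sub 65536 g)) 7) : ℕ) / 2 ^ 32 ∧
    nm / 2 ^ 24 * sel b (u0 / 2 ^ 16) (u1 / 2 ^ 16) + bv np * (1 - sel b (u0 / 2 ^ 16) (u1 / 2 ^ 16))
        + e / 2 ^ 24 * (2 - 2 * (g / 2 ^ 16))
      ≤ (Nat.add (cshr (vh4 np nm u0 u1) 8) (cshr (Nat.mul e (Nat.sub 65536 g)) 7) : ℕ) / 2 ^ 32 := by
  have a1 := sc_vh1 np nm u0
  have a2 := sc_vh1 np nm u1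
  have a3 := sc_vh1' np nm h0
  have a4 := sc_vh1' np nm h1
  have a5 := sc_g e g
  have a6 := sc_cshr (vh4 np nm u0 u1) 8
  have a7 : vh4 np nm u0 u1 = max (max (vh1 np nm u0) (vh1 np nm u1))
      (max (vh1 np nm (Nat.sub 65536 u0)) (vh1 np nm (Nat.sub 65536 u1))) := by
    simp only [vh4, force_eq, mx_eq]
  have b1 : (vh1 np nm u0 : ℝ) ≤ vh4 np nm u0 u1 := by rw [a7]; exact_mod_cast (by omega)
  have b2 : (vh1 np nm u1 : ℝ) ≤ vh4 np nm u0 u1 := by rw [a7]; exact_mod_cast (by omega)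
  have b3 : (vh1 np nm (Nat.sub 65536 u0) : ℝ) ≤ vh4 np nm u0 u1 := by
    rw [a7]; exact_mod_cast (by omega)
  have b4 : (vh1 np nm (Nat.sub 65536 u1) : ℝ) ≤ vh4 np nm u0 u1 := by
    rw [a7]; exact_mod_cast (by omega)
  rw [cast_nadd]
  clear a7
  cases b <;> simp only [sel, if_true, if_false, Bool.false_eq_true] <;> constructor <;> linarith

theorem sc_G1 {σ nL cH i : ℕ} (hs : (sS σ nL i : ℝ) ≤ 2 ^ 25) (h : chkSG1 σ nL cH i = true) :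
    0 < (sCs σ nL i : ℝ) ∧ (sCs σ nL i : ℝ) / 2 ^ 32 ≤ cos (sS σ nL i / 2 ^ 24) ∧
      exp (-(((sS σ nL i : ℝ) / 2 ^ 24) ^ 2 / 2) - sC cH i / 2 ^ 24 * (sS σ nL i / 2 ^ 24) ^ 3)
        ≤ cos (sS σ nL i / 2 ^ 24) := by
  rw [chkSG1, band_eq] at h
  have h1 := ble_cast h.1
  have h2 := ble_cast h.2
  clear h
  obtain ⟨c1, -⟩ := aCS (sS σ nL i) (by linarith)
  have h3 := expU_spec 0 (Nat.add (Nat.shiftRight (sq (sS σ nL i)) 17)
      (Nat.shiftRight (Nat.mul (sC cH i) (cu (sS σ nL i))) 64))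
  have h4 := cast_shr_le (sq (sS σ nL i)) 17
  have h5 := cast_shr_le (Nat.mul (sC cH i) (cu (sS σ nL i))) 64
  have h6 := cast_shr_le (Nat.sub (aC (sS σ nL i)) 2417851639792208302833664) 48
  rw [← sCs] at h6
  rw [cast_nadd, cast_shl] at h2
  obtain ⟨E, hE⟩ : ∃ E : ℝ, E = (expU 0 (Nat.add (Nat.shiftRight (sq (sS σ nL i)) 17)
      (Nat.shiftRight (Nat.mul (sC cH i) (cu (sS σ nL i))) 64)) : ℕ) := ⟨_, rfl⟩
  have E0 : 0 ≤ E := by rw [hE]; positivity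
  rw [← hE] at h2 h3
  clear hE
  rw [cast_nsub (by linarith)] at h6
  rw [cast_nadd] at h3
  rw [cast_nmul, sc_cu] at h5
  rw [sc_sq] at h4
  generalize ((Nat.shiftRight (sq (sS σ nL i)) 17 : ℕ) : ℝ) = A at *
  generalize ((Nat.shiftRight (Nat.mul (sC cH i) (cu (sS σ nL i))) 64 : ℕ) : ℝ) = B at *
  rw [abs_le] at c1
  push_cast at h1 h2 h3 h6
  refine ⟨by linarith, by linarith [c1.2], ?_⟩
  have : exp (-(((sS σ nL i : ℝ) / 2 ^ 24) ^ 2 / 2) - sC cH i / 2 ^ 24 * (sS σ nL i / 2 ^ 24) ^ 3)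
      ≤ exp ((0 - (A + B)) / 2 ^ 32) := exp_le_exp.2 (by linarith)
  linarith [c1.2]

theorem sc_D {σ nL cH uh vh i : ℕ} (hc : 0 < (sCs σ nL i : ℝ))
    (hD : (sD σ nL cH uh vh i : ℝ) ≤ 2 ^ 72) : ∃ uu a v D0 : ℝ,
    (uh : ℝ) / 2 ^ 32 + ((sS σ nL i : ℝ) / 2 ^ 24) ^ 3 / (72 * ((sCs σ nL i : ℝ) / 2 ^ 32) ^ 2) ≤ uu ∧
      uu ≤ a ∧ (sC cH i : ℝ) / 2 ^ 24 ≤ a ∧
      (vh : ℝ) / 2 ^ 32 + (1 / ((sCs σ nL i : ℝ) / 2 ^ 32) - 1) / 6 ≤ v ∧ 0 ≤ D0 ∧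
      a ^ 2 + v ^ 2 ≤ D0 ^ 2 ∧
      D0 * exp (uu * ((sS σ nL i : ℝ) / 2 ^ 24) ^ 3) ≤ sD σ nL cH uh vh i / 2 ^ 32 := by
  simp only [sD, force_eq] at hD ⊢
  have a1 : ((sS σ nL i : ℝ) / 2 ^ 24) ^ 3 / (72 * ((sCs σ nL i : ℝ) / 2 ^ 32) ^ 2)
      ≤ sA σ nL i / 2 ^ 32 := by
    have := sc_cdiv (a := Nat.shiftLeft (cu (sS σ nL i)) 24) (b := Nat.mul 72 (sq (sCs σ nL i)))
      (by rw [cast_nmul, sc_sq]; positivity)
    rw [← sA, cast_shl, cast_nmul, sc_sq, sc_cu] at this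
    rw [le_div_iff₀ (by positivity)]
    refine le_trans (le_of_eq ?_) this
    push_cast; field_simp
  have a2 : (1 / ((sCs σ nL i : ℝ) / 2 ^ 32) - 1) / 6 ≤ sB6 σ nL i / 2 ^ 32 := by
    have := sc_cdiv (a := Nat.shiftLeft (Nat.sub 4294967296 (sCs σ nL i)) 32)
      (b := Nat.mul 6 (sCs σ nL i)) (by rw [cast_nmul]; positivity)
    rw [← sB6, cast_shl, cast_nmul] at this
    have h2 := cast_nsub_ge 4294967296 (sCs σ nL i)
    rw [le_div_iff₀ (by positivity)]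
    refine le_trans ?_ this
    calc _ = (((4294967296 : ℕ) : ℝ) - sCs σ nL i) * 2 ^ 32 / (((6 : ℕ) : ℝ) * sCs σ nL i) := by
          push_cast; field_simp; ring
      _ ≤ _ := by gcongr
  obtain ⟨U, hU⟩ : ∃ U, U = Nat.add uh (sA σ nL i) := ⟨_, rfl⟩
  obtain ⟨V, hV⟩ : ∃ V, V = Nat.add vh (sB6 σ nL i) := ⟨_, rfl⟩
  obtain ⟨A, hA⟩ : ∃ A, A = mx U (Nat.shiftLeft (sC cH i) 8) := ⟨_, rfl⟩
  rw [← hU, ← hV, ← hA] at hD ⊢
  have a3 : (U : ℝ) = uh + sA σ nL i := by rw [hU, cast_nadd]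
  have a4 : (V : ℝ) = vh + sB6 σ nL i := by rw [hV, cast_nadd]
  have a5 : (U : ℝ) ≤ A := by rw [hA, mx_eq]; exact_mod_cast le_max_left _ _
  have a6 : (sC cH i : ℝ) * 2 ^ 8 ≤ A := by
    rw [hA, mx_eq, ← cast_shl]; exact_mod_cast le_max_right _ _
  have a7 : (A : ℝ) ^ 2 + V ^ 2 ≤ (hyp A V : ℝ) ^ 2 := by exact_mod_cast hyp_spec A V
  have a8 := sc_cshr (Nat.mul U (cu (sS σ nL i))) 72
  obtain ⟨y, hy⟩ : ∃ y, y = cshr (Nat.mul U (cu (sS σ nL i))) 72 := ⟨_, rfl⟩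
  rw [← hy] at hD a8 ⊢
  rw [cast_nmul, sc_cu] at a8
  clear hU hV hA hy
  refine ⟨U / 2 ^ 32, A / 2 ^ 32, V / 2 ^ 32, hyp A V / 2 ^ 32, by linarith, by linarith,
    by linarith, by linarith, by positivity, by linarith, ?_⟩
  rw [sD2] at hD ⊢
  cases hb : Nat.ble y 34359738368
  · rw [hb, ite'_false] at hD
    norm_num at hD
  · rw [ite'_true]
    have b1 := ble_cast hb
    have b2 := expT_spec (Nat.sub 34359738368 y)
    have b3 := sc_cshr (Nat.mul (hyp A V) (expT (Nat.sub 34359738368 y))) 40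
    rw [cast_nsub b1] at b2
    rw [cast_nmul] at b3
    have b4 : exp (U / 2 ^ 32 * ((sS σ nL i : ℝ) / 2 ^ 24) ^ 3)
        ≤ exp (8 - (((34359738368 : ℕ) : ℝ) - y) / 2 ^ 32) :=
      exp_le_exp.2 (by push_cast; linarith)
    have b5 := mul_le_mul_of_nonneg_left ((mul_le_mul_of_nonneg_right b4 (by positivity)).trans b2)
      (Nat.cast_nonneg (α := ℝ) (hyp A V))
    linarith

theorem sc_et1 {x u g r e : ℕ} (h1 : 1 ≤ e) (h : e * 2 ^ 32 ≤ et1 x u g r) :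
    (dec x).m + ((dec x).np * (u / 2 ^ 16) + (dec x).nm * (1 - u / 2 ^ 16)) * (r / 2 ^ 12) ^ 2
      + (dec x).z * (g / 2 ^ 16) * (r / 2 ^ 12) ≤ -(e / 2 ^ 32) := by
  rw [et1, Nat.sub_eq] at h
  have h2 := Nat.add_le_of_le_sub (Nat.le_of_lt (Nat.lt_of_sub_pos (lt_of_lt_of_le (by omega) h))) h
  have h3 := (Nat.cast_le (α := ℝ)).2 h2
  clear h h2
  have := mul_le_mul_of_nonneg_right (mul_le_mul_of_nonneg_left (cast_nsub_ge 65536 u)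
    (Nat.cast_nonneg (α := ℝ) (fld x 4))) (sq_nonneg (r : ℝ))
  simp only [Nat.cast_add, cast_nadd, cast_nmul, cast_shl, sc_sq] at h3
  simp only [dec, mkE, bv]
  push_cast at h3 this
  linarith

theorem sc_eta {t : BT} {B u0 u1 g0 g1 i : ℕ} (h : 1 ≤ eta t B u0 u1 g0 g1 i) (b1 b2 b3 : Bool) :
    (dec (hI t B i)).m + ((dec (hI t B i)).np * sel b2 (u0 / 2 ^ 16) (u1 / 2 ^ 16)
        + (dec (hI t B i)).nm * (1 - sel b2 (u0 / 2 ^ 16) (u1 / 2 ^ 16)))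
        * sel b1 (rh B i / 2 ^ 12) (rh B (i + 1) / 2 ^ 12) ^ 2
      + (dec (hI t B i)).z * sel b3 (g0 / 2 ^ 16) (g1 / 2 ^ 16)
        * sel b1 (rh B i / 2 ^ 12) (rh B (i + 1) / 2 ^ 12) ≤ -(eta t B u0 u1 g0 g1 i / 2 ^ 32) := by
  have e : eta t B u0 u1 g0 g1 i * 2 ^ 32 ≤ min (et4 (hI t B i) u0 u1 g0 g1 (rh B i))
      (et4 (hI t B i) u0 u1 g0 g1 (rh B (i + 1))) := by
    simp only [eta, force_eq, mn_eq, nshr_eq, Nat.add_eq]
    exact Nat.div_mul_le_self _ _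
  simp only [et4, force_eq, mn_eq, le_min_iff] at e
  obtain ⟨⟨⟨e1, e2⟩, e3, e4⟩, ⟨e5, e6⟩, e7, e8⟩ := e
  cases b1 <;> cases b2 <;> cases b3 <;> simp only [sel, if_true, if_false, Bool.false_eq_true] <;>
    apply sc_et1 h <;> assumption

theorem sc_W1 {a b T : ℕ} (ha : (0 : ℝ) < a) (hT : (0 : ℝ) < T) :
    (1 + (π * (b / 2 ^ 24) / (T / 2 ^ 24)) ^ 2 / 2) / (π * (a / 2 ^ 24)) ≤ hW1 a b T / 2 ^ 32 := by
  have h1 := sc_kap (x := b) hT (by positivity) le_rfl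
  have h2 := sc_cdiv (a := Nat.mul (kap b T) 333773) (b := Nat.shiftLeft a 4)
    (by rw [cast_shl]; positivity)
  rw [← hW1, cast_shl, cast_nmul] at h2
  rw [le_div_iff₀ (by positivity)]
  refine le_trans ?_ h2
  have := pi_pos
  calc _ = (1 + (π * (b / T)) ^ 2 / 2) * 2 ^ 40 * (1 / π * 2 ^ 20) / (a * 2 ^ 4) := by field_simp
    _ ≤ _ := by
      gcongr
      push_cast; linarith [sc_ipi]

theorem sc_W2 {a T : ℕ} (hT : (0 : ℝ) < T) :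
    (1 - (a / 2 ^ 24) / (T / 2 ^ 24)) * (1 + 9 / 2 * (1 - (a / 2 ^ 24) / (T / 2 ^ 24)) ^ 2)
      / (T / 2 ^ 24) ≤ (hW2 (cdiv (Nat.shiftLeft (Nat.sub T a) 20) T) T : ℝ) / 2 ^ 32 := by
  have h1 := sc_cdiv (a := Nat.shiftLeft (Nat.sub T a) 20) hT
  obtain ⟨v, hv⟩ : ∃ v, v = cdiv (Nat.shiftLeft (Nat.sub T a) 20) T := ⟨_, rfl⟩
  rw [← hv, cast_shl] at h1
  rw [← hv]
  clear hv
  have h2 := sc_cdiv (a := Nat.mul v (Nat.add (Nat.mul 9 (sq v)) 2199023255552))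
    (b := Nat.shiftLeft T 5) (by rw [cast_shl]; positivity)
  rw [← hW2, cast_shl, cast_nmul, cast_nadd, cast_nmul, sc_sq] at h2
  have h3 := cast_nsub_ge T a
  have h4 : 1 - ((a : ℝ) / 2 ^ 24) / (T / 2 ^ 24) ≤ v / 2 ^ 20 := by
    rw [le_div_iff₀ (by positivity)]
    refine le_trans ?_ h1
    calc _ = ((T : ℝ) - a) * 2 ^ 20 / T := by field_simp
      _ ≤ _ := by gcongr
  generalize 1 - ((a : ℝ) / 2 ^ 24) / (T / 2 ^ 24) = x at *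
  have h5 := (Odd.pow_le_pow (R := ℝ) (n := 3) (by decide)).2 h4
  rw [le_div_iff₀ (by positivity)]
  refine le_trans ?_ h2
  calc _ = (x + 9 / 2 * x ^ 3) * 2 ^ 61 / (T * 2 ^ 5) := by field_simp
    _ ≤ _ := div_le_div_of_nonneg_right (by push_cast; linarith) (by positivity)

theorem sc_W {a b T : ℕ} (ha : (0 : ℝ) < a) (hT : (0 : ℝ) < T) :
    (1 + (π * (b / 2 ^ 24) / (T / 2 ^ 24)) ^ 2 / 2) / (π * (a / 2 ^ 24)) ≤ hW a b T / 2 ^ 32 ∨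
    ((T : ℝ) / 2 ^ 24 ≤ 2 * (a / 2 ^ 24) ∧
      (1 - (a / 2 ^ 24) / (T / 2 ^ 24)) * (1 + 9 / 2 * (1 - (a / 2 ^ 24) / (T / 2 ^ 24)) ^ 2)
      / (T / 2 ^ 24) ≤ (hW a b T : ℝ) / 2 ^ 32) := by
  rw [hW]
  cases hb : Nat.ble T (Nat.mul 2 a)
  · exact Or.inl (sc_W1 ha hT)
  · rw [ite'_true, force_eq, force_eq, mn_eq]
    have h1 := ble_cast hb
    rw [cast_nmul] at h1
    rcases min_choice (hW1 a b T) (hW2 (cdiv (Nat.shiftLeft (Nat.sub T a) 20) T) T) with h | h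
    · rw [h]; exact Or.inl (sc_W1 ha hT)
    · rw [h]; exact Or.inr ⟨by push_cast at h1; linarith, sc_W2 hT⟩

theorem sc_T1 {T : ℕ} (hT : (0 : ℝ) < T) :
    √(π / 2) / (T / 2 ^ 24) * 2 ^ 72 ≤ cdiv 99297776152769955335185104896 T := by
  refine le_trans ?_ (sc_cdiv hT)
  have h : √(π / 2) ≤ 1378033467236 / 2 ^ 40 := by
    refine sqrt_le_iff.2 ⟨by positivity, ?_⟩
    linarith [pi_lt_d20]
  calc _ = √(π / 2) * 2 ^ 96 / T := by field_simp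
    _ ≤ _ := by
      gcongr
      push_cast; linarith

theorem sc_T2 {L h tm T i D : ℕ} (h1 : (0 : ℝ) < tm) (h2 : (tm : ℝ) ≤ T) :
    (1 + (π * (L / 2 ^ 20 * (((i + 1 : ℕ) : ℝ) * h / 2 ^ 12)) / (T / 2 ^ 24)) ^ 2 / 2) * (D / 2 ^ 32)
      * (((i + 1 : ℕ) : ℝ) * h / 2 ^ 12) ^ 2 * exp (-((i : ℝ) * h / 2 ^ 12) ^ 2 / 2)
      * (((i + 1 : ℕ) : ℝ) * h / 2 ^ 12 - i * h / 2 ^ 12) / π * 2 ^ 72
      ≤ (Nat.mul D (sW L h tm i) : ℕ) := by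
  have hT : (0 : ℝ) < T := by linarith
  have a1 := sc_kap (x := Nat.mul (Nat.mul L (Nat.add i 1)) h) (T := Nat.shiftLeft tm 8)
    (r := L / 2 ^ 20 * (((i + 1 : ℕ) : ℝ) * h / 2 ^ 12) / (T / 2 ^ 24))
    (by rw [cast_shl]; positivity) (by positivity) (by
      rw [cast_shl, cast_nmul, cast_nmul, cast_nadd]
      calc _ = (L : ℝ) * (i + (1 : ℕ)) * h / (T * 2 ^ 8) := by push_cast; field_simp
        _ ≤ _ := by gcongr)
  have a2 := sc_sE (Nat.mul i h)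
  have a3 := sc_cshr (Nat.mul (Nat.mul (Nat.mul (kap (Nat.mul (Nat.mul L (Nat.add i 1)) h)
    (Nat.shiftLeft tm 8)) (sq (Nat.mul (Nat.add i 1) h))) (sE (Nat.mul i h))) (Nat.mul h 333773)) 96
  rw [← sW] at a3
  simp only [cast_nmul, sc_sq, cast_nadd] at a2 a3 ⊢
  generalize ((kap (Nat.mul (Nat.mul L (Nat.add i 1)) h) (Nat.shiftLeft tm 8) : ℕ) : ℝ) = K at *
  generalize ((sE (Nat.mul i h) : ℕ) : ℝ) = E at *
  rw [← mul_div_assoc] at a1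
  have k0 : 0 ≤ (1 + (π * (L / 2 ^ 20 * (((i + 1 : ℕ) : ℝ) * h / 2 ^ 12)) / (T / 2 ^ 24)) ^ 2 / 2) := by
    positivity
  generalize (1 + (π * (L / 2 ^ 20 * (((i + 1 : ℕ) : ℝ) * h / 2 ^ 12)) / (T / 2 ^ 24)) ^ 2 / 2) = κ
    at *
  refine le_trans ?_ (mul_le_mul_of_nonneg_left a3 (Nat.cast_nonneg D))
  have e0 := exp_pos (-((i : ℝ) * h / 2 ^ 12) ^ 2 / 2)
  generalize exp (-((i : ℝ) * h / 2 ^ 12) ^ 2 / 2) = ε at *
  have := pi_pos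
  calc _ = D * (κ * 2 ^ 40 * ((i + (1 : ℕ)) * h) ^ 2 * (ε * 2 ^ 40) * (h * (1 / π * 2 ^ 20))
        / 2 ^ 96) := by push_cast; field_simp; ring
    _ ≤ _ := by
      have : 0 ≤ K := le_trans (by positivity) a1
      have : 0 ≤ E := le_trans (by positivity) a2
      gcongr
      push_cast; linarith [sc_ipi]

theorem sc_I3 {s : ℕ} (hs : (0 : ℝ) < s) : 1 / ((s : ℝ) / 2 ^ 24) ^ 3 * 2 ^ 32 ≤ sI3 s := by
  have := sc_cdiv (a := 20282409603651670423947251286016) (b := cu s) (by rw [sc_cu]; positivity)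
  rw [← sI3, sc_cu] at this
  refine le_trans (le_of_eq ?_) this
  push_cast; field_simp; norm_num

theorem sc_F2 {H : ℕ} (hH : (0 : ℝ) < H) :
    (((H : ℝ) / 2 ^ 12) ^ 2 + 2) * exp (-((H : ℝ) / 2 ^ 12) ^ 2 / 2) / (π * (H / 2 ^ 12)) * 2 ^ 40
      ≤ sF2 H := by
  have a1 := sc_cdiv (a := Nat.mul (Nat.mul (Nat.add (sq H) 33554432) (sE H)) 333773)
    (b := Nat.shiftLeft H 32) (by rw [cast_shl]; positivity)
  rw [← sF2, cast_shl, cast_nmul, cast_nmul, cast_nadd, sc_sq] at a1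
  have a2 := sc_sE H
  refine le_trans ?_ a1
  have e0 := exp_pos (-((H : ℝ) / 2 ^ 12) ^ 2 / 2)
  generalize exp (-((H : ℝ) / 2 ^ 12) ^ 2 / 2) = ε at *
  have := pi_pos
  calc _ = ((H : ℝ) ^ 2 + (33554432 : ℕ)) * (ε * 2 ^ 40) * (1 / π * 2 ^ 20) / (H * 2 ^ 32) := by
        push_cast; field_simp; ring
    _ ≤ _ := by
      gcongr
      push_cast; linarith [sc_ipi]

theorem sc_T3 {iw T D s H : ℕ} (hT : (0 : ℝ) < T) (hs : (0 : ℝ) < s) (hH : (0 : ℝ) < H) :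
    ((1 + (π * ((iw : ℝ) / 256) ^ 2 / (T / 2 ^ 24)) ^ 2 / 2) * (D / 2 ^ 32) + 1 / ((s : ℝ) / 2 ^ 24) ^ 3)
      * ((((H : ℝ) / 2 ^ 12) ^ 2 + 2) * exp (-((H : ℝ) / 2 ^ 12) ^ 2 / 2) / (π * (H / 2 ^ 12)))
      * 2 ^ 72 ≤ (Nat.mul (Nat.add (cshr (Nat.mul (kap (Nat.shiftLeft (sq iw) 8) T) D) 40) (sI3 s))
        (sF2 H) : ℕ) := by
  have a1 := sc_kap (x := Nat.shiftLeft (sq iw) 8) (r := ((iw : ℝ) / 256) ^ 2 / (T / 2 ^ 24)) hT
    (by positivity) (by rw [cast_shl, sc_sq]; apply le_of_eq; field_simp; norm_num)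
  have a2 := sc_cshr (Nat.mul (kap (Nat.shiftLeft (sq iw) 8) T) D) 40
  have a3 := sc_I3 hs
  have a4 := sc_F2 hH
  rw [cast_nmul] at a2
  rw [cast_nmul, cast_nadd, mul_div_assoc π]
  have a5 := mul_le_mul_of_nonneg_right a1 (Nat.cast_nonneg (α := ℝ) D)
  have := pi_pos
  calc _ = (((1 + (π * (((iw : ℝ) / 256) ^ 2 / (T / 2 ^ 24))) ^ 2 / 2) * (D / 2 ^ 32)
        + 1 / ((s : ℝ) / 2 ^ 24) ^ 3) * 2 ^ 32) * ((((H : ℝ) / 2 ^ 12) ^ 2 + 2)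
        * exp (-((H : ℝ) / 2 ^ 12) ^ 2 / 2) / (π * (H / 2 ^ 12)) * 2 ^ 40) := by ring
    _ ≤ _ := mul_le_mul (by linarith) a4 (by positivity) (by positivity)

theorem sc_T4 {T H : ℕ} (hT : (0 : ℝ) < T) (hH : (0 : ℝ) < H) :
    exp (-((H : ℝ) / 2 ^ 12) ^ 2 / 2) / (H / 2 ^ 12 * (T / 2 ^ 24)) * 2 ^ 72
      ≤ cdiv (Nat.shiftLeft (sE H) 68) (Nat.mul H T) := by
  have a1 := sc_cdiv (a := Nat.shiftLeft (sE H) 68) (b := Nat.mul H T)
    (by rw [cast_nmul]; positivity)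
  rw [cast_shl, cast_nmul] at a1
  have a2 := sc_sE H
  refine le_trans ?_ a1
  generalize exp (-((H : ℝ) / 2 ^ 12) ^ 2 / 2) = ε at *
  calc _ = ε * 2 ^ 40 * 2 ^ 68 / (H * T) := by field_simp
    _ ≤ _ := by gcongr

theorem sc_G4 {e H : ℕ} (he : (0 : ℝ) < e) (hH : (0 : ℝ) < H) :
    (((H : ℝ) / 2 ^ 12) ^ 2 / (2 * (e / 2 ^ 32)) + 1 / (2 * ((e : ℝ) / 2 ^ 32) ^ 2))
      * exp (-(e / 2 ^ 32 * ((H : ℝ) / 2 ^ 12) ^ 2)) / (H / 2 ^ 12) * 2 ^ 40 ≤ sG4 e H := by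
  have a1 := sc_cdiv (a := Nat.shiftLeft (Nat.mul (Nat.add (Nat.mul e (sq H)) 72057594037927936)
    (expT (Nat.add (Nat.shiftRight (Nat.mul e (sq H)) 24) 34359738368))) 19)
    (b := Nat.mul (sq e) H) (by rw [cast_nmul, sc_sq]; positivity)
  have a2 := sc_expT (y := Nat.shiftRight (Nat.mul e (sq H)) 24)
    (z := e / 2 ^ 32 * ((H : ℝ) / 2 ^ 12) ^ 2) ((cast_shr_le _ _).trans (by
      rw [cast_nmul, sc_sq]; exact le_of_eq (by ring)))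
  rw [← sG4, cast_shl, cast_nmul, cast_nmul, cast_nadd, cast_nmul, sc_sq, sc_sq] at a1
  refine le_trans ?_ a1
  generalize exp (-(e / 2 ^ 32 * ((H : ℝ) / 2 ^ 12) ^ 2)) = ε at *
  calc _ = ((e : ℝ) * H ^ 2 + (72057594037927936 : ℕ)) * (ε * 2 ^ 40) * 2 ^ 19 / (e ^ 2 * H) := by
        push_cast; field_simp; ring
    _ ≤ _ := by gcongr

theorem sc_T5 {r T s e H : ℕ} (hT : (0 : ℝ) < T) (hs : (0 : ℝ) < s) (he : (0 : ℝ) < e)
    (hH : (0 : ℝ) < H) :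
    (1 + (π * ((r : ℝ) / 2 ^ 12) ^ 2 / (T / 2 ^ 24)) ^ 2 / 2) / (π * ((s : ℝ) / 2 ^ 24) ^ 3)
      * ((((H : ℝ) / 2 ^ 12) ^ 2 / (2 * (e / 2 ^ 32)) + 1 / (2 * ((e : ℝ) / 2 ^ 32) ^ 2))
      * exp (-(e / 2 ^ 32 * ((H : ℝ) / 2 ^ 12) ^ 2)) / (H / 2 ^ 12)) * 2 ^ 72
      ≤ cshr (Nat.mul (Nat.mul (Nat.mul (kap (sq r) T) 333773) (sI3 s)) (sG4 e H)) 60 := by
  have a1 := sc_kap (x := sq r) (r := ((r : ℝ) / 2 ^ 12) ^ 2 / (T / 2 ^ 24)) hT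
    (by positivity) (by rw [sc_sq]; apply le_of_eq; field_simp)
  have a3 := sc_I3 hs
  have a4 := sc_G4 he hH
  refine le_trans ?_ (sc_cshr _ _)
  rw [cast_nmul, cast_nmul, cast_nmul, mul_div_assoc π]
  have := pi_pos
  have g0 : 0 ≤ (((H : ℝ) / 2 ^ 12) ^ 2 / (2 * (e / 2 ^ 32)) + 1 / (2 * ((e : ℝ) / 2 ^ 32) ^ 2))
      * exp (-(e / 2 ^ 32 * ((H : ℝ) / 2 ^ 12) ^ 2)) / (H / 2 ^ 12) := by positivity
  generalize (((H : ℝ) / 2 ^ 12) ^ 2 / (2 * (e / 2 ^ 32)) + 1 / (2 * ((e : ℝ) / 2 ^ 32) ^ 2))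
      * exp (-(e / 2 ^ 32 * ((H : ℝ) / 2 ^ 12) ^ 2)) / (H / 2 ^ 12) = G at *
  calc _ = (1 + (π * (((r : ℝ) / 2 ^ 12) ^ 2 / (T / 2 ^ 24))) ^ 2 / 2) * 2 ^ 40 * (1 / π * 2 ^ 20)
        * (1 / ((s : ℝ) / 2 ^ 24) ^ 3 * 2 ^ 32) * (G * 2 ^ 40) / 2 ^ 60 := by field_simp
    _ ≤ _ := by
      gcongr
      push_cast; linarith [sc_ipi]

theorem sc_T6 {t : BT} {L B u0 u1 g0 g1 T i : ℕ} (hL : (0 : ℝ) < L) :
    (hW (sq (rh B i)) (sq (rh B (i + 1))) T : ℝ) / 2 ^ 32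
      * ((((rh B (i + 1) : ℝ) / 2 ^ 12) ^ 2 - ((rh B i : ℝ) / 2 ^ 12) ^ 2) / (L / 2 ^ 20))
      * exp (-(eta t B u0 u1 g0 g1 i / 2 ^ 32 * ((rh B i : ℝ) / 2 ^ 12) ^ 4 / (L / 2 ^ 20) ^ 2))
      * 2 ^ 72 ≤ hT t L B u0 u1 g0 g1 T i := by
  rw [hT, force_eq, force_eq, Nat.add_eq (x := i)]
  refine le_trans ?_ (sc_cdiv (by rw [cast_shl]; positivity))
  have a2 := sc_expT (y := Nat.div (Nat.mul (eta t B u0 u1 g0 g1 i) (sq (sq (rh B i))))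
      (Nat.shiftLeft (sq L) 8))
    (z := eta t B u0 u1 g0 g1 i / 2 ^ 32 * ((rh B i : ℝ) / 2 ^ 12) ^ 4 / (L / 2 ^ 20) ^ 2)
    ((sc_div_le _ _).trans (by
      rw [cast_nmul, cast_shl, sc_sq, sc_sq, sc_sq]; apply le_of_eq; field_simp))
  have a3 := cast_nsub_ge (sq (rh B (i + 1))) (sq (rh B i))
  rw [sc_sq, sc_sq] at a3
  rw [cast_nmul, cast_nmul, cast_shl]
  have e0 := exp_pos
    (-(eta t B u0 u1 g0 g1 i / 2 ^ 32 * ((rh B i : ℝ) / 2 ^ 12) ^ 4 / (L / 2 ^ 20) ^ 2))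
  generalize exp
    (-(eta t B u0 u1 g0 g1 i / 2 ^ 32 * ((rh B i : ℝ) / 2 ^ 12) ^ 4 / (L / 2 ^ 20) ^ 2)) = ε at *
  calc _ = (hW (sq (rh B i)) (sq (rh B (i + 1))) T : ℝ) * ((rh B (i + 1) : ℝ) ^ 2 - (rh B i : ℝ) ^ 2)
        * (ε * 2 ^ 40) / (L * 2 ^ 4) := by field_simp
    _ ≤ _ := by gcongr

theorem sc_rh0 (B : ℕ) : rh B 0 = 0 := by
  simp only [rh, bt, nmod_eq, nshr_eq, nshl_eq, Nat.mul_eq]
  omega

theorem sc_S2 {t : BT} (ht : t.All ChunkOK) {Cn L h σ nL iw tm cH : ℕ}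
    (hG : chkSG L h σ nL iw tm cH = true) {u0 u1 g0 g1 nu e1 np nm e2 nH B : ℕ}
    (hS : chkS2 t Cn L h σ nL iw tm cH u0 u1 g0 g1 nu e1 np nm e2 nH B = true) :
    CovSN Cn L u0 u1 g0 g1 := by
  simp only [chkSG, band_eq] at hG
  obtain ⟨⟨⟨a1, a2⟩, a3, a4⟩, ⟨a5, a6⟩, ⟨a7, a8⟩, a9, a10⟩ := hG
  simp only [chkS2, band_eq, force_eq] at hS
  obtain ⟨⟨⟨b1, b2⟩, b3, b4⟩, ⟨b5, b6⟩, b7, b8, b9⟩ := hS
  replace a10 := allN_spec a10
  replace b7 := allN_spec b7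
  have n4 := Nat.le_of_ble_eq_true a4
  have n3 := Nat.le_of_ble_eq_true b3
  replace a1 := ble_cast a1
  replace a2 := ble_cast a2
  replace a3 := ble_cast a3
  replace a4 := ble_cast a4
  replace a5 := ble_cast a5
  replace a6 := ble_cast a6
  replace a7 := ble_cast a7
  replace a8 := ble_cast a8
  replace a9 := ble_cast a9
  replace b1 := ble_cast b1
  replace b2 := ble_cast b2
  replace b4 := ble_cast b4
  replace b8 := ble_cast b8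
  replace b9 := ble_cast b9
  have vv := sc_vh (np := np) (nm := nm) (e := e2) (g := g0) b1 b2
  have uu : (nu : ℝ) / 2 ^ 24 + e1 / 2 ^ 24 * (2 - 2 * (g0 / 2 ^ 16)) ≤
      (Nat.add (Nat.shiftLeft nu 8) (cshr (Nat.mul e1 (Nat.sub 65536 g0)) 7) : ℕ) / 2 ^ 32 := by
    rw [cast_nadd, cast_shl]
    linarith [sc_g e1 g0]
  obtain ⟨uh, huh⟩ : ∃ uh, uh = Nat.add (Nat.shiftLeft nu 8) (cshr (Nat.mul e1 (Nat.sub 65536 g0)) 7) :=
    ⟨_, rfl⟩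
  obtain ⟨vh, hvh⟩ : ∃ vh, vh = Nat.add (cshr (vh4 np nm u0 u1) 8)
    (cshr (Nat.mul e2 (Nat.sub 65536 g0)) 7) := ⟨_, rfl⟩
  obtain ⟨T, hTe⟩ : ∃ T, T = sq (rh B nH) := ⟨_, rfl⟩
  rw [← huh] at uu
  rw [← hvh] at vv
  rw [← huh, ← hvh, ← hTe] at b9
  rw [← hTe] at b8
  have eT : ((rh B nH : ℝ) / 2 ^ 12) ^ 2 = T / 2 ^ 24 := by rw [hTe, sc_sq]; ring
  clear huh hvh hTe
  simp only [cast_nmul, cast_shl, sc_sq, sc_cu, Nat.cast_one, Nat.cast_ofNat]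
    at a1 a2 a3 a4 a5 a6 a7 a8 a9 b4
  have T0 : (0 : ℝ) < T := by linarith
  have eS : ∀ i, (sS σ nL i : ℝ) = (min (i + 1) nL : ℕ) * σ := fun i => by
    rw [sS, cast_nmul, mn_eq, Nat.add_eq]
  have eL : sS σ nL nL = Nat.mul nL σ := by
    rw [sS, mn_eq, Nat.add_eq, min_eq_right (Nat.le_succ _)]
  have eL' : (sS σ nL nL : ℝ) = nL * σ := by rw [eL, cast_nmul]
  have s0 : ∀ i, (0 : ℝ) < sS σ nL i := fun i => by
    rw [eS]
    have : (0 : ℝ) < (min (i + 1) nL : ℕ) := by exact_mod_cast (by omega)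
    positivity
  have s1 : ∀ i, (sS σ nL i : ℝ) ≤ 2 ^ 25 := fun i => by
    rw [eS]
    have : ((min (i + 1) nL : ℕ) : ℝ) ≤ nL := by exact_mod_cast min_le_right _ _
    nlinarith
  have H0 : (0 : ℝ) < (Nat.mul nL h : ℕ) := by rw [cast_nmul]; positivity
  have hH : ∀ i < nH, (rh B i : ℝ) + 1 ≤ rh B (i + 1) ∧ fld (hI t B i) 1 = 549755813888 ∧
      fld (hI t B i) 5 = 0 ∧ 1 ≤ eta t B u0 u1 g0 g1 i ∧
      (1 ≤ i → (L : ℝ) ^ 2 * 2 ^ 39 ≤ eta t B u0 u1 g0 g1 i * (rh B i : ℝ) ^ 4) := fun i hi => by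
    have := b7 i hi
    simp only [chkH1, band_eq, bor_eq] at this
    obtain ⟨c1, ⟨c2, c3⟩, c4, c5⟩ := this
    refine ⟨?_, Nat.eq_of_beq_eq_true c2, Nat.le_zero.1 (Nat.le_of_ble_eq_true c3),
      Nat.le_of_ble_eq_true c4, fun h1 => ?_⟩
    · have := ble_cast c1
      rwa [cast_nadd, Nat.add_eq (x := i), Nat.cast_one] at this
    · rcases c5 with c5 | c5
      · have := Nat.le_of_ble_eq_true c5
        omega
      · have := ble_cast c5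
        rw [cast_shl, cast_nmul, sc_sq, sc_sq, sc_sq] at this
        linarith
  clear b7
  rw [sTot, cast_nadd, cast_nadd, cast_nadd, cast_nadd, cast_nadd, cast_shl, sumN_eq, sumI_eq,
    Nat.cast_sum, Nat.cast_sum] at b9
  have t1 := sc_T1 T0
  have t2 := Finset.sum_le_sum fun i (_ : i ∈ Finset.range nL) =>
    sc_T2 (L := L) (h := h) (tm := tm) (T := T) (i := i) (D := sD σ nL cH uh vh i) (by linarith) b8
  have t3 := sc_T3 (iw := iw) (D := sD σ nL cH uh vh nL) T0 (s0 nL) H0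
  have t4 := sc_T4 T0 H0
  have t5 := sc_T5 (r := rh B 1) (e := eta t B u0 u1 g0 g1 0) T0 (s0 nL)
    (by exact_mod_cast (hH 0 n3).2.2.2.1) H0
  have t6 := Finset.sum_le_sum fun i (_ : i ∈ Finset.Ico 1 nH) =>
    sc_T6 (t := t) (L := L) (B := B) (u0 := u0) (u1 := u1) (g0 := g0) (g1 := g1) (T := T) (i := i)
      (by linarith)
  rw [← eL] at b9
  rw [← Finset.sum_mul] at t2 t6
  have hD : ∀ i ≤ nL, (sD σ nL cH uh vh i : ℝ) ≤ 2 ^ 72 := fun i hi => by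
    have p1 : (0 : ℝ) ≤ (cdiv 99297776152769955335185104896 T : ℕ) := by positivity
    have p2 : (0 : ℝ) ≤ ∑ i ∈ Finset.range nL,
      ((Nat.mul (sD σ nL cH uh vh i) (sW L h tm i) : ℕ) : ℝ) := by positivity
    have p3 : (0 : ℝ) ≤ (Nat.mul (Nat.add (cshr (Nat.mul (kap (Nat.shiftLeft (sq iw) 8) T)
      (sD σ nL cH uh vh nL)) 40) (sI3 (sS σ nL nL))) (sF2 (Nat.mul nL h)) : ℕ) := by positivity
    have p4 : (0 : ℝ) ≤ (cdiv (Nat.shiftLeft (sE (Nat.mul nL h)) 68)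
      (Nat.mul (Nat.mul nL h) T) : ℕ) := by positivity
    have p5 : (0 : ℝ) ≤ (cshr (Nat.mul (Nat.mul (Nat.mul (kap (sq (rh B 1)) T) 333773)
      (sI3 (sS σ nL nL))) (sG4 (eta t B u0 u1 g0 g1 0) (Nat.mul nL h))) 60 : ℕ) := by positivity
    have p6 : (0 : ℝ) ≤ ∑ i ∈ Finset.Ico 1 nH, ((hT t L B u0 u1 g0 g1 T i : ℕ) : ℝ) := by positivity
    have d0 : (0 : ℝ) ≤ sD σ nL cH uh vh i := by positivity
    rcases hi.lt_or_eq with hi | rfl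
    · have q1 := Finset.single_le_sum (f := fun i =>
        ((Nat.mul (sD σ nL cH uh vh i) (sW L h tm i) : ℕ) : ℝ)) (fun _ _ => by positivity)
        (Finset.mem_range.2 hi)
      have q2 : (1 : ℝ) ≤ sW L h tm i := sc_cshr1 _ _
      have q3 := mul_le_mul_of_nonneg_left q2 d0
      rw [← cast_nmul] at q3
      linarith
    · have q1 := sc_cshr (Nat.mul (kap (Nat.shiftLeft (sq iw) 8) T) (sD σ i cH uh vh i)) 40
      have q2 := mul_le_mul_of_nonneg_right (sc_kap1 (Nat.shiftLeft (sq iw) 8) T) d0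
      have q3 : (1 : ℝ) ≤ sF2 (Nat.mul i h) := sc_cdiv1 _ _
      have q4 := mul_le_mul_of_nonneg_left q3 (Nat.cast_nonneg (α := ℝ) (Nat.add (cshr (Nat.mul
        (kap (Nat.shiftLeft (sq iw) 8) T) (sD σ i cH uh vh i)) 40) (sI3 (sS σ i i))))
      have q5 : (0 : ℝ) ≤ sI3 (sS σ i i) := by positivity
      rw [← cast_nmul, cast_nadd] at q4
      rw [cast_nmul] at q1
      linarith
  have hG := fun i (hi : i ≤ nL) => sc_G1 (s1 i) (a10 i (by rw [Nat.add_eq]; omega))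
  choose! uu' a v D0 hc using fun i (hi : i ≤ nL) => sc_D (hG i hi).1 (hD i hi)
  clear a10 hD
  refine scell_real (w0 := iw / 256) (nL := nL) (nH := nH) (t := fun i => (i : ℝ) * h / 2 ^ 12)
    (s := fun i => sS σ nL i / 2 ^ 24) (cs := fun i => sCs σ nL i / 2 ^ 32)
    (c := fun i => sC cH i / 2 ^ 24) (uu := uu') (a := a) (v := v) (D0 := D0)
    (D := fun i => sD σ nL cH uh vh i / 2 ^ 32) (ρ := fun i => rh B i / 2 ^ 12)
    (η := fun i => eta t B u0 u1 g0 g1 i / 2 ^ 32)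
    (W := fun i => hW (sq (rh B i)) (sq (rh B (i + 1))) T / 2 ^ 32) (e := fun i => dec (hI t B i))
    (by positivity) (by positivity) ?_ (sc_P1 b5) (sc_P2 b6) (by positivity) (by positivity)
    (by positivity) uu vv n4 n3 (by simp) (fun i _ => ?_) (fun i hi => ?_) ?_ (fun i hi => ?_)
    (by simp [sc_rh0]) (fun i hi => ?_) ?_ (fun i hi => ?_) (fun i h1 hi => ?_) (fun i h1 hi => ?_)
    (fun i hi => ?_) ?_
  · simp only [eL']
    linarith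
  · push_cast
    linarith
  · simp only [eS, min_eq_left (Nat.succ_le_of_lt hi)]
    have := mul_le_mul_of_nonneg_left a8 (show (0 : ℝ) ≤ ((i + 1 : ℕ) : ℝ) ^ 3 by positivity)
    linarith
  · simp only [eL']
    have := mul_le_mul_of_nonneg_left a8 (show (0 : ℝ) ≤ (nL : ℝ) ^ 3 by positivity)
    linarith
  · obtain ⟨c1, c2, c3⟩ := hG i hi
    have := s0 i
    have := s1 i
    exact ⟨by positivity, by linarith, by positivity, c2, c3, hc i hi⟩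
  · linarith [(hH i hi).1]
  · simp only [eT]
    linarith
  · have : (1 : ℝ) ≤ eta t B u0 u1 g0 g1 i := by exact_mod_cast (hH i hi).2.2.2.1
    positivity
  · linarith [(hH i hi).2.2.2.2 h1]
  · have r0 : (0 : ℝ) < sq (rh B i) := by
      obtain ⟨j, rfl⟩ : ∃ j, i = j + 1 := ⟨i - 1, by omega⟩
      have := (hH j (by omega)).1
      have : (0 : ℝ) ≤ rh B j := by positivity
      have : (0 : ℝ) < rh B (j + 1) := by linarith
      rw [sc_sq]; positivity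
    have e : ∀ j, ((rh B j : ℝ) / 2 ^ 12) ^ 2 = sq (rh B j) / 2 ^ 24 := fun j => by
      rw [sc_sq]; ring
    simp only [eT]
    simp only [e]
    exact sc_W r0 T0
  · obtain ⟨-, c2, c3, c4, -⟩ := hH i hi
    refine ⟨?_, ?_, ?_, ?_, ?_, sc_eta c4⟩
    · simp only [hI, force_eq]
      exact ent_valid ht _
    · simp only [dec, mkE, c2, bv]
      norm_num
    · simp only [dec, mkE, c3]
      norm_num
    · simp only [dec, mkE]
      positivity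
    · simp only [dec, mkE]
      positivity
  · simp only [eT]
    rw [cast_nmul nL h] at t3 t4 t5
    linarith

theorem chkTS_sound {t : BT} (ht : t.All ChunkOK) {Cn L h σ nL iw tm cH : ℕ}
    (hG : chkSG L h σ nL iw tm cH = true) (T : KT) :
    ∀ {u0 u1 g0 g1 : ℕ}, chkTS t Cn L h σ nL iw tm cH T u0 u1 g0 g1 = true →
      CovSN Cn L u0 u1 g0 g1 := by
  induction T with
  | leaf d =>
    intro u0 u1 g0 g1 h1
    have h2 : chkS t Cn L h σ nL iw tm cH u0 u1 g0 g1 d = true := h1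
    simp only [chkS, force_eq] at h2
    exact sc_S2 ht hG h2
  | sL c a b _ _ =>
    intro u0 u1 g0 g1 h1
    exact absurd h1 Bool.false_ne_true
  | sU c a b iha ihb =>
    intro u0 u1 g0 g1 h1
    have h2 : band (chkTS t Cn L h σ nL iw tm cH a u0 c g0 g1)
      (chkTS t Cn L h σ nL iw tm cH b c u1 g0 g1) = true := h1
    rw [band_eq] at h2
    exact CovS.splitU (iha h2.1) (ihb h2.2)
  | sG c a b iha ihb =>
    intro u0 u1 g0 g1 h1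
    have h2 : band (chkTS t Cn L h σ nL iw tm cH a u0 u1 g0 c)
      (chkTS t Cn L h σ nL iw tm cH b u0 u1 c g1) = true := h1
    rw [band_eq] at h2
    exact CovS.splitG (iha h2.1) (ihb h2.2)

end Pool.Agent.Lib.MP_33650d_pr
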