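import Pool.Agent.Lib.MP_33650d_pr.MChk
import Pool.Agent.Lib.MP_33650d_pr.SChk

namespace Pool.Agent.Lib.MP_33650d_pr

theorem cvML {Cn c0 c1 l0 l l1 u0 u1 g0 g1 : ℕ} (h1 : CovN Cn c0 c1 l0 l u0 u1 g0 g1)
    (h2 : CovN Cn c0 c1 l l1 u0 u1 g0 g1) : CovN Cn c0 c1 l0 l1 u0 u1 g0 g1 := h1.splitL h2

theorem cvMU {Cn c0 c1 l0 l1 u0 u u1 g0 g1 : ℕ} (h1 : CovN Cn c0 c1 l0 l1 u0 u g0 g1)
    (h2 : CovN Cn c0 c1 l0 l1 u u1 g0 g1) : CovN Cn c0 c1 l0 l1 u0 u1 g0 g1 := h1.splitU h2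

theorem cvMG {Cn c0 c1 l0 l1 u0 u1 g0 g g1 : ℕ} (h1 : CovN Cn c0 c1 l0 l1 u0 u1 g0 g)
    (h2 : CovN Cn c0 c1 l0 l1 u0 u1 g g1) : CovN Cn c0 c1 l0 l1 u0 u1 g0 g1 := h1.splitG h2

theorem cvSU {Cn L u0 u u1 g0 g1 : ℕ} (h1 : CovSN Cn L u0 u g0 g1)
    (h2 : CovSN Cn L u u1 g0 g1) : CovSN Cn L u0 u1 g0 g1 := CovS.splitU h1 h2

theorem cvSG {Cn L u0 u1 g0 g g1 : ℕ} (h1 : CovSN Cn L u0 u1 g0 g)
    (h2 : CovSN Cn L u0 u1 g g1) : CovSN Cn L u0 u1 g0 g1 := CovS.splitG h1 h2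

def SlabN (Cn l0 l1 : ℕ) : Prop := Slab (Cn / 2 ^ 30) (l0 / 2 ^ 20) (l1 / 2 ^ 20)

theorem SlabN.tr {Cn l0 l l1 : ℕ} (h1 : SlabN Cn l0 l) (h2 : SlabN Cn l l1) : SlabN Cn l0 l1 :=
  Slab.trans h1 h2

theorem slab_of {Cn c0 c1 l0 l1 : ℕ} (h0 : 1 ≤ c0) (h1 : 2 ^ 38 ≤ c0 * c1)
    (h : CovN Cn c0 c1 l0 l1 0 65536 0 65536) : SlabN Cn l0 l1 := by
  have h0' : (1 : ℝ) ≤ c0 := by exact_mod_cast h0
  have h1' : (2 : ℝ) ^ 38 ≤ c0 * c1 := by exact_mod_cast h1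
  unfold CovN at h
  rw [show ((0 : ℕ) : ℝ) / 2 ^ 16 = 0 by norm_num,
    show ((65536 : ℕ) : ℝ) / 2 ^ 16 = 1 by norm_num] at h
  exact h.slab (by positivity) (by linarith)

theorem upper_ofN {Cn L l1 : ℕ} (h1 : CovSN Cn L 0 65536 0 65536) (h2 : SlabN Cn L l1)
    (h3 : 271 * 2 ^ 50 ≤ 500 * (Cn * l1)) : Upper (Cn / 2 ^ 30) := by
  have h3' : (271 : ℝ) * 2 ^ 50 ≤ 500 * (Cn * l1) := by exact_mod_cast h3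
  unfold CovSN at h1
  rw [show ((0 : ℕ) : ℝ) / 2 ^ 16 = 0 by norm_num,
    show ((65536 : ℕ) : ℝ) / 2 ^ 16 = 1 by norm_num] at h1
  exact upper_of h1 h2 (by positivity) (by linarith)

theorem Upper.mono {C D : ℝ} (h : Upper C) (hCD : C ≤ D) : Upper D := by
  intro ν bp bm g hS x
  obtain ⟨b1, b2, b3, b4, b5⟩ := hS.basic
  exact (h ν bp bm g hS x).trans (mul_le_mul_of_nonneg_right hCD b3.le)

end Pool.Agent.Lib.MP_33650d_pr
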