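import Mathlib

/-!
Esseen's example: every admissible Berry-Esseen constant is at least
`(3 + sqrt 10) / (6 sqrt (2 pi))`.
-/

open MeasureTheory ProbabilityTheory Filter Set Topology

namespace Pool.Agent.Lib.MP_33650d_pr

/-- `E exp (-i t X)` for the centred Bernoulli variable `X` (value `1 - p` with probability `p`,
value `-p` with probability `1 - p`). -/
noncomputable def lowA (p t : ℝ) : ℂ :=
  ((1 - p : ℝ) : ℂ) * Complex.exp (((p * t : ℝ) : ℂ) * Complex.I)
    + ((p : ℝ) : ℂ) * Complex.exp (((-((1 - p) * t) : ℝ) : ℂ) * Complex.I)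

theorem lowA_re (p t : ℝ) :
    (lowA p t).re = (1 - p) * Real.cos (p * t) + p * Real.cos ((1 - p) * t) := by
  unfold lowA
  rw [Complex.add_re, Complex.re_ofReal_mul, Complex.re_ofReal_mul, Complex.exp_ofReal_mul_I_re,
    Complex.exp_ofReal_mul_I_re, Real.cos_neg]

theorem lowA_im (p t : ℝ) :
    (lowA p t).im = (1 - p) * Real.sin (p * t) - p * Real.sin ((1 - p) * t) := by
  unfold lowA
  rw [Complex.add_im, Complex.im_ofReal_mul, Complex.im_ofReal_mul, Complex.exp_ofReal_mul_I_im,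
    Complex.exp_ofReal_mul_I_im, Real.sin_neg]
  ring

theorem lowA_normSq (p t : ℝ) :
    ‖lowA p t‖ ^ 2 = 1 - 2 * (p * (1 - p)) * (1 - Real.cos t) := by
  rw [Complex.sq_norm, Complex.normSq_apply, lowA_re, lowA_im]
  have h : Real.cos t = Real.cos (p * t) * Real.cos ((1 - p) * t)
      - Real.sin (p * t) * Real.sin ((1 - p) * t) := by
    rw [← Real.cos_add]; congr 1; ring
  have h1 := Real.sin_sq_add_cos_sq (p * t)
  have h2 := Real.sin_sq_add_cos_sq ((1 - p) * t)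
  rw [h]
  linear_combination (1 - p) ^ 2 * h1 + p ^ 2 * h2

theorem lowA_norm_le {p t : ℝ} (hp0 : 0 ≤ p) (hp1 : p ≤ 1) (ht : |t| ≤ Real.pi) :
    ‖lowA p t‖ ≤ Real.exp (-(2 * (p * (1 - p)) * t ^ 2 / Real.pi ^ 2)) := by
  have hq : 0 ≤ p * (1 - p) := mul_nonneg hp0 (by linarith)
  have hc := Real.cos_le_one_sub_mul_cos_sq ht
  have h1 : ‖lowA p t‖ ^ 2
      ≤ Real.exp (-(2 * (p * (1 - p)) * t ^ 2 / Real.pi ^ 2)) ^ 2 := by
    rw [lowA_normSq, ← Real.exp_nat_mul]
    refine le_trans ?_ (Real.add_one_le_exp _)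
    have : 2 * (p * (1 - p)) * (2 / Real.pi ^ 2 * t ^ 2)
        ≤ 2 * (p * (1 - p)) * (1 - Real.cos t) :=
      mul_le_mul_of_nonneg_left (by linarith) (by positivity)
    have e : 2 * (p * (1 - p)) * (2 / Real.pi ^ 2 * t ^ 2)
        = 2 * (2 * (p * (1 - p)) * t ^ 2 / Real.pi ^ 2) := by ring
    push_cast
    linarith
  exact (pow_le_pow_iff_left₀ (norm_nonneg _) (Real.exp_pos _).le two_ne_zero).1 h1

theorem lowA_norm_le_one {p : ℝ} (t : ℝ) (hp0 : 0 ≤ p) (hp1 : p ≤ 1) : ‖lowA p t‖ ≤ 1 := by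
  have hq : 0 ≤ p * (1 - p) := mul_nonneg hp0 (by linarith)
  have h1 : ‖lowA p t‖ ^ 2 ≤ 1 ^ 2 := by
    rw [lowA_normSq]
    have := Real.cos_le_one t
    nlinarith
  exact (pow_le_pow_iff_left₀ (norm_nonneg _) zero_le_one two_ne_zero).1 h1

theorem lowA_im_le {p : ℝ} (t : ℝ) (hp0 : 0 ≤ p) (hp1 : p ≤ 1) :
    |(lowA p t).im| ≤ p * (1 - p) * |t| ^ 3 / 6 := by
  have hq : 0 ≤ 1 - p := by linarith
  have h1 := Real.abs_sub_sin_le (p * t)
  have h2 := Real.abs_sub_sin_le ((1 - p) * t)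
  rw [abs_mul, abs_of_nonneg hp0] at h1
  rw [abs_mul, abs_of_nonneg hq] at h2
  have e : (lowA p t).im = p * ((1 - p) * t - Real.sin ((1 - p) * t))
      - (1 - p) * (p * t - Real.sin (p * t)) := by rw [lowA_im]; ring
  rw [e]
  refine le_trans (abs_sub _ _) ?_
  rw [abs_mul, abs_mul, abs_of_nonneg hp0, abs_of_nonneg hq]
  have a1 := mul_le_mul_of_nonneg_left h2 hp0
  have a2 := mul_le_mul_of_nonneg_left h1 hq
  have a3 : 0 ≤ p * (1 - p) * |t| ^ 3 * (p * (1 - p)) := by positivity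
  nlinarith

theorem lowA_re_approx {p t : ℝ} (hp0 : 0 ≤ p) (hp1 : p ≤ 1) (ht : |t| ≤ 1) :
    |(lowA p t).re - (1 - p * (1 - p) * t ^ 2 / 2)| ≤ p * (1 - p) * |t| ^ 4 := by
  have hq : 0 ≤ 1 - p := by linarith
  have b1 : |p * t| ≤ 1 := by
    rw [abs_mul, abs_of_nonneg hp0]; exact mul_le_one₀ hp1 (abs_nonneg _) ht
  have b2 : |(1 - p) * t| ≤ 1 := by
    rw [abs_mul, abs_of_nonneg hq]; exact mul_le_one₀ (by linarith) (abs_nonneg _) ht
  have h1 := Real.cos_bound b1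
  have h2 := Real.cos_bound b2
  rw [abs_mul p t, abs_of_nonneg hp0] at h1
  rw [abs_mul (1 - p) t, abs_of_nonneg hq] at h2
  have e : (lowA p t).re - (1 - p * (1 - p) * t ^ 2 / 2)
      = (1 - p) * (Real.cos (p * t) - (1 - (p * t) ^ 2 / 2))
        + p * (Real.cos ((1 - p) * t) - (1 - ((1 - p) * t) ^ 2 / 2)) := by rw [lowA_re]; ring
  rw [e]
  refine le_trans (abs_add_le _ _) ?_
  rw [abs_mul, abs_mul, abs_of_nonneg hp0, abs_of_nonneg hq]
  have a1 := mul_le_mul_of_nonneg_left h2 hp0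
  have a2 := mul_le_mul_of_nonneg_left h1 hq
  have c1 : p ^ 3 ≤ 1 := pow_le_one₀ hp0 hp1
  have c2 : (1 - p) ^ 3 ≤ 1 := pow_le_one₀ hq (by linarith)
  have a3 : 0 ≤ p * (1 - p) * |t| ^ 4 := by positivity
  have d1 := mul_le_mul_of_nonneg_left c1 a3
  have d2 := mul_le_mul_of_nonneg_left c2 a3
  nlinarith

theorem lowA_im_approx {p t : ℝ} (hp0 : 0 ≤ p) (hp1 : p ≤ 1) (ht : |t| ≤ 1) :
    |(lowA p t).im - p * (1 - p) * (1 - 2 * p) * t ^ 3 / 6| ≤ p * (1 - p) * |t| ^ 5 := by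
  have hq : 0 ≤ 1 - p := by linarith
  have b1 : |p * t| ≤ 1 := by
    rw [abs_mul, abs_of_nonneg hp0]; exact mul_le_one₀ hp1 (abs_nonneg _) ht
  have b2 : |(1 - p) * t| ≤ 1 := by
    rw [abs_mul, abs_of_nonneg hq]; exact mul_le_one₀ (by linarith) (abs_nonneg _) ht
  have h1 := Real.sin_bound b1
  have h2 := Real.sin_bound b2
  rw [abs_mul p t, abs_of_nonneg hp0] at h1
  rw [abs_mul (1 - p) t, abs_of_nonneg hq] at h2
  have e : (lowA p t).im - p * (1 - p) * (1 - 2 * p) * t ^ 3 / 6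
      = (1 - p) * (Real.sin (p * t) - (p * t - (p * t) ^ 3 / 6))
        - p * (Real.sin ((1 - p) * t) - ((1 - p) * t - ((1 - p) * t) ^ 3 / 6)) := by
    rw [lowA_im]; ring
  rw [e]
  refine le_trans (abs_sub _ _) ?_
  rw [abs_mul, abs_mul, abs_of_nonneg hp0, abs_of_nonneg hq]
  have a1 := mul_le_mul_of_nonneg_left h2 hp0
  have a2 := mul_le_mul_of_nonneg_left h1 hq
  have c1 : p ^ 4 ≤ 1 := pow_le_one₀ hp0 hp1
  have c2 : (1 - p) ^ 4 ≤ 1 := pow_le_one₀ hq (by linarith)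
  have a3 : 0 ≤ p * (1 - p) * |t| ^ 5 := by positivity
  have d1 := mul_le_mul_of_nonneg_left c1 a3
  have d2 := mul_le_mul_of_nonneg_left c2 a3
  nlinarith

theorem low_pow_sub {a b : ℂ} {r : ℝ} (ha : ‖a‖ ≤ r) (hb : ‖b‖ ≤ r) (n : ℕ) :
    ‖a ^ (n + 1) - b ^ (n + 1)‖ ≤ (n + 1) * r ^ n * ‖a - b‖ := by
  have hr : 0 ≤ r := le_trans (norm_nonneg _) ha
  induction n with
  | zero => simp
  | succ n ih =>
    have e : a ^ (n + 1 + 1) - b ^ (n + 1 + 1)
        = a * (a ^ (n + 1) - b ^ (n + 1)) + b ^ (n + 1) * (a - b) := by ring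
    rw [e]
    refine le_trans (norm_add_le _ _) ?_
    rw [norm_mul, norm_mul, norm_pow]
    have h1 : ‖a‖ * ‖a ^ (n + 1) - b ^ (n + 1)‖ ≤ r * ((n + 1) * r ^ n * ‖a - b‖) :=
      mul_le_mul ha ih (norm_nonneg _) hr
    have h2 : ‖b‖ ^ (n + 1) * ‖a - b‖ ≤ r ^ (n + 1) * ‖a - b‖ :=
      mul_le_mul_of_nonneg_right (pow_le_pow_left₀ (norm_nonneg _) hb _) (norm_nonneg _)
    push_cast
    calc _ ≤ r * ((n + 1) * r ^ n * ‖a - b‖) + r ^ (n + 1) * ‖a - b‖ := add_le_add h1 h2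
      _ = _ := by ring

theorem low_pow_sub_one {a b : ℂ} (ha : ‖a‖ ≤ 1) (hb : ‖b‖ ≤ 1) (n : ℕ) :
    ‖a ^ n - b ^ n‖ ≤ n * ‖a - b‖ := by
  cases n with
  | zero => simp
  | succ n => simpa using low_pow_sub ha hb n

theorem low_second {a b : ℂ} (ha : ‖a‖ ≤ 1) (hb : ‖b‖ ≤ 1) (n : ℕ) :
    ‖a * (a ^ n - b ^ n) - n * (a - b) * a ^ n‖ ≤ (n * ‖a - b‖) ^ 2 := by
  induction n with
  | zero => simp
  | succ n ih =>
    have e : a * (a ^ (n + 1) - b ^ (n + 1)) - ((n + 1 : ℕ) : ℂ) * (a - b) * a ^ (n + 1)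
        = a * ((a * (a ^ n - b ^ n) - n * (a - b) * a ^ n) - (a - b) * (a ^ n - b ^ n)) := by
      push_cast; ring
    rw [e, norm_mul]
    have h1 := low_pow_sub_one ha hb n
    have h2 : ‖(a * (a ^ n - b ^ n) - n * (a - b) * a ^ n) - (a - b) * (a ^ n - b ^ n)‖
        ≤ (n * ‖a - b‖) ^ 2 + ‖a - b‖ * (n * ‖a - b‖) := by
      refine le_trans (norm_sub_le _ _) (add_le_add ih ?_)
      rw [norm_mul]
      exact mul_le_mul_of_nonneg_left h1 (norm_nonneg _)
    have h3 := mul_le_mul ha h2 (norm_nonneg _) zero_le_one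
    refine le_trans h3 ?_
    push_cast
    have : 0 ≤ ‖a - b‖ ^ 2 := by positivity
    have hn : (0 : ℝ) ≤ n := Nat.cast_nonneg n
    nlinarith [mul_nonneg hn this]

theorem low_norm_sub_conj (z : ℂ) : ‖z - (starRingEnd ℂ) z‖ = 2 * |z.im| := by
  rw [Complex.sub_conj, norm_mul, Complex.norm_I, Complex.norm_real, Real.norm_eq_abs, abs_mul]
  simp

theorem low_im_pow_le (a : ℂ) (n : ℕ) :
    |(a ^ (n + 1)).im| ≤ (n + 1) * ‖a‖ ^ n * |a.im| := by
  have h := low_pow_sub (a := a) (b := (starRingEnd ℂ) a) le_rfl (by simp) n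
  rw [← map_pow, low_norm_sub_conj, low_norm_sub_conj] at h
  linarith

theorem low_im_pow_second {a : ℂ} (ha : ‖a‖ ≤ 1) (n : ℕ) :
    ‖a * ((a ^ n).im : ℂ) - ((n * a.im : ℝ) : ℂ) * a ^ n‖ ≤ 2 * (n * |a.im|) ^ 2 := by
  have h := low_second (a := a) (b := (starRingEnd ℂ) a) ha (by simpa using ha) n
  rw [← map_pow, low_norm_sub_conj, Complex.sub_conj, Complex.sub_conj] at h
  have e : a * (((2 * (a ^ n).im : ℝ) : ℂ) * Complex.I)
      - n * (((2 * a.im : ℝ) : ℂ) * Complex.I) * a ^ n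
      = (2 * Complex.I) * (a * ((a ^ n).im : ℂ) - ((n * a.im : ℝ) : ℂ) * a ^ n) := by
    push_cast; ring
  rw [e, norm_mul] at h
  simp only [norm_mul, Complex.norm_I, Complex.norm_ofNat, mul_one] at h
  nlinarith

theorem low_sq {E : Type*} [SeminormedAddCommGroup E] {f : ℕ → E} {L : E} {g : ℕ → ℝ}
    (hg : Tendsto g atTop (𝓝 0)) (h : ∀ᶠ n in atTop, ‖f n - L‖ ≤ g n) :
    Tendsto f atTop (𝓝 L) :=
  tendsto_iff_norm_sub_tendsto_zero.2
    (squeeze_zero' (Eventually.of_forall fun _ => norm_nonneg _) h hg)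

/-- The step `1 / sqrt (n p (1 - p))`. -/
noncomputable def lowH (p : ℝ) (n : ℕ) : ℝ := (Real.sqrt (n * (p * (1 - p))))⁻¹

theorem lowH_nonneg (p : ℝ) (n : ℕ) : 0 ≤ lowH p n := by unfold lowH; positivity

theorem lowH_pos {p : ℝ} (hp0 : 0 < p) (hp1 : p < 1) {n : ℕ} (hn : 0 < n) : 0 < lowH p n := by
  have : 0 < 1 - p := by linarith
  unfold lowH; positivity

theorem lowH_sq {p : ℝ} (hp0 : 0 < p) (hp1 : p < 1) {n : ℕ} (hn : 0 < n) :
    n * (p * (1 - p)) * lowH p n ^ 2 = 1 := by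
  have h1 : 0 < 1 - p := by linarith
  have h2 : (0 : ℝ) < n * (p * (1 - p)) := by positivity
  unfold lowH
  rw [inv_pow, Real.sq_sqrt h2.le, mul_inv_cancel₀ h2.ne']

theorem lowH_tendsto {p : ℝ} (hp0 : 0 < p) (hp1 : p < 1) : Tendsto (lowH p) atTop (𝓝 0) := by
  have h1 : 0 < p * (1 - p) := mul_pos hp0 (by linarith)
  exact tendsto_inv_atTop_zero.comp
    (Real.tendsto_sqrt_atTop.comp (tendsto_natCast_atTop_atTop.atTop_mul_const h1))

theorem low_ev {p : ℝ} (hp0 : 0 < p) (hp1 : p < 1) (u : ℝ) :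
    ∀ᶠ n in atTop, 0 < n ∧ |u * lowH p n| ≤ 1 := by
  have h : Tendsto (fun n => |u * lowH p n|) atTop (𝓝 0) := by
    simpa using ((lowH_tendsto hp0 hp1).const_mul u).abs
  exact (eventually_gt_atTop 0).and (h.eventually (ge_mem_nhds zero_lt_one))

theorem low_nim_le {p : ℝ} (hp0 : 0 < p) (hp1 : p < 1) {n : ℕ} (hn : 0 < n) (u : ℝ) :
    n * |(lowA p (u * lowH p n)).im| ≤ |u| ^ 3 * lowH p n / 6 := by
  have h := lowA_im_le (u * lowH p n) hp0.le hp1.le
  have hs := lowH_sq hp0 hp1 hn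
  rw [abs_mul, abs_of_nonneg (lowH_nonneg p n)] at h
  have hn' : (0 : ℝ) ≤ n := Nat.cast_nonneg n
  calc _ ≤ n * (p * (1 - p) * (|u| * lowH p n) ^ 3 / 6) := mul_le_mul_of_nonneg_left h hn'
    _ = (n * (p * (1 - p)) * lowH p n ^ 2) * (|u| ^ 3 * lowH p n / 6) := by ring
    _ = _ := by rw [hs, one_mul]

theorem low_lim_g {p : ℝ} (hp0 : 0 < p) (hp1 : p < 1) (u : ℝ) :
    Tendsto (fun n : ℕ => (n : ℂ) * (lowA p (u * lowH p n) - 1)) atTop
      (𝓝 ((-(u ^ 2 / 2) : ℝ) : ℂ)) := by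
  have hg : Tendsto (fun n => |u| ^ 4 * lowH p n ^ 2 + |u| ^ 3 * lowH p n / 6) atTop (𝓝 0) := by
    have h := lowH_tendsto hp0 hp1
    simpa using ((h.pow 2).const_mul (|u| ^ 4)).add ((h.const_mul (|u| ^ 3)).div_const 6)
  refine low_sq hg ?_
  filter_upwards [low_ev hp0 hp1 u] with n hn
  refine le_trans (Complex.norm_le_abs_re_add_abs_im _) (add_le_add ?_ ?_)
  · have h := lowA_re_approx hp0.le hp1.le hn.2
    have hs := lowH_sq hp0 hp1 hn.1
    have e : ((n : ℂ) * (lowA p (u * lowH p n) - 1) - ((-(u ^ 2 / 2) : ℝ) : ℂ)).re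
        = n * ((lowA p (u * lowH p n)).re - (1 - p * (1 - p) * (u * lowH p n) ^ 2 / 2)) := by
      rw [Complex.sub_re, Complex.ofReal_re, ← Complex.ofReal_natCast, Complex.re_ofReal_mul,
        Complex.sub_re, Complex.one_re]
      linear_combination (-(u ^ 2 / 2)) * hs
    rw [e, abs_mul, Nat.abs_cast]
    rw [abs_mul u, abs_of_nonneg (lowH_nonneg p n)] at h
    calc _ ≤ n * (p * (1 - p) * (|u| * lowH p n) ^ 4) :=
          mul_le_mul_of_nonneg_left h (Nat.cast_nonneg n)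
      _ = (n * (p * (1 - p)) * lowH p n ^ 2) * (|u| ^ 4 * lowH p n ^ 2) := by ring
      _ = _ := by rw [hs, one_mul]
  · have e : ((n : ℂ) * (lowA p (u * lowH p n) - 1) - ((-(u ^ 2 / 2) : ℝ) : ℂ)).im
        = n * (lowA p (u * lowH p n)).im := by
      rw [Complex.sub_im, Complex.ofReal_im, ← Complex.ofReal_natCast, Complex.im_ofReal_mul,
        Complex.sub_im, Complex.one_im]
      ring
    rw [e, abs_mul, Nat.abs_cast]
    exact low_nim_le hp0 hp1 hn.1 u

theorem low_lim_pow {p : ℝ} (hp0 : 0 < p) (hp1 : p < 1) (u : ℝ) :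
    Tendsto (fun n : ℕ => lowA p (u * lowH p n) ^ n) atTop
      (𝓝 ((Real.exp (-(u ^ 2 / 2)) : ℝ) : ℂ)) := by
  have h := Complex.tendsto_one_add_pow_exp_of_tendsto (low_lim_g hp0 hp1 u)
  rw [Complex.ofReal_exp]
  simpa using h

theorem low_lim_a {p : ℝ} (hp0 : 0 < p) (hp1 : p < 1) (u : ℝ) :
    Tendsto (fun n : ℕ => lowA p (u * lowH p n)) atTop (𝓝 1) := by
  have hc : Continuous (lowA p) := by unfold lowA; fun_prop
  have h0 : lowA p 0 = 1 := by unfold lowA; simp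
  have h : Tendsto (fun n => u * lowH p n) atTop (𝓝 0) := by
    simpa using (lowH_tendsto hp0 hp1).const_mul u
  rw [← h0]
  exact (hc.tendsto 0).comp h

theorem low_lim_nim {p : ℝ} (hp0 : 0 < p) (hp1 : p < 1) (u : ℝ) :
    Tendsto (fun n : ℕ => n * (lowA p (u * lowH p n)).im / lowH p n) atTop
      (𝓝 ((1 - 2 * p) * u ^ 3 / 6)) := by
  have hg : Tendsto (fun n => |u| ^ 5 * lowH p n ^ 2) atTop (𝓝 0) := by
    simpa using ((lowH_tendsto hp0 hp1).pow 2).const_mul (|u| ^ 5)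
  refine low_sq hg ?_
  filter_upwards [low_ev hp0 hp1 u] with n hn
  have h := lowA_im_approx hp0.le hp1.le hn.2
  have hs := lowH_sq hp0 hp1 hn.1
  have hh := lowH_pos hp0 hp1 hn.1
  have e : n * (lowA p (u * lowH p n)).im / lowH p n - (1 - 2 * p) * u ^ 3 / 6
      = n / lowH p n * ((lowA p (u * lowH p n)).im
        - p * (1 - p) * (1 - 2 * p) * (u * lowH p n) ^ 3 / 6) := by
    field_simp
    linear_combination ((1 - 2 * p) * u ^ 3 * lowH p n) * hs
  rw [Real.norm_eq_abs, e, abs_mul, abs_of_nonneg (by positivity : 0 ≤ n / lowH p n)]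
  rw [abs_mul u, abs_of_nonneg (lowH_nonneg p n)] at h
  calc _ ≤ n / lowH p n * (p * (1 - p) * (|u| * lowH p n) ^ 5) :=
        mul_le_mul_of_nonneg_left h (by positivity)
    _ = (n * (p * (1 - p)) * lowH p n ^ 2) * (|u| ^ 5 * lowH p n ^ 2) := by field_simp
    _ = _ := by rw [hs, one_mul]

theorem low_lim_im {p : ℝ} (hp0 : 0 < p) (hp1 : p < 1) (u : ℝ) :
    Tendsto (fun n : ℕ => (lowA p (u * lowH p n) ^ n).im / lowH p n) atTop
      (𝓝 ((1 - 2 * p) * u ^ 3 / 6 * Real.exp (-(u ^ 2 / 2)))) := by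
  have h1 : Tendsto (fun n : ℕ => ((n * (lowA p (u * lowH p n)).im / lowH p n : ℝ) : ℂ)
      * lowA p (u * lowH p n) ^ n) atTop
      (𝓝 ((((1 - 2 * p) * u ^ 3 / 6 : ℝ) : ℂ) * ((Real.exp (-(u ^ 2 / 2)) : ℝ) : ℂ))) :=
    ((Complex.continuous_ofReal.tendsto _).comp (low_lim_nim hp0 hp1 u)).mul
      (low_lim_pow hp0 hp1 u)
  have h2 : Tendsto (fun n : ℕ => lowA p (u * lowH p n)
      * (((lowA p (u * lowH p n) ^ n).im / lowH p n : ℝ) : ℂ)
      - ((n * (lowA p (u * lowH p n)).im / lowH p n : ℝ) : ℂ) * lowA p (u * lowH p n) ^ n)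
      atTop (𝓝 0) := by
    have hg : Tendsto (fun n => |u| ^ 6 * lowH p n / 18) atTop (𝓝 0) := by
      simpa using ((lowH_tendsto hp0 hp1).const_mul (|u| ^ 6)).div_const 18
    refine low_sq hg ?_
    filter_upwards [eventually_gt_atTop 0] with n hn
    have hh := lowH_pos hp0 hp1 hn
    have h := low_im_pow_second (lowA_norm_le_one (u * lowH p n) hp0.le hp1.le) n
    have h3 := low_nim_le hp0 hp1 hn u
    have e : lowA p (u * lowH p n)
      * (((lowA p (u * lowH p n) ^ n).im / lowH p n : ℝ) : ℂ)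
      - ((n * (lowA p (u * lowH p n)).im / lowH p n : ℝ) : ℂ) * lowA p (u * lowH p n) ^ n - 0
      = (lowA p (u * lowH p n) * ((lowA p (u * lowH p n) ^ n).im : ℂ)
        - ((n * (lowA p (u * lowH p n)).im : ℝ) : ℂ) * lowA p (u * lowH p n) ^ n)
          / (lowH p n : ℂ) := by
      push_cast; ring
    rw [e, norm_div, Complex.norm_real, Real.norm_eq_abs, abs_of_pos hh, div_le_iff₀ hh]
    refine le_trans h ?_
    have h4 : (n * |(lowA p (u * lowH p n)).im|) ^ 2 ≤ (|u| ^ 3 * lowH p n / 6) ^ 2 :=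
      pow_le_pow_left₀ (by positivity) h3 2
    nlinarith
  have h3 := h2.add h1
  simp only [sub_add_cancel, zero_add] at h3
  have h4 := h3.div (low_lim_a hp0 hp1 u) one_ne_zero
  have h5 : Tendsto (fun n : ℕ => (((lowA p (u * lowH p n) ^ n).im / lowH p n : ℝ) : ℂ)) atTop
      (𝓝 ((((1 - 2 * p) * u ^ 3 / 6 : ℝ) : ℂ) * ((Real.exp (-(u ^ 2 / 2)) : ℝ) : ℂ) / 1)) := by
    refine h4.congr' ?_
    filter_upwards [(low_lim_a hp0 hp1 u).eventually_ne one_ne_zero] with n hn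
    simp only [Pi.div_apply]
    field_simp
  have h6 := (Complex.continuous_re.tendsto _).comp h5
  rw [div_one, ← Complex.ofReal_mul, Complex.ofReal_re] at h6
  exact h6.congr fun n => by simp only [Function.comp, Complex.ofReal_re]

theorem low_lim_cot {p : ℝ} (hp0 : 0 < p) (hp1 : p < 1) {u : ℝ} (hu : 0 < u) :
    Tendsto (fun n : ℕ => lowH p n *
      (Real.cos (u * lowH p n / 2) / Real.sin (u * lowH p n / 2))) atTop (𝓝 (2 / u)) := by
  have h0 : Tendsto (fun n => u * lowH p n / 2) atTop (𝓝 0) := by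
    simpa using ((lowH_tendsto hp0 hp1).const_mul u).div_const 2
  have h1 : Tendsto (fun n => Real.cos (u * lowH p n / 2)) atTop (𝓝 1) := by
    have h := (Real.continuous_cos.tendsto 0).comp h0
    rw [Real.cos_zero] at h
    exact h
  have h2 : Tendsto (fun n => Real.sin (u * lowH p n / 2) / lowH p n) atTop (𝓝 (u / 2)) := by
    have hg : Tendsto (fun n => u ^ 3 * lowH p n ^ 2 / 48) atTop (𝓝 0) := by
      simpa using (((lowH_tendsto hp0 hp1).pow 2).const_mul (u ^ 3)).div_const 48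
    refine low_sq hg ?_
    filter_upwards [eventually_gt_atTop 0] with n hn
    have hh := lowH_pos hp0 hp1 hn
    have h := Real.abs_sub_sin_le (u * lowH p n / 2)
    have e : Real.sin (u * lowH p n / 2) / lowH p n - u / 2
        = -(u * lowH p n / 2 - Real.sin (u * lowH p n / 2)) / lowH p n := by
      field_simp; ring
    rw [Real.norm_eq_abs, e, abs_div, abs_neg, abs_of_pos hh, div_le_iff₀ hh]
    refine le_trans h (le_of_eq ?_)
    rw [abs_of_pos (by positivity)]; ring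
  have h3 := h1.div h2 (by positivity)
  have e : 1 / (u / 2) = 2 / u := by field_simp
  rw [e] at h3
  refine h3.congr fun n => ?_
  simp only [Pi.div_apply]
  rw [div_div_eq_mul_div]; ring

/-- The expectation of the Dirichlet kernel. -/
noncomputable def lowK (p : ℝ) (n : ℕ) (t : ℝ) : ℝ :=
  (lowA p t ^ n).re + (lowA p t ^ n).im * (Real.cos (t / 2) / Real.sin (t / 2))

theorem low_lim_K {p : ℝ} (hp0 : 0 < p) (hp1 : p < 1) {u : ℝ} (hu : 0 < u) :
    Tendsto (fun n : ℕ => lowK p n (u * lowH p n)) atTop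
      (𝓝 ((1 + (1 - 2 * p) / 3 * u ^ 2) * Real.exp (-(u ^ 2 / 2)))) := by
  have h1 := (Complex.continuous_re.tendsto _).comp (low_lim_pow hp0 hp1 u)
  rw [Complex.ofReal_re] at h1
  have h2 := h1.add ((low_lim_im hp0 hp1 u).mul (low_lim_cot hp0 hp1 hu))
  have e : Real.exp (-(u ^ 2 / 2)) + (1 - 2 * p) * u ^ 3 / 6 * Real.exp (-(u ^ 2 / 2)) * (2 / u)
      = (1 + (1 - 2 * p) / 3 * u ^ 2) * Real.exp (-(u ^ 2 / 2)) := by
    field_simp; ring
  rw [e] at h2
  refine h2.congr' ?_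
  filter_upwards [eventually_gt_atTop 0] with n hn
  have hh := lowH_pos hp0 hp1 hn
  simp only [Function.comp, lowK]
  field_simp

theorem low_cot_le {t : ℝ} (h0 : 0 < t) (h1 : t ≤ Real.pi) :
    |Real.cos (t / 2) / Real.sin (t / 2)| ≤ Real.pi / t := by
  have hs := Real.mul_le_sin (x := t / 2) (by positivity) (by linarith)
  have hpi := Real.pi_pos
  have e : 2 / Real.pi * (t / 2) = t / Real.pi := by field_simp
  rw [e] at hs
  have hpos : 0 < t / Real.pi := by positivity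
  rw [abs_div, abs_of_pos (lt_of_lt_of_le hpos hs)]
  calc _ ≤ 1 / (t / Real.pi) :=
        div_le_div₀ zero_le_one (Real.abs_cos_le_one _) hpos hs
    _ = _ := by field_simp

theorem low_K_bound {p : ℝ} (hp0 : 0 < p) (hp1 : p < 1) {n : ℕ} (hn : 2 ≤ n) {u : ℝ}
    (hu : 0 < u) (hu' : u * lowH p n ≤ Real.pi) :
    |lowK p n (u * lowH p n)|
      ≤ (1 + Real.pi / 6 * u ^ 2) * Real.exp (-(1 / Real.pi ^ 2) * u ^ 2) := by
  obtain ⟨m, rfl⟩ : ∃ m, n = m + 1 := ⟨n - 1, by omega⟩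
  have hm : (1 : ℝ) ≤ m := by exact_mod_cast (by omega : 1 ≤ m)
  have hh := lowH_pos hp0 hp1 (Nat.succ_pos m)
  have hs := lowH_sq hp0 hp1 (Nat.succ_pos m)
  have hni := low_nim_le hp0 hp1 (Nat.succ_pos m) u
  simp only [Nat.succ_eq_add_one] at hh hs hni
  set h := lowH p (m + 1) with hdef
  have ht : 0 < u * h := by positivity
  have hpi := Real.pi_pos
  have hq : 0 < p * (1 - p) := mul_pos hp0 (by linarith)
  have hA := lowA_norm_le (p := p) (t := u * h) hp0.le hp1.le (by rwa [abs_of_pos ht])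
  have hA1 := lowA_norm_le_one (u * h) hp0.le hp1.le
  have hE : ‖lowA p (u * h)‖ ^ m ≤ Real.exp (-(1 / Real.pi ^ 2) * u ^ 2) := by
    refine le_trans (pow_le_pow_left₀ (norm_nonneg _) hA m) ?_
    rw [← Real.exp_nat_mul, Real.exp_le_exp]
    push_cast at hs
    have h1 : 1 ≤ 2 * m * (p * (1 - p) * h ^ 2) := by
      have : 0 ≤ (m - 1) * (p * (1 - p) * h ^ 2) := mul_nonneg (by linarith) (by positivity)
      nlinarith
    have h2 := mul_le_mul_of_nonneg_left h1 (by positivity : 0 ≤ u ^ 2 / Real.pi ^ 2)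
    calc _ = -(u ^ 2 / Real.pi ^ 2 * (2 * m * (p * (1 - p) * h ^ 2))) := by ring
      _ ≤ -(u ^ 2 / Real.pi ^ 2 * 1) := neg_le_neg h2
      _ = _ := by ring
  have hre : |(lowA p (u * h) ^ (m + 1)).re| ≤ Real.exp (-(1 / Real.pi ^ 2) * u ^ 2) := by
    refine le_trans (Complex.abs_re_le_norm _) (le_trans ?_ hE)
    rw [norm_pow, pow_succ]
    exact mul_le_of_le_one_right (by positivity) hA1
  have him : |(lowA p (u * h) ^ (m + 1)).im|
      ≤ u ^ 3 * h / 6 * Real.exp (-(1 / Real.pi ^ 2) * u ^ 2) := by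
    refine le_trans (low_im_pow_le _ m) ?_
    rw [abs_of_pos hu] at hni
    push_cast at hni
    calc _ = ((m + 1) * |(lowA p (u * h)).im|) * ‖lowA p (u * h)‖ ^ m := by ring
      _ ≤ _ := mul_le_mul hni hE (by positivity) (by positivity)
  have hcot := low_cot_le ht hu'
  unfold lowK
  refine le_trans (abs_add_le _ _) ?_
  rw [abs_mul]
  have h3 := mul_le_mul him hcot (abs_nonneg _) (by positivity)
  have e : u ^ 3 * h / 6 * Real.exp (-(1 / Real.pi ^ 2) * u ^ 2) * (Real.pi / (u * h))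
      = Real.pi / 6 * u ^ 2 * Real.exp (-(1 / Real.pi ^ 2) * u ^ 2) := by
    field_simp
  rw [e] at h3
  linarith

theorem low_int_sq {b : ℝ} (hb : 0 < b) :
    Integrable fun x : ℝ => x ^ 2 * Real.exp (-b * x ^ 2) := by
  have h := integrable_rpow_mul_exp_neg_mul_sq hb (s := 2) (by norm_num)
  simpa using h

theorem low_int_poly {b : ℝ} (hb : 0 < b) (c : ℝ) :
    Integrable fun x : ℝ => (1 + c * x ^ 2) * Real.exp (-b * x ^ 2) := by
  refine ((integrable_exp_neg_mul_sq hb).add ((low_int_sq hb).const_mul c)).congr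
    (Eventually.of_forall fun x => ?_)
  simp only [Pi.add_apply]; ring

theorem low_gauss_zero : ∫ x in Ioi (0 : ℝ), Real.exp (-(1 / 2) * x ^ 2)
    = Real.sqrt (2 * Real.pi) / 2 := by
  rw [integral_gaussian_Ioi]
  congr 2; ring

theorem low_gauss_two : ∫ x in Ioi (0 : ℝ), x ^ 2 * Real.exp (-(1 / 2) * x ^ 2)
    = Real.sqrt (2 * Real.pi) / 2 := by
  have hb : (0 : ℝ) < 1 / 2 := by norm_num
  have h : ∫ x in Ioi (0 : ℝ), (1 + (-1) * x ^ 2) * Real.exp (-(1 / 2) * x ^ 2)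
      = 0 - 0 * Real.exp (-(1 / 2) * (0 : ℝ) ^ 2) := by
    refine integral_Ioi_of_hasDerivAt_of_tendsto'
      (f := fun x : ℝ => x * Real.exp (-(1 / 2) * x ^ 2)) (fun x _ => ?_)
      (low_int_poly hb _).integrableOn ?_
    · have h1 : HasDerivAt (fun x : ℝ => -(1 / 2) * x ^ 2) (-(1 / 2) * (2 * x)) x := by
        simpa using (hasDerivAt_pow 2 x).const_mul (-(1 / 2) : ℝ)
      exact ((hasDerivAt_id' x).mul h1.exp).congr_deriv (by ring)
    · have h1 := (rpow_mul_exp_neg_mul_sq_isLittleO_exp_neg hb 1).trans_tendsto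
        (Real.tendsto_exp_atBot.comp
          (tendsto_id.const_mul_atTop_of_neg (by norm_num : (-(1 / 2) : ℝ) < 0)))
      simpa using h1
  have h2 : ∫ x in Ioi (0 : ℝ), (1 + (-1) * x ^ 2) * Real.exp (-(1 / 2) * x ^ 2)
      = (∫ x in Ioi (0 : ℝ), Real.exp (-(1 / 2) * x ^ 2))
        - ∫ x in Ioi (0 : ℝ), x ^ 2 * Real.exp (-(1 / 2) * x ^ 2) := by
    rw [← integral_sub (integrable_exp_neg_mul_sq hb).integrableOn (low_int_sq hb).integrableOn]
    congr 1; funext x; ring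
  rw [h2, low_gauss_zero] at h
  linarith

theorem low_gauss (c : ℝ) : ∫ x in Ioi (0 : ℝ), (1 + c * x ^ 2) * Real.exp (-(x ^ 2 / 2))
    = (1 + c) * (Real.sqrt (2 * Real.pi) / 2) := by
  have hb : (0 : ℝ) < 1 / 2 := by norm_num
  have h2 : ∫ x in Ioi (0 : ℝ), (1 + c * x ^ 2) * Real.exp (-(x ^ 2 / 2))
      = (∫ x in Ioi (0 : ℝ), Real.exp (-(1 / 2) * x ^ 2))
        + c * ∫ x in Ioi (0 : ℝ), x ^ 2 * Real.exp (-(1 / 2) * x ^ 2) := by
    rw [← integral_const_mul, ← integral_add (integrable_exp_neg_mul_sq hb).integrableOn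
      ((low_int_sq hb).integrableOn.const_mul c)]
    congr 1; funext x
    rw [show -(x ^ 2 / 2) = -(1 / 2) * x ^ 2 by ring]; ring
  rw [h2, low_gauss_zero, low_gauss_two]; ring

theorem lowK_measurable (p : ℝ) (n : ℕ) : Measurable (lowK p n) := by
  have hc : Continuous (lowA p) := by unfold lowA; fun_prop
  have h1 : Continuous fun t => (lowA p t ^ n).re := Complex.continuous_re.comp (hc.pow n)
  have h2 : Continuous fun t => (lowA p t ^ n).im := Complex.continuous_im.comp (hc.pow n)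
  unfold lowK
  exact h1.measurable.add (h2.measurable.mul (Measurable.div (by fun_prop) (by fun_prop)))

theorem low_lim_int {p : ℝ} (hp0 : 0 < p) (hp1 : p < 1) :
    Tendsto (fun n : ℕ => (∫ t in (0 : ℝ)..Real.pi, lowK p n t) / lowH p n) atTop
      (𝓝 ((1 + (1 - 2 * p) / 3) * (Real.sqrt (2 * Real.pi) / 2))) := by
  have hpi := Real.pi_pos
  rw [← low_gauss]
  have hD := tendsto_integral_filter_of_dominated_convergence
    (μ := volume.restrict (Ioi (0 : ℝ))) (l := atTop)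
    (F := fun (n : ℕ) (u : ℝ) =>
      (Iic (Real.pi / lowH p n)).indicator (fun u => lowK p n (u * lowH p n)) u)
    (f := fun u => (1 + (1 - 2 * p) / 3 * u ^ 2) * Real.exp (-(u ^ 2 / 2)))
    (fun u => (1 + Real.pi / 6 * u ^ 2) * Real.exp (-(1 / Real.pi ^ 2) * u ^ 2))
    (Eventually.of_forall fun n =>
      (((lowK_measurable p n).comp (measurable_id.mul_const _)).indicator
        measurableSet_Iic).aestronglyMeasurable)
    ?_ (low_int_poly (by positivity) _).integrableOn ?_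
  · refine hD.congr' ?_
    filter_upwards [eventually_gt_atTop 0] with n hn
    have hh := lowH_pos hp0 hp1 hn
    rw [integral_indicator measurableSet_Iic, Measure.restrict_restrict measurableSet_Iic,
      inter_comm, Ioi_inter_Iic, ← intervalIntegral.integral_of_le (by positivity),
      intervalIntegral.integral_comp_mul_right (fun t => lowK p n t) hh.ne', zero_mul,
      div_mul_cancel₀ _ hh.ne', smul_eq_mul]
    field_simp
  · filter_upwards [eventually_ge_atTop 2] with n hn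
    have hh := lowH_pos hp0 hp1 (by omega : 0 < n)
    refine (ae_restrict_iff' measurableSet_Ioi).2 (Eventually.of_forall fun u hu => ?_)
    by_cases h : u ∈ Iic (Real.pi / lowH p n)
    · rw [indicator_of_mem h, Real.norm_eq_abs]
      exact low_K_bound hp0 hp1 hn hu ((le_div_iff₀ hh).1 h)
    · rw [indicator_of_notMem h, norm_zero]
      positivity
  · refine (ae_restrict_iff' measurableSet_Ioi).2 (Eventually.of_forall fun u hu => ?_)
    refine (low_lim_K hp0 hp1 hu).congr' ?_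
    have h : Tendsto (fun n => u * lowH p n) atTop (𝓝 0) := by
      simpa using (lowH_tendsto hp0 hp1).const_mul u
    filter_upwards [eventually_gt_atTop 0, h.eventually (ge_mem_nhds hpi)] with n hn hn'
    have hh := lowH_pos hp0 hp1 hn
    rw [indicator_of_mem (show u ∈ Iic (Real.pi / lowH p n) from (le_div_iff₀ hh).2 hn')]

/-- The Dirichlet kernel written for the integer `j`. -/
noncomputable def lowD (j t : ℝ) : ℝ :=
  Real.cos (j * t) - Real.sin (j * t) * (Real.cos (t / 2) / Real.sin (t / 2))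

theorem lowD_succ (j : ℝ) {t : ℝ} (h0 : 0 < t) (h1 : t ≤ Real.pi) :
    lowD (j + 1) t = lowD j t - 2 * Real.cos (j * t) := by
  have hpi := Real.pi_pos
  have hs : 0 < Real.sin (t / 2) :=
    Real.sin_pos_of_pos_of_lt_pi (by positivity) (by linarith)
  have e : (j + 1) * t = j * t + 2 * (t / 2) := by ring
  have h2 := Real.sin_sq_add_cos_sq (t / 2)
  unfold lowD
  rw [e, Real.cos_add, Real.sin_add, Real.cos_two_mul, Real.sin_two_mul]
  field_simp
  linear_combination (-2 * Real.sin (j * t) * Real.cos (t / 2)) * h2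

theorem low_cos_int (j : ℤ) :
    ∫ t in (0 : ℝ)..Real.pi, Real.cos (j * t) = if j = 0 then Real.pi else 0 := by
  split_ifs with h
  · simp [h]
  · have hj : (j : ℝ) ≠ 0 := by exact_mod_cast h
    rw [intervalIntegral.integral_comp_mul_left (fun t => Real.cos t) hj]
    simp [Real.sin_int_mul_pi]

theorem lowD_int (j : ℤ) : IntervalIntegrable (lowD j) volume 0 Real.pi ∧
    ∫ t in (0 : ℝ)..Real.pi, lowD j t = if j ≤ 0 then Real.pi else -Real.pi := by
  have hpi := Real.pi_pos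
  have hc : ∀ j : ℝ, IntervalIntegrable (fun t => 2 * Real.cos (j * t)) volume 0 Real.pi :=
    fun j => Continuous.intervalIntegrable (by fun_prop) _ _
  induction j using Int.induction_on with
  | zero =>
    have : lowD ((0 : ℤ) : ℝ) = fun _ => 1 := by funext t; simp [lowD]
    rw [this]; simp
  | succ i ih =>
    have e : EqOn (fun t => lowD ((i : ℤ) : ℝ) t - 2 * Real.cos (((i : ℤ) : ℝ) * t))
        (lowD (((i : ℤ) + 1 : ℤ) : ℝ)) (uIoc 0 Real.pi) := by
      intro t ht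
      rw [uIoc_of_le hpi.le] at ht
      push_cast
      rw [lowD_succ _ ht.1 ht.2]
    refine ⟨(ih.1.sub (hc _)).congr e, ?_⟩
    rw [← intervalIntegral.integral_congr_ae (Eventually.of_forall fun t ht => e ht),
      intervalIntegral.integral_sub ih.1 (hc _), ih.2, intervalIntegral.integral_const_mul,
      low_cos_int]
    split_ifs <;> first | omega | ring
  | pred i ih =>
    have e : EqOn (fun t => lowD ((-(i : ℤ) : ℤ) : ℝ) t
          + 2 * Real.cos (((-(i : ℤ) - 1 : ℤ) : ℝ) * t))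
        (lowD ((-(i : ℤ) - 1 : ℤ) : ℝ)) (uIoc 0 Real.pi) := by
      intro t ht
      rw [uIoc_of_le hpi.le] at ht
      have h := lowD_succ ((-(i : ℤ) - 1 : ℤ) : ℝ) ht.1 ht.2
      have e2 : ((-(i : ℤ) - 1 : ℤ) : ℝ) + 1 = ((-(i : ℤ) : ℤ) : ℝ) := by push_cast; ring
      rw [e2] at h
      simp only [h]; ring
    refine ⟨(ih.1.add (hc _)).congr e, ?_⟩
    rw [← intervalIntegral.integral_congr_ae (Eventually.of_forall fun t ht => e ht),
      intervalIntegral.integral_add ih.1 (hc _), ih.2, intervalIntegral.integral_const_mul,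
      low_cos_int]
    split_ifs <;> first | omega | ring

/-- The Bernoulli law on `Bool`. -/
noncomputable def lowMu (p : ℝ) : Measure Bool :=
  ENNReal.ofReal p • Measure.dirac true + ENNReal.ofReal (1 - p) • Measure.dirac false

/-- The centred Bernoulli variable. -/
noncomputable def lowX (p : ℝ) (b : Bool) : ℝ := if b then 1 - p else -p

theorem lowMu_prob {p : ℝ} (hp0 : 0 ≤ p) (hp1 : p ≤ 1) : IsProbabilityMeasure (lowMu p) := by
  constructor
  simp only [lowMu, Measure.coe_add, Measure.coe_smul, Pi.add_apply, Pi.smul_apply,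
    measure_univ, smul_eq_mul, mul_one]
  rw [← ENNReal.ofReal_add hp0 (by linarith)]
  simp

theorem lowMu_int {E : Type*} [NormedAddCommGroup E] [NormedSpace ℝ E] [CompleteSpace E]
    {p : ℝ} (hp0 : 0 ≤ p) (hp1 : p ≤ 1) (g : Bool → E) :
    ∫ b, g b ∂(lowMu p) = p • g true + (1 - p) • g false := by
  unfold lowMu
  rw [integral_add_measure (Integrable.of_finite.smul_measure ENNReal.ofReal_ne_top)
    (Integrable.of_finite.smul_measure ENNReal.ofReal_ne_top), integral_smul_measure,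
    integral_smul_measure, integral_dirac, integral_dirac, ENNReal.toReal_ofReal hp0,
    ENNReal.toReal_ofReal (by linarith)]

/-- The product law of `n` coins. -/
noncomputable def lowP (p : ℝ) (n : ℕ) : Measure (Fin n → Bool) := Measure.pi fun _ => lowMu p

theorem lowP_prob {p : ℝ} (hp0 : 0 ≤ p) (hp1 : p ≤ 1) (n : ℕ) :
    IsProbabilityMeasure (lowP p n) := by
  have := lowMu_prob hp0 hp1
  unfold lowP
  infer_instance

theorem low_char {p : ℝ} (hp0 : 0 ≤ p) (hp1 : p ≤ 1) (n : ℕ) (t : ℝ) :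
    ∫ ω, Complex.exp (((-((∑ k, lowX p (ω k)) * t) : ℝ) : ℂ) * Complex.I) ∂(lowP p n)
      = lowA p t ^ n := by
  have := lowMu_prob hp0 hp1
  have e : ∀ ω : Fin n → Bool,
      Complex.exp (((-((∑ k, lowX p (ω k)) * t) : ℝ) : ℂ) * Complex.I)
        = ∏ k, Complex.exp (((-(lowX p (ω k) * t) : ℝ) : ℂ) * Complex.I) := by
    intro ω
    rw [← Complex.exp_sum]
    congr 1
    push_cast
    rw [Finset.sum_mul, ← Finset.sum_neg_distrib, Finset.sum_mul]
  simp_rw [e]
  unfold lowP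
  rw [integral_fintype_prod_eq_pow
    (fun b => Complex.exp (((-(lowX p b * t) : ℝ) : ℂ) * Complex.I)), lowMu_int hp0 hp1,
    Fintype.card_fin]
  congr 1
  unfold lowA lowX
  simp only [if_true, Bool.false_eq_true, if_false, Complex.real_smul, neg_mul, neg_neg]
  ring

theorem low_ED {p : ℝ} (hp0 : 0 ≤ p) (hp1 : p ≤ 1) (n : ℕ) (t : ℝ) :
    ∫ ω, lowD (∑ k, lowX p (ω k)) t ∂(lowP p n) = lowK p n t := by
  have := lowP_prob hp0 hp1 n
  have h1 := Complex.reCLM.integral_comp_comm (μ := lowP p n)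
    (φ := fun ω => Complex.exp (((-((∑ k, lowX p (ω k)) * t) : ℝ) : ℂ) * Complex.I))
    Integrable.of_finite
  have h2 := Complex.imCLM.integral_comp_comm (μ := lowP p n)
    (φ := fun ω => Complex.exp (((-((∑ k, lowX p (ω k)) * t) : ℝ) : ℂ) * Complex.I))
    Integrable.of_finite
  rw [low_char hp0 hp1] at h1 h2
  simp only [Complex.reCLM_apply, Complex.exp_ofReal_mul_I_re, Real.cos_neg] at h1
  simp only [Complex.imCLM_apply, Complex.exp_ofReal_mul_I_im, Real.sin_neg] at h2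
  unfold lowD lowK
  rw [integral_sub Integrable.of_finite Integrable.of_finite, integral_mul_const, h1, ← h2,
    integral_neg]
  ring

theorem low_int_val {p : ℝ} {n m : ℕ} (h : n * p = m) (ω : Fin n → Bool) :
    ∃ j : ℤ, ∑ k, lowX p (ω k) = j := by
  refine ⟨(∑ k, if ω k then 1 else 0) - m, ?_⟩
  have e : ∀ k, lowX p (ω k) = (if ω k then 1 else 0) - p := by
    intro k; unfold lowX; split_ifs <;> ring
  simp_rw [e]
  rw [Finset.sum_sub_distrib]
  push_cast
  simp [h]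

theorem low_prob {p : ℝ} (hp0 : 0 ≤ p) (hp1 : p ≤ 1) {n m : ℕ} (h : n * p = m) :
    ∫ t in (0 : ℝ)..Real.pi, lowK p n t
      = Real.pi * (2 * (lowP p n).real {ω | ∑ k, lowX p (ω k) ≤ 0} - 1) := by
  have := lowP_prob hp0 hp1 n
  have hI : ∀ ω : Fin n → Bool,
      IntervalIntegrable (lowD (∑ k, lowX p (ω k))) volume 0 Real.pi ∧
      ∫ t in (0 : ℝ)..Real.pi, lowD (∑ k, lowX p (ω k)) t
        = Real.pi * (2 * ({ω : Fin n → Bool | ∑ k, lowX p (ω k) ≤ 0}.indicator 1 ω) - 1) := by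
    intro ω
    obtain ⟨j, hj⟩ := low_int_val h ω
    refine ⟨hj ▸ (lowD_int j).1, ?_⟩
    by_cases h0 : j ≤ 0
    · rw [indicator_of_mem (by simpa [hj] using h0), hj, (lowD_int j).2, if_pos h0]
      simp only [Pi.one_apply]; ring
    · rw [indicator_of_notMem (by simpa [hj] using h0), hj, (lowD_int j).2, if_neg h0]
      ring
  simp_rw [← low_ED hp0 hp1 n, integral_fintype Integrable.of_finite]
  rw [intervalIntegral.integral_finsetSum
    (f := fun ω t => (lowP p n).real {ω} • lowD (∑ k, lowX p (ω k)) t)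
    fun ω _ => (hI ω).1.smul ((lowP p n).real {ω})]
  simp_rw [intervalIntegral.integral_smul, fun ω => (hI ω).2]
  rw [← integral_fintype Integrable.of_finite, integral_const_mul,
    integral_sub Integrable.of_finite Integrable.of_finite, integral_const_mul,
    integral_indicator_one (MeasurableSet.of_discrete)]
  simp

theorem low_cdf_zero : cdf (gaussianReal 0 1) 0 = 1 / 2 := by
  have := nullSingletonClass_gaussianReal (μ := 0) (v := 1) one_ne_zero
  rw [cdf_eq_real]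
  have h1 : (gaussianReal 0 1).real (Iic (0 : ℝ)) = (gaussianReal 0 1).real (Ici (0 : ℝ)) := by
    have h := gaussianReal_map_neg (μ := 0) (v := 1)
    rw [neg_zero] at h
    conv_lhs => rw [← h]
    rw [map_measureReal_apply (by fun_prop) measurableSet_Iic]
    congr 1
    ext x; simp
  have h2 : (gaussianReal 0 1).real (Ici (0 : ℝ)) = (gaussianReal 0 1).real (Ioi (0 : ℝ)) :=
    measureReal_congr Ioi_ae_eq_Ici.symm
  have h3 := probReal_add_probReal_compl (μ := gaussianReal 0 1) (measurableSet_Iic (a := (0 : ℝ)))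
  rw [compl_Iic] at h3
  linarith

/-- The set of admissible constants. -/
def lowSet : Set ℝ :=
  {C : ℝ | ∀ (n : ℕ) (Ω : Type) [MeasureSpace Ω]
        [IsProbabilityMeasure (volume : Measure Ω)] (X : Fin n → Ω → ℝ),
        0 < n → (∀ k, Measurable (X k)) → iIndepFun X volume →
        (∀ k, MemLp (X k) 3 volume) → (∀ k, ∫ ω, X k ω = 0) →
        (∀ k, 0 < ∫ ω, X k ω ^ 2) →
        ∀ x : ℝ,
          |(volume {ω | (∑ k, X k ω) / Real.sqrt (∑ k, ∫ ω, X k ω ^ 2) ≤ x}).toReal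
              - cdf (gaussianReal 0 1) x|
            ≤ C * ((∑ k, ∫ ω, |X k ω| ^ 3) / Real.sqrt (∑ k, ∫ ω, X k ω ^ 2) ^ 3)}

theorem low_apply {C : ℝ} (hC : C ∈ lowSet) {p : ℝ} (hp0 : 0 < p) (hp1 : p < 1) {n : ℕ}
    (hn : 0 < n) :
    (lowP p n).real {ω | ∑ k, lowX p (ω k) ≤ 0} - 1 / 2
      ≤ C * (p ^ 2 + (1 - p) ^ 2) * lowH p n := by
  have := lowMu_prob hp0.le hp1.le
  have hP := lowP_prob hp0.le hp1.le n
  have hq : 0 < 1 - p := by linarith
  have hint : ∀ (g : ℝ → ℝ) (k : Fin n), ∫ ω, g (lowX p (ω k)) ∂(lowP p n)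
      = p * g (1 - p) + (1 - p) * g (-p) := by
    intro g k
    unfold lowP
    rw [integral_comp_eval (μ := fun _ : Fin n => lowMu p) (i := k)
      (f := fun b => g (lowX p b)) AEStronglyMeasurable.of_discrete, lowMu_int hp0.le hp1.le]
    simp [lowX]
  have h1 : ∀ k : Fin n, ∫ ω, lowX p (ω k) ∂(lowP p n) = 0 := fun k => by
    rw [hint (fun x => x) k]; ring
  have h2 : ∀ k : Fin n, ∫ ω, lowX p (ω k) ^ 2 ∂(lowP p n) = p * (1 - p) := fun k => by
    rw [hint (fun x => x ^ 2) k]; ring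
  have h3 : ∀ k : Fin n, ∫ ω, |lowX p (ω k)| ^ 3 ∂(lowP p n)
      = p * (1 - p) * (p ^ 2 + (1 - p) ^ 2) := fun k => by
    rw [hint (fun x => |x| ^ 3) k, abs_neg, abs_of_pos hp0, abs_of_pos hq]; ring
  have h := @hC n (Fin n → Bool) ⟨lowP p n⟩ hP (fun k ω => lowX p (ω k)) hn
    (fun k => Measurable.of_discrete)
    (iIndepFun_pi (μ := fun _ : Fin n => lowMu p) (X := fun _ => lowX p)
      fun _ => Measurable.of_discrete.aemeasurable)
    (fun k => MemLp.of_discrete) h1 (fun k => (h2 k).symm ▸ mul_pos hp0 hq) 0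
  change |((lowP p n) {ω | (∑ k, lowX p (ω k))
      / Real.sqrt (∑ k, ∫ ω, lowX p (ω k) ^ 2 ∂(lowP p n)) ≤ 0}).toReal
        - cdf (gaussianReal 0 1) 0|
      ≤ C * ((∑ k, ∫ ω, |lowX p (ω k)| ^ 3 ∂(lowP p n))
        / Real.sqrt (∑ k, ∫ ω, lowX p (ω k) ^ 2 ∂(lowP p n)) ^ 3) at h
  simp only [h2, h3, Finset.sum_const, Finset.card_univ, Fintype.card_fin, nsmul_eq_mul] at h
  have hs : (0 : ℝ) < n * (p * (1 - p)) := by positivity
  have hs' : 0 < Real.sqrt (n * (p * (1 - p))) := Real.sqrt_pos.2 hs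
  have e1 : {ω : Fin n → Bool | (∑ k, lowX p (ω k)) / Real.sqrt (n * (p * (1 - p))) ≤ 0}
      = {ω | ∑ k, lowX p (ω k) ≤ 0} := by
    ext ω
    simp only [mem_ofPred_eq]
    rw [div_le_iff₀ hs', zero_mul]
  have e2 : n * (p * (1 - p) * (p ^ 2 + (1 - p) ^ 2)) / Real.sqrt (n * (p * (1 - p))) ^ 3
      = (p ^ 2 + (1 - p) ^ 2) * lowH p n := by
    unfold lowH
    rw [pow_succ (Real.sqrt _) 2, Real.sq_sqrt hs.le]
    field_simp
  rw [e1, e2, low_cdf_zero] at h
  rw [mul_assoc]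
  exact le_trans (le_abs_self _) h

theorem low_rat {C : ℝ} (hC : C ∈ lowSet) {r : ℚ} (h0 : 0 < (r : ℝ)) (h1 : (r : ℝ) < 1) :
    (1 + (1 - 2 * (r : ℝ)) / 3) * (Real.sqrt (2 * Real.pi) / 2)
      ≤ 2 * Real.pi * (C * ((r : ℝ) ^ 2 + (1 - (r : ℝ)) ^ 2)) := by
  have hpi := Real.pi_pos
  have hsub : Tendsto (fun k : ℕ => k * r.den) atTop atTop :=
    tendsto_id.atTop_mul_const' r.den_pos
  refine le_of_tendsto ((low_lim_int h0 h1).comp hsub) ?_
  filter_upwards [eventually_gt_atTop 0] with k hk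
  have hn : 0 < k * r.den := Nat.mul_pos hk r.den_pos
  have hr : 0 ≤ r.num := Rat.num_nonneg.2 (by exact_mod_cast h0.le)
  have hm : ((k * r.den : ℕ) : ℝ) * (r : ℝ) = ((k * r.num.toNat : ℕ) : ℝ) := by
    have e1 : ((r.num.toNat : ℕ) : ℝ) = (r.num : ℝ) := by
      rw [← Int.cast_natCast, Int.toNat_of_nonneg hr]
    have e2 : (r.den : ℝ) * (r : ℝ) = (r.num : ℝ) := by exact_mod_cast Rat.den_mul_eq_num r
    push_cast
    rw [e1, mul_assoc, e2]
  have hh := lowH_pos h0 h1 hn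
  have ha := low_apply hC h0 h1 hn
  simp only [Function.comp]
  rw [low_prob h0.le h1.le hm, div_le_iff₀ hh]
  nlinarith

theorem low_real {C : ℝ} (hC : C ∈ lowSet) {p : ℝ} (h0 : 0 < p) (h1 : p < 1) :
    (1 + (1 - 2 * p) / 3) * (Real.sqrt (2 * Real.pi) / 2)
      ≤ 2 * Real.pi * (C * (p ^ 2 + (1 - p) ^ 2)) := by
  obtain ⟨u, -, hu, hlim⟩ := Real.exists_seq_rat_strictMono_tendsto p
  have c1 : Continuous fun p : ℝ => (1 + (1 - 2 * p) / 3) * (Real.sqrt (2 * Real.pi) / 2) := by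
    fun_prop
  have c2 : Continuous fun p : ℝ => 2 * Real.pi * (C * (p ^ 2 + (1 - p) ^ 2)) := by fun_prop
  refine le_of_tendsto_of_tendsto ((c1.tendsto p).comp hlim) ((c2.tendsto p).comp hlim) ?_
  filter_upwards [hlim.eventually (lt_mem_nhds h0)] with k hk
  exact low_rat hC hk (lt_trans (hu k) h1)

theorem low_mem {C : ℝ} (hC : C ∈ lowSet) :
    (3 + Real.sqrt 10) / (6 * Real.sqrt (2 * Real.pi)) ≤ C := by
  have hpi := Real.pi_pos
  have h10 : Real.sqrt 10 ^ 2 = 10 := Real.sq_sqrt (by norm_num)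
  have h3 : 3 < Real.sqrt 10 := Real.lt_sqrt_of_sq_lt (by norm_num)
  have h4 : Real.sqrt 10 < 4 := (Real.sqrt_lt' (by norm_num)).2 (by norm_num)
  have h := low_real hC (p := (4 - Real.sqrt 10) / 2) (by linarith) (by linarith)
  have hs : 0 < Real.sqrt (2 * Real.pi) := by positivity
  have hs2 : Real.sqrt (2 * Real.pi) ^ 2 = 2 * Real.pi := Real.sq_sqrt (by positivity)
  set a := Real.sqrt 10
  set s := Real.sqrt (2 * Real.pi)
  have e1 : ((4 - a) / 2) ^ 2 + (1 - (4 - a) / 2) ^ 2 = a * (a - 3) := by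
    linear_combination (-1 / 2) * h10
  have e2 : 1 + (1 - 2 * ((4 - a) / 2)) / 3 = a / 3 := by ring
  rw [e1, e2, ← hs2] at h
  have h5 : 1 ≤ 6 * s * (a - 3) * C := by
    have : (a * s) * 1 ≤ (a * s) * (6 * s * (a - 3) * C) := by nlinarith
    exact le_of_mul_le_mul_left this (by positivity)
  rw [div_le_iff₀ (by positivity)]
  have h6 := mul_le_mul_of_nonneg_left h5 (by positivity : 0 ≤ 3 + a)
  have e3 : (3 + a) * (6 * s * (a - 3) * C) = C * (6 * s) := by
    linear_combination (6 * s * C) * h10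
  linarith

/-- Lower half of the frozen statement S19257. -/
theorem lower_bound :
    (3 + Real.sqrt 10) / (6 * Real.sqrt (2 * Real.pi)) ∈ lowerBounds
      {C : ℝ | ∀ (n : ℕ) (Ω : Type) [MeasureSpace Ω]
        [IsProbabilityMeasure (volume : Measure Ω)] (X : Fin n → Ω → ℝ),
        0 < n → (∀ k, Measurable (X k)) → iIndepFun X volume →
        (∀ k, MemLp (X k) 3 volume) → (∀ k, ∫ ω, X k ω = 0) →
        (∀ k, 0 < ∫ ω, X k ω ^ 2) →
        ∀ x : ℝ,
          |(volume {ω | (∑ k, X k ω) / Real.sqrt (∑ k, ∫ ω, X k ω ^ 2) ≤ x}).toReal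
              - cdf (gaussianReal 0 1) x|
            ≤ C * ((∑ k, ∫ ω, |X k ω| ^ 3) / Real.sqrt (∑ k, ∫ ω, X k ω ^ 2) ^ 3)} :=
  fun _ hC => low_mem hC

end Pool.Agent.Lib.MP_33650d_pr
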