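import Mathlib

namespace Pool.Agent.Lib.MP_33650d_pr

/-- Strict evaluation helper for the kernel. -/
noncomputable def force {α : Type} (n : ℕ) (f : ℕ → α) : α :=
  Nat.rec (motive := fun _ => α) (f 0) (fun k _ => f (Nat.succ k)) n

@[simp] theorem force_eq {α : Type} (n : ℕ) (f : ℕ → α) : force n f = f n := by
  cases n <;> rfl

/-- Lazy conjunction. -/
noncomputable def band (a b : Bool) : Bool := Bool.rec (motive := fun _ => Bool) false b a

@[simp] theorem band_eq (a b : Bool) : band a b = true ↔ a = true ∧ b = true := by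
  cases a <;> simp [band]

/-- Lazy disjunction. -/
noncomputable def bor (a b : Bool) : Bool := Bool.rec (motive := fun _ => Bool) b true a

@[simp] theorem bor_eq (a b : Bool) : bor a b = true ↔ a = true ∨ b = true := by
  cases a <;> simp [bor]

/-- Lazy conditional. -/
noncomputable def ite' {α : Type} (a : Bool) (x y : α) : α := Bool.rec (motive := fun _ => α) y x a

@[simp] theorem ite'_true {α : Type} (x y : α) : ite' true x y = x := rfl
@[simp] theorem ite'_false {α : Type} (x y : α) : ite' false x y = y := rfl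

/-- Packing of `n` lanes of width `w`. -/
def pk (w n : ℕ) (v : ℕ → ℕ) : ℕ := ∑ i ∈ Finset.range n, v i * 2 ^ (w * i)

theorem pk_congr {w n : ℕ} {u v : ℕ → ℕ} (h : ∀ i < n, u i = v i) : pk w n u = pk w n v :=
  Finset.sum_congr rfl fun i hi => by rw [h i (Finset.mem_range.1 hi)]

theorem pk_add (w n : ℕ) (u v : ℕ → ℕ) : pk w n u + pk w n v = pk w n fun i => u i + v i := by
  simp [pk, ← Finset.sum_add_distrib, add_mul]

theorem pk_mul (w n c : ℕ) (v : ℕ → ℕ) : c * pk w n v = pk w n fun i => c * v i := by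
  simp [pk, Finset.mul_sum, mul_assoc]

theorem pk_sub {w n : ℕ} {u v : ℕ → ℕ} (h : ∀ i < n, v i ≤ u i) :
    pk w n u - pk w n v = pk w n fun i => u i - v i := by
  have : pk w n u = (pk w n fun i => u i - v i) + pk w n v := by
    rw [pk_add]; exact pk_congr fun i hi => by have := h i hi; omega
  omega

theorem pk_append (w n m : ℕ) (v : ℕ → ℕ) :
    pk w (n + m) v = pk w n v + pk w m (fun i => v (n + i)) * 2 ^ (w * n) := by
  unfold pk
  rw [Finset.sum_range_add, Finset.sum_mul]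
  congr 1
  refine Finset.sum_congr rfl fun i _ => ?_
  rw [mul_add, pow_add]; ring

theorem pk_succ (w n : ℕ) (v : ℕ → ℕ) : pk w (n + 1) v = pk w n v + v n * 2 ^ (w * n) := by
  simp [pk, Finset.sum_range_succ]

theorem pk_lt {w n : ℕ} {v : ℕ → ℕ} (h : ∀ i < n, v i < 2 ^ w) : pk w n v < 2 ^ (w * n) := by
  induction n with
  | zero => simp [pk]
  | succ n ih =>
    rw [pk_succ, mul_add, mul_one, pow_add]
    have h1 := ih fun i hi => h i (by omega)
    have h2 : v n + 1 ≤ 2 ^ w := h n (by omega)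
    have := Nat.mul_le_mul_right (2 ^ (w * n)) h2
    nlinarith

theorem pk_lane {w n : ℕ} {v : ℕ → ℕ} (h : ∀ i < n, v i < 2 ^ w) {i : ℕ} (hi : i < n) :
    pk w n v / 2 ^ (w * i) % 2 ^ w = v i := by
  obtain ⟨m, rfl⟩ : ∃ m, n = i + (1 + m) := ⟨n - i - 1, by omega⟩
  rw [pk_append, pk_append w 1 m]
  have h1 : pk w i v < 2 ^ (w * i) := pk_lt fun j hj => h j (by omega)
  rw [Nat.add_mul_div_right _ _ (by positivity), Nat.div_eq_of_lt h1, zero_add, mul_one,
    Nat.add_mul_mod_self_right]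
  have : pk w 1 (fun j => v (i + j)) = v i := by simp [pk]
  rw [this]
  exact Nat.mod_eq_of_lt (h i (by omega))

theorem pk_canon {w n X : ℕ} (h : X < 2 ^ (w * n)) :
    X = pk w n fun i => X / 2 ^ (w * i) % 2 ^ w := by
  have key : ∀ m, pk w m (fun i => X / 2 ^ (w * i) % 2 ^ w) = X % 2 ^ (w * m) := by
    intro m
    induction m with
    | zero => simp [pk, Nat.mod_one]
    | succ m ih =>
      rw [pk_succ, ih, mul_add, mul_one, pow_add, Nat.mod_mul]; ring
  rw [key, Nat.mod_eq_of_lt h]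

theorem pk_land {w n : ℕ} {u v : ℕ → ℕ} (hu : ∀ i < n, u i < 2 ^ w) (hv : ∀ i < n, v i < 2 ^ w) :
    pk w n u &&& pk w n v = pk w n fun i => u i &&& v i := by
  have h : pk w n u &&& pk w n v < 2 ^ (w * n) := lt_of_le_of_lt Nat.and_le_right (pk_lt hv)
  rw [pk_canon h]
  refine pk_congr fun i hi => ?_
  rw [Nat.and_div_two_pow, Nat.and_mod_two_pow, pk_lane hu hi, pk_lane hv hi]

theorem pk_shr_land {w n k : ℕ} {u : ℕ → ℕ} (hk : k ≤ w) (hu : ∀ i < n, u i < 2 ^ w) :
    (pk w n u >>> k) &&& pk w n (fun _ => 2 ^ (w - k) - 1) = pk w n fun i => u i / 2 ^ k := by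
  have hv : ∀ i < n, (fun _ => 2 ^ (w - k) - 1 : ℕ → ℕ) i < 2 ^ w := by
    intro i _
    have : 2 ^ (w - k) ≤ 2 ^ w := Nat.pow_le_pow_right (by norm_num) (by omega)
    have : 0 < 2 ^ (w - k) := by positivity
    simp only; omega
  have h : (pk w n u >>> k) &&& pk w n (fun _ => 2 ^ (w - k) - 1) < 2 ^ (w * n) :=
    lt_of_le_of_lt Nat.and_le_right (pk_lt hv)
  rw [pk_canon h]
  refine pk_congr fun i hi => ?_
  rw [Nat.and_div_two_pow, Nat.and_mod_two_pow, pk_lane hv hi, Nat.and_two_pow_sub_one_eq_mod,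
    Nat.shiftRight_eq_div_pow, ← pk_lane hu hi]
  have e1 : (2 : ℕ) ^ w = 2 ^ k * 2 ^ (w - k) := by rw [← pow_add]; congr 1; omega
  rw [Nat.mod_mod_of_dvd _ (pow_dvd_pow 2 (by omega)), Nat.div_div_eq_div_mul, mul_comm (2 ^ k),
    ← Nat.div_div_eq_div_mul]
  conv_rhs => rw [e1]
  rw [Nat.mod_mul_right_div_self]

theorem pk_testBit {w n : ℕ} {v : ℕ → ℕ} (h : ∀ i < n, v i < 2 ^ w) {i j : ℕ} (hi : i < n)
    (hj : j < w) : (pk w n v).testBit (w * i + j) = (v i).testBit j := by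
  rw [← pk_lane h hi, Nat.testBit_mod_two_pow, Nat.testBit_div_two_pow]
  simp [hj, add_comm]

/-- `X` packs the lanes `v`, each of them at most `B`. -/
def Rep (w n X : ℕ) (v : ℕ → ℕ) (B : ℕ) : Prop := X = pk w n v ∧ ∀ i < n, v i ≤ B

theorem Rep.add {w n X Y B C : ℕ} {u v : ℕ → ℕ} (h1 : Rep w n X u B) (h2 : Rep w n Y v C) :
    Rep w n (Nat.add X Y) (fun i => u i + v i) (B + C) :=
  ⟨by rw [Nat.add_eq, h1.1, h2.1, pk_add], fun i hi => add_le_add (h1.2 i hi) (h2.2 i hi)⟩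

theorem Rep.mul {w n X B : ℕ} {u : ℕ → ℕ} (c : ℕ) (h1 : Rep w n X u B) :
    Rep w n (Nat.mul c X) (fun i => c * u i) (c * B) :=
  ⟨by rw [Nat.mul_eq, h1.1, pk_mul], fun i hi => Nat.mul_le_mul_left c (h1.2 i hi)⟩

theorem Rep.mul' {w n X B c C : ℕ} {u : ℕ → ℕ} (hc : c ≤ C) (h1 : Rep w n X u B) :
    Rep w n (Nat.mul c X) (fun i => c * u i) (C * B) :=
  ⟨by rw [Nat.mul_eq, h1.1, pk_mul], fun i hi => Nat.mul_le_mul hc (h1.2 i hi)⟩

theorem Rep.mono {w n X B C : ℕ} {u : ℕ → ℕ} (h1 : Rep w n X u B) (h : B ≤ C) : Rep w n X u C :=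
  ⟨h1.1, fun i hi => (h1.2 i hi).trans h⟩

theorem Rep.sub {w n X Y B C : ℕ} {u v : ℕ → ℕ} (h1 : Rep w n X u B) (h2 : Rep w n Y v C)
    (h : ∀ i < n, v i ≤ u i) : Rep w n (Nat.sub X Y) (fun i => u i - v i) B :=
  ⟨by rw [Nat.sub_eq, h1.1, h2.1, pk_sub h], fun i hi => (Nat.sub_le _ _).trans (h1.2 i hi)⟩

theorem Rep.zero (w n : ℕ) : Rep w n 0 (fun _ => 0) 0 := ⟨by simp [pk], fun _ _ => le_rfl⟩

theorem Rep.congr {w n X B : ℕ} {u v : ℕ → ℕ} (h1 : Rep w n X u B) (h : ∀ i < n, u i = v i) :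
    Rep w n X v B := ⟨h1.1.trans (pk_congr h), fun i hi => h i hi ▸ h1.2 i hi⟩

/-- Lane-wise comparison `Y ≤ X` on the lanes `lo ≤ i < lo + cnt`; `H` holds the top bits. -/
noncomputable def geqR (w lo cnt X Y H : ℕ) : Bool :=
  Nat.beq (Nat.mod (Nat.shiftRight (Nat.land (Nat.sub (Nat.add X H) Y) H) (Nat.mul w lo))
      (Nat.pow 2 (Nat.mul w cnt)))
    (Nat.mod (Nat.shiftRight H (Nat.mul w lo)) (Nat.pow 2 (Nat.mul w cnt)))

theorem geqR_sound {w n lo cnt X Y H B C : ℕ} {u v : ℕ → ℕ}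
    (hH : H = pk (w + 1) n fun _ => 2 ^ w) (hX : Rep (w + 1) n X u B) (hY : Rep (w + 1) n Y v C)
    (hB : B < 2 ^ w) (hC : C < 2 ^ w) (h : geqR (w + 1) lo cnt X Y H = true) {i : ℕ}
    (h1 : lo ≤ i) (h2 : i < lo + cnt) (hi : i < n) : v i ≤ u i := by
  have hD : X + H - Y = pk (w + 1) n fun i => u i + 2 ^ w - v i := by
    rw [hX.1, hH, hY.1, pk_add, pk_sub]
    intro j hj
    have := hY.2 j hj
    omega
  have hDb : ∀ j < n, u j + 2 ^ w - v j < 2 ^ (w + 1) := by
    intro j hj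
    have := hX.2 j hj
    rw [pow_succ]; omega
  have hHb : ∀ j < n, (fun _ => 2 ^ w : ℕ → ℕ) j < 2 ^ (w + 1) := by
    intro j _
    simp only; rw [pow_succ]; have : 0 < 2 ^ w := by positivity
    omega
  have h' : ((X + H - Y) &&& H) >>> ((w + 1) * lo) % 2 ^ ((w + 1) * cnt)
      = H >>> ((w + 1) * lo) % 2 ^ ((w + 1) * cnt) := Nat.eq_of_beq_eq_true h
  obtain ⟨k, rfl⟩ : ∃ k, i = lo + k := ⟨i - lo, by omega⟩
  have hk : (w + 1) * k + w < (w + 1) * cnt := by
    have : k + 1 ≤ cnt := by omega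
    have := Nat.mul_le_mul_left (w + 1) this
    nlinarith
  have h3 := congrArg (fun z => Nat.testBit z ((w + 1) * k + w)) h'
  simp only [Nat.testBit_mod_two_pow, Nat.testBit_shiftRight, Nat.testBit_and, hk, decide_true,
    Bool.true_and] at h3
  have e : (w + 1) * lo + ((w + 1) * k + w) = (w + 1) * (lo + k) + w := by ring
  rw [e, hD] at h3
  have hb : H.testBit ((w + 1) * (lo + k) + w) = true := by
    rw [hH, pk_testBit hHb hi (by omega)]; simp
  rw [hb, Bool.and_true, pk_testBit hDb hi (by omega)] at h3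
  have := Nat.ge_two_pow_of_testBit h3
  have := hY.2 _ hi
  omega

/-- Lane-wise truncated subtraction. -/
noncomputable def lsubV (w V H : ℕ) : ℕ :=
  Nat.land V (Nat.sub (Nat.land V H) (Nat.shiftRight (Nat.land V H) w))

noncomputable def lsub (w X Y H : ℕ) : ℕ := lsubV w (Nat.sub (Nat.add X H) Y) H

theorem lsub_rep {w n X Y H B C : ℕ} {u v : ℕ → ℕ}
    (hH : H = pk (w + 1) n fun _ => 2 ^ w) (hX : Rep (w + 1) n X u B) (hY : Rep (w + 1) n Y v C)
    (hB : B < 2 ^ w) (hC : C < 2 ^ w) : Rep (w + 1) n (lsub w X Y H) (fun i => u i - v i) B := by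
  refine ⟨?_, fun i hi => (Nat.sub_le _ _).trans (hX.2 i hi)⟩
  have hp : 0 < 2 ^ w := by positivity
  set d : ℕ → ℕ := fun i => u i + 2 ^ w - v i with hd
  have hD : X + H - Y = pk (w + 1) n d := by
    rw [hX.1, hH, hY.1, pk_add, pk_sub]
    intro j hj
    have := hY.2 j hj
    omega
  have hDb : ∀ j < n, d j < 2 ^ (w + 1) := by
    intro j hj
    have := hX.2 j hj
    simp only [hd]
    rw [pow_succ]; omega
  have hHb : ∀ j < n, (fun _ => 2 ^ w : ℕ → ℕ) j < 2 ^ (w + 1) := by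
    intro j _
    simp only; rw [pow_succ]; omega
  set b : ℕ → ℕ := fun i => if v i ≤ u i then 1 else 0 with hb
  have hs : pk (w + 1) n d &&& H = 2 ^ w * pk (w + 1) n b := by
    rw [hH, pk_land hDb hHb, pk_mul]
    refine pk_congr fun i hi => ?_
    rw [Nat.and_two_pow]
    have h1 := hDb i hi
    have h2 := hY.2 i hi
    by_cases h : v i ≤ u i
    · have : (d i).testBit w = true := by
        apply Nat.testBit_of_two_pow_le_and_two_pow_add_one_gt
        · simp only [hd]; omega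
        · exact h1
      simp [hb, h, this]
    · have : (d i).testBit w = false := by
        apply Nat.testBit_lt_two_pow
        simp only [hd]; omega
      simp [hb, h, this]
  have hm : 2 ^ w * pk (w + 1) n b - (2 ^ w * pk (w + 1) n b) >>> w
      = pk (w + 1) n fun i => (2 ^ w - 1) * b i := by
    rw [Nat.shiftRight_eq_div_pow, Nat.mul_div_cancel_left _ hp, ← pk_mul, Nat.sub_mul, one_mul]
  show (X + H - Y) &&& (((X + H - Y) &&& H) - ((X + H - Y) &&& H) >>> w) = _
  rw [hD, hs, hm, pk_land hDb]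
  · refine pk_congr fun i hi => ?_
    have h1 := hX.2 i hi
    by_cases h : v i ≤ u i
    · simp only [hb, h, if_true, mul_one, Nat.and_two_pow_sub_one_eq_mod, hd]
      have : u i + 2 ^ w - v i = (u i - v i) + 2 ^ w := by omega
      rw [this, Nat.add_mod_right, Nat.mod_eq_of_lt (by omega)]
    · simp only [hb, h, if_false, mul_zero, Nat.and_zero]; omega
  · intro j _
    simp only [hb]
    rw [pow_succ]
    split_ifs <;> omega

/-- Divide and conquer packing of `2 ^ d` lanes starting at `off`. -/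
noncomputable def packD (w : ℕ) (f : ℕ → ℕ) (d : ℕ) : ℕ → ℕ :=
  Nat.rec (motive := fun _ => ℕ → ℕ) (fun off => f off)
    (fun d ih off => Nat.add (ih off)
      (Nat.shiftLeft (force (Nat.add off (Nat.pow 2 d)) ih) (Nat.mul w (Nat.pow 2 d)))) d

theorem packD_eq (w : ℕ) (f : ℕ → ℕ) (d off : ℕ) :
    packD w f d off = pk w (2 ^ d) fun i => f (off + i) := by
  induction d generalizing off with
  | zero => simp [packD, pk]
  | succ d ih =>
    have : packD w f (d + 1) off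
        = packD w f d off + (packD w f d (off + 2 ^ d)) <<< (w * 2 ^ d) := by
      show Nat.add _ (Nat.shiftLeft (force _ _) _) = _
      rw [force_eq]; rfl
    rw [this, ih, ih, pow_succ, mul_two, pk_append, Nat.shiftLeft_eq]
    simp only [add_assoc]

theorem packD_rep {w d B X : ℕ} {f : ℕ → ℕ} (h : X = packD w f d 0) (hB : ∀ i < 2 ^ d, f i ≤ B) :
    Rep w (2 ^ d) X f B := ⟨by rw [h, packD_eq]; simp, hB⟩

end Pool.Agent.Lib.MP_33650d_pr
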