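import Pool.Agent.Lib.MP_33650d_pr.Law
import Pool.Agent.Lib.MP_33650d_pr.Gauss

namespace Pool.Agent.Lib.MP_33650d_pr
open MeasureTheory ProbabilityTheory Real Set

/-- The exponent of an entry at a vertex of a cell. -/
noncomputable def vpsi (e : REnt) (l0 l1 u0 u1 g0 g1 c0 c1 : ℝ) (j : ℕ) (b1 b2 b3 : Bool) : ℝ :=
  e.psi (sel b2 u0 u1 * sel b1 l0 l1) ((1 - sel b2 u0 u1) * sel b1 l0 l1)
    (sel b3 g0 g1 * (c0 + c1 * sel b1 l0 l1)) (tj j)

/-- Average over the vertices of a cell with product weights. -/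
noncomputable def mr_avg (α β γ : ℝ) (F : Bool → Bool → Bool → ℝ) : ℝ :=
  (1 - α) * (1 - β) * (1 - γ) * F false false false + (1 - α) * (1 - β) * γ * F false false true
    + (1 - α) * β * (1 - γ) * F false true false + (1 - α) * β * γ * F false true true
    + α * (1 - β) * (1 - γ) * F true false false + α * (1 - β) * γ * F true false true
    + α * β * (1 - γ) * F true true false + α * β * γ * F true true true

/-- All three weights lie in the unit interval. -/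
def mr_unit (α β γ : ℝ) : Prop := 0 ≤ α ∧ α ≤ 1 ∧ 0 ≤ β ∧ β ≤ 1 ∧ 0 ≤ γ ∧ γ ≤ 1

theorem mr_mono {α β γ : ℝ} (h : mr_unit α β γ) {F G : Bool → Bool → Bool → ℝ}
    (hF : ∀ b1 b2 b3, F b1 b2 b3 ≤ G b1 b2 b3) : mr_avg α β γ F ≤ mr_avg α β γ G := by
  obtain ⟨a0, a1, b0, b1, c0, c1⟩ := h
  have a2 : 0 ≤ 1 - α := by linarith
  have b2 : 0 ≤ 1 - β := by linarith
  have c2 : 0 ≤ 1 - γ := by linarith
  unfold mr_avg
  have q1 := mul_le_mul_of_nonneg_left (hF false false false) (mul_nonneg (mul_nonneg a2 b2) c2)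
  have q2 := mul_le_mul_of_nonneg_left (hF false false true) (mul_nonneg (mul_nonneg a2 b2) c0)
  have q3 := mul_le_mul_of_nonneg_left (hF false true false) (mul_nonneg (mul_nonneg a2 b0) c2)
  have q4 := mul_le_mul_of_nonneg_left (hF false true true) (mul_nonneg (mul_nonneg a2 b0) c0)
  have q5 := mul_le_mul_of_nonneg_left (hF true false false) (mul_nonneg (mul_nonneg a0 b2) c2)
  have q6 := mul_le_mul_of_nonneg_left (hF true false true) (mul_nonneg (mul_nonneg a0 b2) c0)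
  have q7 := mul_le_mul_of_nonneg_left (hF true true false) (mul_nonneg (mul_nonneg a0 b0) c2)
  have q8 := mul_le_mul_of_nonneg_left (hF true true true) (mul_nonneg (mul_nonneg a0 b0) c0)
  linarith

theorem mr_const (α β γ c : ℝ) : mr_avg α β γ (fun _ _ _ => c) = c := by
  unfold mr_avg; ring

theorem mr_add (α β γ : ℝ) (F G : Bool → Bool → Bool → ℝ) :
    mr_avg α β γ (fun b1 b2 b3 => F b1 b2 b3 + G b1 b2 b3) = mr_avg α β γ F + mr_avg α β γ G := by
  unfold mr_avg; ring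

theorem mr_smul (α β γ c : ℝ) (F : Bool → Bool → Bool → ℝ) :
    mr_avg α β γ (fun b1 b2 b3 => c * F b1 b2 b3) = c * mr_avg α β γ F := by
  unfold mr_avg; ring

theorem mr_sum (α β γ : ℝ) (s : Finset ℕ) (F : ℕ → Bool → Bool → Bool → ℝ) :
    mr_avg α β γ (fun b1 b2 b3 => ∑ j ∈ s, F j b1 b2 b3) = ∑ j ∈ s, mr_avg α β γ (F j) := by
  unfold mr_avg
  simp only [Finset.mul_sum, Finset.sum_add_distrib]

theorem mr_exp {α β γ : ℝ} (h : mr_unit α β γ) (F : Bool → Bool → Bool → ℝ) (c : ℝ) :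
    exp (mr_avg α β γ F - c) ≤ mr_avg α β γ (fun b1 b2 b3 => exp (F b1 b2 b3 - c)) := by
  have h1 : ∀ b1 b2 b3, exp (mr_avg α β γ F - c) * (1 - mr_avg α β γ F)
      + exp (mr_avg α β γ F - c) * F b1 b2 b3 ≤ exp (F b1 b2 b3 - c) := by
    intro b1 b2 b3
    have e : F b1 b2 b3 - c = (mr_avg α β γ F - c) + (F b1 b2 b3 - mr_avg α β γ F) := by ring
    rw [e, exp_add]
    have := mul_le_mul_of_nonneg_left (add_one_le_exp (F b1 b2 b3 - mr_avg α β γ F))
      (exp_pos (mr_avg α β γ F - c)).le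
    linarith
  have h2 := mr_mono h h1
  rw [mr_add, mr_const, mr_smul] at h2
  linarith

theorem mr_sel {α β γ l0 l1 lam : ℝ} (hα : l0 + α * (l1 - l0) = lam) :
    mr_avg α β γ (fun b1 _ _ => sel b1 l0 l1) = lam := by
  subst hα; unfold mr_avg sel; simp; ring

theorem mr_psi {α β γ l0 l1 u0 u1 g0 g1 c0 c1 bp bm g : ℝ} (e : REnt) (j : ℕ)
    (hα : l0 + α * (l1 - l0) = bp + bm) (hβ : (u0 + β * (u1 - u0)) * (bp + bm) = bp)
    (hγ : (g0 + γ * (g1 - g0)) * (c0 + c1 * (bp + bm)) = g) :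
    mr_avg α β γ (vpsi e l0 l1 u0 u1 g0 g1 c0 c1 j) = e.psi bp bm g (tj j) := by
  have e1 : mr_avg α β γ (vpsi e l0 l1 u0 u1 g0 g1 c0 c1 j)
      = e.psi ((u0 + β * (u1 - u0)) * (l0 + α * (l1 - l0)))
        ((1 - (u0 + β * (u1 - u0))) * (l0 + α * (l1 - l0)))
        ((g0 + γ * (g1 - g0)) * (c0 + c1 * (l0 + α * (l1 - l0)))) (tj j) := by
    unfold mr_avg vpsi REnt.psi sel
    simp only [Bool.false_eq_true, if_false, if_true]
    ring
  rw [e1, hα, hβ, hγ]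
  have : (1 - (u0 + β * (u1 - u0))) * (bp + bm) = bm := by linarith
  rw [this]

theorem mr_weight {a b x c : ℝ} (hab : a < b) (hc : 0 < c) (h1 : a * c ≤ x) (h2 : x ≤ b * c) :
    ∃ θ : ℝ, 0 ≤ θ ∧ θ ≤ 1 ∧ (a + θ * (b - a)) * c = x := by
  have hd : 0 < (b - a) * c := mul_pos (by linarith) hc
  refine ⟨(x - a * c) / ((b - a) * c), div_nonneg (by linarith) hd.le, ?_, ?_⟩
  · rw [div_le_one hd]; linarith
  · have : b - a ≠ 0 := (sub_pos.2 hab).ne'
    field_simp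
    ring

theorem mr_tj_pos (j : ℕ) : 0 < tj j := by unfold tj; positivity

theorem mr_ok {e : REnt} {a b : ℝ} (h : e.Ok b) (hab : a ≤ b) : e.Ok a := by
  rcases h with h | h
  · exact Or.inl h
  · exact Or.inr (hab.trans h)

theorem mr_re {f : ℂ} {bp bm g t R Ω : ℝ} (h : Freq f bp bm g t R Ω) : f.re = R * cos Ω := by
  rw [h.eq]; simp [Complex.exp_ofReal_mul_I_re]

theorem mr_im {f : ℂ} {bp bm g t R Ω : ℝ} (h : Freq f bp bm g t R Ω) : f.im = R * sin Ω := by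
  rw [h.eq]; simp [Complex.exp_ofReal_mul_I_im]

theorem mr_sin_le {k Ω : ℝ} (hk : 0 < k) (hΩ : Ω ^ 2 ≤ 2) : k * sin Ω ≤ exp (k * Ω - 1) := by
  rcases le_total 0 Ω with h | h
  · have h1 := mul_le_mul_of_nonneg_left (sin_le h) hk.le
    have h2 := add_one_le_exp (k * Ω - 1)
    linarith
  · have h1 : -π ≤ Ω := by nlinarith [pi_gt_three]
    have h2 := sin_nonpos_of_nonpos_of_neg_pi_le h h1
    have h3 := exp_pos (k * Ω - 1)
    nlinarith

theorem mr_cut (k : ℝ) {x : ℝ} (hx : |x| ≤ π) : cos x + k * sin x ≤ exp (k * x) := by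
  have hd : ∀ y : ℝ, HasDerivAt (fun y => exp (-(k * y)) * (cos y + k * sin y))
      (-((1 + k ^ 2) * exp (-(k * y)) * sin y)) y := fun y =>
    ((((hasDerivAt_id y).const_mul k).neg.exp).mul
      ((hasDerivAt_cos y).add ((hasDerivAt_sin y).const_mul k))).congr_deriv (by simp; ring)
  have h1 : exp (-(k * x)) * (cos x + k * sin x) ≤ 1 := by
    obtain ⟨h2, h3⟩ := abs_le.1 hx
    rcases lt_trichotomy x 0 with h | rfl | h
    · obtain ⟨c, ⟨c1, c2⟩, e⟩ := exists_hasDerivAt_eq_slope _ _ h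
        (fun y _ => (hd y).continuousAt.continuousWithinAt) fun y _ => hd y
      have h4 := sin_nonpos_of_nonpos_of_neg_pi_le c2.le (h2.trans c1.le)
      have h5 : 0 ≤ -((1 + k ^ 2) * exp (-(k * c)) * sin c) :=
        neg_nonneg.2 (mul_nonpos_of_nonneg_of_nonpos (by positivity) h4)
      rw [e, le_div_iff₀ (by linarith)] at h5
      simpa using h5
    · simp
    · obtain ⟨c, ⟨c1, c2⟩, e⟩ := exists_hasDerivAt_eq_slope _ _ h
        (fun y _ => (hd y).continuousAt.continuousWithinAt) fun y _ => hd y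
      have h4 := sin_nonneg_of_nonneg_of_le_pi c1.le (c2.le.trans h3)
      have h5 : -((1 + k ^ 2) * exp (-(k * c)) * sin c) ≤ 0 :=
        neg_nonpos.2 (mul_nonneg (by positivity) h4)
      rw [e, div_le_iff₀ (by linarith)] at h5
      simpa using h5
  rwa [exp_neg, inv_mul_le_iff₀ (exp_pos _), mul_one] at h1

/-- Cauchy-Schwarz for one frequency. -/
theorem mr_cs {p q r φ R Ω : ℝ} (hr0 : 0 ≤ r) (hr : p ^ 2 + q ^ 2 ≤ r ^ 2) (hR : 0 ≤ R) :
    (p * cos φ - q * sin φ) * (R * cos Ω) + (p * sin φ + q * cos φ) * (R * sin Ω) ≤ r * R := by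
  have e : (p * cos φ - q * sin φ) * (R * cos Ω) + (p * sin φ + q * cos φ) * (R * sin Ω)
      = (p * cos (φ - Ω) - q * sin (φ - Ω)) * R := by
    rw [cos_sub, sin_sub]; ring
  rw [e]
  refine mul_le_mul_of_nonneg_right ?_ hR
  refine le_trans (le_abs_self _) (abs_le_of_sq_le_sq' ?_ hr0 |> fun h => abs_le.2 h)
  have := sin_sq_add_cos_sq (φ - Ω)
  nlinarith [sq_nonneg (p * sin (φ - Ω) + q * cos (φ - Ω))]

/-- The part of the bound that is interpolated. -/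
noncomputable def mr_G (Jf : ℕ) (p q x y : ℕ → ℝ) (s : ℝ) : ℝ :=
  s ^ 2 + s + ∑ j ∈ Finset.range Jf,
    ((p j * cos (2 * π * (j + 1) * s) - q j * sin (2 * π * (j + 1) * s)) * x j
      + (p j * sin (2 * π * (j + 1) * s) + q j * cos (2 * π * (j + 1) * s)) * y j)

theorem mr_G_lerp {Jf : ℕ} {p q x y r : ℕ → ℝ} (hr0 : ∀ j < Jf, 0 ≤ r j)
    (hb : ∀ j < Jf, ∀ φ : ℝ, (p j * cos φ - q j * sin φ) * x j
      + (p j * sin φ + q j * cos φ) * y j ≤ r j) (a θ : ℝ) (h0 : 0 ≤ θ) (h1 : θ ≤ 1) :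
    mr_G Jf p q x y (a + θ / 1024) ≤ (1 - θ) * mr_G Jf p q x y a
      + θ * mr_G Jf p q x y (a + 1 / 1024)
      + (∑ j ∈ Finset.range Jf, (2 * π * (j + 1)) ^ 2 * r j) / (8 * 1024 ^ 2) := by
  have hc : ∀ (c s : ℝ), HasDerivAt (fun s => cos (c * s)) (-(c * sin (c * s))) s := by
    intro c s
    have := ((hasDerivAt_id s).const_mul c).cos
    exact this.congr_deriv (by simp; ring)
  have hs : ∀ (c s : ℝ), HasDerivAt (fun s => sin (c * s)) (c * cos (c * s)) s := by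
    intro c s
    have := ((hasDerivAt_id s).const_mul c).sin
    exact this.congr_deriv (by simp; ring)
  have hM : 0 ≤ ∑ j ∈ Finset.range Jf, (2 * π * (j + 1)) ^ 2 * r j :=
    Finset.sum_nonneg fun j hj => mul_nonneg (sq_nonneg _) (hr0 j (Finset.mem_range.1 hj))
  have key := lerp_lower (f := fun s => -mr_G Jf p q x y s)
    (f' := fun s => -(2 * s + 1 + ∑ j ∈ Finset.range Jf,
      ((p j * (-((2 * π * (j + 1)) * sin (2 * π * (j + 1) * s)))
          - q j * ((2 * π * (j + 1)) * cos (2 * π * (j + 1) * s))) * x j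
        + (p j * ((2 * π * (j + 1)) * cos (2 * π * (j + 1) * s))
          + q j * (-((2 * π * (j + 1)) * sin (2 * π * (j + 1) * s)))) * y j)))
    (f'' := fun s => -2 + ∑ j ∈ Finset.range Jf, (2 * π * (j + 1)) ^ 2 *
      ((p j * cos (2 * π * (j + 1) * s) - q j * sin (2 * π * (j + 1) * s)) * x j
        + (p j * sin (2 * π * (j + 1) * s) + q j * cos (2 * π * (j + 1) * s)) * y j))
    (a := a) (b := a + 1 / 1024) (x := a + θ / 1024) (by linarith) hM ?_ ?_ ?_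
    (by linarith) (by linarith)
  · have e1 : (a + 1 / 1024 - (a + θ / 1024)) / (a + 1 / 1024 - a) = 1 - θ := by
      rw [div_eq_iff (by norm_num)]; ring
    have e2 : (a + θ / 1024 - a) / (a + 1 / 1024 - a) = θ := by
      rw [div_eq_iff (by norm_num)]; ring
    have e3 : (a + 1 / 1024 - a) ^ 2 = 1 / 1024 ^ 2 := by ring
    rw [e1, e2, e3] at key
    linarith
  · intro s
    unfold mr_G
    refine HasDerivAt.neg (HasDerivAt.add ?_ (HasDerivAt.fun_sum fun j _ => ?_))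
    · exact ((hasDerivAt_pow 2 s).add (hasDerivAt_id s)).congr_deriv (by simp)
    · exact ((((hc _ s).const_mul _).sub ((hs _ s).const_mul _)).mul_const _).add
        ((((hs _ s).const_mul _).add ((hc _ s).const_mul _)).mul_const _)
  · intro s
    have d1 : HasDerivAt (fun s : ℝ => 2 * s + 1) 2 s :=
      (((hasDerivAt_id s).const_mul 2).add_const 1).congr_deriv (by simp)
    have d2 := HasDerivAt.fun_sum (u := Finset.range Jf) (x := s)
      (A := fun j s => ((p j * (-((2 * π * (j + 1)) * sin (2 * π * (j + 1) * s)))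
          - q j * ((2 * π * (j + 1)) * cos (2 * π * (j + 1) * s))) * x j
        + (p j * ((2 * π * (j + 1)) * cos (2 * π * (j + 1) * s))
          + q j * (-((2 * π * (j + 1)) * sin (2 * π * (j + 1) * s)))) * y j))
      (A' := fun j => -((2 * π * (j + 1)) ^ 2 *
        ((p j * cos (2 * π * (j + 1) * s) - q j * sin (2 * π * (j + 1) * s)) * x j
          + (p j * sin (2 * π * (j + 1) * s) + q j * cos (2 * π * (j + 1) * s)) * y j)))
      (fun j _ => by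
        have := ((((((hs (2 * π * (j + 1)) s).const_mul (2 * π * (j + 1))).neg.const_mul
          (p j)).sub (((hc (2 * π * (j + 1)) s).const_mul (2 * π * (j + 1))).const_mul
          (q j))).mul_const (x j)).add
          ((((((hc (2 * π * (j + 1)) s).const_mul (2 * π * (j + 1))).const_mul (p j)).add
          (((hs (2 * π * (j + 1)) s).const_mul (2 * π * (j + 1))).neg.const_mul
          (q j)))).mul_const (y j)))
        exact this.congr_deriv (by ring))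
    have d3 := (d1.add d2).neg
    refine d3.congr_deriv ?_
    rw [Finset.sum_neg_distrib]; ring
  · intro s _ _
    have : ∑ j ∈ Finset.range Jf, (2 * π * (j + 1)) ^ 2 *
        ((p j * cos (2 * π * (j + 1) * s) - q j * sin (2 * π * (j + 1) * s)) * x j
          + (p j * sin (2 * π * (j + 1) * s) + q j * cos (2 * π * (j + 1) * s)) * y j)
        ≤ ∑ j ∈ Finset.range Jf, (2 * π * (j + 1)) ^ 2 * r j :=
      Finset.sum_le_sum fun j hj =>
        mul_le_mul_of_nonneg_left (hb j (Finset.mem_range.1 hj) _) (sq_nonneg _)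
    linarith

theorem mcell_real {C l0 l1 u0 u1 g0 g1 c0 c1 a0 : ℝ} {J Jf ilo ihi : ℕ}
    {p q r sv cv Om E1 er om0 yc : ℕ → ℝ} {e0 ep em ec : ℕ → REnt} {T : ℕ → ℝ}
    {Ap An Bp Bn : ℕ → ℕ → ℝ} {U Ip Im Hc : ℕ → Bool → Bool → Bool → ℝ} {Lo : ℕ → Bool → ℝ}
    {V : ℕ → Bool → Bool → Bool → ℝ}
    (hC : 0 ≤ C) (hl0 : 0 < l0) (hl : l0 < l1) (hu : u0 < u1) (hg : g0 < g1) (hc0 : 0 < c0)
    (hc1 : 0 ≤ c1) (hJ : Jf ≤ J) (hi : ilo < ihi) (hi2 : ihi ≤ 511) (hT : PhiTab T)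
    (hr0 : ∀ j < J, 0 ≤ r j) (hr : ∀ j < J, p j ^ 2 + q j ^ 2 ≤ r j ^ 2)
    (hker : ∀ i : ℕ, 1 ≤ i → i ≤ 4096 → max 0 (2 * ((i : ℝ) / 4096) - 1)
      + (2 + ∑ j ∈ Finset.range J, (2 * π * (j + 1)) ^ 2 * r j) / (8 * 4096 ^ 2)
      ≤ hK J a0 p q (i / 4096))
    (he0 : ∀ j < J, (e0 j).Valid ∧ (e0 j).k = 0 ∧ (e0 j).Ok (l1 * tj j ^ 3))
    (hep : ∀ j < Jf, (ep j).Valid ∧ 0 < (ep j).k ∧ (ep j).Ok (l1 * tj j ^ 3))
    (hem : ∀ j < Jf, (em j).Valid ∧ (em j).k < 0 ∧ (em j).Ok (l1 * tj j ^ 3))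
    (hsv : ∀ j < Jf, 0 < sv j ∧ sv j ≤ 2 ∧ l1 * tj j ^ 3 ≤ sv j ^ 3 ∧
      exp (-(sv j ^ 2 / 2) - cv j * sv j ^ 3) ≤ cos (sv j))
    (hcv : ∀ j < Jf, 0 ≤ cv j)
    (hOm : ∀ j < Jf, Om j ^ 2 ≤ 2 ∧ ∀ b1 b2 b3,
      vpsi (ep j) l0 l1 u0 u1 g0 g1 c0 c1 j b1 b2 b3 + tj j ^ 2 / 2
          + cv j * (sel b1 l0 l1 * tj j ^ 3) ≤ (ep j).k * Om j ∧
        vpsi (em j) l0 l1 u0 u1 g0 g1 c0 c1 j b1 b2 b3 + tj j ^ 2 / 2
          + cv j * (sel b1 l0 l1 * tj j ^ 3) ≤ -(em j).k * Om j)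
    (hE1 : ∀ j < Jf, 0 ≤ E1 j ∧ E1 j ≤ exp (-(tj j ^ 2 / 2) - cv j * (l1 * tj j ^ 3)))
    (hU : ∀ j < J, ∀ b1 b2 b3, exp (vpsi (e0 j) l0 l1 u0 u1 g0 g1 c0 c1 j b1 b2 b3) ≤ U j b1 b2 b3)
    (hIp : ∀ j < Jf, ∀ b1 b2 b3,
      exp (vpsi (ep j) l0 l1 u0 u1 g0 g1 c0 c1 j b1 b2 b3 - 1) ≤ (ep j).k * Ip j b1 b2 b3)
    (hIm : ∀ j < Jf, ∀ b1 b2 b3,
      exp (vpsi (em j) l0 l1 u0 u1 g0 g1 c0 c1 j b1 b2 b3 - 1) ≤ -(em j).k * Im j b1 b2 b3)
    (hLo : ∀ j < Jf, ∀ b1, Lo j b1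
      ≤ (1 - Om j ^ 2 / 2) * E1 j * (1 + cv j * ((l1 - sel b1 l0 l1) * tj j ^ 3)))
    (hec : ∀ j < Jf, yc j = 0 ∨
      (0 ≤ yc j ∧ |om0 j| ≤ 1 ∧ (ec j).Valid ∧ (ec j).Ok (l1 * tj j ^ 3)))
    (hH : ∀ j < Jf, ∀ b1 b2 b3, yc j * exp (vpsi (ec j) l0 l1 u0 u1 g0 g1 c0 c1 j b1 b2 b3
      - (ec j).k * om0 j) ≤ Hc j b1 b2 b3)
    (hAB : ∀ j < Jf, ∀ i, ilo ≤ i → i ≤ ihi → 0 ≤ Ap j i ∧ 0 ≤ An j i ∧ 0 ≤ Bp j i ∧ 0 ≤ Bn j i ∧
      |p j * cos (2 * π * (j + 1) * sx i) - q j * sin (2 * π * (j + 1) * sx i)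
        - yc j * (cos (om0 j) - (ec j).k * sin (om0 j)) - (Ap j i - An j i)| ≤ er j ∧
      |p j * sin (2 * π * (j + 1) * sx i) + q j * cos (2 * π * (j + 1) * sx i)
        - yc j * (sin (om0 j) + (ec j).k * cos (om0 j)) - (Bp j i - Bn j i)| ≤ er j)
    (hV : ∀ i, ilo ≤ i → i ≤ ihi → ∀ b1 b2 b3,
      a0 + 1 / (16 * π ^ 2) + sx i ^ 2 + sx i
        + ∑ j ∈ Finset.range Jf, (Ap j i * U j b1 b2 b3 - An j i * Lo j b1
            + Bp j i * Ip j b1 b2 b3 + Bn j i * Im j b1 b2 b3 + Hc j b1 b2 b3 + 2 * er j)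
        + ∑ j ∈ Finset.Ico Jf J, r j * U j b1 b2 b3
        + (∑ j ∈ Finset.range Jf, (2 * π * (j + 1)) ^ 2 * r j) / (8 * 1024 ^ 2)
        ≤ V i b1 b2 b3)
    (hmain : ∀ i, ilo ≤ i → i ≤ ihi → ∀ b1 b2 b3, V i b1 b2 b3 ≤ T i + C * sel b1 l0 l1)
    (hleft : (ilo ≤ 256 ∧ 1 ≤ C * l0 * (1 + (4 * π * sx ilo) ^ 2)) ∨
      ∀ b1 b2 b3, V ilo b1 b2 b3 ≤ C * sel b1 l0 l1)
    (hright : 1 - T ihi ≤ C * l0) : Cov C l0 l1 u0 u1 g0 g1 c0 c1 := by
  intro ν bp bm g hS hla hlb hua hub hga hgb x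
  have := hS.prob
  have hlam : 0 < bp + bm := by linarith
  have hcc : 0 < c0 + c1 * (bp + bm) := by positivity
  obtain ⟨α, a0', a1', hα⟩ := mr_weight (x := bp + bm) hl one_pos (by linarith) (by linarith)
  rw [mul_one] at hα
  obtain ⟨β, b0', b1', hβ⟩ := mr_weight hu hlam hua hub
  obtain ⟨γ, c0', c1', hγ⟩ := mr_weight hg hcc hga hgb
  have hw : mr_unit α β γ := ⟨a0', a1', b0', b1', c0', c1'⟩
  choose R Ω hF using fun j : ℕ => hS.exists_freq (mr_tj_pos j)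
  have hsel : mr_avg α β γ (fun b1 _ _ => sel b1 l0 l1) = bp + bm := mr_sel hα
  have hcube : ∀ j, (bp + bm) * tj j ^ 3 ≤ l1 * tj j ^ 3 := fun j =>
    mul_le_mul_of_nonneg_right hlb (pow_nonneg (mr_tj_pos j).le 3)
  have hent : ∀ (e : REnt) (j : ℕ), e.Valid → e.Ok (l1 * tj j ^ 3) →
      R j * exp (e.k * Ω j) ≤ exp (mr_avg α β γ (vpsi e l0 l1 u0 u1 g0 g1 c0 c1 j)) := by
    intro e j h1 h2
    rw [mr_psi e j hα hβ hγ]
    exact (hF j).ent e h1 (mr_ok h2 (hcube j))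
  have hRU : ∀ j < J, R j ≤ mr_avg α β γ (U j) := by
    intro j hj
    obtain ⟨h1, h2, h3⟩ := he0 j hj
    have h4 := hent _ j h1 h3
    rw [h2, zero_mul, exp_zero, mul_one] at h4
    have h5 := mr_exp hw (vpsi (e0 j) l0 l1 u0 u1 g0 g1 c0 c1 j) 0
    simp only [sub_zero] at h5
    exact h4.trans (h5.trans (mr_mono hw (hU j hj)))
  have hlow : ∀ j < Jf, exp (-(tj j ^ 2 / 2) - cv j * ((bp + bm) * tj j ^ 3)) ≤ R j := by
    intro j hj
    obtain ⟨h1, h2, h3, h4⟩ := hsv j hj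
    exact (hF j).low _ _ h1 h2 ((hcube j).trans h3) h4
  have hkΩ : ∀ j < Jf, ∀ (e : REnt) (B : ℝ), e.Valid → e.Ok (l1 * tj j ^ 3) →
      (∀ b1 b2 b3, vpsi e l0 l1 u0 u1 g0 g1 c0 c1 j b1 b2 b3 + tj j ^ 2 / 2
        + cv j * (sel b1 l0 l1 * tj j ^ 3) ≤ B) → e.k * Ω j ≤ B := by
    intro j hj e B h1 h2 h3
    have h4 := (mul_le_mul_of_nonneg_right (hlow j hj) (exp_pos (e.k * Ω j)).le).trans
      (hent e j h1 h2)
    rw [← exp_add, exp_le_exp] at h4
    have h5 : mr_avg α β γ (fun b1 b2 b3 => (vpsi e l0 l1 u0 u1 g0 g1 c0 c1 j b1 b2 b3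
        + tj j ^ 2 / 2) + (cv j * tj j ^ 3) * sel b1 l0 l1) ≤ mr_avg α β γ (fun _ _ _ => B) :=
      mr_mono hw fun b1 b2 b3 => by linarith [h3 b1 b2 b3]
    rw [mr_add, mr_add, mr_const, mr_const, mr_smul, hsel] at h5
    linarith
  have hΩ : ∀ j < Jf, Ω j ^ 2 ≤ Om j ^ 2 := by
    intro j hj
    obtain ⟨p1, p2, p3⟩ := hep j hj
    obtain ⟨m1, m2, m3⟩ := hem j hj
    have h1 := hkΩ j hj _ _ p1 p3 fun b1 b2 b3 => ((hOm j hj).2 b1 b2 b3).1
    have h2 := hkΩ j hj _ _ m1 m3 fun b1 b2 b3 => ((hOm j hj).2 b1 b2 b3).2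
    have h3 : Ω j ≤ Om j := le_of_mul_le_mul_left h1 p2
    have h4 : -Ω j ≤ Om j :=
      le_of_mul_le_mul_left (a := -(em j).k) (by linarith) (by linarith)
    exact sq_le_sq' (by linarith) h3
  have hReL : ∀ j < Jf, mr_avg α β γ (fun b1 _ _ => Lo j b1) ≤ R j * cos (Ω j) := by
    intro j hj
    have o1 : 0 ≤ 1 - Om j ^ 2 / 2 := by linarith [(hOm j hj).1]
    have h1 : mr_avg α β γ (fun b1 _ _ => Lo j b1) ≤ mr_avg α β γ (fun b1 _ _ =>
        (1 - Om j ^ 2 / 2) * E1 j * (1 + cv j * (l1 * tj j ^ 3))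
          + (-((1 - Om j ^ 2 / 2) * E1 j * (cv j * tj j ^ 3))) * sel b1 l0 l1) :=
      mr_mono hw fun b1 _ _ => by linarith [hLo j hj b1]
    rw [mr_add, mr_const, mr_smul, hsel] at h1
    have h2 : 0 ≤ cv j * ((l1 - (bp + bm)) * tj j ^ 3) :=
      mul_nonneg (hcv j hj) (mul_nonneg (by linarith) (pow_nonneg (mr_tj_pos j).le 3))
    have h3 : E1 j * (1 + cv j * ((l1 - (bp + bm)) * tj j ^ 3)) ≤ R j := by
      refine le_trans ?_ (hlow j hj)
      have e : -(tj j ^ 2 / 2) - cv j * ((bp + bm) * tj j ^ 3)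
          = (-(tj j ^ 2 / 2) - cv j * (l1 * tj j ^ 3)) + cv j * ((l1 - (bp + bm)) * tj j ^ 3) := by
        ring
      rw [e, exp_add]
      exact mul_le_mul (hE1 j hj).2
        (by linarith [add_one_le_exp (cv j * ((l1 - (bp + bm)) * tj j ^ 3))]) (by linarith)
        (exp_pos _).le
    have h4 : 1 - Om j ^ 2 / 2 ≤ cos (Ω j) := by
      linarith [one_sub_sq_div_two_le_cos (x := Ω j), hΩ j hj]
    have h5 := mul_le_mul_of_nonneg_left h3 o1
    have h6 := mul_le_mul_of_nonneg_left h4 (hF j).R0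
    nlinarith
  have hImG : ∀ j < Jf, ∀ (e : REnt) (k σ : ℝ) (I : Bool → Bool → Bool → ℝ), e.Valid →
      e.Ok (l1 * tj j ^ 3) → 0 < k → k * σ = e.k * Ω j → σ ^ 2 = Ω j ^ 2 →
      (∀ b1 b2 b3, exp (vpsi e l0 l1 u0 u1 g0 g1 c0 c1 j b1 b2 b3 - 1) ≤ k * I b1 b2 b3) →
      R j * sin σ ≤ mr_avg α β γ I := by
    intro j hj e k σ I h1 h2 hk hσ hσ2 h3
    have h4 := mr_sin_le (Ω := σ) hk (by linarith [hΩ j hj, (hOm j hj).1])
    have h5 := (mr_exp hw (vpsi e l0 l1 u0 u1 g0 g1 c0 c1 j) 1).trans (mr_mono hw h3)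
    rw [mr_smul] at h5
    have h6 := mul_le_mul_of_nonneg_right (hent e j h1 h2) (exp_pos (-1)).le
    rw [← exp_add, mul_assoc, ← exp_add, ← hσ, ← sub_eq_add_neg, ← sub_eq_add_neg] at h6
    have h7 := mul_le_mul_of_nonneg_left h4 (hF j).R0
    refine le_of_mul_le_mul_left (a := k) ?_ hk
    linarith
  have hImU : ∀ j < Jf, R j * sin (Ω j) ≤ mr_avg α β γ (Ip j) := by
    intro j hj
    obtain ⟨p1, p2, p3⟩ := hep j hj
    exact hImG j hj _ _ _ _ p1 p3 p2 rfl rfl (hIp j hj)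
  have hImL : ∀ j < Jf, -(R j * sin (Ω j)) ≤ mr_avg α β γ (Im j) := by
    intro j hj
    obtain ⟨p1, p2, p3⟩ := hem j hj
    have := hImG j hj _ (-(em j).k) (-Ω j) _ p1 p3 (by linarith) (by ring) (by ring) (hIm j hj)
    rw [sin_neg] at this
    linarith
  have hcut : ∀ j < Jf, yc j * (cos (om0 j) - (ec j).k * sin (om0 j)) * (R j * cos (Ω j))
      + yc j * (sin (om0 j) + (ec j).k * cos (om0 j)) * (R j * sin (Ω j))
      ≤ mr_avg α β γ (Hc j) := by
    intro j hj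
    have h0 := mr_mono hw (hH j hj)
    rw [mr_smul] at h0
    rcases hec j hj with h | ⟨h1, h2, h3, h4⟩
    · simpa [h] using h0
    have h5 : |Ω j| ≤ 2 := abs_le_of_sq_le_sq (by linarith [hΩ j hj, (hOm j hj).1]) two_pos.le
    have h6 := mr_cut (ec j).k (x := Ω j - om0 j)
      ((abs_sub _ _).trans (by linarith [pi_gt_three]))
    have h7 := mul_le_mul_of_nonneg_right (hent _ j h3 h4) (exp_pos (-((ec j).k * om0 j))).le
    rw [← exp_add, mul_assoc, ← exp_add, ← sub_eq_add_neg, ← sub_eq_add_neg, ← mul_sub] at h7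
    have h8 := ((mul_le_mul_of_nonneg_left h6 (hF j).R0).trans h7).trans (mr_exp hw _ _)
    refine le_trans (le_of_eq ?_) ((mul_le_mul_of_nonneg_left h8 h1).trans h0)
    rw [cos_sub, sin_sub]
    ring
  -- the bound at an arbitrary point
  have hpt : ∀ s : ℝ, ν.real (Iic (4 * π * s)) ≤ a0 + 1 / (16 * π ^ 2)
      + mr_G Jf p q (fun j => R j * cos (Ω j)) (fun j => R j * sin (Ω j)) s
      + ∑ j ∈ Finset.Ico Jf J, r j * mr_avg α β γ (U j) := by
    intro s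
    have h1 := kernel_bound hS J a0 p q r hr0 hr hker s
    simp only [mr_re (hF _), mr_im (hF _)] at h1
    rw [← Finset.sum_range_add_sum_Ico _ hJ] at h1
    have h2 : ∑ j ∈ Finset.Ico Jf J,
        ((p j * cos (2 * π * (j + 1) * s) - q j * sin (2 * π * (j + 1) * s)) * (R j * cos (Ω j))
          + (p j * sin (2 * π * (j + 1) * s) + q j * cos (2 * π * (j + 1) * s))
            * (R j * sin (Ω j))) ≤ ∑ j ∈ Finset.Ico Jf J, r j * mr_avg α β γ (U j) := by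
      refine Finset.sum_le_sum fun j hj => ?_
      have hj' := (Finset.mem_Ico.1 hj).2
      exact (mr_cs (hr0 j hj') (hr j hj') (hF j).R0).trans
        (mul_le_mul_of_nonneg_left (hRU j hj') (hr0 j hj'))
    unfold mr_G
    linarith
  -- the bound at a grid point
  have hgrid : ∀ i, ilo ≤ i → i ≤ ihi → a0 + 1 / (16 * π ^ 2)
      + mr_G Jf p q (fun j => R j * cos (Ω j)) (fun j => R j * sin (Ω j)) (sx i)
      + ∑ j ∈ Finset.Ico Jf J, r j * mr_avg α β γ (U j)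
      + (∑ j ∈ Finset.range Jf, (2 * π * (j + 1)) ^ 2 * r j) / (8 * 1024 ^ 2)
      ≤ mr_avg α β γ (V i) := by
    intro i h1 h2
    have h3 := mr_mono hw (hV i h1 h2)
    rw [mr_add, mr_add, mr_add, mr_const, mr_const, mr_sum, mr_sum] at h3
    simp only [mr_smul] at h3
    have h4 : ∑ j ∈ Finset.range Jf,
        ((p j * cos (2 * π * (j + 1) * sx i) - q j * sin (2 * π * (j + 1) * sx i))
            * (R j * cos (Ω j))
          + (p j * sin (2 * π * (j + 1) * sx i) + q j * cos (2 * π * (j + 1) * sx i))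
            * (R j * sin (Ω j)))
        ≤ ∑ j ∈ Finset.range Jf, mr_avg α β γ (fun b1 b2 b3 => Ap j i * U j b1 b2 b3
          - An j i * Lo j b1 + Bp j i * Ip j b1 b2 b3 + Bn j i * Im j b1 b2 b3 + Hc j b1 b2 b3
          + 2 * er j) := by
      refine Finset.sum_le_sum fun j hj => ?_
      have hj' := Finset.mem_range.1 hj
      obtain ⟨q1, q2, q3, q4, q5, q6⟩ := hAB j hj' i h1 h2
      have e : mr_avg α β γ (fun b1 b2 b3 => Ap j i * U j b1 b2 b3
          - An j i * Lo j b1 + Bp j i * Ip j b1 b2 b3 + Bn j i * Im j b1 b2 b3 + Hc j b1 b2 b3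
          + 2 * er j)
          = Ap j i * mr_avg α β γ (U j) - An j i * mr_avg α β γ (fun b1 _ _ => Lo j b1)
            + Bp j i * mr_avg α β γ (Ip j) + Bn j i * mr_avg α β γ (Im j) + mr_avg α β γ (Hc j)
            + 2 * er j := by
        unfold mr_avg; ring
      rw [e]
      have hR0 := (hF j).R0
      have hR1 := (hF j).R1
      have hc1' : |R j * cos (Ω j)| ≤ 1 := by
        rw [abs_mul, abs_of_nonneg hR0]
        exact mul_le_one₀ hR1 (abs_nonneg _) (abs_cos_le_one _)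
      have hs1' : |R j * sin (Ω j)| ≤ 1 := by
        rw [abs_mul, abs_of_nonneg hR0]
        exact mul_le_one₀ hR1 (abs_nonneg _) (abs_sin_le_one _)
      have t1 : (p j * cos (2 * π * (j + 1) * sx i) - q j * sin (2 * π * (j + 1) * sx i)
          - yc j * (cos (om0 j) - (ec j).k * sin (om0 j)) - (Ap j i - An j i)) * (R j * cos (Ω j)) ≤ er j := by
        refine (le_abs_self _).trans ?_
        rw [abs_mul]
        exact (mul_le_of_le_one_right (abs_nonneg _) hc1').trans q5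
      have t2 : (p j * sin (2 * π * (j + 1) * sx i) + q j * cos (2 * π * (j + 1) * sx i)
          - yc j * (sin (om0 j) + (ec j).k * cos (om0 j)) - (Bp j i - Bn j i)) * (R j * sin (Ω j)) ≤ er j := by
        refine (le_abs_self _).trans ?_
        rw [abs_mul]
        exact (mul_le_of_le_one_right (abs_nonneg _) hs1').trans q6
      have hcU : R j * cos (Ω j) ≤ mr_avg α β γ (U j) :=
        (mul_le_of_le_one_right hR0 (cos_le_one _)).trans (hRU j (by omega))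
      have t3 := mul_le_mul_of_nonneg_left hcU q1
      have t4 := mul_le_mul_of_nonneg_left (hReL j hj') q2
      have t5 := mul_le_mul_of_nonneg_left (hImU j hj') q3
      have t6 := mul_le_mul_of_nonneg_left (hImL j hj') q4
      linarith [hcut j hj']
    unfold mr_G
    linarith
  have hVT : ∀ i, ilo ≤ i → i ≤ ihi → mr_avg α β γ (V i) ≤ T i + C * (bp + bm) := by
    intro i h1 h2
    have := mr_mono hw (hmain i h1 h2)
    rwa [mr_add, mr_const, mr_smul, hsel] at this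
  have hM : 0 ≤ (∑ j ∈ Finset.range Jf, (2 * π * (j + 1)) ^ 2 * r j) / (8 * 1024 ^ 2) :=
    div_nonneg (Finset.sum_nonneg fun j hj =>
      mul_nonneg (sq_nonneg _) (hr0 j (by have := Finset.mem_range.1 hj; omega))) (by norm_num)
  have hCl : C * l0 ≤ C * (bp + bm) := mul_le_mul_of_nonneg_left hla hC
  have hπ : 0 < 4 * π := by positivity
  rcases le_total x (4 * π * sx ilo) with hx | hx
  · have h1 : ν.real (Iic x) ≤ ν.real (Iic (4 * π * sx ilo)) :=
      measureReal_mono (Iic_subset_Iic.2 hx)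
    have h2 := Phi_nonneg x
    rcases hleft with ⟨h3, h4⟩ | h3
    · have h5 : 4 * π * sx ilo ≤ 0 := by
        refine mul_nonpos_of_nonneg_of_nonpos hπ.le ?_
        unfold sx
        have : (ilo : ℝ) ≤ 256 := by exact_mod_cast h3
        linarith
      have h6 := cantelli hS h5
      have h7 : ν.real (Iic (4 * π * sx ilo)) ≤ C * l0 :=
        le_of_mul_le_mul_right (h6.trans h4) (by positivity)
      linarith
    · have h5 := mr_mono hw h3
      rw [mr_smul, hsel] at h5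
      linarith [hpt (sx ilo), hgrid ilo le_rfl hi.le]
  rcases le_total (4 * π * sx ihi) x with hy | hy
  · have h1 : ν.real (Iic x) ≤ 1 := measureReal_le_one
    have h2 := Phi_mono hy
    obtain ⟨k, rfl⟩ : ∃ k, ihi = k + 1 := ⟨ihi - 1, by omega⟩
    have h3 := hT k (by omega) 1 zero_le_one le_rfl
    have e : sx k + 1 / 1024 = sx (k + 1) := by unfold sx; push_cast; ring
    rw [e] at h3
    linarith
  · have hx' : sx ilo ≤ x / (4 * π) := by rw [le_div_iff₀ hπ]; linarith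
    have hy' : x / (4 * π) ≤ sx ihi := by rw [div_le_iff₀ hπ]; linarith
    obtain ⟨i, i1, i2, i3, i4⟩ := exists_cell (x := 1024 * (x / (4 * π)) + 256) hi
      (by unfold sx at hx'; linarith) (by unfold sx at hy'; linarith)
    obtain ⟨θ, hθ⟩ : ∃ θ, θ = 1024 * (x / (4 * π)) + 256 - i := ⟨_, rfl⟩
    have θ0 : 0 ≤ θ := by linarith
    have θ1 : θ ≤ 1 := by linarith
    have ex : x = 4 * π * (sx i + θ / 1024) := by
      have : sx i + θ / 1024 = x / (4 * π) := by unfold sx; rw [hθ]; ring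
      rw [this]; field_simp
    have h1 := hT i (by omega) θ θ0 θ1
    have h2 := hpt (sx i + θ / 1024)
    rw [← ex] at h1 h2
    have h3 := mr_G_lerp (Jf := Jf) (p := p) (q := q) (x := fun j => R j * cos (Ω j))
      (y := fun j => R j * sin (Ω j)) (r := r) (fun j hj => hr0 j (by omega))
      (fun j hj φ => (mr_cs (hr0 j (by omega)) (hr j (by omega)) (hF j).R0).trans
        (mul_le_of_le_one_right (hr0 j (by omega)) (hF j).R1)) (sx i) θ θ0 θ1
    have e : sx i + 1 / 1024 = sx (i + 1) := by unfold sx; push_cast; ring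
    rw [e] at h3
    have h4 := mul_le_mul_of_nonneg_left ((hgrid i i1 (by omega)).trans (hVT i i1 (by omega)))
      (show 0 ≤ 1 - θ by linarith)
    have h5 := mul_le_mul_of_nonneg_left
      ((hgrid (i + 1) (by omega) i2).trans (hVT (i + 1) (by omega) i2)) θ0
    linarith

theorem Cov.splitL {C l0 l l1 u0 u1 g0 g1 c0 c1 : ℝ} (h1 : Cov C l0 l u0 u1 g0 g1 c0 c1)
    (h2 : Cov C l l1 u0 u1 g0 g1 c0 c1) : Cov C l0 l1 u0 u1 g0 g1 c0 c1 := by
  intro ν bp bm g hS a1 a2 a3 a4 a5 a6 x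
  rcases le_total (bp + bm) l with h | h
  · exact h1 ν bp bm g hS a1 h a3 a4 a5 a6 x
  · exact h2 ν bp bm g hS h a2 a3 a4 a5 a6 x

theorem Cov.splitU {C l0 l1 u0 u u1 g0 g1 c0 c1 : ℝ} (h1 : Cov C l0 l1 u0 u g0 g1 c0 c1)
    (h2 : Cov C l0 l1 u u1 g0 g1 c0 c1) : Cov C l0 l1 u0 u1 g0 g1 c0 c1 := by
  intro ν bp bm g hS a1 a2 a3 a4 a5 a6 x
  rcases le_total bp (u * (bp + bm)) with h | h
  · exact h1 ν bp bm g hS a1 a2 a3 h a5 a6 x
  · exact h2 ν bp bm g hS a1 a2 h a4 a5 a6 x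

theorem Cov.splitG {C l0 l1 u0 u1 g0 g g1 c0 c1 : ℝ} (h1 : Cov C l0 l1 u0 u1 g0 g c0 c1)
    (h2 : Cov C l0 l1 u0 u1 g g1 c0 c1) : Cov C l0 l1 u0 u1 g0 g1 c0 c1 := by
  intro ν bp bm g' hS a1 a2 a3 a4 a5 a6 x
  rcases le_total g' (g * (c0 + c1 * (bp + bm))) with h | h
  · exact h1 ν bp bm g' hS a1 a2 a3 a4 a5 h x
  · exact h2 ν bp bm g' hS a1 a2 a3 a4 h a6 x

/-- The bound holds for all sums with Lyapunov ratio in `[l0, l1]`. -/
def Slab (C l0 l1 : ℝ) : Prop :=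
  ∀ (ν : Measure ℝ) (bp bm g : ℝ), SumLaw ν bp bm g → l0 ≤ bp + bm → bp + bm ≤ l1 →
    ∀ x : ℝ, ν.real (Set.Iic x) - Phi x ≤ C * (bp + bm)

theorem Cov.slab {C l0 l1 c0 c1 : ℝ} (h : Cov C l0 l1 0 1 0 1 c0 c1) (hc0 : 0 < c0)
    (hc : 1 ≤ 4 * c0 * c1) : Slab C l0 l1 := by
  intro ν bp bm g hS a1 a2 x
  obtain ⟨b1, b2, b3, b4, b5⟩ := hS.basic
  refine h ν bp bm g hS a1 a2 (by linarith) (by linarith) (by linarith) ?_ x
  rw [one_mul]
  refine b5.trans ?_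
  have hc1 : 0 < c1 := by
    by_contra hn
    have : 4 * c0 * c1 ≤ 0 := mul_nonpos_of_nonneg_of_nonpos (by linarith) (not_lt.1 hn)
    linarith
  refine Real.sqrt_le_iff.2 ⟨by positivity, ?_⟩
  nlinarith [sq_nonneg (c0 - c1 * (bp + bm)), mul_le_mul_of_nonneg_right hc b3.le]

theorem Slab.trans {C l0 l l1 : ℝ} (h1 : Slab C l0 l) (h2 : Slab C l l1) : Slab C l0 l1 := by
  intro ν bp bm g hS a1 a2 x
  rcases le_total (bp + bm) l with h | h
  · exact h1 ν bp bm g hS a1 h x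
  · exact h2 ν bp bm g hS h a2 x

theorem upper_of {C l0 l1 : ℝ} (h1 : CovS C l0 0 1 0 1) (h2 : Slab C l0 l1) (hC : 0 ≤ C)
    (h3 : 0.542 ≤ C * l1) : Upper C := by
  intro ν bp bm g hS x
  obtain ⟨b1, b2, b3, b4, b5⟩ := hS.basic
  rcases le_total (bp + bm) l0 with h | h
  · exact h1 ν bp bm g hS h (by linarith) (by linarith) (by linarith) (by linarith) x
  rcases le_total (bp + bm) l1 with h' | h'
  · exact h2 ν bp bm g hS h h' x
  · linarith [large_bound hS x, mul_le_mul_of_nonneg_left h' hC]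

end Pool.Agent.Lib.MP_33650d_pr
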