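import Pool.Agent.Lib.MP_33650d_pr.KChk
import Pool.Agent.Lib.MP_33650d_pr.MReal

namespace Pool.Agent.Lib.MP_33650d_pr
open Real

def CovN (Cn c0 c1 l0 l1 u0 u1 g0 g1 : ℕ) : Prop :=
  Cov (Cn / 2 ^ 30) (l0 / 2 ^ 20) (l1 / 2 ^ 20) (u0 / 2 ^ 16) (u1 / 2 ^ 16) (g0 / 2 ^ 16)
    (g1 / 2 ^ 16) (c0 / 2 ^ 20) (c1 / 2 ^ 20)

/-- The record of the block that contains the frequency `j`. -/
noncomputable def mc_blkE (t : BT) : ℕ → ℕ → ℕ → ℕ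
  | 0, _, _ => 0
  | n + 1, B, j => if j < bE B then bI t B else mc_blkE t n (Nat.shiftRight B 25) j

theorem mc_blkE_succ (t : BT) (n B j : ℕ) : mc_blkE t (n + 1) B j =
    if j < bE B then bI t B else mc_blkE t n (Nat.shiftRight B 25) j := rfl

theorem mc_blkOK_eq (t : BT) (J l1 n a B : ℕ) : blkOK t J l1 (Nat.succ n) a B =
    force (bE B) (fun b => band (Nat.ble (Nat.add a 1) b)
      (band (force (bI t B) fun x => band (Nat.beq (fld x 1) 549755813888) (okE x l1 b))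
        (blkOK t J l1 n b (Nat.shiftRight B 25)))) := by
  unfold blkOK
  rfl

seal Nat.shiftRight Nat.shiftLeft Nat.mod Nat.sub Nat.add Nat.mul rR rQ rT tabA tabB
  one128 h128 expT expL expU aC aS sqt fld lf ent rF rA rAp rAn rBp rBn fT mc_blkE bE bI yv

theorem mc_sq (n : ℕ) : ((sq n : ℕ) : ℝ) = (n : ℝ) ^ 2 := by rw [sq, cast_nmul]; ring

theorem mc_cu (n : ℕ) : ((cu n : ℕ) : ℝ) = (n : ℝ) ^ 3 := by rw [cu, cast_nmul, cast_nmul]; ring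

theorem mc_tj (j : ℕ) : tj j = ((Nat.add j 1 : ℕ) : ℝ) / 2 := by
  rw [cast_nadd, tj]; push_cast; rfl

/-- The exponent of a coded entry. -/
noncomputable def mc_ps (x n BP BM G : ℕ) : ℝ :=
  (dec x).psi (BP / 2 ^ 36) (BM / 2 ^ 36) (G / 2 ^ 56) (n / 2)

theorem mc_yv {x n BP BM G : ℕ} (h1 : 1 ≤ n) (h2 : n ≤ 256) (h : 1 ≤ yv x n BP BM G) :
    mc_ps x n BP BM G ≤ 8 - (yv x n BP BM G : ℝ) / 2 ^ 32 := by
  obtain ⟨s1, s2, s3⟩ := sqt_spec h1 h2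
  obtain ⟨A, hA⟩ : ∃ A, A = Nat.add (Nat.shiftLeft (Nat.add (Nat.shiftLeft (sq n) 88)
      (Nat.mul (Nat.mul (sq n) (Nat.sub (sqt n) 1)) G)) 39) 166153499473114484112975882535043072 :=
    ⟨_, rfl⟩
  obtain ⟨B, hB⟩ : ∃ B, B = Nat.add (Nat.add (Nat.mul (fld x 0) (Nat.shiftLeft (sq n) 88))
        (Nat.mul (fld x 2) (Nat.mul (Nat.mul (sq n) (Nat.add (sqt n) 1)) G)))
      (Nat.mul (Nat.add (Nat.mul (fld x 3) BP) (Nat.mul (fld x 4) BM)) (Nat.shiftLeft (cu n) 51)) :=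
    ⟨_, rfl⟩
  have e : yv x n BP BM G = Nat.shiftRight (Nat.sub A B) 82 := by rw [hA, hB, yv]
  have hBA : B ≤ A := by
    by_contra hc
    rw [e, Nat.sub_eq, Nat.sub_eq_zero_of_le (by omega), nshr_eq] at h
    simp at h
  have h3 := cast_shr_le (Nat.sub A B) 82
  rw [← e, cast_nsub (by exact_mod_cast hBA)] at h3
  have hA' := congrArg (Nat.cast : ℕ → ℝ) hA
  have hB' := congrArg (Nat.cast : ℕ → ℝ) hB
  simp only [cast_nadd, cast_nmul, cast_shl, mc_sq, mc_cu] at hA' hB'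
  rw [cast_nsub (by exact_mod_cast s1)] at hA'
  clear hA hB e hBA h
  push_cast at hA' hB'
  have p1 : (0 : ℝ) ≤ (n : ℝ) ^ 2 * G := by positivity
  have q1 := mul_le_mul_of_nonneg_left s2 p1
  have q2 := mul_le_mul_of_nonneg_left s3 (mul_nonneg (Nat.cast_nonneg (α := ℝ) (fld x 2)) p1)
  simp only [mc_ps, dec, mkE, REnt.psi, bv]
  generalize √((n : ℝ) / 2) = w at *
  nlinarith

theorem mc_okE {x l1 n m : ℕ} (h : okE x l1 n = true) (hm : m ≤ n) :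
    (dec x).Ok (l1 / 2 ^ 20 * ((m : ℝ) / 2) ^ 3) := by
  rw [okE, bor_eq] at h
  rcases h with h | h
  · left
    have := Nat.le_of_ble_eq_true h
    simp only [dec, mkE]
    rw [Nat.le_zero.1 this]; simp
  · right
    have h1 := ble_cast h
    rw [cast_shl, cast_nmul, mc_cu, mc_cu] at h1
    have h2 : (l1 : ℝ) * (m : ℝ) ^ 3 ≤ l1 * (n : ℝ) ^ 3 := by gcongr
    simp only [dec, mkE]
    nlinarith

theorem mc_SC {sv cv : ℕ} (hs : sv ≤ 32768) (h : chkSC sv cv = true) :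
    exp (-(((sv : ℝ) / 2 ^ 14) ^ 2 / 2) - cv / 2 ^ 16 * ((sv : ℝ) / 2 ^ 14) ^ 3)
      ≤ cos (sv / 2 ^ 14) := by
  have h1 := ble_cast h
  have hs' : (sv : ℝ) ≤ 32768 := by exact_mod_cast hs
  obtain ⟨h2, -⟩ := aCS (Nat.shiftLeft sv 10) (by rw [cast_shl]; linarith)
  have h3 := expU_spec 0 (Nat.add (Nat.mul 8 (sq sv)) (Nat.shiftRight (Nat.mul cv (cu sv)) 26))
  have h4 := cast_shr_le (Nat.mul cv (cu sv)) 26
  rw [cast_nadd, cast_shl] at h1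
  rw [cast_nadd, cast_nmul, mc_sq] at h3
  rw [cast_nmul, mc_cu] at h4
  rw [cast_shl, show (sv : ℝ) * 2 ^ 10 / 2 ^ 24 = sv / 2 ^ 14 by ring] at h2
  obtain ⟨E, hE⟩ : ∃ E : ℝ, E = (expU 0 (Nat.add (Nat.mul 8 (sq sv))
    (Nat.shiftRight (Nat.mul cv (cu sv)) 26)) : ℕ) := ⟨_, rfl⟩
  obtain ⟨A, hA⟩ : ∃ A : ℝ, A = (Nat.shiftRight (Nat.mul cv (cu sv)) 26 : ℕ) := ⟨_, rfl⟩
  rw [← hE] at h1 h3
  rw [← hA] at h3 h4
  clear hE hA h
  push_cast at h1 h3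
  have h5 : exp (-(((sv : ℝ) / 2 ^ 14) ^ 2 / 2) - cv / 2 ^ 16 * ((sv : ℝ) / 2 ^ 14) ^ 3)
      ≤ exp ((0 - (8 * (sv : ℝ) ^ 2 + A)) / 2 ^ 32) := exp_le_exp.2 (by linarith)
  linarith [(abs_le.1 h2).2]

theorem mc_wv (cv l n : ℕ) :
    ((n : ℝ) / 2) ^ 2 / 2 + cv / 2 ^ 16 * (l / 2 ^ 20 * ((n : ℝ) / 2) ^ 3) ≤ wv cv l n / 2 ^ 32 := by
  have h := cast_shr_ge (Nat.mul (Nat.mul cv l) (cu n)) 7
  rw [wv, cast_nadd, cast_nadd, cast_shl, mc_sq]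
  rw [cast_nmul, cast_nmul, mc_cu] at h
  push_cast
  linarith

theorem mc_O {x n BP BM G cv l k Om : ℕ} (h1 : 1 ≤ n) (h2 : n ≤ 256)
    (h : chkO (Nat.add (wv cv l n) 34359738368) (yv x n BP BM G) k Om = true) :
    mc_ps x n BP BM G + ((n : ℝ) / 2) ^ 2 / 2 + cv / 2 ^ 16 * (l / 2 ^ 20 * ((n : ℝ) / 2) ^ 3)
      ≤ k / 2 ^ 24 * (Om / 2 ^ 15) := by
  rw [chkO, band_eq] at h
  have a1 := mc_yv h1 h2 (Nat.le_of_ble_eq_true h.1)
  have a2 := ble_cast h.2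
  have a3 := cast_shr_le (Nat.mul k Om) 7
  have a4 := mc_wv cv l n
  rw [cast_nadd, cast_nadd] at a2
  rw [cast_nmul] at a3
  push_cast at a2
  linarith

theorem mc_I {y k : ℕ} {ψ : ℝ} (hk : 1 ≤ k) (h : ψ ≤ 8 - (y : ℝ) / 2 ^ 32) :
    exp (ψ - 1) ≤ k / 2 ^ 24 * (vI y k / 2 ^ 40) := by
  have a1 := expT_spec (Nat.add y 4294967296)
  have a2 := cast_div_gt (Nat.shiftLeft (expT (Nat.add y 4294967296)) 24) k hk
  rw [vI, cast_nadd, ndiv_eq]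
  rw [cast_nadd] at a1
  rw [cast_shl] at a2
  push_cast at a1
  have hk' : (0 : ℝ) < k := by exact_mod_cast hk
  have a3 : exp (ψ - 1) ≤ exp (8 - (y + 4294967296) / 2 ^ 32) := exp_le_exp.2 (by linarith)
  rw [sub_le_iff_le_add, div_le_iff₀ hk'] at a2
  rw [Nat.cast_one]
  nlinarith

theorem mc_U {x n BP BM G : ℕ} (h1 : 1 ≤ n) (h2 : n ≤ 256)
    (h : (expT (yv x n BP BM G) : ℝ) ≤ 2 ^ 44) :
    exp (mc_ps x n BP BM G) ≤ expT (yv x n BP BM G) / 2 ^ 40 := by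
  have a1 := expT_spec (yv x n BP BM G)
  by_cases c : 1 ≤ yv x n BP BM G
  · have := exp_le_exp.2 (mc_yv h1 h2 c)
    linarith
  · rw [show yv x n BP BM G = 0 by omega] at a1 h
    have a2 : exp 8 = exp 4 * exp 4 := by rw [← exp_add]; norm_num
    have a3 := add_one_le_exp 4
    simp only [Nat.cast_zero, zero_div, sub_zero] at a1
    nlinarith

theorem mc_Lo {L l1 l j : ℕ} (hl : l ≤ l1) (hO : (lf L j 3 : ℝ) ^ 2 ≤ 2 ^ 31) :
    (vLo L l1 l j : ℝ) / 2 ^ 40 ≤ (1 - ((lf L j 3 : ℝ) / 2 ^ 15) ^ 2 / 2)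
      * (expL (wv (lf L j 5) l1 (Nat.add j 1)) / 2 ^ 64)
      * (1 + lf L j 5 / 2 ^ 16 * ((l1 / 2 ^ 20 - l / 2 ^ 20) * tj j ^ 3)) := by
  have h := cast_shr_le (Nat.mul (Nat.mul (Nat.sub 2147483648 (sq (lf L j 3)))
    (expL (wv (lf L j 5) l1 (Nat.add j 1))))
    (Nat.add 549755813888 (Nat.mul (Nat.mul (lf L j 5) (Nat.sub l1 l)) (cu (Nat.add j 1))))) 94
  rw [vLo, force_eq, force_eq, mc_tj]
  rw [cast_nmul, cast_nmul, cast_nadd, cast_nmul, cast_nmul, mc_cu,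
    cast_nsub (a := l1) (by exact_mod_cast hl),
    cast_nsub (a := 2147483648) (by rw [mc_sq]; push_cast; linarith), mc_sq] at h
  refine (div_le_div_of_nonneg_right h (by positivity)).trans (le_of_eq ?_)
  push_cast
  ring

theorem mc_conv {m z c wa w wb M : ℝ} (hc : 0 ≤ c) (h1 : wa ≤ w) (h2 : w ≤ wb)
    (ha : m + z * wa + c * wa ^ 2 ≤ M) (hb : m + z * wb + c * wb ^ 2 ≤ M) :
    m + z * w + c * w ^ 2 ≤ M := by
  rcases (h1.trans h2).eq_or_lt with h | h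
  · obtain rfl : w = wa := by linarith
    exact ha
  · refine le_of_mul_le_mul_left ?_ (sub_pos.2 h)
    nlinarith [mul_nonneg (sub_nonneg.2 h2) (sub_nonneg.2 ha),
      mul_nonneg (sub_nonneg.2 h1) (sub_nonneg.2 hb),
      mul_nonneg (mul_nonneg hc (sub_nonneg.2 h.le)) (mul_nonneg (sub_nonneg.2 h1) (sub_nonneg.2 h2))]

theorem mc_ps_eq (x n BP BM G : ℕ) : mc_ps x n BP BM G = ((n : ℝ) / 2) ^ 2 *
    (bv (fld x 0) + bv (fld x 2) * (G / 2 ^ 56) * √((n : ℝ) / 2)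
      + (fld x 3 / 2 ^ 24 * (BP / 2 ^ 36) + fld x 4 / 2 ^ 24 * (BM / 2 ^ 36)) * √((n : ℝ) / 2) ^ 2) := by
  rw [sq_sqrt (by positivity)]
  simp only [mc_ps, dec, mkE, REnt.psi]
  ring

theorem mc_yB2 {a b ya yb : ℕ} (h : 1 ≤ yB2 a b ya yb) : 1 ≤ ya ∧ 1 ≤ yb ∧ ∃ D : ℝ, 0 ≤ D ∧
    (yB2 a b ya yb : ℝ) = 2 ^ 35 + D ∧ D ≤ ya - 2 ^ 35 ∧ D ≤ (yb - 2 ^ 35) * a ^ 2 / b ^ 2 := by
  unfold yB2 at h ⊢
  cases c2 : band (Nat.ble 34359738368 ya) (Nat.ble 34359738368 yb)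
  · rw [c2, ite'_false] at h
    exact absurd h (by decide)
  rw [band_eq] at c2
  have a1 := Nat.le_of_ble_eq_true c2.1
  have a2 := Nat.le_of_ble_eq_true c2.2
  clear h
  refine ⟨le_trans (by decide) a1, le_trans (by decide) a2, (mn (Nat.sub ya 34359738368)
    (Nat.div (Nat.mul (Nat.sub yb 34359738368) (sq a)) (sq b)) : ℕ), Nat.cast_nonneg _, ?_, ?_, ?_⟩
  · rw [ite'_true, cast_nadd]; norm_num
  · rw [mn_eq]
    refine (Nat.cast_le.2 (min_le_left _ _)).trans (le_of_eq ?_)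
    rw [cast_nsub (ble_cast c2.1)]; norm_num
  · rw [mn_eq, ndiv_eq]
    refine ((Nat.cast_le.2 (min_le_right _ _)).trans Nat.cast_div_le).trans (le_of_eq ?_)
    rw [cast_nmul, cast_nsub (ble_cast c2.2), mc_sq, mc_sq]; norm_num

theorem mc_yB3 {x a b n BP BM G : ℕ} {ya yb D : ℝ} (h1 : 1 ≤ a) (h2 : a ≤ n) (h3 : n ≤ b)
    (b1 : mc_ps x a BP BM G ≤ 8 - ya / 2 ^ 32) (b2 : mc_ps x b BP BM G ≤ 8 - yb / 2 ^ 32)
    (hD0 : 0 ≤ D) (d1 : D ≤ ya - 2 ^ 35) (d2 : D ≤ (yb - 2 ^ 35) * a ^ 2 / b ^ 2) :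
    mc_ps x n BP BM G ≤ 8 - (2 ^ 35 + D) / 2 ^ 32 := by
  have ha : (0 : ℝ) < a := by exact_mod_cast h1
  have han : (a : ℝ) ≤ n := by exact_mod_cast h2
  have hnb : (n : ℝ) ≤ b := by exact_mod_cast h3
  have hb : (0 : ℝ) < b := by linarith
  rw [le_div_iff₀ (by positivity)] at d2
  rw [mc_ps_eq] at b1 b2 ⊢
  have key := mc_conv (m := bv (fld x 0)) (z := bv (fld x 2) * (G / 2 ^ 56))
    (c := fld x 3 / 2 ^ 24 * (BP / 2 ^ 36) + fld x 4 / 2 ^ 24 * (BM / 2 ^ 36))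
    (M := -(D / 2 ^ 32) / ((a : ℝ) / 2) ^ 2) (by positivity)
    (sqrt_le_sqrt (show (a : ℝ) / 2 ≤ n / 2 by linarith))
    (sqrt_le_sqrt (show (n : ℝ) / 2 ≤ b / 2 by linarith))
    (by rw [le_div_iff₀ (by positivity)]; linarith)
    (by
      rw [le_div_iff₀ (by positivity)]
      refine le_of_mul_le_mul_left ?_ (show (0 : ℝ) < (b : ℝ) ^ 2 by positivity)
      linear_combination 4 * mul_le_mul_of_nonneg_left b2
        (show (0 : ℝ) ≤ ((a : ℝ) / 2) ^ 2 by positivity) + d2 / 2 ^ 32)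
  have k2 := mul_le_mul_of_nonneg_left key (show (0 : ℝ) ≤ ((n : ℝ) / 2) ^ 2 by positivity)
  have k3 : ((n : ℝ) / 2) ^ 2 * (-(D / 2 ^ 32) / ((a : ℝ) / 2) ^ 2) ≤ -(D / 2 ^ 32) := by
    rw [← mul_div_assoc, div_le_iff₀ (by positivity)]
    have : ((a : ℝ) / 2) ^ 2 ≤ ((n : ℝ) / 2) ^ 2 := by gcongr
    nlinarith
  linarith

theorem mc_yB {x a b n BP BM G : ℕ} (h1 : 1 ≤ a) (h2 : a ≤ n) (h3 : n ≤ b) (h4 : b ≤ 256)
    (h : 1 ≤ yB x a b BP BM G) : mc_ps x n BP BM G ≤ 8 - (yB x a b BP BM G : ℝ) / 2 ^ 32 := by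
  rcases Bool.eq_false_or_eq_true (Nat.ble b a) with c | c
  · rw [yB, c, ite'_true] at h ⊢
    obtain rfl : n = a := le_antisymm (h3.trans (Nat.le_of_ble_eq_true c)) h2
    exact mc_yv h1 (h3.trans h4) h
  · rw [yB, c, ite'_false] at h ⊢
    obtain ⟨a1, a2, D, hD0, hD, d1, d2⟩ := mc_yB2 h
    rw [hD]
    exact mc_yB3 h1 h2 h3 (mc_yv h1 (h2.trans (h3.trans h4)) a1)
      (mc_yv (h1.trans (h2.trans h3)) h4 a2) hD0 d1 d2

theorem mc_blkOK_succ {t : BT} {J l1 n a B : ℕ} (h : blkOK t J l1 (n + 1) a B = true) :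
    a + 1 ≤ bE B ∧ fld (bI t B) 1 = 549755813888 ∧ okE (bI t B) l1 (bE B) = true ∧
      blkOK t J l1 n (bE B) (Nat.shiftRight B 25) = true := by
  have h' := (mc_blkOK_eq t J l1 n a B).symm.trans h
  rw [force_eq, band_eq, band_eq, force_eq, band_eq] at h'
  obtain ⟨a1, ⟨a2, a3⟩, a4⟩ := h'
  have := Nat.le_of_ble_eq_true a1
  rw [Nat.add_eq] at this
  exact ⟨this, Nat.eq_of_beq_eq_true a2, a3, a4⟩

theorem mc_blk_le {t : BT} {J l1 : ℕ} (n : ℕ) : ∀ {a B : ℕ}, blkOK t J l1 n a B = true → a ≤ J := by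
  induction n with
  | zero =>
    intro a B h
    have : a = J := Nat.eq_of_beq_eq_true h
    omega
  | succ n ih =>
    intro a B h
    obtain ⟨h1, -, -, h4⟩ := mc_blkOK_succ h
    have := ih h4
    omega

theorem mc_k0 {x : ℕ} (h : fld x 1 = 549755813888) : (dec x).k = 0 := by
  simp only [dec, mkE, bv]
  rw [h]; norm_num

theorem mc_blk_ent {t : BT} (ht : t.All ChunkOK) {J l1 : ℕ} (n : ℕ) : ∀ {a B : ℕ},
    blkOK t J l1 n a B = true → ∀ j, a ≤ j → j < J → (dec (mc_blkE t n B j)).Valid ∧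
      (dec (mc_blkE t n B j)).k = 0 ∧ (dec (mc_blkE t n B j)).Ok (l1 / 2 ^ 20 * tj j ^ 3) := by
  induction n with
  | zero =>
    intro a B h j h1 h2
    have : a = J := Nat.eq_of_beq_eq_true h
    omega
  | succ n ih =>
    intro a B h j h1 h2
    obtain ⟨-, a2, a3, a4⟩ := mc_blkOK_succ h
    rw [mc_blkE_succ]
    split_ifs with c
    · refine ⟨by rw [bI, force_eq]; exact ent_valid ht _, mc_k0 a2, ?_⟩
      rw [mc_tj]
      exact mc_okE a3 (by rw [Nat.add_eq]; omega)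
    · exact ih a4 j (by omega) h2

theorem mc_blk_sum {t : BT} {K J0 J th tf BP BM G l1 : ℕ} (hJ : J ≤ 256) (n : ℕ) : ∀ {a B : ℕ},
    blkOK t J l1 n a B = true → blkS t K J0 J th tf BP BM G n a B < 2 ^ 100 →
    ∑ j ∈ Finset.Ico a J, (rA K J0 J th tf j : ℝ)
      * exp (mc_ps (mc_blkE t n B j) (Nat.add j 1) BP BM G) * 2 ^ 40
      ≤ (blkS t K J0 J th tf BP BM G n a B : ℝ) := by
  induction n with
  | zero =>
    intro a B h _
    have : a = J := Nat.eq_of_beq_eq_true h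
    rw [this]; simp
  | succ n ih =>
    intro a B h hS
    obtain ⟨a1, -, -, a4⟩ := mc_blkOK_succ h
    have a5 := mc_blk_le n a4
    have e : blkS t K J0 J th tf BP BM G (n + 1) a B = force (bE B) fun b => Nat.add
      (force (bI t B) fun x => force (Nat.add a 1) fun a1 => force (yB x a1 b BP BM G) fun y =>
        ite' (Nat.ble 1 y) (Nat.mul (rB K J0 J th tf a b) (expT y))
          1267650600228229401496703205376)
      (blkS t K J0 J th tf BP BM G n b (Nat.shiftRight B 25)) := rfl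
    simp only [force_eq] at e
    rw [e] at hS ⊢
    clear e
    cases c : Nat.ble 1 (yB (bI t B) (Nat.add a 1) (bE B) BP BM G)
    · rw [c, ite'_false, Nat.add_eq] at hS; omega
    rw [c, ite'_true, Nat.add_eq] at hS
    rw [ite'_true, cast_nadd, cast_nmul, ← Finset.sum_Ico_consecutive _ (show a ≤ bE B by omega) a5]
    refine add_le_add ?_ (le_trans (le_of_eq (Finset.sum_congr rfl fun j hj => ?_)) (ih a4 (by omega)))
    · rw [rB, sumI_eq, Nat.cast_sum, Finset.sum_mul]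
      refine Finset.sum_le_sum fun j hj => ?_
      obtain ⟨b1, b2⟩ := Finset.mem_Ico.1 hj
      rw [mc_blkE_succ, if_pos b2, mul_assoc]
      refine mul_le_mul_of_nonneg_left (le_trans ?_ (expT_spec _)) (Nat.cast_nonneg _)
      refine mul_le_mul_of_nonneg_right (exp_le_exp.2 (mc_yB ?_ ?_ ?_ (by omega)
        (Nat.le_of_ble_eq_true c))) (by positivity)
      all_goals simp only [Nat.add_eq]; omega
    · rw [mc_blkE_succ, if_neg (by have := (Finset.mem_Ico.1 hj).1; omega)]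

seal cVf blkS blkOK S2f sumI sumN vU vY vIp vIm vLo le wv chkK chkJ chkVJ chkV allN

theorem mc_add1 (j : ℕ) : Nat.add j 1 = j + 1 := Nat.add_eq

theorem mc_kp {x : ℕ} (h : 549755813889 ≤ fld x 1) :
    1 ≤ bp (fld x 1) ∧ (dec x).k = bp (fld x 1) / 2 ^ 24 := by
  have h' := (Nat.cast_le (α := ℝ)).2 h
  rw [Nat.cast_ofNat] at h'
  clear h
  have e : (bp (fld x 1) : ℝ) = fld x 1 - 2 ^ 39 :=
    (cast_nsub (a := fld x 1) (b := 549755813888) (by push_cast; linarith)).trans (by norm_num)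
  have h1 : (1 : ℝ) ≤ bp (fld x 1) := by rw [e]; linarith
  refine ⟨Nat.one_le_cast.1 h1, ?_⟩
  rw [e]
  simp only [dec, mkE, bv]

theorem mc_km {x : ℕ} (h : fld x 1 ≤ 549755813887) :
    1 ≤ bn (fld x 1) ∧ -(dec x).k = bn (fld x 1) / 2 ^ 24 := by
  have h' : (fld x 1 : ℝ) ≤ 549755813887 := by exact_mod_cast h
  refine ⟨by rw [bn, Nat.sub_eq]; omega, ?_⟩
  rw [bn, cast_nsub (by push_cast; linarith)]
  simp only [dec, mkE, bv]
  push_cast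
  ring

theorem mc_c30 {w : ℕ} (h : w ≤ 4096) : |(c30 w : ℝ) - cos (w / 2 ^ 12) * 2 ^ 30| ≤ 2 ∧
    |(s30 w : ℝ) - sin (w / 2 ^ 12) * 2 ^ 30| ≤ 2 := by
  have h' : (w : ℝ) ≤ 4096 := by exact_mod_cast h
  have h0 : (0 : ℝ) ≤ w / 2 ^ 12 := by positivity
  have h1 : (w : ℝ) / 2 ^ 12 ≤ 1 := by linarith
  obtain ⟨a1, a2⟩ := aCS (Nat.shiftLeft w 12) (by rw [cast_shl]; linarith)
  rw [cast_shl, show (w : ℝ) * 2 ^ 12 / 2 ^ 24 = w / 2 ^ 12 by ring] at a1 a2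
  have c0 : 0 ≤ cos ((w : ℝ) / 2 ^ 12) :=
    cos_nonneg_of_mem_Icc ⟨by linarith [pi_gt_three], by linarith [pi_gt_three]⟩
  have s0 : 0 ≤ sin ((w : ℝ) / 2 ^ 12) :=
    sin_nonneg_of_nonneg_of_le_pi h0 (by linarith [pi_gt_three])
  rw [c30, s30, force_eq, force_eq]
  rw [abs_le] at a1 a2
  constructor
  · refine (shr_sub_near (e := 1) (by positivity) ?_).trans (by norm_num)
    rw [abs_le, Nat.cast_ofNat]
    constructor <;> linarith [a1.1, a1.2]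
  · refine (shr_sub_near (e := 1) (by positivity) ?_).trans (by norm_num)
    rw [abs_le, Nat.cast_ofNat]
    constructor <;> linarith [a2.1, a2.2]

theorem mc_ymul (y x : ℕ) : ymul y x = y * x := by
  rw [ymul]
  cases c : Nat.ble y 0
  · rw [ite'_false, Nat.mul_eq]
  · rw [ite'_true, Nat.le_zero.1 (Nat.le_of_ble_eq_true c), zero_mul]

/-- The angle of the cut. -/
noncomputable def mc_om (L j : ℕ) : ℝ := ((lf L j 7 : ℝ) - 32768) / 2 ^ 12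

theorem mc_sub2 (a b : ℕ) : (((Nat.sub a b : ℕ) : ℝ) - (Nat.sub b a : ℕ) = a - b) ∧
    (Nat.sub a b = 0 ∨ Nat.sub b a = 0) :=
  ⟨cast_sub_sub a b, by rw [Nat.sub_eq, Nat.sub_eq]; omega⟩

theorem mc_om_eq (L j : ℕ) : mc_om L j = (cWp L j : ℝ) / 2 ^ 12 - (cWn L j : ℝ) / 2 ^ 12 ∧
    (cWp L j = 0 ∨ cWn L j = 0) := by
  obtain ⟨h1, h2⟩ := mc_sub2 (lf L j 7) 32768
  delta cWp cWn
  refine ⟨?_, h2⟩
  rw [← sub_div, h1, mc_om, Nat.cast_ofNat]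

theorem mc_ck (t : BT) (L j : ℕ) :
    (dec (le t L j 6)).k = ((cKp t L j : ℝ) - cKn t L j) / 2 ^ 24 := by
  rw [cKp, cKn, bp_bn, mul_div_cancel_right₀ _ (by positivity)]
  rfl

theorem mc_trig {L j : ℕ} (h : cWp L j + cWn L j ≤ 4096) : |mc_om L j| ≤ 1 ∧
    |(cC L j : ℝ) - cos (mc_om L j) * 2 ^ 30| ≤ 2 ∧
    |(cSp L j : ℝ) - cSn L j - sin (mc_om L j) * 2 ^ 30| ≤ 4 ∧
    cC L j ≤ 2 ^ 31 ∧ cSp L j ≤ 2 ^ 31 ∧ cSn L j ≤ 2 ^ 31 := by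
  obtain ⟨e, hz⟩ := mc_om_eq L j
  have a1 := (mc_c30 h).1
  have a2 := (mc_c30 (show cWp L j ≤ 4096 by omega)).2
  have a3 := (mc_c30 (show cWn L j ≤ 4096 by omega)).2
  rw [← cSp] at a2
  rw [← cSn] at a3
  rw [← Nat.add_eq, ← cC, cast_nadd] at a1
  have h' : (cWp L j : ℝ) + cWn L j ≤ 4096 := by exact_mod_cast h
  have p0 : (0 : ℝ) ≤ cWp L j := by positivity
  have n0 : (0 : ℝ) ≤ cWn L j := by positivity
  have ec : cos (mc_om L j) = cos (((cWp L j : ℝ) + cWn L j) / 2 ^ 12) := by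
    rw [e]
    rcases hz with hz | hz <;> simp [hz]
  have es : sin (mc_om L j) = sin ((cWp L j : ℝ) / 2 ^ 12) - sin ((cWn L j : ℝ) / 2 ^ 12) := by
    rw [e]
    rcases hz with hz | hz <;> simp [hz]
  rw [← ec] at a1
  have b1 := abs_le.1 a1
  have b2 := abs_le.1 a2
  have b3 := abs_le.1 a3
  refine ⟨by rw [e, abs_le]; constructor <;> linarith, a1,
    by rw [es, abs_le]; constructor <;> linarith [b2.1, b2.2, b3.1, b3.2], ?_, ?_, ?_⟩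
  · exact_mod_cast show (cC L j : ℝ) ≤ 2 ^ 31 by linarith [cos_le_one (mc_om L j), b1.2]
  · exact_mod_cast show (cSp L j : ℝ) ≤ 2 ^ 31 by
      linarith [sin_le_one ((cWp L j : ℝ) / 2 ^ 12), b2.2]
  · exact_mod_cast show (cSn L j : ℝ) ≤ 2 ^ 31 by
      linarith [sin_le_one ((cWn L j : ℝ) / 2 ^ 12), b3.2]

theorem mc_dle {y a b x : ℕ} (h : y * (16777216 + (a + b)) ≤ 4398046511104)
    (hx : x ≤ (16777216 + (a + b)) * 2 ^ 31) : ymul y x ≤ 2 ^ 73 := by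
  rw [mc_ymul]
  calc y * x ≤ y * ((16777216 + (a + b)) * 2 ^ 31) := Nat.mul_le_mul_left _ hx
    _ = y * (16777216 + (a + b)) * 2 ^ 31 := (mul_assoc _ _ _).symm
    _ ≤ 4398046511104 * 2 ^ 31 := Nat.mul_le_mul_right _ h
    _ = 2 ^ 73 := by norm_num

theorem mc_derr {y a b C S c s : ℝ} (hy : 0 ≤ y) (ha : 0 ≤ a) (hb : 0 ≤ b)
    (h : y * (16777216 + (a + b)) ≤ 4398046511104) (hc : |C - c * 2 ^ 30| ≤ 4)
    (hs : |S - s * 2 ^ 30| ≤ 4) :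
    |y * (C * 2 ^ 24 + (a - b) * S) / 2 ^ 70 - y / 2 ^ 16 * (c + (a - b) / 2 ^ 24 * s)|
      ≤ 1 / 2 ^ 26 := by
  have h1 : |y * (a - b)| ≤ y * (a + b) := by
    rw [abs_mul, abs_of_nonneg hy]
    exact mul_le_mul_of_nonneg_left (abs_le.2 ⟨by linarith, by linarith⟩) hy
  have h2 := abs_le.1 (kc_prod h1 hs)
  have h3 := abs_le.1 (kc_prod (abs_of_nonneg hy).le hc)
  rw [abs_le]
  constructor <;> linarith [h2.1, h2.2, h3.1, h3.2]

theorem mc_cut {t : BT} {L l1 j : ℕ} (h : chkCut t L l1 j = true) :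
    (lf L j 8 = 0 ∨ (|mc_om L j| ≤ 1 ∧ (dec (le t L j 6)).Ok (l1 / 2 ^ 20 * tj j ^ 3))) ∧
    (d1n t L j ≤ 2 ^ 73 ∧ d1p t L j ≤ 2 ^ 73 ∧ d2n t L j ≤ 2 ^ 73 ∧ d2p t L j ≤ 2 ^ 73) ∧
    |((d1p t L j : ℝ) - d1n t L j) / 2 ^ 70 - (lf L j 8 : ℝ) / 2 ^ 16
      * (cos (mc_om L j) - (dec (le t L j 6)).k * sin (mc_om L j))| ≤ 1 / 2 ^ 26 ∧
    |((d2p t L j : ℝ) - d2n t L j) / 2 ^ 70 - (lf L j 8 : ℝ) / 2 ^ 16
      * (sin (mc_om L j) + (dec (le t L j 6)).k * cos (mc_om L j))| ≤ 1 / 2 ^ 26 := by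
  rw [chkCut, bor_eq, band_eq, band_eq] at h
  rcases h with h | ⟨a1, a2, a3⟩
  · have h0 := Nat.le_zero.1 (Nat.le_of_ble_eq_true h)
    rw [d1n, d1p, d2n, d2p, mc_ymul, mc_ymul, mc_ymul, mc_ymul, h0]
    simp
  have b2 := Nat.le_of_ble_eq_true a2
  have b3 := Nat.le_of_ble_eq_true a3
  rw [Nat.add_eq] at b2
  rw [Nat.mul_eq, Nat.add_eq, Nat.add_eq] at b3
  obtain ⟨c1, c2, c3, c4, c5, c6⟩ := mc_trig b2
  have m1 := Nat.mul_le_mul_left (cKp t L j) c4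
  have m2 := Nat.mul_le_mul_left (cKp t L j) c5
  have m3 := Nat.mul_le_mul_left (cKp t L j) c6
  have m4 := Nat.mul_le_mul_left (cKn t L j) c4
  have m5 := Nat.mul_le_mul_left (cKn t L j) c5
  have m6 := Nat.mul_le_mul_left (cKn t L j) c6
  have b4 : (lf L j 8 : ℝ) * (16777216 + ((cKp t L j : ℝ) + cKn t L j)) ≤ 4398046511104 := by
    exact_mod_cast b3
  refine ⟨Or.inr ⟨c1, by rw [mc_tj]; exact mc_okE a1 le_rfl⟩, ⟨mc_dle b3 ?_, mc_dle b3 ?_,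
    mc_dle b3 ?_, mc_dle b3 ?_⟩, ?_, ?_⟩
  · rw [Nat.add_eq, Nat.mul_eq, Nat.mul_eq]; omega
  · rw [Nat.add_eq, Nat.add_eq, nshl_eq, Nat.mul_eq, Nat.mul_eq]; omega
  · rw [Nat.add_eq, nshl_eq, Nat.mul_eq]; omega
  · rw [Nat.add_eq, nshl_eq, Nat.mul_eq]; omega
  · have := mc_derr (Nat.cast_nonneg _) (Nat.cast_nonneg (cKn t L j)) (Nat.cast_nonneg (cKp t L j))
      (by rwa [add_comm (cKn t L j : ℝ)]) (c2.trans (by norm_num)) c3
    rw [d1p, d1n, mc_ymul, mc_ymul, mc_ck, Nat.cast_mul, Nat.cast_mul]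
    simp only [cast_nadd, cast_nmul, cast_shl]
    convert this using 2
    ring
  · have := mc_derr (Nat.cast_nonneg _) (Nat.cast_nonneg _) (Nat.cast_nonneg _) b4 c3
      (c2.trans (by norm_num))
    rw [d2p, d2n, mc_ymul, mc_ymul, mc_ck, Nat.cast_mul, Nat.cast_mul]
    simp only [cast_nadd, cast_nmul, cast_shl]
    convert this using 2
    ring

theorem mc_H {t : BT} {L BP BM G j : ℕ} (hj : j < 9)
    (h : bor (Nat.ble (lf L j 8) 0) (Nat.ble (cNeg t L j) (vY t L BP BM G j 6)) = true) :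
    (lf L j 8 : ℝ) / 2 ^ 16 * exp (mc_ps (le t L j 6) (Nat.add j 1) BP BM G
      - (dec (le t L j 6)).k * mc_om L j) ≤ vH t L BP BM G j / 2 ^ 56 := by
  rw [vH, mc_ymul, Nat.cast_mul]
  rcases (bor_eq _ _).1 h with h | h
  · rw [Nat.le_zero.1 (Nat.le_of_ble_eq_true h)]
    simp
  have b1 := ble_cast h
  have a1 := cast_shr_le
    (Nat.add (Nat.mul (cKp t L j) (cWp L j)) (Nat.mul (cKn t L j) (cWn L j))) 4
  have a2 := cast_shr_ge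
    (Nat.add (Nat.mul (cKp t L j) (cWn L j)) (Nat.mul (cKn t L j) (cWp L j))) 4
  have a3 : (cNeg t L j : ℝ) = (Nat.shiftRight
      (Nat.add (Nat.mul (cKp t L j) (cWn L j)) (Nat.mul (cKn t L j) (cWp L j))) 4 : ℕ) + 1 := by
    rw [cNeg, cast_nadd, Nat.cast_one]
  have a4 : 1 ≤ vY t L BP BM G j 6 :=
    le_trans (by rw [cNeg, mc_add1]; omega) (Nat.le_of_ble_eq_true h)
  have e1 : vY t L BP BM G j 6 = yv (le t L j 6) (Nat.add j 1) BP BM G := by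
    rw [vY, force_eq, force_eq]
  have a5 := mc_yv (n := Nat.add j 1) (by rw [mc_add1]; omega) (by rw [mc_add1]; omega) (e1 ▸ a4)
  rw [← e1] at a5
  rw [← cPos] at a1
  rw [cast_nadd, cast_nmul, cast_nmul] at a1
  have a6 := expT_spec (Nat.sub (Nat.add (vY t L BP BM G j 6) (cPos t L j)) (cNeg t L j))
  have p0 : (0 : ℝ) ≤ cPos t L j := by positivity
  rw [cast_nsub (by rw [cast_nadd]; linarith), cast_nadd] at a6
  generalize ((Nat.shiftRight (Nat.add (Nat.mul (cKp t L j) (cWn L j))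
    (Nat.mul (cKn t L j) (cWp L j))) 4 : ℕ) : ℝ) = z at a2 a3
  rw [cast_nadd, cast_nmul, cast_nmul] at a2
  have a7 : exp (mc_ps (le t L j 6) (Nat.add j 1) BP BM G - (dec (le t L j 6)).k * mc_om L j)
      ≤ exp (8 - ((vY t L BP BM G j 6 : ℝ) + cPos t L j - cNeg t L j) / 2 ^ 32) := by
    rw [mc_ck, (mc_om_eq L j).1]
    exact exp_le_exp.2 (by linarith)
  have a8 := mul_le_mul_of_nonneg_left ((mul_le_mul_of_nonneg_right a7 (by positivity)).trans a6)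
    (Nat.cast_nonneg (α := ℝ) (lf L j 8))
  linarith

theorem mc_J {t : BT} {L l1 j : ℕ} (h : chkJ t L l1 j = true) :
    (dec (le t L j 0)).Ok (l1 / 2 ^ 20 * tj j ^ 3) ∧ (dec (le t L j 1)).Ok (l1 / 2 ^ 20 * tj j ^ 3) ∧
    (dec (le t L j 2)).Ok (l1 / 2 ^ 20 * tj j ^ 3) ∧ (dec (le t L j 0)).k = 0 ∧
    549755813889 ≤ fld (le t L j 1) 1 ∧ fld (le t L j 2) 1 ≤ 549755813887 ∧
    (0 < (lf L j 4 : ℝ) / 2 ^ 14 ∧ (lf L j 4 : ℝ) / 2 ^ 14 ≤ 2 ∧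
      l1 / 2 ^ 20 * tj j ^ 3 ≤ ((lf L j 4 : ℝ) / 2 ^ 14) ^ 3 ∧
      exp (-(((lf L j 4 : ℝ) / 2 ^ 14) ^ 2 / 2) - lf L j 5 / 2 ^ 16 * ((lf L j 4 : ℝ) / 2 ^ 14) ^ 3)
        ≤ cos (lf L j 4 / 2 ^ 14)) ∧ (lf L j 3 : ℝ) ^ 2 ≤ 2 ^ 31 ∧ chkCut t L l1 j = true := by
  rw [chkJ, force_eq, force_eq, force_eq, force_eq, force_eq, band_eq, band_eq, band_eq, band_eq,
    band_eq, band_eq, band_eq, band_eq, band_eq, band_eq, band_eq, force_eq] at h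
  obtain ⟨a1, a2, a3, a4, a5, a6, a7, a8, a9, a10, a11, a12⟩ := h
  have b7 := ble_cast a7
  have b8 := ble_cast a8
  have b9 := ble_cast a9
  have b10 := ble_cast a10
  rw [cast_shl, cast_nmul, mc_cu, mc_cu] at b9
  rw [mc_sq] at b10
  rw [mc_tj]
  refine ⟨mc_okE a1 le_rfl, mc_okE a2 le_rfl, mc_okE a3 le_rfl, mc_k0 (Nat.eq_of_beq_eq_true a4),
    Nat.le_of_ble_eq_true a5, Nat.le_of_ble_eq_true a6, ⟨?_, ?_, ?_,
    mc_SC (Nat.le_of_ble_eq_true a8) a11⟩, ?_, a12⟩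
  all_goals
    clear a1 a2 a3 a4 a5 a6 a7 a8 a9 a10 a11 a12
    push_cast at b7 b8 b10
    linarith

theorem mc_VJ {t : BT} {L l1 l BP BM G j : ℕ} (hj : j < 9)
    (hp : 549755813889 ≤ fld (le t L j 1) 1) (hm : fld (le t L j 2) 1 ≤ 549755813887)
    (h : chkVJ t L l1 l BP BM G j = true) :
    (vU t L BP BM G j + vLo L l1 l j + (vIp t L BP BM G j + vIm t L BP BM G j) ≤ 2 ^ 44 ∧
      (lf L j 8 : ℝ) / 2 ^ 16 * exp (mc_ps (le t L j 6) (Nat.add j 1) BP BM G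
        - (dec (le t L j 6)).k * mc_om L j) ≤ vH t L BP BM G j / 2 ^ 56) ∧
    exp (mc_ps (le t L j 0) (Nat.add j 1) BP BM G) ≤ vU t L BP BM G j / 2 ^ 40 ∧
    exp (mc_ps (le t L j 1) (Nat.add j 1) BP BM G - 1)
      ≤ (dec (le t L j 1)).k * (vIp t L BP BM G j / 2 ^ 40) ∧
    exp (mc_ps (le t L j 2) (Nat.add j 1) BP BM G - 1)
      ≤ -(dec (le t L j 2)).k * (vIm t L BP BM G j / 2 ^ 40) ∧
    mc_ps (le t L j 1) (Nat.add j 1) BP BM G + tj j ^ 2 / 2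
      + lf L j 5 / 2 ^ 16 * (l / 2 ^ 20 * tj j ^ 3) ≤ (dec (le t L j 1)).k * (lf L j 3 / 2 ^ 15) ∧
    mc_ps (le t L j 2) (Nat.add j 1) BP BM G + tj j ^ 2 / 2
      + lf L j 5 / 2 ^ 16 * (l / 2 ^ 20 * tj j ^ 3) ≤ -(dec (le t L j 2)).k * (lf L j 3 / 2 ^ 15) := by
  rw [chkVJ, band_eq, force_eq, band_eq, band_eq] at h
  obtain ⟨a1, a2, a3, a4⟩ := h
  have n1 : 1 ≤ Nat.add j 1 := by rw [mc_add1]; omega
  have n2 : Nat.add j 1 ≤ 256 := by rw [mc_add1]; omega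
  have e0 : vU t L BP BM G j = expT (yv (le t L j 0) (Nat.add j 1) BP BM G) := by
    rw [vU, force_eq, force_eq]
  have e1 : ∀ i, vY t L BP BM G j i = yv (le t L j i) (Nat.add j 1) BP BM G := fun i => by
    rw [vY, force_eq, force_eq]
  have b1 := Nat.le_of_ble_eq_true a1
  rw [Nat.add_eq, Nat.add_eq, Nat.add_eq] at b1
  rw [e1] at a2 a3
  have c2 := mc_yv n1 n2 (Nat.le_of_ble_eq_true ((band_eq _ _).1 a2).1)
  have c3 := mc_yv n1 n2 (Nat.le_of_ble_eq_true ((band_eq _ _).1 a3).1)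
  obtain ⟨p1, p2⟩ := mc_kp hp
  obtain ⟨m1, m2⟩ := mc_km hm
  have b2 : vU t L BP BM G j ≤ 2 ^ 44 := by omega
  rw [p2, m2, mc_tj]
  refine ⟨⟨by omega, mc_H hj a4⟩, ?_, ?_, ?_, mc_O n1 n2 a2, mc_O n1 n2 a3⟩
  · rw [e0] at b2 ⊢
    exact mc_U n1 n2 (by exact_mod_cast b2)
  · rw [vIp, e1]; exact mc_I p1 c2
  · rw [vIm, e1]; exact mc_I m1 c3

theorem mc_rows {t : BT} {Cn K L ilo ihi Jf l1 l BP BM G cV : ℕ} {cant : Bool}
    {ap an bp' bn' : ℕ → ℕ → ℕ} (hJf : Jf ≤ 9) (hi : ilo ≤ ihi) (hi2 : ihi < 512)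
    (hCn : Cn ≤ 2 ^ 30) (hl : l ≤ 2 ^ 21)
    (hr : ∀ j < Jf, Rep 128 512 (rAp t K L j) (ap j) (2 ^ 76) ∧ Rep 128 512 (rAn t K L j) (an j) (2 ^ 76) ∧
      Rep 128 512 (rBp t K L j) (bp' j) (2 ^ 76) ∧ Rep 128 512 (rBn t K L j) (bn' j) (2 ^ 76))
    (hb : ∀ j < Jf,
      vU t L BP BM G j + vLo L l1 l j + (vIp t L BP BM G j + vIm t L BP BM G j) ≤ 2 ^ 44)
    (h : chkV2 ilo ihi cV
      (Nat.add (Nat.add (sumN Jf fun j => Nat.add (Nat.mul (vU t L BP BM G j) (rAp t K L j))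
          (Nat.add (Nat.mul (vIp t L BP BM G j) (rBp t K L j)) (Nat.mul (vIm t L BP BM G j) (rBn t K L j))))
        rQ) (Nat.mul cV one128))
      (Nat.add (sumN Jf fun j => Nat.mul (vLo L l1 l j) (rAn t K L j))
        (Nat.mul (Nat.add (Nat.shiftLeft (Nat.mul Cn l) 60) 324518553658426726783156020576256)
          one128)) cant = true) :
    cV ≤ 2 ^ 120 ∧ ∃ X Y : ℕ → ℕ, (∀ i, (X i : ℝ) = ∑ j ∈ Finset.range Jf,
        ((vU t L BP BM G j : ℝ) * ap j i + (vIp t L BP BM G j * bp' j i + vIm t L BP BM G j * bn' j i))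
          + (i + 256) ^ 2 * 2 ^ 90 + cV) ∧
      (∀ i, (Y i : ℝ) = ∑ j ∈ Finset.range Jf, (vLo L l1 l j : ℝ) * an j i
        + (Cn * l * 2 ^ 60 + 2 ^ 108)) ∧
      (∀ i, ilo ≤ i → i ≤ ihi → X i ≤ Y i + fT i) ∧ (cant = true ∨ X ilo ≤ Y ilo) := by
  rw [chkV2, band_eq, band_eq, bor_eq] at h
  obtain ⟨a1, a2, a3⟩ := h
  have b1 : cV ≤ 2 ^ 120 := Nat.le_of_ble_eq_true a1
  have b2 : Nat.add (Nat.shiftLeft (Nat.mul Cn l) 60) 324518553658426726783156020576256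
      ≤ 2 ^ 112 := by
    have := Nat.mul_le_mul hCn hl
    rw [Nat.add_eq, nshl_eq, Nat.mul_eq]
    omega
  have hs : ∀ c : ℕ, ∑ _j ∈ Finset.range Jf, c ≤ 9 * c := fun c => by
    rw [Finset.sum_const, Finset.card_range, smul_eq_mul]
    exact Nat.mul_le_mul_right _ hJf
  have rX := (((Rep.sumN (m := Jf) fun j hj =>
    ((hr j hj).1.mul' (C := 2 ^ 44) (c := vU t L BP BM G j) (by have := hb j hj; omega)).add
      (((hr j hj).2.2.1.mul' (C := 2 ^ 44) (c := vIp t L BP BM G j) (by have := hb j hj; omega)).add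
        ((hr j hj).2.2.2.mul' (C := 2 ^ 44) (c := vIm t L BP BM G j)
          (by have := hb j hj; omega)))).mono (hs _)).add rQ_rep).add (one128_rep.mul' b1)
  have rY := ((Rep.sumN (m := Jf) fun j hj =>
    (hr j hj).2.1.mul' (C := 2 ^ 44) (c := vLo L l1 l j) (by have := hb j hj; omega)).mono
      (hs _)).add (one128_rep.mul' b2)
  refine ⟨b1, _, _, fun i => ?_, fun i => ?_, fun i h1 h2 => geqR_sound (w := 127) h128_eq
    (rY.add rT_rep) rX (by norm_num) (by norm_num) a2 h1 (by rw [Nat.sub_eq, Nat.add_eq]; omega)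
    (by omega), a3.imp_right fun a => geqR_sound (w := 127) h128_eq rY rX (by norm_num)
      (by norm_num) a le_rfl (by omega) (by omega)⟩
  · push_cast; ring
  · rw [Nat.cast_add, mul_one, cast_nadd, cast_shl, cast_nmul]
    push_cast; ring

/-- The left side of the grid inequality at a vertex. -/
noncomputable def mc_V (t : BT) (K L B J0 J th tf a0 Jf nb l1 l BP BM G : ℕ)
    (ap an bp' bn' : ℕ → ℕ → ℕ) (i : ℕ) : ℝ :=
  a0 / 2 ^ 30 + 1 / (16 * π ^ 2) + sx i ^ 2 + sx i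
    + ∑ j ∈ Finset.range Jf, ((ap j i : ℝ) / 2 ^ 70 * (vU t L BP BM G j / 2 ^ 40)
      - an j i / 2 ^ 70 * (vLo L l1 l j / 2 ^ 40) + bp' j i / 2 ^ 70 * (vIp t L BP BM G j / 2 ^ 40)
      + bn' j i / 2 ^ 70 * (vIm t L BP BM G j / 2 ^ 40) + vH t L BP BM G j / 2 ^ 56
      + 2 * (4 / 2 ^ 40 + 1 / 2 ^ 26))
    + ∑ j ∈ Finset.Ico Jf J, rR' K J0 J th tf j * exp (mc_ps (mc_blkE t nb B j) (Nat.add j 1) BP BM G)
    + (∑ j ∈ Finset.range Jf, (2 * π * (j + 1)) ^ 2 * rR' K J0 J th tf j) / (8 * 1024 ^ 2)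

theorem mc_pois {A S : ℕ} (h : Nat.add A (Nat.shiftLeft S 40) ≤ 2 ^ 120) : S < 2 ^ 100 := by
  rw [Nat.add_eq, nshl_eq] at h
  omega

theorem mc_cV {t : BT} {K L B J0 J th tf a0 Jf nb l1 BP BM G : ℕ} (hJf : Jf ≤ 9) (h0 : Jf ≤ J0)
    (hJ : J ≤ 256) (hB : blkOK t J l1 nb Jf B = true)
    (h : cVf t K L B J0 J th tf a0 Jf nb BP BM G ≤ 2 ^ 120) :
    (a0 : ℝ) / 2 ^ 30 + 1 / (16 * π ^ 2) + Jf * (2 * (4 / 2 ^ 40 + 1 / 2 ^ 26))
      + (∑ j ∈ Finset.range Jf, (vH t L BP BM G j : ℝ)) / 2 ^ 56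
      + ∑ j ∈ Finset.Ico Jf J,
        rR' K J0 J th tf j * exp (mc_ps (mc_blkE t nb B j) (Nat.add j 1) BP BM G)
      + (∑ j ∈ Finset.range Jf, (2 * π * (j + 1)) ^ 2 * rR' K J0 J th tf j) / (8 * 1024 ^ 2)
      ≤ cVf t K L B J0 J th tf a0 Jf nb BP BM G / 2 ^ 110 := by
  have a1 : blkS t K J0 J th tf BP BM G nb Jf B < 2 ^ 100 := by
    delta cVf at h
    exact mc_pois h
  have a2 := mc_blk_sum hJ nb hB a1
  have a3 : ∑ j ∈ Finset.Ico Jf J,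
        rR' K J0 J th tf j * exp (mc_ps (mc_blkE t nb B j) (Nat.add j 1) BP BM G)
      = (∑ j ∈ Finset.Ico Jf J, (rA K J0 J th tf j : ℝ)
        * exp (mc_ps (mc_blkE t nb B j) (Nat.add j 1) BP BM G) * 2 ^ 40) / 2 ^ 70 := by
    rw [Finset.sum_div]
    exact Finset.sum_congr rfl fun j _ => by rw [rR']; ring
  have a4 : ∑ j ∈ Finset.range Jf, (2 * π * (j + 1)) ^ 2 * rR' K J0 J th tf j
      = 4 * π ^ 2 * S2f K Jf / 2 ^ 30 := by
    rw [S2f, sumI_eq, Nat.cast_sum, Finset.mul_sum, Finset.sum_div, Finset.range_eq_Ico]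
    refine Finset.sum_congr rfl fun j hj => ?_
    rw [rR', rA_low (lt_of_lt_of_le (Finset.mem_Ico.1 hj).2 h0), cast_nmul, mc_sq, cast_nadd]
    push_cast
    ring
  have p1 : π ^ 2 ≤ 79 / 8 := by nlinarith [pi_lt_d4, pi_pos]
  have p2 : 1 / (16 * π ^ 2) ≤ 27198210 / 2 ^ 32 := by
    rw [div_le_div_iff₀ (by positivity) (by positivity)]
    nlinarith [pi_gt_d20]
  have p3 : (Jf : ℝ) ≤ 9 := by exact_mod_cast hJf
  have p4 := mul_le_mul_of_nonneg_right p1 (Nat.cast_nonneg (α := ℝ) (S2f K Jf))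
  delta cVf
  rw [a3, a4, cast_nadd, cast_nadd, cast_nadd, cast_nadd, cast_shl, cast_shl, cast_shl, cast_shl,
    cast_nmul, sumN_eq, Nat.cast_sum]
  clear h a1 a3 a4
  push_cast
  linear_combination a2 / 2 ^ 70 + p2 + 2 * (4 / 2 ^ 40 + 1 / 2 ^ 26) * p3 + 4 / 2 ^ 53 * p4

theorem mc_vertex {t : BT} {Cn K L B J0 J th tf a0 Jf nb ilo ihi l1 l BP BM G : ℕ} {cant : Bool}
    {ap an bp' bn' : ℕ → ℕ → ℕ} (hJf : Jf ≤ 9) (h0 : Jf ≤ J0) (hJ : J ≤ 256) (hi : ilo ≤ ihi)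
    (hi2 : ihi < 512) (hCn : Cn ≤ 2 ^ 30) (hl : l ≤ 2 ^ 21) (hB : blkOK t J l1 nb Jf B = true)
    (hr : ∀ j < Jf, Rep 128 512 (rAp t K L j) (ap j) (2 ^ 76) ∧ Rep 128 512 (rAn t K L j) (an j) (2 ^ 76) ∧
      Rep 128 512 (rBp t K L j) (bp' j) (2 ^ 76) ∧ Rep 128 512 (rBn t K L j) (bn' j) (2 ^ 76))
    (hb : ∀ j < Jf,
      vU t L BP BM G j + vLo L l1 l j + (vIp t L BP BM G j + vIm t L BP BM G j) ≤ 2 ^ 44)
    (h : chkV t Cn K L B J0 J th tf a0 Jf nb ilo ihi l1 l BP BM G cant = true) :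
    (∀ i, ilo ≤ i → i ≤ ihi → mc_V t K L B J0 J th tf a0 Jf nb l1 l BP BM G ap an bp' bn' i
      ≤ fT i / 2 ^ 110 + Cn / 2 ^ 30 * (l / 2 ^ 20)) ∧
    (cant = true ∨ mc_V t K L B J0 J th tf a0 Jf nb l1 l BP BM G ap an bp' bn' ilo
      ≤ Cn / 2 ^ 30 * (l / 2 ^ 20)) := by
  rw [chkV, band_eq] at h
  obtain ⟨b1, X, Y, hX, hY, b2, b3⟩ := mc_rows hJf hi hi2 hCn hl hr hb h.2
  have b4 := mc_cV hJf h0 hJ hB b1
  clear h b1
  have key : ∀ i, mc_V t K L B J0 J th tf a0 Jf nb l1 l BP BM G ap an bp' bn' i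
      ≤ (X i - Y i) / 2 ^ 110 + Cn / 2 ^ 30 * (l / 2 ^ 20) := by
    intro i
    have e : ∑ j ∈ Finset.range Jf, ((ap j i : ℝ) / 2 ^ 70 * (vU t L BP BM G j / 2 ^ 40)
        - an j i / 2 ^ 70 * (vLo L l1 l j / 2 ^ 40) + bp' j i / 2 ^ 70 * (vIp t L BP BM G j / 2 ^ 40)
        + bn' j i / 2 ^ 70 * (vIm t L BP BM G j / 2 ^ 40) + vH t L BP BM G j / 2 ^ 56
        + 2 * (4 / 2 ^ 40 + 1 / 2 ^ 26))
        = (∑ j ∈ Finset.range Jf, ((vU t L BP BM G j : ℝ) * ap j i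
          + (vIp t L BP BM G j * bp' j i + vIm t L BP BM G j * bn' j i))
          - ∑ j ∈ Finset.range Jf, (vLo L l1 l j : ℝ) * an j i) / 2 ^ 110
          + (∑ j ∈ Finset.range Jf, (vH t L BP BM G j : ℝ)) / 2 ^ 56
          + Jf * (2 * (4 / 2 ^ 40 + 1 / 2 ^ 26)) := by
      rw [Finset.sum_add_distrib, Finset.sum_add_distrib, Finset.sum_const, Finset.card_range,
        nsmul_eq_mul, ← Finset.sum_sub_distrib, Finset.sum_div, Finset.sum_div]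
      congr 2
      exact Finset.sum_congr rfl fun j _ => by ring
    rw [mc_V, e, hX, hY, sx]
    linarith
  refine ⟨fun i h1 h2 => ?_, b3.imp_right fun a => ?_⟩
  · have : (X i : ℝ) ≤ Y i + fT i := by exact_mod_cast b2 i h1 h2
    linarith [key i]
  · have : (X ilo : ℝ) ≤ Y ilo := by exact_mod_cast a
    linarith [key ilo]

/-- Choice of an endpoint. -/
def mc_sel (b : Bool) (x y : ℕ) : ℕ := if b then y else x

theorem mc_sel_cast (b : Bool) (x y : ℕ) (c : ℝ) : sel b (x / c) (y / c) = mc_sel b x y / c := by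
  cases b <;> rfl

theorem mc_sel_le {b : Bool} {x y : ℕ} (h : x ≤ y) : mc_sel b x y ≤ y := by
  cases b
  · exact h
  · exact le_rfl

theorem mc_all8 {f : ℕ → ℕ → ℕ → Bool} {l0 l1 u0 u1 g0 g1 : ℕ}
    (h : all8 f l0 l1 u0 u1 g0 g1 = true) (b1 b2 b3 : Bool) :
    f (mc_sel b1 l0 l1) (mc_sel b2 u0 u1) (mc_sel b3 g0 g1) = true := by
  simp only [all8, band_eq] at h
  obtain ⟨a1, a2, a3, a4, a5, a6, a7, a8⟩ := h
  cases b1 <;> cases b2 <;> cases b3 <;> assumption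

noncomputable def mc_BP (l0 l1 u0 u1 : ℕ) (b1 b2 : Bool) : ℕ :=
  Nat.mul (mc_sel b2 u0 u1) (mc_sel b1 l0 l1)

noncomputable def mc_BM (l0 l1 u0 u1 : ℕ) (b1 b2 : Bool) : ℕ :=
  Nat.mul (Nat.sub 65536 (mc_sel b2 u0 u1)) (mc_sel b1 l0 l1)

noncomputable def mc_G (l0 l1 g0 g1 c0 c1 : ℕ) (b1 b3 : Bool) : ℕ :=
  Nat.mul (mc_sel b3 g0 g1) (Nat.add (Nat.shiftLeft c0 20) (Nat.mul c1 (mc_sel b1 l0 l1)))

theorem mc_vpsi (x : ℕ) {l0 l1 u0 u1 g0 g1 c0 c1 : ℕ} (h0 : u0 ≤ u1) (h1 : u1 ≤ 65536) (j : ℕ)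
    (b1 b2 b3 : Bool) : vpsi (dec x) (l0 / 2 ^ 20) (l1 / 2 ^ 20) (u0 / 2 ^ 16) (u1 / 2 ^ 16)
      (g0 / 2 ^ 16) (g1 / 2 ^ 16) (c0 / 2 ^ 20) (c1 / 2 ^ 20) j b1 b2 b3
      = mc_ps x (Nat.add j 1) (mc_BP l0 l1 u0 u1 b1 b2) (mc_BM l0 l1 u0 u1 b1 b2)
        (mc_G l0 l1 g0 g1 c0 c1 b1 b3) := by
  rw [vpsi, mc_ps, mc_tj, mc_sel_cast, mc_sel_cast, mc_sel_cast, mc_BP, mc_BM, mc_G, cast_nmul,
    cast_nmul, cast_nmul, cast_nsub (Nat.cast_le.2 ((mc_sel_le h0).trans h1)),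
    cast_nadd (Nat.shiftLeft c0 20), cast_shl, cast_nmul]
  congr 1 <;> push_cast <;> ring

theorem mc_cant {Cn l0 ilo : ℕ} (h : cantB Cn l0 ilo = true) :
    ilo ≤ 256 ∧ (1 : ℝ) ≤ Cn / 2 ^ 30 * (l0 / 2 ^ 20) * (1 + (4 * π * sx ilo) ^ 2) := by
  rw [cantB, band_eq] at h
  have a1 := ble_cast h.1
  have a2 := ble_cast h.2
  refine ⟨Nat.le_of_ble_eq_true h.1, ?_⟩
  rw [cast_nmul, cast_nmul, cast_nadd, cast_nmul, mc_sq, cast_nsub a1] at a2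
  clear h
  push_cast at a2
  have p1 : (161703 : ℝ) ≤ 16384 * π ^ 2 := by nlinarith [pi_gt_d20]
  have p2 := mul_le_mul_of_nonneg_left p1
    (show (0 : ℝ) ≤ Cn * l0 * (256 - (ilo : ℝ)) ^ 2 by positivity)
  rw [sx]
  linear_combination a2 / 2 ^ 80 + p2 / 2 ^ 80

theorem mc_M2 {t : BT} (ht : t.All ChunkOK)
    {Cn c0 c1 l0 l1 u0 u1 g0 g1 K L B J0 J th tf a0 Jf nb ilo ihi : ℕ} (hi2 : ihi < 512)
    (h : chkM2 t Cn c0 c1 l0 l1 u0 u1 g0 g1 K L B J0 J th tf a0 Jf nb ilo ihi = true) :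
    CovN Cn c0 c1 l0 l1 u0 u1 g0 g1 := by
  simp only [chkM2, band_eq] at h
  obtain ⟨⟨⟨⟨s1, s2⟩, s3, s4⟩, ⟨s5, s6⟩, s7, s8⟩, ⟨⟨⟨s9, s10⟩, s11, s12⟩, ⟨s13, s14⟩, s15⟩,
    hJ, hB, hK, hW⟩ := h
  have r15 := ble_cast s15
  rw [cast_nadd, cast_shl, cast_nmul, Nat.cast_ofNat] at r15
  clear s15
  replace s1 := Nat.le_of_ble_eq_true s1
  replace s2 := Nat.le_of_ble_eq_true s2
  replace s3 := Nat.le_of_ble_eq_true s3
  replace s4 := Nat.le_of_ble_eq_true s4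
  replace s5 := Nat.le_of_ble_eq_true s5
  replace s6 := Nat.le_of_ble_eq_true s6
  replace s7 := Nat.le_of_ble_eq_true s7
  replace s8 := Nat.le_of_ble_eq_true s8
  replace s9 := Nat.le_of_ble_eq_true s9
  replace s10 := Nat.le_of_ble_eq_true s10
  replace s11 := Nat.le_of_ble_eq_true s11
  replace s12 := Nat.le_of_ble_eq_true s12
  replace s13 := Nat.le_of_ble_eq_true s13
  replace s14 := Nat.le_of_ble_eq_true s14
  rw [mc_add1] at s2 s5 s7 s14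
  have hl : l0 ≤ l1 := by omega
  have hu : u0 ≤ u1 := by omega
  have hlt : ∀ {a b : ℕ} (k : ℕ), a + 1 ≤ b → (a : ℝ) / 2 ^ k < b / 2 ^ k := fun k h =>
    div_lt_div_of_pos_right (Nat.cast_lt.2 h) (by positivity)
  have hpos : ∀ {a : ℕ} (k : ℕ), 1 ≤ a → 0 < (a : ℝ) / 2 ^ k := fun k h =>
    div_pos (Nat.cast_pos.2 h) (by positivity)
  have hj := fun j (hj : j < Jf) => mc_J (allN_spec hJ j hj)
  have hc := fun j (h : j < Jf) => mc_cut (hj j h).2.2.2.2.2.2.2.2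
  choose! ap an bp' bn' hr using fun j (h : j < Jf) => ab_rows K (lt_of_lt_of_le h s13)
    (hc j h).2.1.1 (hc j h).2.1.2.1 (hc j h).2.1.2.2.1 (hc j h).2.1.2.2.2
  have hV : ∀ b1 b2 b3, chkV t Cn K L B J0 J th tf a0 Jf nb ilo ihi l1 (mc_sel b1 l0 l1)
      (mc_BP l0 l1 u0 u1 b1 b2) (mc_BM l0 l1 u0 u1 b1 b2) (mc_G l0 l1 g0 g1 c0 c1 b1 b3)
      (cantB Cn l0 ilo) = true := fun b1 b2 b3 => by
    have := mc_all8 hW b1 b2 b3
    rwa [chkW, force_eq, force_eq, force_eq] at this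
  have hv := fun j (h : j < Jf) b1 b2 b3 => mc_VJ (lt_of_lt_of_le h s13) (hj j h).2.2.2.2.1
    (hj j h).2.2.2.2.2.1 (allN_spec (n := Jf) (by
      have := hV b1 b2 b3
      rw [chkV, band_eq] at this
      exact this.1) j h)
  have hx := fun b1 b2 b3 => mc_vertex (ap := ap) (an := an) (bp' := bp') (bn' := bn') s13 s9 s12
    (by omega) hi2 (s4.trans (by norm_num)) (((mc_sel_le hl).trans s3).trans (by norm_num)) hB
    (fun j h => by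
      rw [rAp, rAn, rBp, rBn]
      exact ⟨(hr j h).1, (hr j h).2.1, (hr j h).2.2.1, (hr j h).2.2.2.1⟩)
    (fun j h => (hv j h b1 b2 b3).1.1) (hV b1 b2 b3)
  have hle : ∀ j i, (dec (le t L j i)).Valid := fun j i => by
    rw [le, force_eq]; exact ent_valid ht _
  clear hJ hW hV
  refine mcell_real (a0 := a0 / 2 ^ 30) (J := J) (Jf := Jf) (ilo := ilo) (ihi := ihi)
    (p := pR K J0 J th tf) (q := qR K J0 J th) (r := rR' K J0 J th tf)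
    (sv := fun j => lf L j 4 / 2 ^ 14) (cv := fun j => lf L j 5 / 2 ^ 16)
    (Om := fun j => lf L j 3 / 2 ^ 15)
    (E1 := fun j => expL (wv (lf L j 5) l1 (Nat.add j 1)) / 2 ^ 64) 
    (er := fun _ => 4 / 2 ^ 40 + 1 / 2 ^ 26) (om0 := mc_om L) (yc := fun j => lf L j 8 / 2 ^ 16)
    (ec := fun j => dec (le t L j 6))
    (Hc := fun j b1 b2 b3 => vH t L (mc_BP l0 l1 u0 u1 b1 b2)
      (mc_BM l0 l1 u0 u1 b1 b2) (mc_G l0 l1 g0 g1 c0 c1 b1 b3) j / 2 ^ 56)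
    (e0 := fun j => dec (if j < Jf then le t L j 0 else mc_blkE t nb B j))
    (ep := fun j => dec (le t L j 1)) (em := fun j => dec (le t L j 2))
    (T := fun i => (fT i : ℝ) / 2 ^ 110)
    (Ap := fun j i => ap j i / 2 ^ 70) (An := fun j i => an j i / 2 ^ 70)
    (Bp := fun j i => bp' j i / 2 ^ 70) (Bn := fun j i => bn' j i / 2 ^ 70)
    (U := fun j b1 b2 b3 => if j < Jf then vU t L (mc_BP l0 l1 u0 u1 b1 b2)
      (mc_BM l0 l1 u0 u1 b1 b2) (mc_G l0 l1 g0 g1 c0 c1 b1 b3) j / 2 ^ 40 else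
      exp (mc_ps (mc_blkE t nb B j) (Nat.add j 1) (mc_BP l0 l1 u0 u1 b1 b2)
        (mc_BM l0 l1 u0 u1 b1 b2) (mc_G l0 l1 g0 g1 c0 c1 b1 b3)))
    (Ip := fun j b1 b2 b3 => vIp t L (mc_BP l0 l1 u0 u1 b1 b2)
      (mc_BM l0 l1 u0 u1 b1 b2) (mc_G l0 l1 g0 g1 c0 c1 b1 b3) j / 2 ^ 40)
    (Im := fun j b1 b2 b3 => vIm t L (mc_BP l0 l1 u0 u1 b1 b2)
      (mc_BM l0 l1 u0 u1 b1 b2) (mc_G l0 l1 g0 g1 c0 c1 b1 b3) j / 2 ^ 40)
    (Lo := fun j b1 => vLo L l1 (mc_sel b1 l0 l1) j / 2 ^ 40)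
    (V := fun i b1 b2 b3 => mc_V t K L B J0 J th tf a0 Jf nb l1 (mc_sel b1 l0 l1)
      (mc_BP l0 l1 u0 u1 b1 b2) (mc_BM l0 l1 u0 u1 b1 b2) (mc_G l0 l1 g0 g1 c0 c1 b1 b3)
      ap an bp' bn' i)
    (by positivity) (hpos 20 s1) (hlt 20 s2) (hlt 16 s5) (hlt 16 s7) (hpos 20 s8) (by positivity)
    (s9.trans s10) s14 (by omega) rT_phi (fun j _ => by rw [rR']; positivity)
    (fun j _ => pq_le K J0 J th tf j) (chkK_sound s10 s11 s12 hK) (fun j h => ?_) (fun j h => ?_)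
    (fun j h => ?_) (fun j h => (hj j h).2.2.2.2.2.2.1) (fun j _ => by positivity) (fun j h => ?_)
    (fun j h => ⟨by positivity, ?_⟩) (fun j h b1 b2 b3 => ?_) (fun j h b1 b2 b3 => ?_)
    (fun j h b1 b2 b3 => ?_) (fun j h b1 => ?_) (fun j h => ?_)
    (fun j h b1 b2 b3 => ?_) (fun j h i h1 h2 => ?_)
    (fun i h1 h2 b1 b2 b3 => le_of_eq ?_) (fun i h1 h2 b1 b2 b3 => ?_) ?_ (by linarith)
  · by_cases c : j < Jf
    · rw [if_pos c]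
      exact ⟨hle j 0, (hj j c).2.2.2.1, (hj j c).1⟩
    · rw [if_neg c]
      exact mc_blk_ent ht nb hB j (not_lt.1 c) h
  · obtain ⟨a1, a2⟩ := mc_kp (hj j h).2.2.2.2.1
    exact ⟨hle j 1, by rw [a2]; exact hpos 24 a1, (hj j h).2.1⟩
  · obtain ⟨a1, a2⟩ := mc_km (hj j h).2.2.2.2.2.1
    exact ⟨hle j 2, neg_pos.1 (by rw [a2]; exact hpos 24 a1), (hj j h).2.2.1⟩
  · refine ⟨by linarith [(hj j h).2.2.2.2.2.2.2.1], fun b1 b2 b3 => ?_⟩
    rw [mc_vpsi _ hu s6, mc_vpsi _ hu s6, mc_sel_cast]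
    exact (hv j h b1 b2 b3).2.2.2.2
  · have a1 := expL_spec (wv (lf L j 5) l1 (Nat.add j 1))
    have a2 := mc_wv (lf L j 5) l1 (Nat.add j 1)
    rw [div_le_iff₀ (by positivity), mc_tj]
    exact a1.trans (mul_le_mul_of_nonneg_right (exp_le_exp.2 (by linarith)) (by positivity))
  · rw [mc_vpsi _ hu s6]
    by_cases c : j < Jf
    · rw [if_pos c, if_pos c]
      exact (hv j c b1 b2 b3).2.1
    · rw [if_neg c, if_neg c]
  · rw [mc_vpsi _ hu s6]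
    exact (hv j h b1 b2 b3).2.2.1
  · rw [mc_vpsi _ hu s6]
    exact (hv j h b1 b2 b3).2.2.2.1
  · rw [mc_sel_cast]
    exact mc_Lo (mc_sel_le hl) (hj j h).2.2.2.2.2.2.2.1
  · exact (hc j h).1.imp (fun a => by rw [a]; simp) fun a => ⟨by positivity, a.1, hle j 6, a.2⟩
  · rw [mc_vpsi _ hu s6]
    exact (hv j h b1 b2 b3).1.2
  · refine ⟨by positivity, by positivity, by positivity, by positivity, ?_⟩
    rw [pR, qR, if_pos (lt_of_lt_of_le h s9), if_pos (lt_of_lt_of_le h s9)]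
    obtain ⟨a1, a2⟩ := (hr j h).2.2.2.2 i (by omega)
    obtain ⟨a3, a4⟩ := (hc j h).2.2
    rw [abs_le] at a1 a2 a3 a4
    rw [abs_le, abs_le]
    exact ⟨⟨by linarith [a1.1, a3.1], by linarith [a1.2, a3.2]⟩,
      by linarith [a2.1, a4.1], by linarith [a2.2, a4.2]⟩
  · rw [mc_V]
    refine congrArg₂ _ (congrArg₂ _ (congrArg₂ _ rfl ?_) ?_) rfl
    · refine Finset.sum_congr rfl fun j hj => ?_
      rw [if_pos (Finset.mem_range.1 hj)]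
    · refine Finset.sum_congr rfl fun j hj => ?_
      rw [if_neg (not_lt.2 (Finset.mem_Ico.1 hj).1)]
  · rw [mc_sel_cast]
    exact (hx b1 b2 b3).1 i h1 h2
  · rcases Bool.eq_false_or_eq_true (cantB Cn l0 ilo) with c | c
    · exact Or.inl (mc_cant c)
    · refine Or.inr fun b1 b2 b3 => ?_
      rw [mc_sel_cast]
      exact (hx b1 b2 b3).2.resolve_left (by rw [c]; exact Bool.false_ne_true)

seal chkM2 bt

theorem chkT_sound {t : BT} (ht : t.All ChunkOK) {Cn c0 c1 : ℕ} (T : KT) :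
    ∀ {l0 l1 u0 u1 g0 g1 : ℕ}, chkT t Cn c0 c1 T l0 l1 u0 u1 g0 g1 = true →
      CovN Cn c0 c1 l0 l1 u0 u1 g0 g1 := by
  induction T with
  | leaf d =>
    intro l0 l1 u0 u1 g0 g1 h
    have h' : chkM t Cn c0 c1 l0 l1 u0 u1 g0 g1 d = true := h
    simp only [chkM, force_eq] at h'
    exact mc_M2 ht (bt_lt _ _ (by norm_num)) h'
  | sL c a b iha ihb =>
    intro l0 l1 u0 u1 g0 g1 h
    have h' := (band_eq _ _).1 h
    exact (iha h'.1).splitL (ihb h'.2)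
  | sU c a b iha ihb =>
    intro l0 l1 u0 u1 g0 g1 h
    have h' := (band_eq _ _).1 h
    exact (iha h'.1).splitU (ihb h'.2)
  | sG c a b iha ihb =>
    intro l0 l1 u0 u1 g0 g1 h
    have h' := (band_eq _ _).1 h
    exact (iha h'.1).splitG (ihb h'.2)

end Pool.Agent.Lib.MP_33650d_pr
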