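import Pool.Agent.Lib.MP_33650d_pr.TabD

namespace Pool.Agent.Lib.MP_33650d_pr

noncomputable def sq (n : ℕ) : ℕ := Nat.mul n n
noncomputable def cu (n : ℕ) : ℕ := Nat.mul n (Nat.mul n n)

/-- Lower bound for `2 ^ 32 * (8 - psi)` (if it is positive) at the frequency `n / 2`. -/
noncomputable def yv (x n BP BM G : ℕ) : ℕ :=
  Nat.shiftRight (Nat.sub
    (Nat.add (Nat.shiftLeft (Nat.add (Nat.shiftLeft (sq n) 88)
      (Nat.mul (Nat.mul (sq n) (Nat.sub (sqt n) 1)) G)) 39) 166153499473114484112975882535043072)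
    (Nat.add (Nat.add (Nat.mul (fld x 0) (Nat.shiftLeft (sq n) 88))
        (Nat.mul (fld x 2) (Nat.mul (Nat.mul (sq n) (Nat.add (sqt n) 1)) G)))
      (Nat.mul (Nat.add (Nat.mul (fld x 3) BP) (Nat.mul (fld x 4) BM)) (Nat.shiftLeft (cu n) 51))))
    82

noncomputable def okE (x l1 n : ℕ) : Bool :=
  bor (Nat.ble (fld x 5) 0) (Nat.ble (Nat.shiftLeft (Nat.mul l1 (cu n)) 49) (cu (fld x 5)))

noncomputable def pB (K j : ℕ) : ℕ := bt K (Nat.mul 62 j) 2147483648
noncomputable def qB (K j : ℕ) : ℕ := bt K (Nat.add (Nat.mul 62 j) 31) 2147483648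
noncomputable def ab (x : ℕ) : ℕ := Nat.add (Nat.sub x 1073741824) (Nat.sub 1073741824 x)
noncomputable def rF (K j : ℕ) : ℕ := hyp (ab (pB K j)) (ab (qB K j))

noncomputable def VP (J j : ℕ) : ℕ := Nat.div (Nat.shiftLeft (Nat.sub J j) 20) (sq (Nat.add J 1))
noncomputable def VQ2 (U X : ℕ) : ℕ :=
  Nat.sub (Nat.div 18446744073709551616 U) (Nat.add
    (Nat.div (Nat.shiftLeft U 33) (Nat.add U 4294967296))
    (Nat.shiftRight (Nat.mul (Nat.mul U (Nat.sub 4294967296 U))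
      (Nat.add (Nat.add (Nat.div 18446744073709551616 (Nat.sub 17179869184 X)) 1696228901)
        (Nat.shiftRight (Nat.mul X (Nat.add 85140140 (Nat.shiftRight (Nat.mul X (Nat.add 7379020
          (Nat.shiftRight (Nat.mul X 734896) 32))) 32))) 32))) 63))
noncomputable def VQ (J j : ℕ) : ℕ :=
  force (Nat.div (Nat.shiftLeft (Nat.add j 1) 32) (Nat.add J 1)) fun U =>
    force (Nat.shiftRight (Nat.mul U U) 32) fun X =>
      Nat.div (Nat.shiftRight (Nat.mul (VQ2 U X) 1367130551) 44) (Nat.add J 1)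
noncomputable def VR (J j : ℕ) : ℕ := hyp (VP J j) (VQ J j)

/-- Sum of `f j` over `a ≤ j < b`. -/
noncomputable def sumI (a b : ℕ) (f : ℕ → ℕ) : ℕ :=
  sumN (Nat.sub b a) fun i => force (Nat.add a i) f

noncomputable def SVP (J0 J : ℕ) : ℕ := sumI J0 J fun j => VP J j
noncomputable def SVQ (J0 J : ℕ) : ℕ := sumI J0 J fun j => VQ J j
noncomputable def MVP (J0 J : ℕ) : ℕ := sumI J0 J fun j => Nat.mul (sq (Nat.add j 1)) (VP J j)
noncomputable def MVR (J0 J : ℕ) : ℕ := sumI J0 J fun j => Nat.mul (sq (Nat.add j 1)) (VR J j)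
noncomputable def HVP (J0 J : ℕ) : ℕ := sumI J0 J fun j => Nat.mul (VP J j) (yC (Nat.add j 1))
noncomputable def HVQ (J0 J : ℕ) : ℕ := sumI J0 J fun j => Nat.mul (VQ J j) (yS (Nat.add j 1))
noncomputable def SCS (J0 : ℕ) : ℕ :=
  Nat.add (Nat.shiftLeft (sumI 0 J0 fun j => Nat.add (yC (Nat.add j 1)) (yS (Nat.add j 1))) 30) rR

noncomputable def rA (K J0 J th tf j : ℕ) : ℕ :=
  ite' (Nat.ble J0 j) (Nat.add (Nat.mul th (VR J j)) (Nat.mul tf (VP J j))) (rF K j)

noncomputable def S2f (K n : ℕ) : ℕ := sumI 0 n fun j => Nat.mul (sq (Nat.add j 1)) (rF K j)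

noncomputable def chkK2 (K J0 J th tf cL cR : ℕ) : Bool :=
  band (Nat.ble cL 590295810358705651712) (band (Nat.ble cR 590295810358705651712)
    (geqR 72 0 4096
      (Nat.add (Nat.add (sumI 0 J0 fun j => Nat.add (Nat.mul (pB K j) (yC (Nat.add j 1)))
          (Nat.mul (qB K j) (yS (Nat.add j 1)))) (Nat.mul (Nat.add th tf) (HVP J0 J)))
        (Nat.mul cL (one72 12)))
      (Nat.add (Nat.add (SCS J0) (Nat.mul th (HVQ J0 J))) (Nat.mul cR (one72 12))) h72))

/-- Check of the majorant property of the kernel. -/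
noncomputable def chkK (K J0 J th tf a0 : ℕ) : Bool :=
  band (Nat.ble (Nat.add (Nat.mul (Nat.add th tf) (SVP J0 J)) (Nat.mul th (SVQ J0 J))) 17179869184)
    (chkK2 K J0 J th tf
      (Nat.add (Nat.add (Nat.shiftLeft a0 30) (Nat.shiftLeft J0 62))
        (Nat.shiftLeft (Nat.mul th (SVQ J0 J)) 31))
      (Nat.add (Nat.add (Nat.shiftLeft (Nat.add (sumI 0 J0 fun j => Nat.add (pB K j) (qB K j))
            (Nat.mul (Nat.add th tf) (SVP J0 J))) 31)
          (Nat.mul 36 (Nat.add (Nat.shiftLeft J0 31)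
            (Nat.add (Nat.mul (Nat.add th tf) (SVP J0 J)) (Nat.mul th (SVQ J0 J))))))
        (Nat.add 17179869184 (Nat.mul 316 (Nat.add (S2f K J0)
          (Nat.add (Nat.mul th (MVR J0 J)) (Nat.mul tf (MVP J0 J))))))))

/-- Field `i` of the record of the low frequency `j`: three entries, `Om`, `sv`, `cv`, and the
entry, the angle and the multiplier of the cut. -/
noncomputable def lf (L j i : ℕ) : ℕ := bt L (Nat.add (Nat.mul 144 j) (Nat.mul 16 i)) 65536
noncomputable def le (t : BT) (L j i : ℕ) : ℕ := force (lf L j i) (ent t)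

noncomputable def cKp (t : BT) (L j : ℕ) : ℕ := bp (fld (le t L j 6) 1)
noncomputable def cKn (t : BT) (L j : ℕ) : ℕ := bn (fld (le t L j 6) 1)
noncomputable def cWp (L j : ℕ) : ℕ := Nat.sub (lf L j 7) 32768
noncomputable def cWn (L j : ℕ) : ℕ := Nat.sub 32768 (lf L j 7)
noncomputable def c30 (w : ℕ) : ℕ := force w fun w =>
  Nat.shiftRight (Nat.sub (aC (Nat.shiftLeft w 12)) 2417851639229258349412352) 50
noncomputable def s30 (w : ℕ) : ℕ := force w fun w =>
  Nat.shiftRight (Nat.sub (aS (Nat.shiftLeft w 12)) 2417851639229258349412352) 50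
noncomputable def cC (L j : ℕ) : ℕ := c30 (Nat.add (cWp L j) (cWn L j))
noncomputable def cSp (L j : ℕ) : ℕ := s30 (cWp L j)
noncomputable def cSn (L j : ℕ) : ℕ := s30 (cWn L j)
/-- Product with the multiplier `y`, lazy if `y = 0`. -/
noncomputable def ymul (y x : ℕ) : ℕ := ite' (Nat.ble y 0) 0 (Nat.mul y x)
noncomputable def d1p (t : BT) (L j : ℕ) : ℕ := ymul (lf L j 8) (Nat.add (Nat.shiftLeft (cC L j) 24)
  (Nat.add (Nat.mul (cKn t L j) (cSp L j)) (Nat.mul (cKp t L j) (cSn L j))))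
noncomputable def d1n (t : BT) (L j : ℕ) : ℕ := ymul (lf L j 8)
  (Nat.add (Nat.mul (cKp t L j) (cSp L j)) (Nat.mul (cKn t L j) (cSn L j)))
noncomputable def d2p (t : BT) (L j : ℕ) : ℕ := ymul (lf L j 8)
  (Nat.add (Nat.shiftLeft (cSp L j) 24) (Nat.mul (cKp t L j) (cC L j)))
noncomputable def d2n (t : BT) (L j : ℕ) : ℕ := ymul (lf L j 8)
  (Nat.add (Nat.shiftLeft (cSn L j) 24) (Nat.mul (cKn t L j) (cC L j)))
noncomputable def cPos (t : BT) (L j : ℕ) : ℕ := Nat.shiftRight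
  (Nat.add (Nat.mul (cKp t L j) (cWp L j)) (Nat.mul (cKn t L j) (cWn L j))) 4
noncomputable def cNeg (t : BT) (L j : ℕ) : ℕ := Nat.add (Nat.shiftRight
  (Nat.add (Nat.mul (cKp t L j) (cWn L j)) (Nat.mul (cKn t L j) (cWp L j))) 4) 1

noncomputable def chkCut (t : BT) (L l1 j : ℕ) : Bool :=
  bor (Nat.ble (lf L j 8) 0) (band (okE (le t L j 6) l1 (Nat.add j 1))
    (band (Nat.ble (Nat.add (cWp L j) (cWn L j)) 4096)
      (Nat.ble (Nat.mul (lf L j 8) (Nat.add 16777216 (Nat.add (cKp t L j) (cKn t L j))))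
        4398046511104)))

noncomputable def chkSC (sv cv : ℕ) : Bool :=
  Nat.ble (Nat.add (Nat.shiftLeft (expU 0 (Nat.add (Nat.mul 8 (sq sv))
    (Nat.shiftRight (Nat.mul cv (cu sv)) 26))) 16) 2417851639792208302833664)
    (aC (Nat.shiftLeft sv 10))

noncomputable def chkJ (t : BT) (L l1 j : ℕ) : Bool :=
  force (Nat.add j 1) fun n => force (le t L j 0) fun x0 => force (le t L j 1) fun xp =>
    force (le t L j 2) fun xm => force (lf L j 4) fun sv =>
      band (okE x0 l1 n) (band (okE xp l1 n) (band (okE xm l1 n)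
        (band (Nat.beq (fld x0 1) 549755813888) (band (Nat.ble 549755813889 (fld xp 1))
          (band (Nat.ble (fld xm 1) 549755813887) (band (Nat.ble 1 sv) (band (Nat.ble sv 32768)
            (band (Nat.ble (Nat.shiftLeft (Nat.mul l1 (cu n)) 19) (cu sv))
              (band (Nat.ble (sq (lf L j 3)) 2147483648)
                (band (force (lf L j 5) (chkSC sv)) (chkCut t L l1 j)))))))))))

noncomputable def wv (cv l n : ℕ) : ℕ :=
  Nat.add (Nat.shiftLeft (sq n) 29) (Nat.add (Nat.shiftRight (Nat.mul (Nat.mul cv l) (cu n)) 7) 1)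

noncomputable def vU (t : BT) (L BP BM G j : ℕ) : ℕ :=
  force (le t L j 0) fun x => force (Nat.add j 1) fun n => expT (yv x n BP BM G)
noncomputable def vY (t : BT) (L BP BM G j i : ℕ) : ℕ :=
  force (le t L j i) fun x => force (Nat.add j 1) fun n => yv x n BP BM G
noncomputable def vI (y k : ℕ) : ℕ :=
  Nat.add (Nat.div (Nat.shiftLeft (expT (Nat.add y 4294967296)) 24) k) 1
noncomputable def vIp (t : BT) (L BP BM G j : ℕ) : ℕ :=
  vI (vY t L BP BM G j 1) (bp (fld (le t L j 1) 1))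
noncomputable def vIm (t : BT) (L BP BM G j : ℕ) : ℕ :=
  vI (vY t L BP BM G j 2) (bn (fld (le t L j 2) 1))
noncomputable def vLo (L l1 l j : ℕ) : ℕ :=
  force (lf L j 5) fun cv => force (Nat.add j 1) fun n =>
    Nat.shiftRight (Nat.mul (Nat.mul (Nat.sub 2147483648 (sq (lf L j 3))) (expL (wv cv l1 n)))
      (Nat.add 549755813888 (Nat.mul (Nat.mul cv (Nat.sub l1 l)) (cu n)))) 94

noncomputable def vH (t : BT) (L BP BM G j : ℕ) : ℕ := ymul (lf L j 8)
  (expT (Nat.sub (Nat.add (vY t L BP BM G j 6) (cPos t L j)) (cNeg t L j)))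

noncomputable def chkO (W y k Om : ℕ) : Bool :=
  band (Nat.ble 1 y) (Nat.ble W (Nat.add y (Nat.shiftRight (Nat.mul k Om) 7)))

noncomputable def chkVJ (t : BT) (L l1 l BP BM G j : ℕ) : Bool :=
  band (Nat.ble (Nat.add (Nat.add (vU t L BP BM G j) (vLo L l1 l j))
      (Nat.add (vIp t L BP BM G j) (vIm t L BP BM G j))) 17592186044416)
    (force (Nat.add (wv (lf L j 5) l (Nat.add j 1)) 34359738368) fun W =>
      band (chkO W (vY t L BP BM G j 1) (bp (fld (le t L j 1) 1)) (lf L j 3))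
        (band (chkO W (vY t L BP BM G j 2) (bn (fld (le t L j 2) 1)) (lf L j 3))
          (bor (Nat.ble (lf L j 8) 0) (Nat.ble (cNeg t L j) (vY t L BP BM G j 6)))))

noncomputable def xC30 (j : ℕ) : ℕ := Nat.shiftLeft (xC j) 30
noncomputable def xS30 (j : ℕ) : ℕ := Nat.shiftLeft (xS j) 30
noncomputable def xP (j : ℕ) : ℕ := Nat.add (xC30 j) (xS30 j)

noncomputable def aX (K j e : ℕ) : ℕ :=
  Nat.add (Nat.add (Nat.mul (pB K j) (xC j)) (xS30 j))
    (Nat.mul (Nat.add (Nat.shiftLeft (qB K j) 41) e) one128)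
noncomputable def aY (K j e : ℕ) : ℕ :=
  Nat.add (Nat.add (Nat.mul (qB K j) (xS j)) (xC30 j))
    (Nat.mul (Nat.add (Nat.shiftLeft (pB K j) 41) e) one128)
noncomputable def bX (K j e : ℕ) : ℕ :=
  Nat.add (Nat.add (Nat.mul (pB K j) (xS j)) (Nat.mul (qB K j) (xC j)))
    (Nat.mul (Nat.add 4722366482869645213696 e) one128)
noncomputable def bY (K j e : ℕ) : ℕ :=
  Nat.add (xP j) (Nat.mul (Nat.add (Nat.shiftLeft (Nat.add (pB K j) (qB K j)) 41) e) one128)
noncomputable def rAp0 (K j e f : ℕ) : ℕ := lsub 127 (aX K j e) (aY K j f) h128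
noncomputable def rAn0 (K j e f : ℕ) : ℕ := Nat.sub (Nat.add (rAp0 K j e f) (aY K j f)) (aX K j e)
noncomputable def rBp0 (K j e f : ℕ) : ℕ := lsub 127 (bX K j e) (bY K j f) h128
noncomputable def rBn0 (K j e f : ℕ) : ℕ := Nat.sub (Nat.add (rBp0 K j e f) (bY K j f)) (bX K j e)
noncomputable def rAp (t : BT) (K L j : ℕ) : ℕ := rAp0 K j (d1n t L j) (d1p t L j)
noncomputable def rAn (t : BT) (K L j : ℕ) : ℕ := rAn0 K j (d1n t L j) (d1p t L j)
noncomputable def rBp (t : BT) (K L j : ℕ) : ℕ := rBp0 K j (d2n t L j) (d2p t L j)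
noncomputable def rBn (t : BT) (K L j : ℕ) : ℕ := rBn0 K j (d2n t L j) (d2p t L j)

noncomputable def bE (B : ℕ) : ℕ := Nat.mod B 512
noncomputable def bI (t : BT) (B : ℕ) : ℕ := force (bt B 9 65536) (ent t)

noncomputable def yB2 (a b ya yb : ℕ) : ℕ :=
  ite' (band (Nat.ble 34359738368 ya) (Nat.ble 34359738368 yb))
    (Nat.add 34359738368 (mn (Nat.sub ya 34359738368)
      (Nat.div (Nat.mul (Nat.sub yb 34359738368) (sq a)) (sq b)))) 0

/-- Exponent for the frequencies `n / 2`, `a ≤ n ≤ b`. -/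
noncomputable def yB (x a b BP BM G : ℕ) : ℕ :=
  ite' (Nat.ble b a) (yv x a BP BM G) (yB2 a b (yv x a BP BM G) (yv x b BP BM G))

noncomputable def rB (K J0 J th tf a b : ℕ) : ℕ := sumI a b (rA K J0 J th tf)

noncomputable def blkS (t : BT) (K J0 J th tf BP BM G n : ℕ) : ℕ → ℕ → ℕ :=
  Nat.rec (motive := fun _ => ℕ → ℕ → ℕ) (fun _ _ => 0)
    (fun _ ih a B => force (bE B) fun b => Nat.add
      (force (bI t B) fun x => force (Nat.add a 1) fun a1 => force (yB x a1 b BP BM G) fun y =>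
        ite' (Nat.ble 1 y) (Nat.mul (rB K J0 J th tf a b) (expT y))
          1267650600228229401496703205376)
      (ih b (Nat.shiftRight B 25))) n

noncomputable def blkOK (t : BT) (J l1 n : ℕ) : ℕ → ℕ → Bool :=
  Nat.rec (motive := fun _ => ℕ → ℕ → Bool) (fun a _ => Nat.beq a J)
    (fun _ ih a B => force (bE B) fun b => band (Nat.ble (Nat.add a 1) b)
      (band (force (bI t B) fun x => band (Nat.beq (fld x 1) 549755813888) (okE x l1 b))
        (ih b (Nat.shiftRight B 25)))) n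

noncomputable def chkV2 (ilo ihi cV X Y : ℕ) (cant : Bool) : Bool :=
  band (Nat.ble cV 1329227995784915872903807060280344576)
    (band (geqR 128 ilo (Nat.sub (Nat.add ihi 1) ilo) (Nat.add Y rT) X h128)
      (bor cant (geqR 128 ilo 1 Y X h128)))

noncomputable def cVf (t : BT) (K L B J0 J th tf a0 Jf nb BP BM G : ℕ) : ℕ :=
  Nat.add (Nat.add (Nat.add (Nat.shiftLeft a0 80) (Nat.add (Nat.shiftLeft (Nat.mul 316 (S2f K Jf)) 54)
    8220773549094843531583765348352)) (Nat.shiftLeft (sumN Jf (vH t L BP BM G)) 54))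
    (Nat.shiftLeft (blkS t K J0 J th tf BP BM G nb Jf B) 40)

/-- Check at one vertex of the cell. -/
noncomputable def chkV (t : BT) (Cn K L B J0 J th tf a0 Jf nb ilo ihi l1 l BP BM G : ℕ)
    (cant : Bool) : Bool :=
  band (allN Jf (chkVJ t L l1 l BP BM G))
    (chkV2 ilo ihi (cVf t K L B J0 J th tf a0 Jf nb BP BM G)
      (Nat.add (Nat.add (sumN Jf fun j => Nat.add (Nat.mul (vU t L BP BM G j) (rAp t K L j))
          (Nat.add (Nat.mul (vIp t L BP BM G j) (rBp t K L j)) (Nat.mul (vIm t L BP BM G j) (rBn t K L j))))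
        rQ) (Nat.mul (cVf t K L B J0 J th tf a0 Jf nb BP BM G) one128))
      (Nat.add (sumN Jf fun j => Nat.mul (vLo L l1 l j) (rAn t K L j))
        (Nat.mul (Nat.add (Nat.shiftLeft (Nat.mul Cn l) 60) 324518553658426726783156020576256)
          one128)) cant)

noncomputable def chkW (t : BT) (Cn K L B J0 J th tf a0 Jf nb ilo ihi l1 c0 c1 : ℕ) (cant : Bool)
    (l u g : ℕ) : Bool :=
  force (Nat.mul u l) fun BP => force (Nat.mul (Nat.sub 65536 u) l) fun BM =>
    force (Nat.mul g (Nat.add (Nat.shiftLeft c0 20) (Nat.mul c1 l))) fun G =>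
      chkV t Cn K L B J0 J th tf a0 Jf nb ilo ihi l1 l BP BM G cant

noncomputable def all8 (f : ℕ → ℕ → ℕ → Bool) (l0 l1 u0 u1 g0 g1 : ℕ) : Bool :=
  band (f l1 u1 g1) (band (f l1 u1 g0) (band (f l1 u0 g1) (band (f l1 u0 g0)
    (band (f l0 u1 g1) (band (f l0 u1 g0) (band (f l0 u0 g1) (f l0 u0 g0)))))))

noncomputable def cantB (Cn l0 ilo : ℕ) : Bool :=
  band (Nat.ble ilo 256) (Nat.ble 1208925819614629174706176 (Nat.mul (Nat.mul Cn l0)
    (Nat.add 1073741824 (Nat.mul 161703 (sq (Nat.sub 256 ilo))))))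

noncomputable def chkM2 (t : BT) (Cn c0 c1 l0 l1 u0 u1 g0 g1 K L B J0 J th tf a0 Jf nb ilo ihi : ℕ) :
    Bool :=
  band (band (band (band (Nat.ble 1 l0) (Nat.ble (Nat.add l0 1) l1))
        (band (Nat.ble l1 2097152) (Nat.ble Cn 1073741824)))
      (band (band (Nat.ble (Nat.add u0 1) u1) (Nat.ble u1 65536))
        (band (Nat.ble (Nat.add g0 1) g1) (Nat.ble 1 c0))))
    (band (band (band (band (Nat.ble Jf J0) (Nat.ble J0 J)) (band (Nat.ble J0 16) (Nat.ble J 256)))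
        (band (band (Nat.ble Jf 9) (Nat.ble (Nat.add ilo 1) ihi))
          (Nat.ble 1298074214633706907132624082305024
            (Nat.add (fT ihi) (Nat.shiftLeft (Nat.mul Cn l0) 60)))))
      (band (allN Jf (chkJ t L l1)) (band (blkOK t J l1 nb Jf B) (band (chkK K J0 J th tf a0)
        (all8 (chkW t Cn K L B J0 J th tf a0 Jf nb ilo ihi l1 c0 c1 (cantB Cn l0 ilo))
          l0 l1 u0 u1 g0 g1)))))

/-- Check of a cell of the middle range with data `d`. -/
noncomputable def chkM (t : BT) (Cn c0 c1 l0 l1 u0 u1 g0 g1 d : ℕ) : Bool :=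
  force (bt d 0 4294967296) fun a0 => force (bt d 32 4096) fun th => force (bt d 44 4096) fun tf =>
    force (bt d 56 512) fun J => force (bt d 65 32) fun J0 => force (bt d 70 16) fun Jf =>
      force (bt d 74 64) fun nb => force (bt d 80 512) fun ilo => force (bt d 89 512) fun ihi =>
        chkM2 t Cn c0 c1 l0 l1 u0 u1 g0 g1 (Nat.shiftRight d 100)
          (Nat.shiftRight d (Nat.add 100 (Nat.mul 62 J0)))
          (Nat.shiftRight d (Nat.add (Nat.add 100 (Nat.mul 62 J0)) (Nat.mul 144 Jf)))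
          J0 J th tf a0 Jf nb ilo ihi

/-- Subdivision trees. -/
inductive KT where
  | leaf : ℕ → KT
  | sL : ℕ → KT → KT → KT
  | sU : ℕ → KT → KT → KT
  | sG : ℕ → KT → KT → KT

noncomputable def chkT (t : BT) (Cn c0 c1 : ℕ) (T : KT) : ℕ → ℕ → ℕ → ℕ → ℕ → ℕ → Bool :=
  KT.rec (motive := fun _ => ℕ → ℕ → ℕ → ℕ → ℕ → ℕ → Bool)
    (fun d l0 l1 u0 u1 g0 g1 => chkM t Cn c0 c1 l0 l1 u0 u1 g0 g1 d)
    (fun c _ _ a b l0 l1 u0 u1 g0 g1 => band (a l0 c u0 u1 g0 g1) (b c l1 u0 u1 g0 g1))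
    (fun c _ _ a b l0 l1 u0 u1 g0 g1 => band (a l0 l1 u0 c g0 g1) (b l0 l1 c u1 g0 g1))
    (fun c _ _ a b l0 l1 u0 u1 g0 g1 => band (a l0 l1 u0 u1 g0 c) (b l0 l1 u0 u1 c g1)) T

end Pool.Agent.Lib.MP_33650d_pr
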