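import Pool.Agent.Lib.MP_33650d_pr.TM22
import Pool.Agent.Lib.MP_33650d_pr.TM23
import Pool.Agent.Lib.MP_33650d_pr.Glue

namespace Pool.Agent.Lib.MP_33650d_pr

theorem ET_ok : ET.All ChunkOK :=
  ⟨⟨⟨⟨⟨⟨ok0, ok32⟩, ⟨ok16, ok48⟩⟩, ⟨⟨ok8, ok40⟩, ok24⟩⟩, ⟨⟨⟨ok4, ok36⟩, ok20⟩, ⟨⟨ok12, ok44⟩, ok28⟩⟩⟩, ⟨⟨⟨⟨ok2, ok34⟩, ok18⟩, ⟨⟨ok10, ok42⟩, ok26⟩⟩, ⟨⟨⟨ok6, ok38⟩, ok22⟩, ⟨⟨ok14, ok46⟩, ok30⟩⟩⟩⟩, ⟨⟨⟨⟨⟨ok1, ok33⟩, ok17⟩, ⟨⟨ok9, ok41⟩, ok25⟩⟩, ⟨⟨⟨ok5, ok37⟩, ok21⟩, ⟨⟨ok13, ok45⟩, ok29⟩⟩⟩, ⟨⟨⟨⟨ok3, ok35⟩, ok19⟩, ⟨⟨ok11, ok43⟩, ok27⟩⟩, ⟨⟨⟨ok7, ok39⟩, ok23⟩, ⟨⟨ok15, ok47⟩, ok31⟩⟩⟩⟩⟩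

theorem sG_ok : chkSG 41943 82 114867 168 94 50331648 sH = true := by decide +kernel

theorem covS : CovSN 484257562 41943 0 65536 0 65536 :=
  (cvSG (chkTS_sound ET_ok sG_ok _ kc0)
    (cvSG (chkTS_sound ET_ok sG_ok _ kc1)
    (cvSG (cvSG (cvSG (chkTS_sound ET_ok sG_ok _ kc2)
    (chkTS_sound ET_ok sG_ok _ kc3))
    (cvSG (chkTS_sound ET_ok sG_ok _ kc4)
    (chkTS_sound ET_ok sG_ok _ kc5)))
    (cvSG (cvSG (cvSU (chkTS_sound ET_ok sG_ok _ kc6)
    (chkTS_sound ET_ok sG_ok _ kc7))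
    (cvSU (cvSU (chkTS_sound ET_ok sG_ok _ kc8)
    (cvSU (chkTS_sound ET_ok sG_ok _ kc9)
    (chkTS_sound ET_ok sG_ok _ kc10)))
    (cvSU (cvSU (chkTS_sound ET_ok sG_ok _ kc11)
    (chkTS_sound ET_ok sG_ok _ kc12))
    (chkTS_sound ET_ok sG_ok _ kc13))))
    (cvSU (chkTS_sound ET_ok sG_ok _ kc14)
    (chkTS_sound ET_ok sG_ok _ kc15))))))

theorem slab0 : SlabN 484257562 41943 50332 := slab_of (c0 := 109748) (c1 := 2504628) (by norm_num) (by norm_num)
  (cvMG (chkT_sound ET_ok _ kc16)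
    (cvML (cvMG (cvMG (chkT_sound ET_ok _ kc17)
    (cvMU (chkT_sound ET_ok _ kc18)
    (cvML (chkT_sound ET_ok _ kc19)
    (chkT_sound ET_ok _ kc20))))
    (cvMU (chkT_sound ET_ok _ kc21)
    (cvMU (cvML (cvMU (chkT_sound ET_ok _ kc22)
    (cvMU (chkT_sound ET_ok _ kc23)
    (cvML (chkT_sound ET_ok _ kc24)
    (chkT_sound ET_ok _ kc25))))
    (cvMU (chkT_sound ET_ok _ kc26)
    (cvMU (chkT_sound ET_ok _ kc27)
    (chkT_sound ET_ok _ kc28))))
    (cvMU (cvML (cvMU (chkT_sound ET_ok _ kc29)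
    (chkT_sound ET_ok _ kc30))
    (chkT_sound ET_ok _ kc31))
    (chkT_sound ET_ok _ kc32)))))
    (cvMG (cvMG (chkT_sound ET_ok _ kc33)
    (cvMU (chkT_sound ET_ok _ kc34)
    (cvML (chkT_sound ET_ok _ kc35)
    (chkT_sound ET_ok _ kc36))))
    (cvMU (chkT_sound ET_ok _ kc37)
    (cvMU (cvML (cvMU (chkT_sound ET_ok _ kc38)
    (chkT_sound ET_ok _ kc39))
    (chkT_sound ET_ok _ kc40))
    (cvMU (cvML (chkT_sound ET_ok _ kc41)
    (chkT_sound ET_ok _ kc42))
    (chkT_sound ET_ok _ kc43)))))))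

theorem slab1 : SlabN 484257562 50332 60398 := slab_of (c0 := 120223) (c1 := 2286401) (by norm_num) (by norm_num)
  (cvMG (chkT_sound ET_ok _ kc44)
    (cvML (cvMG (chkT_sound ET_ok _ kc45)
    (cvMU (chkT_sound ET_ok _ kc46)
    (cvMU (cvML (chkT_sound ET_ok _ kc47)
    (chkT_sound ET_ok _ kc48))
    (chkT_sound ET_ok _ kc49))))
    (cvMG (chkT_sound ET_ok _ kc50)
    (cvMU (chkT_sound ET_ok _ kc51)
    (cvMU (chkT_sound ET_ok _ kc52)
    (chkT_sound ET_ok _ kc53))))))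

theorem slab2 : SlabN 484257562 60398 72478 := slab_of (c0 := 131698) (c1 := 2087184) (by norm_num) (by norm_num)
  (cvMG (chkT_sound ET_ok _ kc54)
    (cvML (cvMG (chkT_sound ET_ok _ kc55)
    (cvMU (chkT_sound ET_ok _ kc56)
    (cvMU (chkT_sound ET_ok _ kc57)
    (chkT_sound ET_ok _ kc58))))
    (cvMG (chkT_sound ET_ok _ kc59)
    (cvMU (chkT_sound ET_ok _ kc60)
    (chkT_sound ET_ok _ kc61)))))

theorem slab3 : SlabN 484257562 72478 86974 := slab_of (c0 := 144268) (c1 := 1905329) (by norm_num) (by norm_num)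
  (cvMG (chkT_sound ET_ok _ kc62)
    (cvML (chkT_sound ET_ok _ kc63)
    (cvMG (chkT_sound ET_ok _ kc64)
    (chkT_sound ET_ok _ kc65))))

theorem slab4 : SlabN 484257562 86974 104369 := slab_of (c0 := 158038) (c1 := 1739316) (by norm_num) (by norm_num)
  (cvMG (chkT_sound ET_ok _ kc66)
    (cvML (chkT_sound ET_ok _ kc67)
    (chkT_sound ET_ok _ kc68)))

theorem slab5 : SlabN 484257562 104369 125243 := slab_of (c0 := 173122) (c1 := 1587770) (by norm_num) (by norm_num)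
  (cvMG (chkT_sound ET_ok _ kc69)
    (chkT_sound ET_ok _ kc70))

theorem slab6 : SlabN 484257562 125243 150292 := slab_of (c0 := 189646) (c1 := 1449427) (by norm_num) (by norm_num)
  (cvMG (chkT_sound ET_ok _ kc71)
    (cvMG (chkT_sound ET_ok _ kc72)
    (chkT_sound ET_ok _ kc73)))

theorem slab7 : SlabN 484257562 150292 180350 := slab_of (c0 := 207747) (c1 := 1323138) (by norm_num) (by norm_num)
  (chkT_sound ET_ok _ kc74)

theorem slab8 : SlabN 484257562 180350 216420 := slab_of (c0 := 227575) (c1 := 1207857) (by norm_num) (by norm_num)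
  (cvMG (chkT_sound ET_ok _ kc75)
    (cvMG (chkT_sound ET_ok _ kc76)
    (chkT_sound ET_ok _ kc77)))

theorem slab9 : SlabN 484257562 216420 259704 := slab_of (c0 := 249296) (c1 := 1102617) (by norm_num) (by norm_num)
  (chkT_sound ET_ok _ kc78)

theorem slab10 : SlabN 484257562 259704 311645 := slab_of (c0 := 273090) (c1 := 1006547) (by norm_num) (by norm_num)
  (chkT_sound ET_ok _ kc79)

theorem slab11 : SlabN 484257562 311645 373974 := slab_of (c0 := 299155) (c1 := 918848) (by norm_num) (by norm_num)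
  (chkT_sound ET_ok _ kc80)

theorem slab12 : SlabN 484257562 373974 448769 := slab_of (c0 := 327708) (c1 := 838790) (by norm_num) (by norm_num)
  (chkT_sound ET_ok _ kc81)

theorem slab13 : SlabN 484257562 448769 475695 := slab_of (c0 := 348023) (c1 := 789827) (by norm_num) (by norm_num)
  (chkT_sound ET_ok _ kc82)

theorem slab14 : SlabN 484257562 475695 504237 := slab_of (c0 := 358312) (c1 := 767147) (by norm_num) (by norm_num)
  (chkT_sound ET_ok _ kc83)

theorem slab15 : SlabN 484257562 504237 534491 := slab_of (c0 := 368905) (c1 := 745119) (by norm_num) (by norm_num)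
  (chkT_sound ET_ok _ kc84)

theorem slab16 : SlabN 484257562 534491 566560 := slab_of (c0 := 379811) (c1 := 723723) (by norm_num) (by norm_num)
  (chkT_sound ET_ok _ kc85)

theorem slab17 : SlabN 484257562 566560 583557 := slab_of (c0 := 388242) (c1 := 708007) (by norm_num) (by norm_num)
  (chkT_sound ET_ok _ kc86)

theorem slab18 : SlabN 484257562 583557 601064 := slab_of (c0 := 394023) (c1 := 697619) (by norm_num) (by norm_num)
  (chkT_sound ET_ok _ kc87)

theorem slab19 : SlabN 484257562 601064 619096 := slab_of (c0 := 399890) (c1 := 687384) (by norm_num) (by norm_num)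
  (cvMG (chkT_sound ET_ok _ kc88)
    (cvMU (chkT_sound ET_ok _ kc89)
    (cvMG (chkT_sound ET_ok _ kc90)
    (chkT_sound ET_ok _ kc91))))

theorem slab20 : SlabN 484257562 619096 637669 := slab_of (c0 := 405844) (c1 := 677300) (by norm_num) (by norm_num)
  (cvMG (chkT_sound ET_ok _ kc92)
    (cvMU (chkT_sound ET_ok _ kc93)
    (cvMG (chkT_sound ET_ok _ kc94)
    (cvMU (cvMG (chkT_sound ET_ok _ kc95)
    (chkT_sound ET_ok _ kc96))
    (chkT_sound ET_ok _ kc97)))))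

theorem slab21 : SlabN 484257562 637669 656799 := slab_of (c0 := 411886) (c1 := 667365) (by norm_num) (by norm_num)
  (cvMG (chkT_sound ET_ok _ kc98)
    (cvMU (chkT_sound ET_ok _ kc99)
    (cvMG (chkT_sound ET_ok _ kc100)
    (cvMU (cvMG (chkT_sound ET_ok _ kc101)
    (chkT_sound ET_ok _ kc102))
    (chkT_sound ET_ok _ kc103)))))

theorem slab22 : SlabN 484257562 656799 666000 := slab_of (c0 := 416387) (c1 := 660151) (by norm_num) (by norm_num)
  (cvMG (chkT_sound ET_ok _ kc104)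
    (cvMU (chkT_sound ET_ok _ kc105)
    (cvMG (chkT_sound ET_ok _ kc106)
    (chkT_sound ET_ok _ kc107))))

theorem slab23 : SlabN 484257562 666000 676503 := slab_of (c0 := 419475) (c1 := 655291) (by norm_num) (by norm_num)
  (cvMG (chkT_sound ET_ok _ kc108)
    (cvMU (chkT_sound ET_ok _ kc109)
    (cvMG (chkT_sound ET_ok _ kc110)
    (cvMU (cvMG (cvMG (cvMU (chkT_sound ET_ok _ kc111)
    (cvMU (cvMG (chkT_sound ET_ok _ kc112)
    (chkT_sound ET_ok _ kc113))
    (chkT_sound ET_ok _ kc114)))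
    (chkT_sound ET_ok _ kc115))
    (chkT_sound ET_ok _ kc116))
    (chkT_sound ET_ok _ kc117)))))

theorem slab24 : SlabN 484257562 676503 681000 := slab_of (c0 := 421818) (c1 := 651651) (by norm_num) (by norm_num)
  (cvMG (chkT_sound ET_ok _ kc118)
    (cvMU (chkT_sound ET_ok _ kc119)
    (cvMG (chkT_sound ET_ok _ kc120)
    (cvMU (cvMG (cvMU (chkT_sound ET_ok _ kc121)
    (cvMG (cvMU (cvMG (cvMU (cvMG (chkT_sound ET_ok _ kc122)
    (chkT_sound ET_ok _ kc123))
    (chkT_sound ET_ok _ kc124))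
    (chkT_sound ET_ok _ kc125))
    (chkT_sound ET_ok _ kc126))
    (chkT_sound ET_ok _ kc127)))
    (chkT_sound ET_ok _ kc128))
    (chkT_sound ET_ok _ kc129)))))

theorem slab25 : SlabN 484257562 681000 686000 := slab_of (c0 := 423290) (c1 := 649385) (by norm_num) (by norm_num)
  (cvMG (chkT_sound ET_ok _ kc130)
    (cvMU (chkT_sound ET_ok _ kc131)
    (cvMG (chkT_sound ET_ok _ kc132)
    (cvMU (cvMG (cvMU (chkT_sound ET_ok _ kc133)
    (cvMG (cvMU (cvMG (cvMU (cvMG (cvMU (chkT_sound ET_ok _ kc134)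
    (chkT_sound ET_ok _ kc135))
    (cvMU (chkT_sound ET_ok _ kc136)
    (cvMG (cvMU (chkT_sound ET_ok _ kc137)
    (chkT_sound ET_ok _ kc138))
    (chkT_sound ET_ok _ kc139))))
    (cvMG (chkT_sound ET_ok _ kc140)
    (chkT_sound ET_ok _ kc141)))
    (chkT_sound ET_ok _ kc142))
    (chkT_sound ET_ok _ kc143))
    (chkT_sound ET_ok _ kc144)))
    (chkT_sound ET_ok _ kc145))
    (chkT_sound ET_ok _ kc146)))))

theorem slab26 : SlabN 484257562 686000 688000 := slab_of (c0 := 424374) (c1 := 647726) (by norm_num) (by norm_num)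
  (cvMG (chkT_sound ET_ok _ kc147)
    (cvMU (chkT_sound ET_ok _ kc148)
    (cvMG (chkT_sound ET_ok _ kc149)
    (cvMU (cvMG (cvMU (chkT_sound ET_ok _ kc150)
    (chkT_sound ET_ok _ kc151))
    (chkT_sound ET_ok _ kc152))
    (chkT_sound ET_ok _ kc153)))))

theorem slab27 : SlabN 484257562 688000 691000 := slab_of (c0 := 425145) (c1 := 646551) (by norm_num) (by norm_num)
  (cvMG (chkT_sound ET_ok _ kc154)
    (cvMU (chkT_sound ET_ok _ kc155)
    (cvMG (chkT_sound ET_ok _ kc156)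
    (cvMU (cvMG (cvMU (chkT_sound ET_ok _ kc157)
    (chkT_sound ET_ok _ kc158))
    (chkT_sound ET_ok _ kc159))
    (chkT_sound ET_ok _ kc160)))))

theorem slab28 : SlabN 484257562 691000 696798 := slab_of (c0 := 426498) (c1 := 644500) (by norm_num) (by norm_num)
  (cvMG (chkT_sound ET_ok _ kc161)
    (cvMU (chkT_sound ET_ok _ kc162)
    (cvMG (chkT_sound ET_ok _ kc163)
    (cvMU (cvMG (cvMU (chkT_sound ET_ok _ kc164)
    (cvMG (cvMU (cvMG (cvMG (chkT_sound ET_ok _ kc165)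
    (chkT_sound ET_ok _ kc166))
    (chkT_sound ET_ok _ kc167))
    (chkT_sound ET_ok _ kc168))
    (chkT_sound ET_ok _ kc169)))
    (chkT_sound ET_ok _ kc170))
    (chkT_sound ET_ok _ kc171)))))

theorem slab29 : SlabN 484257562 696798 717702 := slab_of (c0 := 430560) (c1 := 638420) (by norm_num) (by norm_num)
  (cvMG (chkT_sound ET_ok _ kc172)
    (cvMU (chkT_sound ET_ok _ kc173)
    (cvMG (cvMG (chkT_sound ET_ok _ kc174)
    (cvMU (cvMG (chkT_sound ET_ok _ kc175)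
    (cvMG (chkT_sound ET_ok _ kc176)
    (cvMU (chkT_sound ET_ok _ kc177)
    (cvMU (cvML (cvMU (chkT_sound ET_ok _ kc178)
    (chkT_sound ET_ok _ kc179))
    (chkT_sound ET_ok _ kc180))
    (chkT_sound ET_ok _ kc181)))))
    (chkT_sound ET_ok _ kc182)))
    (cvMG (cvMU (cvMU (chkT_sound ET_ok _ kc183)
    (cvMG (cvMU (cvMG (cvML (cvMG (cvMU (chkT_sound ET_ok _ kc184)
    (chkT_sound ET_ok _ kc185))
    (chkT_sound ET_ok _ kc186))
    (chkT_sound ET_ok _ kc187))
    (chkT_sound ET_ok _ kc188))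
    (chkT_sound ET_ok _ kc189))
    (chkT_sound ET_ok _ kc190)))
    (chkT_sound ET_ok _ kc191))
    (chkT_sound ET_ok _ kc192)))))

theorem slab30 : SlabN 484257562 717702 739233 := slab_of (c0 := 436970) (c1 := 629055) (by norm_num) (by norm_num)
  (chkT_sound ET_ok _ kc193)

theorem slab31 : SlabN 484257562 739233 761410 := slab_of (c0 := 443476) (c1 := 619826) (by norm_num) (by norm_num)
  (chkT_sound ET_ok _ kc194)

theorem slab32 : SlabN 484257562 761410 807095 := slab_of (c0 := 453321) (c1 := 606365) (by norm_num) (by norm_num)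
  (chkT_sound ET_ok _ kc195)

theorem slab33 : SlabN 484257562 807095 855521 := slab_of (c0 := 466723) (c1 := 588953) (by norm_num) (by norm_num)
  (chkT_sound ET_ok _ kc196)

theorem slab34 : SlabN 484257562 855521 906852 := slab_of (c0 := 480521) (c1 := 572042) (by norm_num) (by norm_num)
  (chkT_sound ET_ok _ kc197)

theorem slab35 : SlabN 484257562 906852 1050000 := slab_of (c0 := 505769) (c1 := 543486) (by norm_num) (by norm_num)
  (chkT_sound ET_ok _ kc198)

theorem slab36 : SlabN 484257562 1050000 1260200 := slab_of (c0 := 549133) (c1 := 500568) (by norm_num) (by norm_num)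
  (chkT_sound ET_ok _ kc199)

theorem upper_main : Upper (484257562 / 2 ^ 30) := upper_ofN covS ((((((((((((((((((((((((((((((((((((slab0.tr slab1).tr slab2).tr slab3).tr slab4).tr slab5).tr slab6).tr slab7).tr slab8).tr slab9).tr slab10).tr slab11).tr slab12).tr slab13).tr slab14).tr slab15).tr slab16).tr slab17).tr slab18).tr slab19).tr slab20).tr slab21).tr slab22).tr slab23).tr slab24).tr slab25).tr slab26).tr slab27).tr slab28).tr slab29).tr slab30).tr slab31).tr slab32).tr slab33).tr slab34).tr slab35).tr slab36) (by norm_num)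

end Pool.Agent.Lib.MP_33650d_pr
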