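import Pool.Agent.Lib.MP_33650d_pr.MDef

namespace Pool.Agent.Lib.MP_33650d_pr

noncomputable def cdiv (a b : ℕ) : ℕ := Nat.add (Nat.div a b) 1
noncomputable def cshr (a k : ℕ) : ℕ := Nat.add (Nat.shiftRight a k) 1

noncomputable def sS (σ nL i : ℕ) : ℕ := Nat.mul (mn (Nat.add i 1) nL) σ
noncomputable def sCs (σ nL i : ℕ) : ℕ :=
  Nat.shiftRight (Nat.sub (aC (sS σ nL i)) 2417851639792208302833664) 48
noncomputable def sC (cH i : ℕ) : ℕ := bt cH (Nat.mul 24 i) 16777216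

noncomputable def chkSG1 (σ nL cH i : ℕ) : Bool :=
  band (Nat.ble 1 (sCs σ nL i))
    (Nat.ble (Nat.add (Nat.shiftLeft (expU 0 (Nat.add (Nat.shiftRight (sq (sS σ nL i)) 17)
      (Nat.shiftRight (Nat.mul (sC cH i) (cu (sS σ nL i))) 64))) 16) 2417851639792208302833664)
      (aC (sS σ nL i)))

/-- Check of the data common to all cells of the small range. -/
noncomputable def chkSG (L h σ nL iw tm cH : ℕ) : Bool :=
  band (band (band (Nat.ble 1 L) (Nat.ble 1 h)) (band (Nat.ble 1 σ) (Nat.ble 1 nL)))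
    (band (band (Nat.ble (Nat.mul nL σ) 33554432) (Nat.ble 1 tm))
      (band (band (Nat.ble (Nat.mul (sq L) (cu (Nat.mul nL σ))) (Nat.shiftLeft (cu (sq iw)) 64))
          (Nat.ble (Nat.shiftLeft (Nat.mul L (cu h)) 16) (cu σ)))
        (band (Nat.ble (Nat.shiftLeft (sq iw) 8) tm) (allN (Nat.add nL 1) (chkSG1 σ nL cH)))))

noncomputable def sA (σ nL i : ℕ) : ℕ :=
  cdiv (Nat.shiftLeft (cu (sS σ nL i)) 24) (Nat.mul 72 (sq (sCs σ nL i)))
noncomputable def sB6 (σ nL i : ℕ) : ℕ :=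
  cdiv (Nat.shiftLeft (Nat.sub 4294967296 (sCs σ nL i)) 32) (Nat.mul 6 (sCs σ nL i))

noncomputable def sD2 (D0 y : ℕ) : ℕ :=
  ite' (Nat.ble y 34359738368) (cshr (Nat.mul D0 (expT (Nat.sub 34359738368 y))) 40)
    1267650600228229401496703205376

noncomputable def sD (σ nL cH uh vh i : ℕ) : ℕ :=
  force (Nat.add uh (sA σ nL i)) fun uu =>
    force (cshr (Nat.mul uu (cu (sS σ nL i))) 72)
      (sD2 (hyp (mx uu (Nat.shiftLeft (sC cH i) 8)) (Nat.add vh (sB6 σ nL i))))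

/-- Upper bound for `2 ^ 40 * (1 + (π x / T) ^ 2 / 2)`. -/
noncomputable def kap (x T : ℕ) : ℕ :=
  Nat.add (cshr (sq (cdiv (Nat.mul 3294199 x) T)) 1) 1099511627776

noncomputable def sE (H : ℕ) : ℕ := expT (Nat.add (Nat.shiftLeft (sq H) 7) 34359738368)

noncomputable def sW (L h tm i : ℕ) : ℕ :=
  cshr (Nat.mul (Nat.mul (Nat.mul (kap (Nat.mul (Nat.mul L (Nat.add i 1)) h) (Nat.shiftLeft tm 8))
    (sq (Nat.mul (Nat.add i 1) h))) (sE (Nat.mul i h))) (Nat.mul h 333773)) 96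

noncomputable def sF2 (H : ℕ) : ℕ :=
  cdiv (Nat.mul (Nat.mul (Nat.add (sq H) 33554432) (sE H)) 333773) (Nat.shiftLeft H 32)
noncomputable def sI3 (s0 : ℕ) : ℕ := cdiv 20282409603651670423947251286016 (cu s0)

noncomputable def rh (B i : ℕ) : ℕ := bt (Nat.shiftLeft B 30) (Nat.mul 30 i) 16384
noncomputable def hI (t : BT) (B i : ℕ) : ℕ := force (bt B (Nat.add (Nat.mul 30 i) 14) 65536) (ent t)

noncomputable def et1 (x u g ρ : ℕ) : ℕ :=
  Nat.sub (Nat.add 604462909807314587353088 (Nat.shiftLeft (Nat.mul g ρ) 51))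
    (Nat.add (Nat.add (Nat.shiftLeft (fld x 0) 40)
      (Nat.mul (Nat.add (Nat.mul (fld x 3) u) (Nat.mul (fld x 4) (Nat.sub 65536 u))) (sq ρ)))
      (Nat.shiftLeft (Nat.mul (fld x 2) (Nat.mul g ρ)) 12))

noncomputable def et4 (x u0 u1 g0 g1 ρ : ℕ) : ℕ :=
  force (et1 x u0 g0 ρ) fun a => force (et1 x u0 g1 ρ) fun b => force (et1 x u1 g0 ρ) fun c =>
    force (et1 x u1 g1 ρ) fun d => force (mn a b) fun e => force (mn c d) fun f => mn e f

noncomputable def eta (t : BT) (B u0 u1 g0 g1 i : ℕ) : ℕ :=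
  force (hI t B i) fun x => force (rh B i) fun a => force (rh B (Nat.add i 1)) fun b =>
    force (et4 x u0 u1 g0 g1 a) fun e => force (et4 x u0 u1 g0 g1 b) fun f =>
      Nat.shiftRight (mn e f) 32

noncomputable def chkH1 (t : BT) (L B u0 u1 g0 g1 i : ℕ) : Bool :=
  band (Nat.ble (Nat.add (rh B i) 1) (rh B (Nat.add i 1)))
    (band (band (Nat.beq (fld (hI t B i) 1) 549755813888) (Nat.ble (fld (hI t B i) 5) 0))
      (band (Nat.ble 1 (eta t B u0 u1 g0 g1 i)) (bor (Nat.ble i 0)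
        (Nat.ble (Nat.shiftLeft (sq L) 39) (Nat.mul (eta t B u0 u1 g0 g1 i) (sq (sq (rh B i))))))))

noncomputable def hW1 (a b T : ℕ) : ℕ := cdiv (Nat.mul (kap b T) 333773) (Nat.shiftLeft a 4)
noncomputable def hW2 (v T : ℕ) : ℕ :=
  cdiv (Nat.mul v (Nat.add (Nat.mul 9 (sq v)) 2199023255552)) (Nat.shiftLeft T 5)
noncomputable def hW (a b T : ℕ) : ℕ :=
  ite' (Nat.ble T (Nat.mul 2 a))
    (force (hW1 a b T) fun x => force (hW2 (cdiv (Nat.shiftLeft (Nat.sub T a) 20) T) T) fun y => mn x y)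
    (hW1 a b T)

noncomputable def hT (t : BT) (L B u0 u1 g0 g1 T i : ℕ) : ℕ :=
  force (sq (rh B i)) fun a => force (sq (rh B (Nat.add i 1))) fun b =>
    cdiv (Nat.mul (Nat.mul (hW a b T) (Nat.sub b a)) (expT (Nat.add (Nat.div
      (Nat.mul (eta t B u0 u1 g0 g1 i) (sq a)) (Nat.shiftLeft (sq L) 8)) 34359738368)))
      (Nat.shiftLeft L 4)

noncomputable def sG4 (e H : ℕ) : ℕ :=
  cdiv (Nat.shiftLeft (Nat.mul (Nat.add (Nat.mul e (sq H)) 72057594037927936)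
    (expT (Nat.add (Nat.shiftRight (Nat.mul e (sq H)) 24) 34359738368))) 19) (Nat.mul (sq e) H)

noncomputable def sTot (t : BT) (L h σ nL iw tm cH B u0 u1 g0 g1 nH uh vh T : ℕ) : ℕ :=
  Nat.add (Nat.add (Nat.add (cdiv 99297776152769955335185104896 T)
      (sumN nL fun i => Nat.mul (sD σ nL cH uh vh i) (sW L h tm i)))
    (Nat.add (Nat.mul (Nat.add (cshr (Nat.mul (kap (Nat.shiftLeft (sq iw) 8) T)
        (sD σ nL cH uh vh nL)) 40) (sI3 (Nat.mul nL σ))) (sF2 (Nat.mul nL h)))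
      (cdiv (Nat.shiftLeft (sE (Nat.mul nL h)) 68) (Nat.mul (Nat.mul nL h) T))))
    (Nat.add (cshr (Nat.mul (Nat.mul (Nat.mul (kap (sq (rh B 1)) T) 333773) (sI3 (Nat.mul nL σ)))
        (sG4 (eta t B u0 u1 g0 g1 0) (Nat.mul nL h))) 60)
      (sumI 1 nH (hT t L B u0 u1 g0 g1 T)))

noncomputable def chkP1 (iw nu e : ℕ) : Bool :=
  band (Nat.ble (Nat.shiftLeft (sq iw) 8) (Nat.mul 24 nu))
    (side iw 0 0 0 0 1099511627776 0 0 0 (Nat.mul e (sq iw)) 549755813888 0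
      (Nat.mul 512 (Nat.mul e iw)) (Nat.shiftLeft (Nat.add nu e) 16))

noncomputable def chkP2 (iw np nm e : ℕ) : Bool :=
  band (band (Nat.ble (Nat.add (sq (sq iw)) 16888498602639360)
      (Nat.add (Nat.mul 30720 np) 85899345920)) (Nat.ble 16777216 (Nat.mul 6 nm)))
    (band (Nat.ble 549755813888 (Nat.add np e))
      (side iw 0 0 0 0 0 0 1099511627776 0 (Nat.mul e (sq iw)) 0 0
        (Nat.mul 512 (Nat.mul e iw)) (Nat.shiftLeft (Nat.sub (Nat.add np e) 549755813888) 16)))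

noncomputable def vh1 (np nm u : ℕ) : ℕ :=
  Nat.sub (Nat.add (Nat.mul np u) (Nat.mul nm (Nat.sub 65536 u))) (Nat.shiftLeft u 39)

noncomputable def vh4 (np nm u0 u1 : ℕ) : ℕ :=
  force (vh1 np nm u0) fun a => force (vh1 np nm u1) fun b =>
    force (vh1 np nm (Nat.sub 65536 u0)) fun c => force (vh1 np nm (Nat.sub 65536 u1)) fun d =>
      force (mx a b) fun e => force (mx c d) fun f => mx e f

noncomputable def chkS2 (t : BT) (Cn L h σ nL iw tm cH u0 u1 g0 g1 nu e1 np nm e2 nH B : ℕ) : Bool :=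
  band (band (band (Nat.ble u0 65536) (Nat.ble u1 65536)) (band (Nat.ble 1 nH) (Nat.ble Cn 1073741824)))
    (band (band (chkP1 iw nu e1) (chkP2 iw np nm e2)) (band (allN nH (chkH1 t L B u0 u1 g0 g1))
      (force (sq (rh B nH)) fun T => band (Nat.ble tm T)
        (force (Nat.add (Nat.shiftLeft nu 8) (cshr (Nat.mul e1 (Nat.sub 65536 g0)) 7)) fun uh =>
          force (Nat.add (cshr (vh4 np nm u0 u1) 8) (cshr (Nat.mul e2 (Nat.sub 65536 g0)) 7)) fun vh =>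
            Nat.ble (sTot t L h σ nL iw tm cH B u0 u1 g0 g1 nH uh vh T) (Nat.shiftLeft Cn 42)))))

/-- Check of a cell of the small range with data `d`. -/
noncomputable def chkS (t : BT) (Cn L h σ nL iw tm cH u0 u1 g0 g1 d : ℕ) : Bool :=
  force (bt d 0 16777216) fun nu => force (bt d 24 16777216) fun e1 =>
    force (bt d 48 1099511627776) fun np => force (bt d 88 16777216) fun nm =>
      force (bt d 112 16777216) fun e2 => force (bt d 136 256) fun nH =>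
        chkS2 t Cn L h σ nL iw tm cH u0 u1 g0 g1 nu e1 np nm e2 nH (Nat.shiftRight d 144)

noncomputable def chkTS (t : BT) (Cn L h σ nL iw tm cH : ℕ) (T : KT) : ℕ → ℕ → ℕ → ℕ → Bool :=
  KT.rec (motive := fun _ => ℕ → ℕ → ℕ → ℕ → Bool)
    (fun d u0 u1 g0 g1 => chkS t Cn L h σ nL iw tm cH u0 u1 g0 g1 d)
    (fun _ _ _ _ _ _ _ _ _ => false)
    (fun c _ _ a b u0 u1 g0 g1 => band (a u0 c g0 g1) (b c u1 g0 g1))
    (fun c _ _ a b u0 u1 g0 g1 => band (a u0 u1 g0 c) (b u0 u1 c g1)) T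

end Pool.Agent.Lib.MP_33650d_pr
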