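import Pool.Agent.Lib.MP_33650d_pr.WTab
import Pool.Agent.Lib.MP_33650d_pr.Lerp
import Pool.Agent.Lib.MP_33650d_pr.Defs2

namespace Pool.Agent.Lib.MP_33650d_pr
open Real

noncomputable def rH : ℕ := Nat.shiftLeft rOne 127

noncomputable def sideL (k0p k2p cp sp mp zp n : ℕ) : ℕ :=
  Nat.add (Nat.mul (Nat.shiftLeft k0p 51) rOne) (Nat.add (Nat.mul k2p rW2) (Nat.add (Nat.mul cp rU1)
    (Nat.add (Nat.mul sp rU2) (Nat.add (Nat.mul mp rW4) (Nat.add (Nat.mul zp rW5)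
      (Nat.mul n rW6))))))

noncomputable def sideR (c0 k2n cn sn mn zn a2 a3 a4 : ℕ) : ℕ :=
  Nat.add (Nat.mul c0 rOne) (Nat.add (Nat.mul k2n rW2) (Nat.add (Nat.mul cn rU1)
    (Nat.add (Nat.mul sn rU2) (Nat.add (Nat.mul mn rW4) (Nat.add (Nat.mul zn rW5)
      (Nat.add (Nat.mul a2 rS2) (Nat.add (Nat.mul a3 rS3) (Nat.mul a4 rS4))))))))

noncomputable def sideTail (k0p k0n k2n cn sn mp mn zp zn n : ℕ) : Bool :=
  band (Nat.ble (Nat.mul zn 256) (Nat.add (Nat.mul n 2046) (Nat.mul zp 256)))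
    (Nat.ble (Nat.add (Nat.mul zn 286825747364183808) (Nat.add (Nat.mul mn 71776531109707776)
        (Nat.add (Nat.mul (Nat.add k2n sn) 4494807829315584)
          (Nat.mul (Nat.add (Nat.sub k0n k0p) (Nat.add (Nat.mul 2 cn) sn)) 281474976710656))))
      (Nat.add (Nat.mul n 1146182576381093889) (Nat.add (Nat.mul zp 286825747364183808)
        (Nat.mul mp 71776531109707776))))

/-- Grid check of `0 ≤ Pw ... w` for `w ≥ ia / 256`. -/
noncomputable def side (ia k0p k0n k2p k2n cp cn sp sn mp mn zp zn n : ℕ) : Bool :=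
  band (Nat.ble (Nat.add (Nat.add (Nat.add (Nat.add k0p k0n) (Nat.add k2p k2n))
      (Nat.add (Nat.add cp cn) (Nat.add sp sn))) (Nat.add (Nat.add (Nat.add mp mn) (Nat.add zp zn)) n))
      1125899906842624)
    (band (sideTail k0p k0n k2n cn sn mp mn zp zn n)
      (geqR 128 ia 1024 (sideL k0p k2p cp sp mp zp n)
        (sideR (Nat.add (Nat.add (Nat.shiftLeft k0n 51) (Nat.shiftLeft k2p 33))
            (Nat.shiftLeft (Nat.add (Nat.add cp cn) (Nat.add sp sn)) 7)) k2n cn sn mn zn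
          (Nat.add (Nat.mul 6 (Nat.sub (Nat.add (Nat.mul 2 mp) cp) (Nat.add (Nat.mul 2 mn) cn)))
            (Nat.mul 12 cn)) (Nat.mul 20 zp)
          (Nat.add (Nat.mul 5 (Nat.add sp sn)) (Nat.mul 30 n))) rH))

seal Nat.shiftRight Nat.shiftLeft Nat.mod Nat.sub Nat.add Nat.mul rOne rW2 rW4 rW5 rW6 rS2 rS3 rS4
  rU1 rU2

theorem top_of_one {w n X k : ℕ} (h : X = pk w n fun _ => 1) :
    Nat.shiftLeft X k = pk w n fun _ => 2 ^ k := by
  rw [nshl_eq, h, mul_comm, pk_mul]; simp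

theorem rH_eq : rH = pk (127 + 1) 1024 fun _ => 2 ^ 127 := top_of_one rOne_rep.1

theorem Pw_deriv (k0 k2 c s m z n w : ℝ) : HasDerivAt (Pw k0 k2 c s m z n)
    (2 * k2 * w + c * (2 * w * sin (w ^ 2)) + s * (2 * w - 2 * w * cos (w ^ 2)) + 4 * m * w ^ 3
      + 5 * z * w ^ 4 + 6 * n * w ^ 5) w := by
  have h2 := hasDerivAt_pow 2 w
  have := ((((((h2.const_mul k2).const_add k0).add ((h2.cos.const_sub 1).const_mul c)).add
    ((h2.sub h2.sin).const_mul s)).add ((hasDerivAt_pow 4 w).const_mul m)).add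
    ((hasDerivAt_pow 5 w).const_mul z)).add ((hasDerivAt_pow 6 w).const_mul n)
  exact this.congr_deriv (by simp; ring)

theorem Pw_deriv2 (k2 c s m z n w : ℝ) : HasDerivAt (fun w =>
    2 * k2 * w + c * (2 * w * sin (w ^ 2)) + s * (2 * w - 2 * w * cos (w ^ 2)) + 4 * m * w ^ 3
      + 5 * z * w ^ 4 + 6 * n * w ^ 5)
    (2 * k2 + c * (2 * sin (w ^ 2) + 4 * w ^ 2 * cos (w ^ 2))
      + s * (2 - 2 * cos (w ^ 2) + 4 * w ^ 2 * sin (w ^ 2)) + 12 * m * w ^ 2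
      + 20 * z * w ^ 3 + 30 * n * w ^ 4) w := by
  have h2 := hasDerivAt_pow 2 w
  have h1 := (hasDerivAt_id' w).const_mul 2
  have := ((((((hasDerivAt_id' w).const_mul (2 * k2)).add ((h1.mul h2.sin).const_mul c)).add
    ((h1.sub (h1.mul h2.cos)).const_mul s)).add ((hasDerivAt_pow 3 w).const_mul (4 * m))).add
    ((hasDerivAt_pow 4 w).const_mul (5 * z))).add ((hasDerivAt_pow 5 w).const_mul (6 * n))
  exact this.congr_deriv (by simp; ring)

theorem Pw_d2_le {k2p k2n cp cn sp sn mp mn zp zn n T w v : ℝ} (h1 : 0 ≤ k2n) (h2 : 0 ≤ cp)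
    (h3 : 0 ≤ cn) (h4 : 0 ≤ sp) (h5 : 0 ≤ sn) (h6 : 0 ≤ zp) (h7 : 0 ≤ zn) (h8 : 0 ≤ n)
    (hT0 : 0 ≤ T) (hT : 2 * mp + cp - (2 * mn + cn) ≤ T) (hw : 0 ≤ w) (hv : w ≤ v) :
    2 * (k2p - k2n) + (cp - cn) * (2 * sin (w ^ 2) + 4 * w ^ 2 * cos (w ^ 2))
      + (sp - sn) * (2 - 2 * cos (w ^ 2) + 4 * w ^ 2 * sin (w ^ 2)) + 12 * (mp - mn) * w ^ 2
      + 20 * (zp - zn) * w ^ 3 + 30 * n * w ^ 4
      ≤ 2 * k2p + (6 * T + 12 * cn) * v ^ 2 + 20 * zp * v ^ 3 + (5 * (sp + sn) + 30 * n) * v ^ 4 := by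
  have x0 : 0 ≤ w ^ 2 := by positivity
  have s1 := sin_le x0
  have s2 : -w ^ 2 ≤ sin (w ^ 2) := by
    have := abs_sin_le_abs (x := w ^ 2)
    rw [abs_of_nonneg x0] at this
    exact (abs_le.1 this).1
  have c1 := cos_le_one (w ^ 2)
  have c2 := neg_one_le_cos (w ^ 2)
  have c3 := one_sub_sq_div_two_le_cos (x := w ^ 2)
  have p2 : w ^ 2 ≤ v ^ 2 := pow_le_pow_left₀ hw hv 2
  have p3 : w ^ 3 ≤ v ^ 3 := pow_le_pow_left₀ hw hv 3
  have p4 : w ^ 4 ≤ v ^ 4 := pow_le_pow_left₀ hw hv 4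
  have e4 : w ^ 4 = w ^ 2 * w ^ 2 := by ring
  have y1 : 2 * sin (w ^ 2) + 4 * w ^ 2 * cos (w ^ 2) - 6 * w ^ 2 ≤ 0 := by nlinarith
  have y2 : -(12 * w ^ 2) ≤ 2 * sin (w ^ 2) + 4 * w ^ 2 * cos (w ^ 2) - 6 * w ^ 2 := by nlinarith
  have v1 : 2 - 2 * cos (w ^ 2) + 4 * w ^ 2 * sin (w ^ 2) ≤ 5 * w ^ 4 := by nlinarith
  have v2 : -(5 * w ^ 4) ≤ 2 - 2 * cos (w ^ 2) + 4 * w ^ 2 * sin (w ^ 2) := by nlinarith
  have a1 := mul_nonpos_of_nonneg_of_nonpos h2 y1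
  have a2 := mul_le_mul_of_nonneg_left y2 h3
  have a3 := mul_le_mul_of_nonneg_left v1 h4
  have a4 := mul_le_mul_of_nonneg_left v2 h5
  have a5 := mul_le_mul_of_nonneg_right hT x0
  have a6 := mul_le_mul_of_nonneg_left p2 (show 0 ≤ 6 * T + 12 * cn by positivity)
  have a7 := mul_le_mul_of_nonneg_left p3 h6
  have a8 := mul_le_mul_of_nonneg_left p4 (show 0 ≤ 5 * (sp + sn) + 30 * n by positivity)
  have a9 : 0 ≤ zn * w ^ 3 := by positivity
  nlinarith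

theorem Pw_tail {k0p k0n k2p k2n cp cn sp sn mp mn zp zn n K W w : ℝ} (h0 : 0 ≤ k2p) (h1 : 0 ≤ k2n)
    (h2 : 0 ≤ cp) (h3 : 0 ≤ cn) (h4 : 0 ≤ sp) (h5 : 0 ≤ sn) (h8 : 0 ≤ n) (hK0 : 0 ≤ K)
    (hK : k0n - k0p ≤ K) (hW : 0 < W) (t1 : 0 ≤ 2 * n * W + (zp - zn))
    (t2 : (k2n + sn) * W ^ 2 + (K + 2 * cn + sn) ≤ (n * W ^ 2 + (zp - zn) * W + (mp - mn)) * W ^ 4)
    (hw : W ≤ w) : 0 ≤ Pw (k0p - k0n) (k2p - k2n) (cp - cn) (sp - sn) (mp - mn) (zp - zn) n w := by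
  have hw0 : 0 < w := lt_of_lt_of_le hW hw
  have x0 : 0 ≤ w ^ 2 := by positivity
  have s1 := sin_le x0
  have s2 := neg_one_le_sin (w ^ 2)
  have c1 := cos_le_one (w ^ 2)
  have c2 := neg_one_le_cos (w ^ 2)
  have q1 : n * W ^ 2 + (zp - zn) * W + (mp - mn) ≤ n * w ^ 2 + (zp - zn) * w + (mp - mn) := by
    have : 0 ≤ (w - W) * (n * (w - W) + (2 * n * W + (zp - zn))) :=
      mul_nonneg (by linarith) (add_nonneg (mul_nonneg h8 (by linarith)) t1)
    nlinarith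
  obtain ⟨r, hr⟩ : ∃ r, r = w / W := ⟨_, rfl⟩
  have hr1 : 1 ≤ r := by rw [hr, le_div_iff₀ hW]; linarith
  have hwr : w = r * W := by rw [hr]; field_simp
  have r2 : 1 ≤ r ^ 2 := one_le_pow₀ hr1
  have r4 : 1 ≤ r ^ 4 := one_le_pow₀ hr1
  have r42 : r ^ 2 ≤ r ^ 4 := pow_le_pow_right₀ hr1 (by norm_num)
  have q2 := mul_le_mul_of_nonneg_right t2 (show 0 ≤ r ^ 4 by positivity)
  have q3 := mul_le_mul_of_nonneg_right q1 (show 0 ≤ w ^ 4 by positivity)
  have q4 : (k2n + sn) * W ^ 2 * r ^ 2 ≤ (k2n + sn) * W ^ 2 * r ^ 4 :=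
    mul_le_mul_of_nonneg_left r42 (by positivity)
  have q5 : (K + 2 * cn + sn) * 1 ≤ (K + 2 * cn + sn) * r ^ 4 :=
    mul_le_mul_of_nonneg_left r4 (by positivity)
  have e2 : w ^ 2 = W ^ 2 * r ^ 2 := by rw [hwr]; ring
  have e4 : w ^ 4 = W ^ 4 * r ^ 4 := by rw [hwr]; ring
  have q6 : (k2n + sn) * w ^ 2 + (K + 2 * cn + sn)
      ≤ (n * w ^ 2 + (zp - zn) * w + (mp - mn)) * w ^ 4 := by
    have : (n * W ^ 2 + (zp - zn) * W + (mp - mn)) * W ^ 4 * r ^ 4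
      = (n * W ^ 2 + (zp - zn) * W + (mp - mn)) * w ^ 4 := by rw [e4]; ring
    have : (k2n + sn) * w ^ 2 = (k2n + sn) * W ^ 2 * r ^ 2 := by rw [e2]; ring
    nlinarith
  have b1 : 0 ≤ cp * (1 - cos (w ^ 2)) := mul_nonneg h2 (by linarith)
  have b2 : cn * (1 - cos (w ^ 2)) ≤ cn * 2 := mul_le_mul_of_nonneg_left (by linarith) h3
  have b3 : 0 ≤ sp * (w ^ 2 - sin (w ^ 2)) := mul_nonneg h4 (by linarith)
  have b4 : sn * (w ^ 2 - sin (w ^ 2)) ≤ sn * (w ^ 2 + 1) :=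
    mul_le_mul_of_nonneg_left (by linarith) h5
  have b5 : 0 ≤ k2p * w ^ 2 := by positivity
  unfold Pw
  nlinarith

theorem side_lane {ia k0p k0n k2p k2n cp cn sp sn mp mn zp zn n : ℕ}
    (h : side ia k0p k0n k2p k2n cp cn sp sn mp mn zp zn n = true) {i : ℕ} (h1 : ia ≤ i)
    (h2 : i < 1024) :
    (2 * k2p + (6 * ((Nat.sub (Nat.add (Nat.mul 2 mp) cp) (Nat.add (Nat.mul 2 mn) cn) : ℕ) : ℝ)
        + 12 * cn) * (((i : ℝ) + 1) / 256) ^ 2 + 20 * zp * (((i : ℝ) + 1) / 256) ^ 3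
        + (5 * (sp + sn) + 30 * n) * (((i : ℝ) + 1) / 256) ^ 4) / 2 ^ 19
      ≤ Pw ((k0p : ℝ) - k0n) (k2p - k2n) (cp - cn) (sp - sn) (mp - mn) (zp - zn) n (i / 256) := by
  rw [side, band_eq, band_eq] at h
  obtain ⟨hb, -, hg⟩ := h
  have hb' := Nat.le_of_ble_eq_true hb
  simp only [Nat.add_eq] at hb'
  obtain ⟨T, hT⟩ : ∃ T, T = Nat.sub (Nat.add (Nat.mul 2 mp) cp) (Nat.add (Nat.mul 2 mn) cn) :=
    ⟨_, rfl⟩
  rw [← hT] at hg ⊢
  have hT' : T ≤ 2 ^ 52 := by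
    rw [hT, Nat.sub_eq, Nat.add_eq, Nat.mul_eq]; omega
  have hL : Rep 128 1024 (sideL k0p k2p cp sp mp zp n) _ _ :=
    (rOne_rep.mul' (C := 2 ^ 101) (by rw [nshl_eq]; omega)).add
      ((rW2_rep.mul' (C := 2 ^ 50) (by omega)).add ((rU1_rep.mul' (C := 2 ^ 50) (by omega)).add
      ((rU2_rep.mul' (C := 2 ^ 50) (by omega)).add ((rW4_rep.mul' (C := 2 ^ 50) (by omega)).add
      ((rW5_rep.mul' (C := 2 ^ 50) (by omega)).add (rW6_rep.mul' (C := 2 ^ 50) (by omega)))))))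
  have hR : Rep 128 1024 (sideR (Nat.add (Nat.add (Nat.shiftLeft k0n 51) (Nat.shiftLeft k2p 33))
            (Nat.shiftLeft (Nat.add (Nat.add cp cn) (Nat.add sp sn)) 7)) k2n cn sn mn zn
          (Nat.add (Nat.mul 6 T) (Nat.mul 12 cn)) (Nat.mul 20 zp)
          (Nat.add (Nat.mul 5 (Nat.add sp sn)) (Nat.mul 30 n))) _ _ :=
    (rOne_rep.mul' (C := 2 ^ 103) (by simp only [nshl_eq, Nat.add_eq]; omega)).add
      ((rW2_rep.mul' (C := 2 ^ 50) (by omega)).add ((rU1_rep.mul' (C := 2 ^ 50) (by omega)).add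
      ((rU2_rep.mul' (C := 2 ^ 50) (by omega)).add ((rW4_rep.mul' (C := 2 ^ 50) (by omega)).add
      ((rW5_rep.mul' (C := 2 ^ 50) (by omega)).add
      ((rS2_rep.mul' (C := 2 ^ 56) (by simp only [Nat.mul_eq, Nat.add_eq]; omega)).add
      ((rS3_rep.mul' (C := 2 ^ 56) (by simp only [Nat.mul_eq]; omega)).add
      (rS4_rep.mul' (C := 2 ^ 56) (by simp only [Nat.mul_eq, Nat.add_eq]; omega)))))))))
  have key := geqR_sound (w := 127) rH_eq hL hR (by norm_num) (by norm_num) hg h1 (by omega) h2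
  clear hL hR hg hb hb' hT hT'
  have key' := (Nat.cast_le (α := ℝ)).2 key
  clear key
  simp only [nshl_eq, Nat.add_eq, Nat.mul_eq] at key'
  push_cast at key'
  obtain ⟨u1, u2⟩ := fU_spec h2
  rw [abs_le] at u1 u2
  have b1 := mul_le_mul_of_nonneg_left u1.2 (Nat.cast_nonneg (α := ℝ) cp)
  have b2 := mul_le_mul_of_nonneg_left u1.1 (Nat.cast_nonneg (α := ℝ) cn)
  have b3 := mul_le_mul_of_nonneg_left u2.2 (Nat.cast_nonneg (α := ℝ) sp)
  have b4 := mul_le_mul_of_nonneg_left u2.1 (Nat.cast_nonneg (α := ℝ) sn)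
  unfold Pw
  nlinarith

theorem side_sound {ia k0p k0n k2p k2n cp cn sp sn mp mn zp zn n : ℕ}
    (h : side ia k0p k0n k2p k2n cp cn sp sn mp mn zp zn n = true) {w : ℝ}
    (hw : (ia : ℝ) / 256 ≤ w) :
    0 ≤ Pw ((k0p : ℝ) - k0n) (k2p - k2n) (cp - cn) (sp - sn) (mp - mn) (zp - zn) n w := by
  rcases le_total (1023 / 256 : ℝ) w with h1 | h1
  · rw [side, band_eq, band_eq, sideTail, band_eq] at h
    obtain ⟨-, ⟨t1, t2⟩, -⟩ := h
    have t1' := ble_cast t1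
    have t2' := ble_cast t2
    have hK := cast_nsub_ge k0n k0p
    simp only [cast_nadd, cast_nmul] at t1' t2'
    push_cast at t1' t2'
    clear t1 t2
    refine Pw_tail (K := (Nat.sub k0n k0p : ℕ)) (by positivity) (by positivity) (by positivity)
      (by positivity) (by positivity) (by positivity) (by positivity) (by positivity) hK
      (by norm_num) (by linarith) (by linarith) h1
  · rcases Nat.lt_or_ge ia 1023 with hia | hia
    · obtain ⟨i, i1, i2, i3, i4⟩ := exists_cell (lo := ia) (hi := 1023) (x := 256 * w) hia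
        (by linarith) (by push_cast; linarith)
      have l1 := side_lane h i1 (by omega)
      have l2 := side_lane h (i := i + 1) (by omega) (by omega)
      have hT := cast_nsub_ge (Nat.add (Nat.mul 2 mp) cp) (Nat.add (Nat.mul 2 mn) cn)
      rw [cast_nadd, cast_nadd, cast_nmul, cast_nmul] at hT
      obtain ⟨T, hTe⟩ : ∃ T : ℝ,
        T = (Nat.sub (Nat.add (Nat.mul 2 mp) cp) (Nat.add (Nat.mul 2 mn) cn) : ℕ) := ⟨_, rfl⟩
      have hT0 : 0 ≤ T := by rw [hTe]; positivity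
      rw [← hTe] at l1 l2 hT
      clear hTe h
      push_cast at l2 hT
      have hi0 : (0 : ℝ) ≤ i := by positivity
      refine lerp_nonneg (a := (i : ℝ) / 256) (b := ((i : ℝ) + 1) / 256)
        (M := 2 * k2p + (6 * T + 12 * cn) * (((i : ℝ) + 1) / 256) ^ 2
          + 20 * zp * (((i : ℝ) + 1) / 256) ^ 3 + (5 * (sp + sn) + 30 * n) * (((i : ℝ) + 1) / 256) ^ 4)
        (by linarith) (by positivity) (Pw_deriv _ _ _ _ _ _ _) (Pw_deriv2 _ _ _ _ _ _) ?_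
        (by linarith) (by linarith) (le_trans (le_of_eq (by ring)) l1) (le_trans ?_ l2)
      · intro y y1 y2
        exact Pw_d2_le (by positivity) (by positivity) (by positivity) (by positivity)
          (by positivity) (by positivity) (by positivity) (by positivity) hT0 hT
          (le_trans (by positivity) y1) y2
      · have hv : ((i : ℝ) + 1) / 256 ≤ ((i : ℝ) + 1 + 1) / 256 := by linarith
        have hv0 : 0 ≤ ((i : ℝ) + 1) / 256 := by positivity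
        have p2 := mul_le_mul_of_nonneg_left (pow_le_pow_left₀ hv0 hv 2)
          (show (0 : ℝ) ≤ 6 * T + 12 * cn by positivity)
        have p3 := mul_le_mul_of_nonneg_left (pow_le_pow_left₀ hv0 hv 3)
          (show (0 : ℝ) ≤ 20 * zp by positivity)
        have p4 := mul_le_mul_of_nonneg_left (pow_le_pow_left₀ hv0 hv 4)
          (show (0 : ℝ) ≤ 5 * (sp + sn) + 30 * n by positivity)
        rw [show (((i : ℝ) + 1) / 256 - i / 256) ^ 2 = 1 / 2 ^ 16 by ring]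
        linarith
    · have : (1023 : ℝ) ≤ ia := by exact_mod_cast hia
      have e : w = 1023 / 256 := le_antisymm h1 (by linarith)
      rw [side, band_eq, band_eq, sideTail, band_eq] at h
      obtain ⟨-, ⟨t1, t2⟩, -⟩ := h
      have t1' := ble_cast t1
      have t2' := ble_cast t2
      have hK := cast_nsub_ge k0n k0p
      simp only [cast_nadd, cast_nmul] at t1' t2'
      push_cast at t1' t2'
      clear t1 t2
      refine Pw_tail (K := (Nat.sub k0n k0p : ℕ)) (W := 1023 / 256) (by positivity) (by positivity)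
        (by positivity) (by positivity) (by positivity) (by positivity) (by positivity)
        (by positivity) hK (by norm_num) (by linarith) (by linarith) e.ge

end Pool.Agent.Lib.MP_33650d_pr
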