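import Pool.Agent.Lib.MP_33650d_pr.Entry
import Pool.Agent.Lib.MP_33650d_pr.XData

namespace Pool.Agent.Lib.MP_33650d_pr

noncomputable def allN (n : ℕ) (f : ℕ → Bool) : Bool :=
  Nat.rec (motive := fun _ => Bool) true (fun k ih => band (f k) ih) n

noncomputable def sumN (n : ℕ) (f : ℕ → ℕ) : ℕ :=
  Nat.rec (motive := fun _ => ℕ) 0 (fun k ih => Nat.add ih (f k)) n

/-- Bits of `d` from position `o` on, reduced modulo `m`. -/
noncomputable def bt (d o m : ℕ) : ℕ := Nat.mod (Nat.shiftRight d o) m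

noncomputable def expT2 (y r : ℕ) : ℕ :=
  Nat.add (Nat.shiftRight (Nat.mul (Nat.mul
    (bt tabA (Nat.land (Nat.shiftRight y 26) 1984) 18446744073709551616)
    (bt tabB (Nat.land (Nat.shiftRight y 21) 1984) 18446744073709551616))
    (Nat.sub (Nat.add (Nat.shiftRight (Nat.mul r r) 1) 18446744073709551617) (Nat.shiftLeft r 32)))
    132) 1

/-- Upper bound for `2 ^ 40 * exp (8 - y / 2 ^ 32)`. -/
noncomputable def expT (y : ℕ) : ℕ :=
  force (mn y 137438953471) fun y => expT2 y (Nat.mod y 134217728)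

/-- Approximation of `2 ^ 32 * sqrt (n / 2)`. -/
noncomputable def sqt (n : ℕ) : ℕ :=
  iter (fun x => Nat.shiftRight (Nat.add x (Nat.div (Nat.shiftLeft n 63) x)) 1) 12 68719476736

noncomputable def nwt (N x : ℕ) : ℕ := Nat.add (Nat.shiftRight (Nat.add x (Nat.div N x)) 1) 1

/-- Upper bound for `sqrt (a ^ 2 + b ^ 2)`. -/
noncomputable def hyp (a b : ℕ) : ℕ :=
  force (Nat.add (Nat.mul a a) (Nat.mul b b)) fun N => force (Nat.add (Nat.add a b) 1) fun x =>
    force (nwt N x) fun x => force (nwt N x) fun x => nwt N x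

noncomputable def one72 (d : ℕ) : ℕ :=
  Nat.div (Nat.sub (Nat.pow 2 (Nat.mul 72 (Nat.pow 2 d))) 1) 4722366482869645213695
noncomputable def h72 : ℕ := Nat.shiftLeft (one72 12) 71
noncomputable def one128 : ℕ :=
  Nat.div (Nat.sub (Nat.pow 2 65536) 1) 340282366920938463463374607431768211455
noncomputable def h128 : ℕ := Nat.shiftLeft one128 127

noncomputable def stepF (d X P N : ℕ) : ℕ :=
  Nat.add X (Nat.shiftLeft (Nat.land (Nat.shiftRight (Nat.sub P N) 32)
    (Nat.mul 1099511627775 (one72 d))) (Nat.mul 72 (Nat.pow 2 d)))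

noncomputable def stepC (d a b C S : ℕ) : ℕ :=
  stepF d C (Nat.add (Nat.add (Nat.mul a C) (Nat.shiftLeft S 33))
      (Nat.mul (Nat.add (Nat.shiftLeft b 31) 9223372036854775808) (one72 d)))
    (Nat.add (Nat.add (Nat.shiftLeft C 33) (Nat.mul b S)) (Nat.mul (Nat.shiftLeft a 31) (one72 d)))

noncomputable def stepS (d a b C S : ℕ) : ℕ :=
  stepF d S (Nat.add (Nat.add (Nat.mul b C) (Nat.mul a S)) (Nat.mul 46116860184273879040 (one72 d)))
    (Nat.add (Nat.shiftLeft (Nat.add C S) 33) (Nat.mul (Nat.shiftLeft (Nat.add a b) 31) (one72 d)))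

noncomputable def rotA (z : ℕ) : ℕ := Nat.shiftRight (Nat.mod z 79228162514264337593543950336) 48
noncomputable def rotB (z : ℕ) : ℕ := Nat.shiftRight z 144

/-- Doubling construction of the rows of `cos (2 π k i / 4096)` and `sin (2 π k i / 4096)`. -/
noncomputable def bld (k d : ℕ) : ℕ × ℕ × ℕ :=
  Nat.rec (motive := fun _ => ℕ × ℕ × ℕ)
    (cexp 12 (Nat.mul k 452751216129820177), 3221225472, 2147483648)
    (fun d s => Prod.rec (motive := fun _ => ℕ × ℕ × ℕ) (fun z t =>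
      Prod.rec (motive := fun _ => ℕ × ℕ × ℕ) (fun C S =>
        (csq z, stepC d (rotA z) (rotB z) C S, stepS d (rotA z) (rotB z) C S)) t) s) d

noncomputable def yC0 (k : ℕ) : ℕ := (bld k 12).2.1
noncomputable def yS0 (k : ℕ) : ℕ := (bld k 12).2.2
noncomputable def yC (k : ℕ) : ℕ := force k yC0
noncomputable def yS (k : ℕ) : ℕ := force k yS0

noncomputable def pick9 (j a0 a1 a2 a3 a4 a5 a6 a7 a8 : ℕ) : ℕ :=
  ite' (Nat.ble j 3) (ite' (Nat.ble j 1) (ite' (Nat.ble j 0) a0 a1) (ite' (Nat.ble j 2) a2 a3))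
    (ite' (Nat.ble j 5) (ite' (Nat.ble j 4) a4 a5)
      (ite' (Nat.ble j 6) a6 (ite' (Nat.ble j 7) a7 a8)))

noncomputable def xC (j : ℕ) : ℕ := pick9 j rC0 rC1 rC2 rC3 rC4 rC5 rC6 rC7 rC8
noncomputable def xS (j : ℕ) : ℕ := pick9 j rS0x rS1x rS2x rS3x rS4x rS5x rS6x rS7x rS8x

noncomputable def fT (i : ℕ) : ℕ := bt rT (Nat.mul 128 i) 340282366920938463463374607431768211456

/-- Lane values of the row `rR`; lane `0` stands for the point `4096`. -/
def fR (i : ℕ) : ℕ := if i = 0 then 2 ^ 60 else (i * (4096 - i) + (2 * i - 4096) * 4096) * 2 ^ 36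

end Pool.Agent.Lib.MP_33650d_pr
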