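import Pool.Agent.Lib.MP_33650d_pr.Fix
import Pool.Agent.Lib.MP_33650d_pr.WData

namespace Pool.Agent.Lib.MP_33650d_pr
open Real

noncomputable def fU1 (i : ℕ) : ℕ :=
  Nat.shiftRight (Nat.sub 3626777458843887524118528
    (Nat.mod (cexp 20 (Nat.shiftLeft (Nat.mul i i) 44)) 79228162514264337593543950336)) 29

noncomputable def fU2 (i : ℕ) : ℕ :=
  Nat.shiftRight (Nat.sub (Nat.add (Nat.shiftLeft (Nat.mul i i) 64) 2417851639229258349412352)
    (Nat.shiftRight (cexp 20 (Nat.shiftLeft (Nat.mul i i) 44)) 96)) 29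

theorem rOne_eq : Nat.beq rOne (packD 128 (fun _ => 1) 10 0) = true := by decide +kernel
theorem rW2_eq : Nat.beq rW2 (packD 128 (fun i => Nat.shiftLeft (Nat.pow i 2) 35) 10 0) = true := by
  decide +kernel
theorem rW4_eq : Nat.beq rW4 (packD 128 (fun i => Nat.shiftLeft (Nat.pow i 4) 19) 10 0) = true := by
  decide +kernel
theorem rW5_eq : Nat.beq rW5 (packD 128 (fun i => Nat.shiftLeft (Nat.pow i 5) 11) 10 0) = true := by
  decide +kernel
theorem rW6_eq : Nat.beq rW6 (packD 128 (fun i => Nat.shiftLeft (Nat.pow i 6) 3) 10 0) = true := by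
  decide +kernel
theorem rS2_eq : Nat.beq rS2
    (packD 128 (fun i => Nat.shiftLeft (Nat.pow (Nat.add i 1) 2) 16) 10 0) = true := by
  decide +kernel
theorem rS3_eq : Nat.beq rS3
    (packD 128 (fun i => Nat.shiftLeft (Nat.pow (Nat.add i 1) 3) 8) 10 0) = true := by
  decide +kernel
theorem rS4_eq : Nat.beq rS4 (packD 128 (fun i => Nat.pow (Nat.add i 1) 4) 10 0) = true := by
  decide +kernel
theorem rU1_eq : Nat.beq rU1 (packD 128 fU1 10 0) = true := by decide +kernel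
theorem rU2_eq : Nat.beq rU2 (packD 128 fU2 10 0) = true := by decide +kernel

seal Nat.shiftRight Nat.shiftLeft Nat.mod Nat.sub Nat.add Nat.mul rOne rW2 rW4 rW5 rW6 rS2 rS3 rS4
  rU1 rU2

theorem rep_of_beq {X B : ℕ} {f g : ℕ → ℕ} (h : Nat.beq X (packD 128 f 10 0) = true)
    (hfg : ∀ i, f i = g i) (hB : ∀ i < 1024, g i ≤ B) : Rep 128 1024 X g B :=
  (packD_rep (Nat.eq_of_beq_eq_true h) fun i hi => (hfg i).symm ▸ hB i hi).congr fun i _ => hfg i

theorem pow_lane_le {i : ℕ} (hi : i ≤ 1024) (k : ℕ) : i ^ k ≤ 2 ^ (10 * k) := by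
  rw [pow_mul]; exact Nat.pow_le_pow_left hi k

theorem rOne_rep : Rep 128 1024 rOne (fun _ => 1) 1 := rep_of_beq rOne_eq (fun _ => rfl) (by simp)
theorem rW2_rep : Rep 128 1024 rW2 (fun i => i ^ 2 * 2 ^ 35) (2 ^ 63) :=
  rep_of_beq rW2_eq (fun i => by rw [nshl_eq, npow_eq])
    fun i hi => by have := pow_lane_le hi.le 2; omega
theorem rW4_rep : Rep 128 1024 rW4 (fun i => i ^ 4 * 2 ^ 19) (2 ^ 63) :=
  rep_of_beq rW4_eq (fun i => by rw [nshl_eq, npow_eq])
    fun i hi => by have := pow_lane_le hi.le 4; omega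
theorem rW5_rep : Rep 128 1024 rW5 (fun i => i ^ 5 * 2 ^ 11) (2 ^ 63) :=
  rep_of_beq rW5_eq (fun i => by rw [nshl_eq, npow_eq])
    fun i hi => by have := pow_lane_le hi.le 5; omega
theorem rW6_rep : Rep 128 1024 rW6 (fun i => i ^ 6 * 2 ^ 3) (2 ^ 63) :=
  rep_of_beq rW6_eq (fun i => by rw [nshl_eq, npow_eq])
    fun i hi => by have := pow_lane_le hi.le 6; omega
theorem rS2_rep : Rep 128 1024 rS2 (fun i => (i + 1) ^ 2 * 2 ^ 16) (2 ^ 63) :=
  rep_of_beq rS2_eq (fun i => by rw [nshl_eq, npow_eq, Nat.add_eq])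
    fun i hi => by have := pow_lane_le (i := i + 1) (by omega) 2; omega
theorem rS3_rep : Rep 128 1024 rS3 (fun i => (i + 1) ^ 3 * 2 ^ 8) (2 ^ 63) :=
  rep_of_beq rS3_eq (fun i => by rw [nshl_eq, npow_eq, Nat.add_eq])
    fun i hi => by have := pow_lane_le (i := i + 1) (by omega) 3; omega
theorem rS4_rep : Rep 128 1024 rS4 (fun i => (i + 1) ^ 4) (2 ^ 63) :=
  rep_of_beq rS4_eq (fun i => by rw [npow_eq, Nat.add_eq])
    fun i hi => by have := pow_lane_le (i := i + 1) (by omega) 4; omega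

theorem rU1_rep : Rep 128 1024 rU1 fU1 (2 ^ 63) :=
  rep_of_beq rU1_eq (fun _ => rfl) fun i _ => by
    rw [fU1, nshr_eq, Nat.sub_eq]
    generalize Nat.mod _ _ = A
    omega

theorem rU2_rep : Rep 128 1024 rU2 fU2 (2 ^ 63) :=
  rep_of_beq rU2_eq (fun _ => rfl) fun i hi => by
    rw [fU2, nshr_eq, Nat.sub_eq, Nat.add_eq, nshl_eq, Nat.mul_eq]
    generalize Nat.shiftRight _ _ = A
    have := pow_lane_le hi.le 2
    rw [pow_two] at this
    omega

theorem shr_sub_near {A B k : ℕ} {y e : ℝ} (hy : 0 ≤ y) (h : |((A : ℝ) - B) / 2 ^ k - y| ≤ e) :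
    |((Nat.shiftRight (Nat.sub A B) k : ℕ) : ℝ) - y| ≤ e + 1 := by
  have h1 := cast_shr_le (Nat.sub A B) k
  have h2 := cast_shr_ge (Nat.sub A B) k
  have hk : (0 : ℝ) < 2 ^ k := by positivity
  rw [abs_le] at h ⊢
  rcases le_total (B : ℝ) A with h3 | h3
  · rw [cast_nsub h3] at h1 h2
    constructor <;> linarith [h.1, h.2]
  · have h4 : Nat.sub A B = 0 := by
      rw [Nat.sub_eq]; exact Nat.sub_eq_zero_of_le (by exact_mod_cast h3)
    have h5 : ((A : ℝ) - B) / 2 ^ k ≤ 0 := div_nonpos_of_nonpos_of_nonneg (by linarith) hk.le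
    have h6 : (0 : ℝ) ≤ (Nat.shiftRight (Nat.sub A B) k : ℕ) := by positivity
    rw [h4] at h1
    rw [h4] at h6 ⊢
    simp only [Nat.cast_zero, zero_div] at h1
    constructor <;> linarith [h.1, h.2]

theorem fU_spec {i : ℕ} (hi : i < 1024) :
    |(fU1 i : ℝ) - (1 - cos (((i : ℝ) / 256) ^ 2)) * 2 ^ 51| ≤ 2 ^ 7 ∧
    |(fU2 i : ℝ) - (((i : ℝ) / 256) ^ 2 - sin (((i : ℝ) / 256) ^ 2)) * 2 ^ 51| ≤ 2 ^ 7 := by
  have hi' : (i : ℝ) ≤ 1024 := by exact_mod_cast hi.le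
  have hi0 : (0 : ℝ) ≤ i := by positivity
  have := cexp_near 20 (Nat.shiftLeft (Nat.mul i i) 44) (b := 1 / 2 ^ 16) (e := 1 / 2 ^ 45)
    (by rw [cast_shl, cast_nmul, div_le_iff₀ (by positivity)]; nlinarith) (by norm_num)
    (by norm_num) (by norm_num)
  rw [cast_shl, cast_nmul, show (2 : ℝ) ^ 20 * (i * i * 2 ^ 44 / 2 ^ 80) = ((i : ℝ) / 256) ^ 2 by
    ring] at this
  obtain ⟨h1, h2⟩ := parts_of_norm this
  rw [cre] at h1
  rw [cim] at h2
  rw [abs_le] at h1 h2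
  constructor
  · refine (shr_sub_near (e := 2 ^ 6) ?_ ?_).trans (by norm_num)
    · have := cos_le_one (((i : ℝ) / 256) ^ 2)
      have : 0 ≤ 1 - cos (((i : ℝ) / 256) ^ 2) := by linarith
      positivity
    · rw [abs_le]; push_cast; constructor <;> linarith [h1.1, h1.2]
  · refine (shr_sub_near (e := 2 ^ 6) ?_ ?_).trans (by norm_num)
    · have := sin_le (x := ((i : ℝ) / 256) ^ 2) (by positivity)
      have : 0 ≤ ((i : ℝ) / 256) ^ 2 - sin (((i : ℝ) / 256) ^ 2) := by linarith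
      positivity
    · rw [abs_le, cast_nadd, cast_shl, cast_nmul]; push_cast
      constructor <;> nlinarith [h2.1, h2.2]

end Pool.Agent.Lib.MP_33650d_pr
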